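import Mathlib

/-!
Discrepancy of Kronecker sequences of badly approximable numbers, and of the Kronecker–van der
Corput hybrid sequence for `α ∈ Bad_p`.
-/

namespace Pool.Agent.V11269.Hybrid

open Finset

/-- `#{m < M : {mθ + β} < ℓ}` -/
noncomputable def A (θ β ℓ : ℝ) (M : ℕ) : ℕ :=
  ((range M).filter (fun m : ℕ => Int.fract (m * θ + β) < ℓ)).card

lemma A_add (θ β ℓ : ℝ) (M M' : ℕ) : A θ β ℓ (M + M') = A θ β ℓ M + A θ (β + M * θ) ℓ M' := by
  unfold A
  have h1 : range (M + M') = range M ∪ Ico M (M + M') := by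
    ext x; rw [mem_union, mem_range, mem_range, mem_Ico]; omega
  have h2 : Disjoint (range M) (Ico M (M + M')) := by
    rw [disjoint_left]; intro x hx hx'; rw [mem_range] at hx; rw [mem_Ico] at hx'; omega
  rw [h1, filter_union, card_union_of_disjoint (disjoint_filter_filter h2)]
  congr 1
  symm
  apply card_bij (fun m _ => M + m)
  · intro m hm
    rw [mem_filter, mem_range] at hm
    rw [mem_filter, mem_Ico]
    refine ⟨⟨by omega, by omega⟩, ?_⟩
    push_cast
    have : ((M : ℝ) + m) * θ + β = m * θ + (β + M * θ) := by ring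
    rw [this]; exact hm.2
  · intro m _ m' _ h; omega
  · intro n hn
    rw [mem_filter, mem_Ico] at hn
    refine ⟨n - M, ?_, by omega⟩
    rw [mem_filter, mem_range]
    refine ⟨by omega, ?_⟩
    rw [Nat.cast_sub hn.1.1]
    have : ((n : ℝ) - M) * θ + (β + M * θ) = n * θ + β := by ring
    rw [this]; exact hn.2

lemma A_zero (θ β ℓ : ℝ) : A θ β ℓ 0 = 0 := by simp [A]

lemma A_le (θ β ℓ : ℝ) (M : ℕ) : A θ β ℓ M ≤ M := by
  unfold A
  exact (card_filter_le _ _).trans (by simp)

/-- One full block of a good rational approximation. -/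
lemma block (θ β ℓ : ℝ) (h0 : 0 ≤ ℓ) (h1 : ℓ ≤ 1) (r : ℚ) (hr : |θ - r| * (r.den : ℝ) ^ 2 < 1) :
    |(A θ β ℓ r.den : ℝ) - r.den * ℓ| ≤ 3 := by
  set q := r.den with hq
  have hqpos : 0 < q := r.den_pos
  have hqr : (0 : ℝ) < q := by exact_mod_cast hqpos
  set b0 : ℤ := ⌊q * β⌋ with hb0
  -- the residue map
  let j : ℕ → ℕ := fun m => ((m * r.num + b0) % (q : ℤ)).toNat
  have hjlt : ∀ m, j m < q := fun m => by
    have h := Int.emod_lt_of_pos (m * r.num + b0) (by exact_mod_cast hqpos : (0 : ℤ) < q)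
    have h' := Int.emod_nonneg (m * r.num + b0) (by positivity : (q : ℤ) ≠ 0)
    simp only [j]; omega
  have hjcast : ∀ m, (j m : ℤ) = (m * r.num + b0) % (q : ℤ) := fun m => by
    have h' := Int.emod_nonneg (m * r.num + b0) (by positivity : (q : ℤ) ≠ 0)
    simp only [j]; omega
  have hjinj : Set.InjOn j (range q : Finset ℕ) := by
    intro m hm m' hm' h
    rw [mem_coe, mem_range] at hm hm'
    have h2 : (m * r.num + b0) % (q : ℤ) = (m' * r.num + b0) % (q : ℤ) := by
      rw [← hjcast, ← hjcast, h]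
    have h3 : (q : ℤ) ∣ ((m' : ℤ) - m) * r.num := by
      have := Int.ModEq.dvd h2
      have e : ((m' : ℤ) - m) * r.num = (m' * r.num + b0) - (m * r.num + b0) := by ring
      rw [e]; exact this
    have h4 : IsCoprime (q : ℤ) r.num := by
      rw [Int.isCoprime_iff_gcd_eq_one]
      have := r.reduced
      rw [Int.gcd_comm]
      simpa [Int.gcd, Nat.Coprime] using this
    have h5 : (q : ℤ) ∣ ((m' : ℤ) - m) := h4.dvd_of_dvd_mul_right h3
    obtain ⟨k, hk⟩ := h5
    have h6 : k = 0 := by
      by_contra hne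
      have : (1 : ℤ) ≤ |k| := Int.one_le_abs hne
      have h7 : |(m' : ℤ) - m| < q := by rw [abs_lt]; constructor <;> omega
      rw [hk, abs_mul, abs_of_pos (by exact_mod_cast hqpos : (0 : ℤ) < q)] at h7
      nlinarith
    rw [h6] at hk; omega
  have himg : (range q).image j = range q := by
    apply eq_of_subset_of_card_le
    · intro x hx
      obtain ⟨m, _, rfl⟩ := mem_image.1 hx
      exact mem_range.2 (hjlt m)
    · rw [card_image_of_injOn hjinj]
  -- position of the points
  have hpos : ∀ m, m < q → ∃ (K : ℤ) (η : ℝ), -1 < η ∧ η < 2 ∧ m * θ + β = K + (j m + η) / q := by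
    intro m hm
    refine ⟨(m * r.num + b0) / (q : ℤ), (q * β - b0) + q * m * (θ - r), ?_, ?_, ?_⟩
    · have e1 := Int.floor_le ((q : ℝ) * β)
      have e2 : |(q : ℝ) * m * (θ - r)| < 1 := by
        rw [abs_mul, abs_of_nonneg (by positivity)]
        have : (m : ℝ) ≤ q := by exact_mod_cast hm.le
        calc (q : ℝ) * m * |θ - r| ≤ q * q * |θ - r| := by gcongr
          _ = |θ - r| * (q : ℝ) ^ 2 := by ring
          _ < 1 := hr
      have e3 := (abs_lt.1 e2).1
      linarith
    · have e1 := Int.lt_floor_add_one ((q : ℝ) * β)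
      have e2 : |(q : ℝ) * m * (θ - r)| < 1 := by
        rw [abs_mul, abs_of_nonneg (by positivity)]
        have : (m : ℝ) ≤ q := by exact_mod_cast hm.le
        calc (q : ℝ) * m * |θ - r| ≤ q * q * |θ - r| := by gcongr
          _ = |θ - r| * (q : ℝ) ^ 2 := by ring
          _ < 1 := hr
      have e3 := (abs_lt.1 e2).2
      linarith
    · have e1 : ((j m : ℤ) : ℝ) + q * (((m * r.num + b0) / (q : ℤ) : ℤ) : ℝ) = m * r.num + b0 := by
        rw [hjcast]
        exact_mod_cast Int.emod_add_mul_ediv (m * r.num + b0) q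
      have e2 : (r : ℝ) * q = r.num := by exact_mod_cast Rat.mul_den_eq_num r
      push_cast at e1
      have e3 : (m * θ + β) * q = (((m * r.num + b0) / (q : ℤ) : ℤ) + (j m + ((q * β - b0) +
          q * m * (θ - r))) / q) * q := by
        field_simp
        linear_combination (-1 : ℝ) * e1 + (m : ℝ) * e2
      exact mul_right_cancel₀ hqr.ne' e3
  have hfr : ∀ m, m < q → 1 ≤ j m → j m + 2 ≤ q → ∃ η : ℝ, -1 < η ∧ η < 2 ∧
      Int.fract (m * θ + β) = (j m + η) / q := by
    intro m hm h2 h3
    obtain ⟨K, η, hη1, hη2, heq⟩ := hpos m hm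
    refine ⟨η, hη1, hη2, ?_⟩
    rw [heq, add_comm, Int.fract_add_intCast, Int.fract_eq_self]
    have h2' : (1 : ℝ) ≤ j m := by exact_mod_cast h2
    have h3' : (j m : ℝ) + 2 ≤ q := by exact_mod_cast h3
    constructor
    · apply div_nonneg _ hqr.le; linarith
    · rw [div_lt_one hqr]; linarith
  set S := (range q).filter (fun m : ℕ => Int.fract (m * θ + β) < ℓ) with hS
  have hcard : A θ β ℓ q = S.card := rfl
  rw [hcard, abs_le]
  constructor
  · -- lower bound
    have hsub : (Icc 1 (⌊(q : ℝ) * ℓ⌋₊ - 2)) ⊆ S.image j := by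
      intro x hx
      rw [mem_Icc] at hx
      have hfl : (⌊(q : ℝ) * ℓ⌋₊ : ℝ) ≤ q * ℓ := Nat.floor_le (by positivity)
      have hx2 : x + 2 ≤ ⌊(q : ℝ) * ℓ⌋₊ := by omega
      have hx3 : (x : ℝ) + 2 ≤ q * ℓ := by
        have : ((x + 2 : ℕ) : ℝ) ≤ (⌊(q : ℝ) * ℓ⌋₊ : ℝ) := by exact_mod_cast hx2
        push_cast at this; linarith
      have hxq : x + 2 ≤ q := by
        have : (x : ℝ) + 2 ≤ q := by nlinarith
        exact_mod_cast this
      have hmem : x ∈ (range q).image j := by rw [himg, mem_range]; omega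
      obtain ⟨m, hm, rfl⟩ := mem_image.1 hmem
      rw [mem_range] at hm
      obtain ⟨η, hη1, hη2, heq⟩ := hfr m hm hx.1 hxq
      apply mem_image_of_mem
      rw [hS, mem_filter, mem_range]
      refine ⟨hm, ?_⟩
      rw [heq, div_lt_iff₀ hqr]
      linarith
    have h2 := card_le_card hsub
    rw [Nat.card_Icc] at h2
    have h3 : (S.image j).card ≤ S.card := card_image_le
    have h4 : (q : ℝ) * ℓ < ⌊(q : ℝ) * ℓ⌋₊ + 1 := Nat.lt_floor_add_one _
    have h5 : ⌊(q : ℝ) * ℓ⌋₊ ≤ S.card + 2 := by omega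
    have h6 : (⌊(q : ℝ) * ℓ⌋₊ : ℝ) ≤ S.card + 2 := by exact_mod_cast h5
    linarith
  · -- upper bound
    have hsub : S.image j ⊆ insert (q - 1) (range (⌊(q : ℝ) * ℓ⌋₊ + 2)) := by
      intro x hx
      obtain ⟨m, hm, rfl⟩ := mem_image.1 hx
      rw [hS, mem_filter, mem_range] at hm
      rw [mem_insert, mem_range]
      by_contra hcon
      push Not at hcon
      have hj := hjlt m
      have hj1 : 1 ≤ j m := by omega
      obtain ⟨η, hη1, hη2, heq⟩ := hfr m hm.1 hj1 (by omega)
      have h2 := hm.2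
      rw [heq, div_lt_iff₀ hqr] at h2
      have h3 : ((⌊(q : ℝ) * ℓ⌋₊ : ℕ) : ℝ) + 2 ≤ j m := by exact_mod_cast hcon.2
      have h4 : (q : ℝ) * ℓ < ⌊(q : ℝ) * ℓ⌋₊ + 1 := Nat.lt_floor_add_one _
      linarith
    have h2 := card_le_card hsub
    have h3 := card_insert_le (q - 1) (range (⌊(q : ℝ) * ℓ⌋₊ + 2))
    rw [card_range] at h3
    have h4 : (S.image j).card = S.card :=
      card_image_of_injOn (hjinj.mono (by
        intro x hx
        rw [mem_coe, hS, mem_filter] at hx
        exact mem_coe.2 hx.1))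
    have h5 : (⌊(q : ℝ) * ℓ⌋₊ : ℝ) ≤ q * ℓ := Nat.floor_le (by positivity)
    have h6 : S.card ≤ ⌊(q : ℝ) * ℓ⌋₊ + 3 := by omega
    have h7 : (S.card : ℝ) ≤ ⌊(q : ℝ) * ℓ⌋₊ + 3 := by exact_mod_cast h6
    linarith

lemma blocks (θ β ℓ : ℝ) (h0 : 0 ≤ ℓ) (h1 : ℓ ≤ 1) (r : ℚ) (hr : |θ - r| * (r.den : ℝ) ^ 2 < 1)
    (s : ℕ) : |(A θ β ℓ (s * r.den) : ℝ) - (s * r.den : ℕ) * ℓ| ≤ 3 * s := by
  induction s with
  | zero => simp [A_zero]
  | succ s ih =>
    rw [add_mul, one_mul, A_add]
    have h2 := block θ (β + (s * r.den : ℕ) * θ) ℓ h0 h1 r hr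
    push_cast at *
    have : (A θ β ℓ (s * r.den) : ℝ) + A θ (β + s * r.den * θ) ℓ r.den - (s * r.den + r.den) * ℓ =
      ((A θ β ℓ (s * r.den) : ℝ) - s * r.den * ℓ) +
      (A θ (β + s * r.den * θ) ℓ r.den - r.den * ℓ) := by ring
    rw [this]
    refine (abs_add_le _ _).trans ?_
    linarith

/-- Logarithmic discrepancy of Kronecker sequences of badly approximable numbers. -/
lemma kron {θ c : ℝ} (hc : 0 < c)
    (hbad : ∀ q : ℕ, 0 < q → c ≤ q * |q * θ - round (q * θ)|) (ℓ : ℝ) (h0 : 0 ≤ ℓ) (h1 : ℓ ≤ 1)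
    (M : ℕ) : 1 ≤ M → ∀ β : ℝ, |(A θ β ℓ M : ℝ) - M * ℓ| ≤ 3 / c + 3 / c ^ 2 * Real.log M := by
  induction M using Nat.strong_induction_on with
  | _ M ih =>
  intro hM β
  obtain ⟨r, hr1, hr2⟩ := Real.exists_rat_abs_sub_le_and_den_le θ (n := M) (by omega)
  set q := r.den with hq
  have hqpos : 0 < q := r.den_pos
  have hqr : (0 : ℝ) < q := by exact_mod_cast hqpos
  have hMr : (0 : ℝ) < M := by exact_mod_cast hM
  have hqM : (q : ℝ) ≤ M := by exact_mod_cast hr2
  have hr : |θ - r| * (q : ℝ) ^ 2 < 1 := by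
    calc |θ - r| * (q : ℝ) ^ 2 ≤ 1 / (((M : ℝ) + 1) * q) * (q : ℝ) ^ 2 := by gcongr
      _ = (q : ℝ) / ((M : ℝ) + 1) := by field_simp
      _ < 1 := by rw [div_lt_one (by positivity)]; linarith
  -- `q ≥ c M`
  have hqc : c * M ≤ q := by
    have h2 := hbad q hqpos
    have h3 : |q * θ - round (q * θ)| ≤ 1 / ((M : ℝ) + 1) := by
      refine (round_le (q * θ) r.num).trans ?_
      have e2 : (r : ℝ) * q = r.num := by exact_mod_cast Rat.mul_den_eq_num r
      have e3 : (q : ℝ) * θ - r.num = q * (θ - r) := by rw [← e2]; ring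
      rw [e3, abs_mul, abs_of_pos hqr]
      calc (q : ℝ) * |θ - r| ≤ q * (1 / (((M : ℝ) + 1) * q)) := by gcongr
        _ = 1 / ((M : ℝ) + 1) := by field_simp
    have h4 : c ≤ q * (1 / ((M : ℝ) + 1)) := h2.trans (by gcongr)
    rw [mul_one_div, le_div_iff₀ (by positivity)] at h4
    nlinarith
  set s := M / q with hs
  set M' := M % q with hM'
  have hdecomp : M = s * q + M' := by rw [hs, hM']; exact (Nat.div_add_mod' M q).symm
  have hs1 : 1 ≤ s := (Nat.one_le_div_iff hqpos).2 hr2
  have hsc : (s : ℝ) ≤ 1 / c := by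
    rw [le_div_iff₀ hc]
    have h2 : (s : ℝ) * q ≤ M := by
      have : s * q ≤ M := Nat.div_mul_le_self M q
      exact_mod_cast this
    by_contra hlt
    push Not at hlt
    have h3 : (M : ℝ) < s * c * M := by nlinarith
    have h4 : (s : ℝ) * (c * M) ≤ s * q := by gcongr
    nlinarith
  have hb := blocks θ β ℓ h0 h1 r hr s
  rw [← hq] at hb
  have hA : A θ β ℓ M = A θ β ℓ (s * q) + A θ (β + (s * q : ℕ) * θ) ℓ M' := by
    conv_lhs => rw [hdecomp]
    rw [A_add]
  have hMcast : (M : ℝ) = (s * q : ℕ) + M' := by exact_mod_cast hdecomp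
  have h3s : 3 * (s : ℝ) ≤ 3 / c := by
    calc 3 * (s : ℝ) ≤ 3 * (1 / c) := by gcongr
      _ = 3 / c := by ring
  have hsplit : (A θ β ℓ M : ℝ) - M * ℓ = ((A θ β ℓ (s * q) : ℝ) - (s * q : ℕ) * ℓ) +
      ((A θ (β + (s * q : ℕ) * θ) ℓ M' : ℝ) - M' * ℓ) := by
    rw [hA, hMcast]; push_cast; ring
  rw [hsplit]
  refine (abs_add_le _ _).trans ?_
  rcases Nat.eq_zero_or_pos M' with h0' | hpos
  · rw [h0', A_zero]
    have hlog : 0 ≤ Real.log M := Real.log_nonneg (by exact_mod_cast hM)
    have : 0 ≤ 3 / c ^ 2 * Real.log M := by positivity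
    simp only [Nat.cast_zero, zero_mul, sub_zero, abs_zero, add_zero]
    linarith
  · have hM'lt : M' < M := lt_of_lt_of_le (Nat.mod_lt _ hqpos) hr2
    have h2 := ih M' hM'lt hpos (β + (s * q : ℕ) * θ)
    have hM'r : (0 : ℝ) < M' := by exact_mod_cast hpos
    have h4 : (M' : ℝ) ≤ (1 - c) * M := by
      have h5 : (q : ℝ) ≤ (s * q : ℕ) := by
        push_cast
        have : (1 : ℝ) ≤ s := by exact_mod_cast hs1
        nlinarith
      linarith
    have h5 : Real.log M' ≤ Real.log M - c := by
      have h6 : (0 : ℝ) < 1 - c := by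
        by_contra hle
        push Not at hle
        nlinarith
      have h7 : Real.log M' ≤ Real.log ((1 - c) * M) := Real.log_le_log hM'r h4
      rw [Real.log_mul h6.ne' hMr.ne'] at h7
      have h8 := Real.log_le_sub_one_of_pos h6
      linarith
    have h6 : 3 / c ^ 2 * Real.log M' ≤ 3 / c ^ 2 * (Real.log M - c) := by gcongr
    have h7 : 3 / c ^ 2 * (Real.log M - c) = 3 / c ^ 2 * Real.log M - 3 / c := by field_simp
    linarith

/-! ### The van der Corput sequence -/

/-- The van der Corput sequence in base `p`: `∑ a_i p^(-i-1)`, where `a_i = (n / p^i) % p` are the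
base-`p` digits of `n` (they vanish for `i > n`). -/
noncomputable def vdc (p n : ℕ) : ℝ := ∑ i ∈ range (n + 1), ((n / p ^ i % p : ℕ) : ℝ) / (p : ℝ) ^ (i + 1)

lemma vdc_eq {p : ℕ} (hp : 2 ≤ p) (n k : ℕ) (hk : n + 1 ≤ k) :
    vdc p n = ∑ i ∈ range k, ((n / p ^ i % p : ℕ) : ℝ) / (p : ℝ) ^ (i + 1) := by
  unfold vdc
  apply sum_subset (range_subset_range.2 hk)
  intro i _ hi
  rw [mem_range, not_lt] at hi
  have h1 : n < p ^ i := lt_of_lt_of_le (by omega) (Nat.lt_pow_self (by omega : 1 < p)).le
  rw [Nat.div_eq_of_lt h1]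
  simp

lemma vdc_rec {p : ℕ} (hp : 2 ≤ p) (m d : ℕ) (hd : d < p) :
    vdc p (p * m + d) = (d + vdc p m) / p := by
  have hp0 : (0 : ℝ) < p := by positivity
  rw [vdc_eq hp (p * m + d) (p * m + d + 1 + 1) (by omega), sum_range_succ',
    vdc_eq hp m (p * m + d + 1) (by nlinarith)]
  have h1 : (p * m + d) % p = d := by rw [Nat.mul_add_mod, Nat.mod_eq_of_lt hd]
  have h2 : ∀ i, (p * m + d) / p ^ (i + 1) = m / p ^ i := by
    intro i
    rw [pow_succ', ← Nat.div_div_eq_div_mul]
    congr 1
    rw [Nat.mul_add_div (by omega), Nat.div_eq_of_lt hd, add_zero]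
  simp only [h2, pow_zero, Nat.div_one, h1, zero_add, pow_one]
  rw [add_div, add_comm, sum_div]
  congr 1
  apply sum_congr rfl
  intro i _
  rw [pow_succ _ (i + 1), div_div]

lemma vdc_bounds {p : ℕ} (hp : 2 ≤ p) (n : ℕ) : 0 ≤ vdc p n ∧ vdc p n < 1 := by
  have hp0 : (0 : ℝ) < p := by positivity
  induction n using Nat.strong_induction_on with
  | _ n ih =>
    rcases Nat.eq_zero_or_pos n with rfl | hn
    · simp [vdc]
    · have h1 : n = p * (n / p) + n % p := (Nat.div_add_mod n p).symm
      have h2 : n % p < p := Nat.mod_lt _ (by omega)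
      have h3 := ih (n / p) (Nat.div_lt_self hn (by omega))
      rw [h1, vdc_rec hp _ _ h2]
      have h4 : ((n % p : ℕ) : ℝ) + 1 ≤ p := by exact_mod_cast h2
      constructor
      · have := h3.1; positivity
      · rw [div_lt_one hp0]; linarith [h3.2]

/-- `#{n < N : {nα + β} < a, φ_p(n) < b}` -/
noncomputable def T (p : ℕ) (α β a b : ℝ) (N : ℕ) : ℕ :=
  ((range N).filter (fun n : ℕ => Int.fract (n * α + β) < a ∧ vdc p n < b)).card

/-- Number of `m` with `p m + d < N`. -/
def Nd (p N d : ℕ) : ℕ := (N + p - 1 - d) / p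

lemma Nd_iff {p N d : ℕ} (hp : 2 ≤ p) (hd : d < p) (m : ℕ) : m < Nd p N d ↔ p * m + d < N := by
  unfold Nd
  rw [Nat.lt_iff_add_one_le, Nat.le_div_iff_mul_le (by omega)]
  constructor
  · intro h
    have : (m + 1) * p = p * m + p := by ring
    omega
  · intro h
    have : (m + 1) * p = p * m + p := by ring
    omega

/-- The number of `n < N` in a residue class. -/
lemma card_class {p : ℕ} (hp : 2 ≤ p) {d : ℕ} (hd : d < p) (N : ℕ) (P : ℕ → Prop) [DecidablePred P] :
    ((range N).filter (fun n => n % p = d ∧ P n)).card =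
      ((range (Nd p N d)).filter (fun m => P (p * m + d))).card := by
  symm
  apply card_bij (fun m _ => p * m + d)
  · intro m hm
    rw [mem_filter, mem_range, Nd_iff hp hd] at hm
    rw [mem_filter, mem_range]
    refine ⟨hm.1, ?_, hm.2⟩
    rw [Nat.mul_add_mod, Nat.mod_eq_of_lt hd]
  · intro m _ m' _ h
    have : p * m = p * m' := by omega
    exact Nat.eq_of_mul_eq_mul_left (by omega) this
  · intro n hn
    rw [mem_filter, mem_range] at hn
    have h1 : p * (n / p) + d = n := by rw [← hn.2.1]; exact Nat.div_add_mod n p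
    refine ⟨n / p, ?_, h1⟩
    rw [mem_filter, mem_range, Nd_iff hp hd, h1]
    exact ⟨hn.1, hn.2.2⟩

lemma T_split {p : ℕ} (hp : 2 ≤ p) (α β a b : ℝ) (N : ℕ) :
    T p α β a b N = ∑ d ∈ range p, ((range (Nd p N d)).filter (fun m : ℕ =>
      Int.fract (m * (p * α) + (d * α + β)) < a ∧ d + vdc p m < p * b)).card := by
  classical
  unfold T
  have h1 : ((range N).filter (fun n : ℕ => Int.fract (n * α + β) < a ∧ vdc p n < b)).card =
      ∑ d ∈ range p, ((range N).filter (fun n : ℕ => n % p = d ∧
        (Int.fract (n * α + β) < a ∧ vdc p n < b))).card := by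
    rw [card_eq_sum_card_fiberwise (f := fun n => n % p) (t := range p)]
    · apply sum_congr rfl
      intro d _
      rw [filter_filter]
      congr 1
      apply filter_congr
      intro n _
      constructor
      · rintro ⟨h1, h2⟩; exact ⟨h2, h1⟩
      · rintro ⟨h1, h2⟩; exact ⟨h2, h1⟩
    · intro n _
      exact mem_coe.2 (mem_range.2 (Nat.mod_lt _ (by omega)))
  rw [h1]
  apply sum_congr rfl
  intro d hd
  rw [mem_range] at hd
  rw [card_class hp hd]
  congr 1
  apply filter_congr
  intro m _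
  have hp0 : (0 : ℝ) < p := by positivity
  rw [vdc_rec hp m d hd, div_lt_iff₀ hp0]
  push_cast
  have e1 : ((p : ℝ) * m + d) * α + β = m * (p * α) + (d * α + β) := by ring
  rw [e1, mul_comm b]

lemma Nd_real {p N d : ℕ} (hp : 2 ≤ p) (hd : d < p) : |(Nd p N d : ℝ) - N / p| ≤ 1 := by
  have hp0 : (0 : ℝ) < p := by positivity
  set M := Nd p N d with hM
  have h1 : ∀ m, m < M ↔ p * m + d < N := fun m => Nd_iff hp hd m
  have h2 : N ≤ p * M + d := by
    by_contra hlt
    push Not at hlt
    exact absurd ((h1 M).2 hlt) (lt_irrefl _)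
  have h2' : (N : ℝ) ≤ p * M + d := by exact_mod_cast h2
  have hd' : (d : ℝ) + 1 ≤ p := by exact_mod_cast hd
  rw [abs_le]
  constructor
  · rw [neg_le_sub_iff_le_add, div_le_iff₀ hp0]; nlinarith
  · rcases Nat.eq_zero_or_pos M with h0 | hpos
    · rw [h0]
      have : (0 : ℝ) ≤ N / p := by positivity
      push_cast; linarith
    · have h3 := (h1 (M - 1)).1 (by omega)
      have h4 : p * (M - 1) + d + 1 ≤ N := h3
      have h5 : (p : ℝ) * ((M : ℝ) - 1) + d + 1 ≤ N := by
        have : ((p * (M - 1) + d + 1 : ℕ) : ℝ) ≤ N := by exact_mod_cast h4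
        rw [Nat.cast_add, Nat.cast_add, Nat.cast_mul, Nat.cast_sub hpos] at this
        push_cast at this
        linarith
      have h6 : (M : ℝ) - 1 ≤ N / p := by
        rw [le_div_iff₀ hp0]
        have : (0 : ℝ) ≤ d := by positivity
        nlinarith
      linarith

/-- The main recursion. -/
lemma main_bound {p : ℕ} (hp : 2 ≤ p) {c : ℝ} (hc : 0 < c) (N₀ : ℕ) (hN₀ : 1 ≤ N₀)
    (a : ℝ) (ha0 : 0 ≤ a) (ha1 : a ≤ 1) (k : ℕ) : ∀ (α β b : ℝ) (N : ℕ), 0 ≤ b → b < 1 →
    (∀ v q : ℕ, 0 < q → c ≤ q * |q * (p ^ v * α) - round (q * (p ^ v * α))|) →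
    N ≤ 2 ^ k → N ≤ N₀ →
    |(T p α β a b N : ℝ) - N * a * b| ≤ 1 + k * (p * (3 / c + 3 / c ^ 2 * Real.log N₀ + 1)) := by
  have hp0 : (0 : ℝ) < p := by positivity
  have hlogN₀ : 0 ≤ Real.log N₀ := Real.log_nonneg (by exact_mod_cast hN₀)
  induction k with
  | zero =>
    intro α β b N hb0 hb1 _ hN _
    simp only [pow_zero] at hN
    have h1 : T p α β a b N ≤ N := by
      unfold T; exact (card_filter_le _ _).trans (by simp)
    have h2 : (T p α β a b N : ℝ) ≤ N := by exact_mod_cast h1
    have h3 : (N : ℝ) ≤ 1 := by exact_mod_cast hN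
    have h4 : (0 : ℝ) ≤ T p α β a b N := by positivity
    have h5 : (0 : ℝ) ≤ N := by positivity
    have h6 : (N : ℝ) * a * b ≤ 1 := by
      have : (N : ℝ) * a ≤ 1 := by nlinarith
      have h7 : 0 ≤ (N : ℝ) * a := by positivity
      nlinarith
    have h7 : 0 ≤ (N : ℝ) * a * b := by positivity
    simp only [Nat.cast_zero, zero_mul, add_zero]
    rw [abs_le]; constructor <;> linarith
  | succ k ih =>
    intro α β b N hb0 hb1 hbad hN hNN₀
    classical
    set B := ⌊(p : ℝ) * b⌋₊ with hB
    have hBle : (B : ℝ) ≤ p * b := Nat.floor_le (by positivity)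
    have hBlt : (p : ℝ) * b < B + 1 := Nat.lt_floor_add_one _
    have hBp : B < p := by
      have : (B : ℝ) < p := by nlinarith
      exact_mod_cast this
    set b' := (p : ℝ) * b - B with hb'
    rw [T_split hp]
    -- the summands
    have hsum : ∀ d ∈ range p, |(((range (Nd p N d)).filter (fun m : ℕ =>
        Int.fract (m * (p * α) + (d * α + β)) < a ∧ d + vdc p m < p * b)).card : ℝ) -
        a * (N / p) * (if d < B then 1 else if d = B then b' else 0)| ≤
        (3 / c + 3 / c ^ 2 * Real.log N₀ + 1) + (if d = B then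
          1 + k * (p * (3 / c + 3 / c ^ 2 * Real.log N₀ + 1)) - (3 / c + 3 / c ^ 2 * Real.log N₀) else 0) := by
      intro d hd
      rw [mem_range] at hd
      have hNd := Nd_real (N := N) hp hd
      have hcpos : 0 ≤ 3 / c + 3 / c ^ 2 * Real.log N₀ := by positivity
      have hNdle : Nd p N d ≤ N := by
        by_contra hlt
        push Not at hlt
        have := (Nd_iff hp hd N).1 hlt
        nlinarith
      rcases lt_trichotomy d B with h | h | h
      · -- full
        rw [if_pos h, if_neg (by omega : ¬ d = B), mul_one, add_zero]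
        have e1 : (range (Nd p N d)).filter (fun m : ℕ =>
            Int.fract (m * (p * α) + (d * α + β)) < a ∧ d + vdc p m < p * b) =
            (range (Nd p N d)).filter (fun m : ℕ => Int.fract (m * (p * α) + (d * α + β)) < a) := by
          apply filter_congr
          intro m _
          have h1 := (vdc_bounds hp m).2
          have h2 : (d : ℝ) + 1 ≤ B := by exact_mod_cast h
          constructor
          · exact fun h => h.1
          · exact fun h => ⟨h, by linarith⟩
        rw [e1]
        have e2 : (((range (Nd p N d)).filter (fun m : ℕ =>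
            Int.fract (m * (p * α) + (d * α + β)) < a)).card : ℝ) =
            A (p * α) (d * α + β) a (Nd p N d) := rfl
        rw [e2]
        have e3 : (A (p * α) (d * α + β) a (Nd p N d) : ℝ) - a * (N / p) =
            ((A (p * α) (d * α + β) a (Nd p N d) : ℝ) - Nd p N d * a) +
            a * ((Nd p N d : ℝ) - N / p) := by ring
        rw [e3]
        refine (abs_add_le _ _).trans (add_le_add ?_ ?_)
        · rcases Nat.eq_zero_or_pos (Nd p N d) with h0 | hpos
          · rw [h0, A_zero]; simpa using hcpos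
          · have hb1 : ∀ q : ℕ, 0 < q → c ≤ q * |q * (p * α) - round (q * (p * α))| := by
              intro q hq
              have := hbad 1 q hq
              rwa [pow_one] at this
            refine (kron hc hb1 a ha0 ha1 _ hpos _).trans ?_
            have : Real.log (Nd p N d) ≤ Real.log N₀ :=
              Real.log_le_log (by exact_mod_cast hpos) (by exact_mod_cast hNdle.trans hNN₀)
            gcongr
        · rw [abs_mul, abs_of_nonneg ha0]
          calc a * |(Nd p N d : ℝ) - N / p| ≤ 1 * 1 := by gcongr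
            _ = 1 := one_mul 1
      · -- boundary
        rw [if_neg (by omega : ¬ d < B), if_pos h, if_pos h]
        have e1 : (range (Nd p N d)).filter (fun m : ℕ =>
            Int.fract (m * (p * α) + (d * α + β)) < a ∧ d + vdc p m < p * b) =
            (range (Nd p N d)).filter (fun m : ℕ => Int.fract (m * (p * α) + (d * α + β)) < a ∧
              vdc p m < b') := by
          apply filter_congr
          intro m _
          rw [hb', ← h, ← lt_sub_iff_add_lt']
        rw [e1]
        have e2 : (((range (Nd p N d)).filter (fun m : ℕ =>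
            Int.fract (m * (p * α) + (d * α + β)) < a ∧ vdc p m < b')).card : ℝ) =
            T p (p * α) (d * α + β) a b' (Nd p N d) := rfl
        rw [e2]
        have e3 : (T p (p * α) (d * α + β) a b' (Nd p N d) : ℝ) - a * (N / p) * b' =
            ((T p (p * α) (d * α + β) a b' (Nd p N d) : ℝ) - Nd p N d * a * b') +
            a * b' * ((Nd p N d : ℝ) - N / p) := by ring
        rw [e3]
        have hNdk : Nd p N d ≤ 2 ^ k := by
          by_contra hlt
          push Not at hlt
          have := (Nd_iff hp hd (2 ^ k)).1 hlt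
          rw [pow_succ] at hN
          nlinarith
        have hih := ih (p * α) (d * α + β) b' (Nd p N d) (by rw [hb']; linarith)
          (by rw [hb']; linarith) (by
            intro v q hq
            have := hbad (v + 1) q hq
            have e : (p : ℝ) ^ (v + 1) * α = p ^ v * (p * α) := by rw [pow_succ]; ring
            rwa [e] at this) hNdk (hNdle.trans hNN₀)
        have hb'1 : b' ≤ 1 := by rw [hb']; linarith
        have hb'0 : 0 ≤ b' := by rw [hb']; linarith
        have h4 : |a * b' * ((Nd p N d : ℝ) - N / p)| ≤ 1 := by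
          rw [abs_mul, abs_of_nonneg (by positivity)]
          calc a * b' * |(Nd p N d : ℝ) - N / p| ≤ 1 * 1 * 1 := by gcongr
            _ = 1 := by norm_num
        refine (abs_add_le _ _).trans ?_
        linarith
      · -- empty
        rw [if_neg (by omega : ¬ d < B), if_neg (by omega : ¬ d = B), if_neg (by omega : ¬ d = B),
          mul_zero, add_zero, sub_zero]
        have e1 : (range (Nd p N d)).filter (fun m : ℕ =>
            Int.fract (m * (p * α) + (d * α + β)) < a ∧ d + vdc p m < p * b) = ∅ := by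
          apply filter_false_of_mem
          rintro m _ ⟨_, h2⟩
          have h1 := (vdc_bounds hp m).1
          have h3 : (B : ℝ) + 1 ≤ d := by exact_mod_cast h
          linarith
        rw [e1]
        simp only [card_empty, Nat.cast_zero, abs_zero]
        linarith
    -- sum of the main terms
    have hmain : ∑ d ∈ range p, a * (N / p) * (if d < B then (1 : ℝ) else if d = B then b' else 0) =
        N * a * b := by
      rw [← mul_sum]
      have h1 : ∑ d ∈ range p, (if d < B then (1 : ℝ) else if d = B then b' else 0) = p * b := by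
        have h2 : ∀ d ∈ range p, (if d < B then (1 : ℝ) else if d = B then b' else 0) =
            (if d < B then (1 : ℝ) else 0) + (if d = B then b' else 0) := by
          intro d _
          by_cases h3 : d < B
          · rw [if_pos h3, if_pos h3, if_neg (by omega)]; ring
          · rw [if_neg h3, if_neg h3]; ring
        rw [sum_congr rfl h2, sum_add_distrib, sum_ite_eq' (range p) B, if_pos (mem_range.2 hBp),
          ← sum_filter]
        have h3 : (range p).filter (fun d => d < B) = range B := by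
          ext d; simp only [mem_filter, mem_range]; omega
        rw [h3]
        simp [hb']
      rw [h1]; field_simp
    push_cast
    rw [← hmain, ← sum_sub_distrib]
    refine (abs_sum_le_sum_abs _ _).trans ((sum_le_sum hsum).trans ?_)
    rw [sum_add_distrib, sum_ite_eq' (range p) B, if_pos (mem_range.2 hBp)]
    simp only [sum_const, card_range, nsmul_eq_mul]
    have hcpos : 0 ≤ 3 / c + 3 / c ^ 2 * Real.log N₀ := by positivity
    nlinarith

end Pool.Agent.V11269.Hybrid
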