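import Pool.Agent.V11269.BadTorus3

namespace Pool.Agent.V11269.BadTorus

open Filter Topology

/-- Real lift of `r_j α₁`. -/
noncomputable def ζ (j : ℕ) : ℝ := ∑ i ∈ Finset.range j, m i * g i

lemma ζ_succ (j : ℕ) : ζ (j + 1) = ζ j + m j * g j := Finset.sum_range_succ _ _

lemma r_smul_a₁ (j : ℕ) : r j • a₁ = (ζ j : UnitAddCircle) := by
  induction j with
  | zero => simp [r, ζ]
  | succ j ih =>
    rw [r_succ, add_smul, ih, mul_smul, N_smul_a₁, zsmul_coe, ζ_succ, AddCircle.coe_add]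

lemma g_eq (j : ℕ) : N j * g j = 1 + w j / N j + (N j : ℝ) ^ 2 * tw (j + 1) := by
  unfold g
  rw [tw_succ, NR_succ, w_succ]
  have h0 := NR_pos j
  push_cast
  field_simp
  ring

/-- The errors. -/
noncomputable def u (j : ℕ) : ℝ := m j * g j - d j

lemma abs_u_le (j : ℕ) : |u j| ≤ w j / N j + 8 * (1 / N j) := by
  have h0 := NR_pos j
  have h1 := Int.floor_le (d j * N j)
  have h2 := Int.lt_floor_add_one (d j * N j)
  have hg := g_eq j
  have htw := tw_le (j + 1)
  have htw0 := tw_nonneg (j + 1)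
  have hgle := g_le j
  have hgpos := g_pos j
  have hd := abs_d_le j
  have h3 : u j = d j * (N j * g j - 1) - (d j * N j - m j) * g j := by unfold u; ring
  have h4 : |N j * g j - 1| ≤ w j / N j + 4 * (1 / N j) := by
    have h5 : N j * g j - 1 = w j / N j + (N j : ℝ) ^ 2 * tw (j + 1) := by rw [hg]; ring
    rw [h5, abs_of_nonneg (by positivity)]
    have h6 : (N j : ℝ) ^ 2 * tw (j + 1) ≤ 4 * (1 / N j) := by
      calc (N j : ℝ) ^ 2 * tw (j + 1) ≤ (N j : ℝ) ^ 2 * (4 / (N (j + 1) : ℝ) ^ 2) := by gcongr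
        _ = 4 * (1 / (N j : ℝ) ^ 4) := by rw [NR_succ]; field_simp
        _ ≤ 4 * (1 / N j) := by
          have := two_le_NR j
          have h7 : (N j : ℝ) ≤ (N j : ℝ) ^ 4 := by
            calc (N j : ℝ) = (N j : ℝ) ^ 1 := (pow_one _).symm
              _ ≤ (N j : ℝ) ^ 4 := pow_le_pow_right₀ (by linarith) (by norm_num)
          gcongr
    linarith
  have h5 : |(d j * N j - m j) * g j| ≤ 4 * (1 / N j) := by
    rw [abs_mul, abs_of_pos hgpos]
    have h6 : |d j * N j - m j| ≤ 1 := by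
      unfold m
      rw [abs_le]; constructor <;> linarith
    calc |d j * N j - m j| * g j ≤ 1 * (4 / N j) := by
          apply mul_le_mul h6 hgle hgpos.le (by norm_num)
      _ = 4 * (1 / N j) := by ring
  rw [h3]
  refine (abs_sub _ _).trans ?_
  have h6 : |d j * (N j * g j - 1)| ≤ w j / N j + 4 * (1 / N j) := by
    rw [abs_mul]
    have h7 := abs_nonneg (N j * g j - 1)
    have h8 : |d j| * |N j * g j - 1| ≤ 1 * |N j * g j - 1| :=
      mul_le_mul_of_nonneg_right (by linarith) h7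
    linarith
  linarith

lemma summable_inv : Summable fun i : ℕ => 1 / (N i : ℝ) := by
  refine (tsum_bound _ (1 / N 0) fun i => ?_).1
  rw [abs_of_pos (by have := NR_pos i; positivity)]
  exact inv_N_add 0 i

lemma summable_u : Summable u := by
  have h1 : Summable fun j => (w j : ℝ) / N j + 8 * (1 / N j) := by
    have := summable_w
    push_cast at this
    exact this.add (summable_inv.mul_left 8)
  exact Summable.of_norm_bounded h1 abs_u_le

/-- The limiting offset. -/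
noncomputable def E : ℝ := ∑' j, u j

lemma D_zero : D 0 = 0 := by simp [D]

lemma ζ_eq (j : ℕ) : ζ j = D j + ∑ i ∈ Finset.range j, u i := by
  induction j with
  | zero => simp [ζ, D_zero]
  | succ j ih =>
    rw [ζ_succ, ih, Finset.sum_range_succ]
    unfold u d
    ring

lemma ζ_tendsto : Tendsto (fun j => ζ j - D j) atTop (𝓝 E) := by
  have := summable_u.hasSum.tendsto_sum_nat
  refine this.congr fun j => ?_
  rw [ζ_eq]; ring

/-- The points `w_j y` are close to `ζ_j`. -/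
lemma close_w (j : ℕ) : ‖r (j + 1) • a₁ - (w (j + 1)) • y‖ ≤ 28 * (1 / N j) := by
  have h0 := NR_pos j
  have h01 := NR_pos (j + 1)
  have h2 := two_le_NR j
  refine (keyK (r (j + 1)) y (j + 1)).trans ?_
  have h1 := close_y (q := r (j + 1)) (j := j + 1) (by simp) (abs_r_le' _)
  have h3 : (w (j + 1) : ℝ) ≤ 2 * N j := by exact_mod_cast w_succ_le j
  have h4 := ν_le (j + 1)
  have h5 := ν_pos (j + 1)
  have h6 : (w (j + 1) : ℝ) * ‖r (j + 1) • a₂ - y‖ ≤ 24 * (1 / N j) := by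
    calc (w (j + 1) : ℝ) * ‖r (j + 1) • a₂ - y‖ ≤ (2 * N j) * (4 * (ν (j + 1) / N (j + 1))) := by
          apply mul_le_mul h3 h1 (norm_nonneg _) (by positivity)
      _ ≤ (2 * N j) * (4 * (3 / N (j + 1))) := by gcongr
      _ = 24 * (1 / (N j : ℝ) ^ 2) := by rw [NR_succ]; field_simp; norm_num
      _ ≤ 24 * (1 / N j) := by
          have h7 : (N j : ℝ) ≤ (N j : ℝ) ^ 2 := by nlinarith
          gcongr
  have h7 : |(r (j + 1) : ℝ)| * (4 / (N (j + 1) : ℝ) ^ 2) ≤ 4 * (1 / N j) := by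
    calc |(r (j + 1) : ℝ)| * (4 / (N (j + 1) : ℝ) ^ 2)
        ≤ (N (j + 1) : ℝ) * (4 / (N (j + 1) : ℝ) ^ 2) := by
          gcongr; exact abs_r_le _
      _ = 4 * (1 / (N (j + 1) : ℝ)) := by field_simp
      _ ≤ 4 * (1 / (N j : ℝ)) := by
          have h8 : (N j : ℝ) ≤ N (j + 1) := by exact_mod_cast N_mono (Nat.le_succ j)
          gcongr
  linarith

lemma norm_lower {v a : ℝ} (h1 : a ≤ v) (h2 : v ≤ 1 - a) : a ≤ ‖(v : UnitAddCircle)‖ := by
  rw [UnitAddCircle.norm_eq]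
  by_cases h : round v ≤ 0
  · have : (round v : ℝ) ≤ 0 := by exact_mod_cast h
    refine le_trans ?_ (le_abs_self _)
    linarith
  · have : (1 : ℝ) ≤ round v := by exact_mod_cast (not_le.1 h)
    refine le_trans ?_ (neg_le_abs _)
    linarith

lemma inv_N_tendsto : Tendsto (fun j => 28 * (1 / (N j : ℝ))) atTop (𝓝 0) := by
  have := summable_inv.tendsto_atTop_zero.const_mul 28
  simpa using this

/-- For `t ∈ [1/2, 3/4]` the target `(E + t, y)` is badly approximable. -/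
lemma bad_region {t : ℝ} (h1 : 1 / 2 ≤ t) (h2 : t ≤ 3 / 4) :
    ∃ c > 0, ∃ Q : ℝ, ∀ q : ℤ, Q ≤ |(q : ℝ)| →
      c ≤ √|(q : ℝ)| * max ‖q • a₁ - ((E + t : ℝ) : UnitAddCircle)‖ ‖q • a₂ - y‖ := by
  have hev1 : ∀ᶠ j in atTop, |ζ j - D j - E| < 1 / 16 := by
    have := Metric.tendsto_atTop.1 ζ_tendsto (1 / 16) (by norm_num)
    obtain ⟨J, hJ⟩ := this
    filter_upwards [eventually_ge_atTop J] with j hj
    have := hJ j hj
    rwa [Real.dist_eq] at this
  have hev2 : ∀ᶠ j in atTop, 28 * (1 / (N j : ℝ)) < 1 / 16 :=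
    inv_N_tendsto.eventually (gt_mem_nhds (by norm_num))
  obtain ⟨J1, hJ1⟩ := eventually_atTop.1 hev1
  obtain ⟨J2, hJ2⟩ := eventually_atTop.1 hev2
  apply bad_of_far (δ := 1 / 16) (by norm_num) (max J1 J2 + 1)
  intro j hj
  have hj1 : J1 ≤ j := by have := le_max_left J1 J2; omega
  have hj2 : J2 ≤ j - 1 := by have := le_max_right J1 J2; omega
  have hjj : j - 1 + 1 = j := by omega
  have hc := close_w (j - 1)
  rw [hjj, r_smul_a₁] at hc
  have h3 := hJ2 (j - 1) hj2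
  have h4 := abs_lt.1 (hJ1 j hj1)
  have h5 := D_nonneg j
  have h6 := D_le j
  have h7 : 1 / 8 ≤ ‖((E + t - ζ j : ℝ) : UnitAddCircle)‖ := by
    apply norm_lower
    · linarith [h4.2]
    · linarith [h4.1]
  have h8 : ((E + t - ζ j : ℝ) : UnitAddCircle) =
      (((E + t : ℝ) : UnitAddCircle) - (w j) • y) - ((ζ j : UnitAddCircle) - (w j) • y) := by
    rw [AddCircle.coe_sub]; abel
  rw [h8] at h7
  have h9 := norm_sub_le (((E + t : ℝ) : UnitAddCircle) - (w j) • y) ((ζ j : UnitAddCircle) - (w j) • y)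
  linarith

lemma D_even (k : ℕ) : D ((2 * k) ^ 2) = 0 := by
  unfold D
  push_cast
  rw [Real.sqrt_sq (by positivity)]
  have : Real.pi * (2 * (k : ℝ)) = (k : ℝ) * (2 * Real.pi) := by ring
  rw [this, Real.cos_nat_mul_two_pi]
  norm_num

lemma D_odd (k : ℕ) : D ((2 * k + 1) ^ 2) = 1 / 4 := by
  unfold D
  push_cast
  rw [Real.sqrt_sq (by positivity)]
  have : Real.pi * (2 * (k : ℝ) + 1) = (k : ℝ) * (2 * Real.pi) + Real.pi := by ring
  rw [this, Real.cos_add_pi, Real.cos_nat_mul_two_pi]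
  norm_num

/-- The walk `ζ` crosses every level strictly inside `(E, E + 1/4)` infinitely often. -/
lemma crossing {t : ℝ} (h1 : 0 < t) (h2 : t < 1 / 4) (J : ℕ) :
    ∃ j, J ≤ j ∧ ζ j ≤ E + t ∧ E + t < ζ (j + 1) := by
  classical
  obtain ⟨J1, hJ1⟩ := Metric.tendsto_atTop.1 ζ_tendsto (min t (1 / 4 - t))
    (lt_min h1 (by linarith))
  set k := max J J1 with hk
  have ha : J ≤ (2 * k) ^ 2 := by
    have : J ≤ k := le_max_left _ _
    nlinarith
  have ha1 : J1 ≤ (2 * k) ^ 2 := by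
    have : J1 ≤ k := le_max_right _ _
    nlinarith
  have hab : (2 * k) ^ 2 < (2 * k + 1) ^ 2 := by nlinarith
  set a := (2 * k) ^ 2 with hadef
  set b := (2 * k + 1) ^ 2 with hbdef
  have hza : ζ a < E + t := by
    have h3 := hJ1 a ha1
    rw [Real.dist_eq, D_even, sub_zero] at h3
    have h4 := (abs_lt.1 h3).2
    have h5 := min_le_left t (1 / 4 - t)
    linarith
  have hzb : E + t < ζ b := by
    have h3 := hJ1 b (by omega)
    rw [Real.dist_eq, D_odd] at h3
    have h4 := (abs_lt.1 h3).1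
    have h5 := min_le_right t (1 / 4 - t)
    linarith
  have hex : ∃ n, E + t < ζ (a + n + 1) := ⟨b - a - 1, by
    have : a + (b - a - 1) + 1 = b := by omega
    rw [this]; exact hzb⟩
  refine ⟨a + Nat.find hex, by omega, ?_, Nat.find_spec hex⟩
  by_cases h0 : Nat.find hex = 0
  · rw [h0, add_zero]; exact hza.le
  · have h3 := Nat.find_min hex (m := Nat.find hex - 1) (by omega)
    have h4 : a + (Nat.find hex - 1) + 1 = a + Nat.find hex := by omega
    rw [h4] at h3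
    exact not_lt.1 h3

lemma ν_tendsto : Tendsto (fun j => 16 * √(ν j)) atTop (𝓝 0) := by
  have h1 : Tendsto (fun j : ℕ => √((j : ℝ) + 1)) atTop atTop := by
    apply Real.tendsto_sqrt_atTop.comp
    exact tendsto_atTop_add_const_right _ _ tendsto_natCast_atTop_atTop
  have h2 : Tendsto ν atTop (𝓝 0) := by
    unfold ν
    exact h1.const_div_atTop 3
  have h3 := (Real.continuous_sqrt.tendsto 0).comp h2
  rw [Real.sqrt_zero] at h3
  have h4 := h3.const_mul 16
  simpa using h4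

/-- For `t ∈ (0, 1/4)` the target `(E + t, y)` is not badly approximable. -/
lemma not_bad_region {t : ℝ} (h1 : 0 < t) (h2 : t < 1 / 4) :
    ¬ ∃ c > 0, ∃ Q : ℝ, ∀ q : ℤ, Q ≤ |(q : ℝ)| →
      c ≤ √|(q : ℝ)| * max ‖q • a₁ - ((E + t : ℝ) : UnitAddCircle)‖ ‖q • a₂ - y‖ := by
  rintro ⟨c, hc, Q, h⟩
  obtain ⟨J1, hJ1⟩ := eventually_atTop.1 (ν_tendsto.eventually (gt_mem_nhds hc))
  obtain ⟨J2, hJ2⟩ := exists_nat_gt Q
  obtain ⟨j, hj, hz1, hz2⟩ := crossing h1 h2 (max J1 J2 + 1)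
  have hj1 : J1 ≤ j := by have := le_max_left J1 J2; omega
  have hj2 : J2 ≤ j - 1 := by have := le_max_right J1 J2; omega
  have hjj : j - 1 + 1 = j := by omega
  have hg := g_pos j
  have h0 := NR_pos j
  set X := E + t with hX
  set l : ℤ := ⌊(X - ζ j) / g j⌋ + 1 with hl
  have hfl := Int.floor_le ((X - ζ j) / g j)
  have hfl2 := Int.lt_floor_add_one ((X - ζ j) / g j)
  have hl1 : 1 ≤ l := by
    have : 0 ≤ ⌊(X - ζ j) / g j⌋ := Int.floor_nonneg.2 (by apply div_nonneg _ hg.le; linarith)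
    omega
  have hlm : l ≤ m j := by
    rw [ζ_succ] at hz2
    have h3 : (X - ζ j) / g j < m j := by rw [div_lt_iff₀ hg]; linarith
    have h4 : ⌊(X - ζ j) / g j⌋ < m j := Int.floor_lt.2 h3
    omega
  have hm0 : (0 : ℝ) < m j := by exact_mod_cast (by omega : 0 < m j)
  have hl1r : (1 : ℝ) ≤ l := by exact_mod_cast hl1
  have hlmr : (l : ℝ) ≤ m j := by exact_mod_cast hlm
  set q : ℤ := r j + l * N j with hq
  have hqr : (q : ℝ) = r j + l * N j := by rw [hq]; push_cast; ring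
  -- size of q
  have hq1 : |(q : ℝ)| ≤ ν j * (N j : ℝ) ^ 2 := by
    refine le_trans ?_ ((abs_r_succ_aux (abs_r_le j)).2.trans (two_mul_N_le j))
    rw [hqr]
    refine (abs_add_le _ _).trans ?_
    rw [abs_mul, abs_of_pos h0, abs_of_pos (by linarith : (0 : ℝ) < l), abs_of_pos hm0]
    gcongr
  have hq2 : Q ≤ |(q : ℝ)| := by
    refine le_trans ?_ (le_abs_self _)
    rw [hqr]
    have h3 := (abs_r_succ_aux (abs_r_le (j - 1))).1
    rw [hjj] at h3
    have h4 := (abs_le.1 h3).1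
    have h5 : (N j : ℝ) = (N (j - 1) : ℝ) ^ 3 := by
      have := NR_succ (j - 1)
      rwa [hjj] at this
    have h6 := two_le_NR (j - 1)
    have h7 := abs_d_le (j - 1)
    have h8 : (J2 : ℝ) < N (j - 1) := by exact_mod_cast lt_of_le_of_lt hj2 (lt_N (j - 1))
    have h9 : (N j : ℝ) ≤ l * N j := le_mul_of_one_le_left h0.le hl1r
    have h10 : |d (j - 1)| * (N (j - 1) : ℝ) ^ 2 ≤ 1 / 4 * (N (j - 1) : ℝ) ^ 2 :=
      mul_le_mul_of_nonneg_right h7 (by positivity)
    have h11 : (0 : ℝ) < (N (j - 1) : ℝ) ^ 2 := by positivity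
    have h12 : 2 * (N (j - 1) : ℝ) ^ 2 ≤ (N (j - 1) : ℝ) ^ 3 := by nlinarith
    -- r j + l N_j ≥ N^3 - 2 N - N^2/4 ≥ N
    nlinarith
  have hb := h q hq2
  -- first coordinate
  have hc1 : ‖q • a₁ - (X : UnitAddCircle)‖ ≤ 4 / N j := by
    have h3 : q • a₁ = ((ζ j + l * g j : ℝ) : UnitAddCircle) := by
      rw [hq, add_smul, r_smul_a₁, mul_smul, N_smul_a₁, zsmul_coe, AddCircle.coe_add]
    rw [h3, ← AddCircle.coe_sub]
    refine (norm_coe_le _).trans (le_trans ?_ (g_le j))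
    have hle : (l : ℝ) = (⌊(X - ζ j) / g j⌋ : ℝ) + 1 := by rw [hl]; push_cast; ring
    rw [le_div_iff₀ hg] at hfl
    rw [div_lt_iff₀ hg] at hfl2
    rw [hle, abs_le]
    constructor <;> linarith
  have hc2 : ‖q • a₂ - y‖ ≤ 4 * (ν j / N j) := close_y (by rw [hq]; simp) hq1
  have hν := ν_pos j
  have hν3 := ν_le j
  have hsν : 0 < √(ν j) := Real.sqrt_pos.2 hν
  have hsq : √|(q : ℝ)| ≤ √(ν j) * N j := by
    apply Real.sqrt_le_iff.2
    refine ⟨by positivity, ?_⟩
    rw [mul_pow, Real.sq_sqrt hν.le]; exact hq1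
  have hmax : max ‖q • a₁ - (X : UnitAddCircle)‖ ‖q • a₂ - y‖ ≤ 12 / N j := by
    apply max_le
    · refine hc1.trans ?_
      gcongr; norm_num
    · refine hc2.trans ?_
      calc 4 * (ν j / N j) ≤ 4 * (3 / N j) := by gcongr
        _ = 12 / N j := by ring
  have hfin : √|(q : ℝ)| * max ‖q • a₁ - (X : UnitAddCircle)‖ ‖q • a₂ - y‖ < c := by
    calc √|(q : ℝ)| * max ‖q • a₁ - (X : UnitAddCircle)‖ ‖q • a₂ - y‖
        ≤ (√(ν j) * N j) * (12 / N j) := by
          apply mul_le_mul hsq hmax (le_max_of_le_left (norm_nonneg _)) (by positivity)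
      _ = 12 * √(ν j) := by field_simp
      _ ≤ 16 * √(ν j) := by linarith
      _ < c := hJ1 j hj1
  linarith

end Pool.Agent.V11269.BadTorus
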