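import Mathlib

/-!
Upper triangular 2 x 2 matrices, rank-one convexity, T4 configurations and the T4-convex hull.
The matrix with rows (x, z) and (0, y) is written as the triple (x, y, z).
-/

namespace Pool.Agent.V11269.T4

/-- A point `(x, y, z)` of `ℝ³`, standing for the upper triangular matrix with rows `(x, z)`
and `(0, y)`. -/
abbrev Pt : Type := ℝ × ℝ × ℝ

/-- `(u, v, w)` is a rank-one direction if it is nonzero and `u v = 0`. -/
def RankOneDir (d : Pt) : Prop := d ≠ 0 ∧ d.1 * d.2.1 = 0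

/-- A function is rank-one convex if it is convex on every line whose direction is a rank-one
direction. -/
def RankOneConvex (f : Pt → ℝ) : Prop :=
  ∀ A d : Pt, RankOneDir d → ConvexOn ℝ Set.univ (fun t : ℝ => f (A + t • d))

/-- The rank-one convex hull: the points at which every rank-one convex function that vanishes
on `K` is at most `0`. -/
def rcHull (K : Set Pt) : Set Pt :=
  {A | ∀ f : Pt → ℝ, RankOneConvex f → (∀ B ∈ K, f B = 0) → f A ≤ 0}

/-- The four points `T 0, T 1, T 2, T 3` form a (possibly degenerate) `T₄` configuration. -/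
def IsT4 (T : Fin 4 → Pt) : Prop :=
  ∃ (P : Pt) (C : Fin 4 → Pt) (α : Fin 4 → ℝ),
    (∀ j, RankOneDir (C j)) ∧ C 0 + C 1 + C 2 + C 3 = 0 ∧ (∀ j, 1 ≤ α j) ∧
    T 0 = P + α 0 • C 0 ∧
    T 1 = P + C 0 + α 1 • C 1 ∧
    T 2 = P + C 0 + C 1 + α 2 • C 2 ∧
    T 3 = P + C 0 + C 1 + C 2 + α 3 • C 3

/-- One step of the construction of the `T₄`-convex hull: keep `K`, add the rank-one convex hulls
of all `T₄` configurations of points of `K` and all closed segments between rank-one connected
points of `K`. -/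
def step (K : Set Pt) : Set Pt :=
  K ∪ {A | ∃ T : Fin 4 → Pt, IsT4 T ∧ (∀ j, T j ∈ K) ∧ A ∈ rcHull (Set.range T)} ∪
    {C | ∃ A ∈ K, ∃ B ∈ K, RankOneDir (B - A) ∧ C ∈ segment ℝ A B}

/-- The sets `K⁽ⁱ⁾`. -/
def stage (K : Set Pt) : ℕ → Set Pt
  | 0 => K
  | i + 1 => step (stage K i)

/-- The `T₄`-convex hull, the union of the sets `K⁽ⁱ⁾`. -/
def t4Hull (K : Set Pt) : Set Pt := ⋃ i, stage K i

end Pool.Agent.V11269.T4
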