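import Mathlib
import Pool.Agent.V11269.T4Defs

namespace Pool.Agent.V11269.T4

open Finset

/-! ### One dimensional hat functions on the nodes `0, …, 5` -/

noncomputable def hp (k x : ℝ) : ℝ := max (x - k) 0

noncomputable def w (i : Fin 6) (x : ℝ) : ℝ :=
  ![1 - hp 0 x + hp 1 x, hp 0 x - 2 * hp 1 x + hp 2 x, hp 1 x - 2 * hp 2 x + hp 3 x,
    hp 2 x - 2 * hp 3 x + hp 4 x, hp 3 x - 2 * hp 4 x + hp 5 x, hp 4 x - hp 5 x] i

noncomputable def out (x : ℝ) : ℝ := max (-x) 0 + hp 5 x

lemma convexOn_hp (k : ℝ) : ConvexOn ℝ Set.univ (hp k) := by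
  refine ⟨convex_univ, fun x _ y _ a b ha hb hab => ?_⟩
  simp only [hp, smul_eq_mul]
  apply max_le
  · have h1 := mul_le_mul_of_nonneg_left (le_max_left (x - k) 0) ha
    have h2 := mul_le_mul_of_nonneg_left (le_max_left (y - k) 0) hb
    have h3 : a * x + b * y - k = a * (x - k) + b * (y - k) := by
      have : k = (a + b) * k := by rw [hab, one_mul]
      linear_combination -this
    linarith
  · have h1 := mul_nonneg ha (le_max_right (x - k) 0)
    have h2 := mul_nonneg hb (le_max_right (y - k) 0)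
    linarith

lemma convexOn_neg : ConvexOn ℝ Set.univ (fun x : ℝ => max (-x) 0) := by
  refine ⟨convex_univ, fun x _ y _ a b ha hb hab => ?_⟩
  simp only [smul_eq_mul]
  apply max_le
  · have h1 := mul_le_mul_of_nonneg_left (le_max_left (-x) 0) ha
    have h2 := mul_le_mul_of_nonneg_left (le_max_left (-y) 0) hb
    linarith
  · have h1 := mul_nonneg ha (le_max_right (-x) 0)
    have h2 := mul_nonneg hb (le_max_right (-y) 0)
    linarith

lemma hp_zero (x : ℝ) : hp 0 x = x + max (-x) 0 := by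
  unfold hp
  rcases le_total x 0 with h | h
  · rw [max_eq_right (by linarith), max_eq_left (by linarith)]; ring
  · rw [max_eq_left (by linarith), max_eq_right (by linarith)]; ring

lemma w_nonneg (i : Fin 6) (x : ℝ) : 0 ≤ w i x := by
  have key : ∀ a b c : ℝ, a ≤ b → b ≤ c → 0 ≤ hp a x - hp b x := by
    intro a b c hab _
    unfold hp
    have := max_le_max_right 0 (show x - b ≤ x - a by linarith)
    linarith
  have key2 : ∀ k : ℝ, 0 ≤ hp (k - 1) x - 2 * hp k x + hp (k + 1) x := by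
    intro k
    unfold hp
    rcases le_total (x - k) 0 with h | h
    · rw [max_eq_right h]
      have h1 := le_max_right (x - (k - 1)) 0
      have h2 := le_max_right (x - (k + 1)) 0
      linarith
    · rw [max_eq_left h]
      have h1 := le_max_left (x - (k - 1)) 0
      have h2 := le_max_left (x - (k + 1)) 0
      linarith
  have key3 : 0 ≤ 1 - hp 0 x + hp 1 x := by
    unfold hp
    rcases le_total (x - 0) 0 with h | h
    · rw [max_eq_right h]
      have h2 := le_max_right (x - 1) 0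
      linarith
    · rw [max_eq_left h]
      have h2 := le_max_left (x - 1) 0
      linarith
  have e1 := key2 1
  have e2 := key2 2
  have e3 := key2 3
  have e4 := key2 4
  norm_num at e1 e2 e3 e4
  have e5 := key 4 5 5 (by norm_num) (by norm_num)
  fin_cases i
  · exact key3
  · exact e1
  · exact e2
  · exact e3
  · exact e4
  · exact e5

lemma sum_w (x : ℝ) : ∑ i, w i x = 1 := by
  simp only [Fin.sum_univ_six, w]
  simp
  ring

lemma sum_id_w (x : ℝ) : ∑ i : Fin 6, (i.val : ℝ) * w i x = hp 0 x - hp 5 x := by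
  simp only [Fin.sum_univ_six, w]
  simp
  ring

lemma out_nonneg (x : ℝ) : 0 ≤ out x := by
  unfold out hp
  have h1 := le_max_right (-x) 0
  have h2 := le_max_right (x - 5) 0
  linarith

lemma w_node (k i : Fin 6) : w k (i.val : ℝ) = if k = i then 1 else 0 := by
  fin_cases k <;> fin_cases i <;> norm_num [w, hp]

lemma out_node (i : Fin 6) : out (i.val : ℝ) = 0 := by
  fin_cases i <;> norm_num [out, hp]

/-- Concavity of the piecewise linear interpolation of a concave sequence, extended with steep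
slopes. -/
lemma conc1 (a : Fin 6 → ℝ) (M c : ℝ)
    (h1 : a 0 + a 2 ≤ 2 * a 1) (h2 : a 1 + a 3 ≤ 2 * a 2) (h3 : a 2 + a 4 ≤ 2 * a 3)
    (h4 : a 3 + a 5 ≤ 2 * a 4) (h0 : a 1 - a 0 ≤ M) (h5 : -M ≤ a 5 - a 4) :
    ConcaveOn ℝ Set.univ (fun x => ∑ i, a i * w i x - M * out x + c) := by
  have e : (fun x => ∑ i, a i * w i x - M * out x + c) = fun x =>
      -((M - (a 1 - a 0)) * max (-x) 0 + (2 * a 1 - a 0 - a 2) * hp 1 x
        + (2 * a 2 - a 1 - a 3) * hp 2 x + (2 * a 3 - a 2 - a 4) * hp 3 x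
        + (2 * a 4 - a 3 - a 5) * hp 4 x + (M + (a 5 - a 4)) * hp 5 x
        + (-(a 1 - a 0) * x - a 0 - c)) := by
    funext x
    have h := hp_zero x
    simp only [Fin.sum_univ_six, w, out]
    simp
    rw [h]
    ring
  rw [e]
  apply ConvexOn.neg
  have hl : ConvexOn ℝ Set.univ (fun x : ℝ => -(a 1 - a 0) * x - a 0 - c) := by
    refine ⟨convex_univ, fun x _ y _ s t hs ht hst => ?_⟩
    simp only [smul_eq_mul]
    have : s * (a 0 + c) + t * (a 0 + c) = a 0 + c := by rw [← add_mul, hst, one_mul]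
    linarith
  have g0 := convexOn_neg.smul (show (0:ℝ) ≤ M - (a 1 - a 0) by linarith)
  have g1 := (convexOn_hp 1).smul (show (0:ℝ) ≤ 2 * a 1 - a 0 - a 2 by linarith)
  have g2 := (convexOn_hp 2).smul (show (0:ℝ) ≤ 2 * a 2 - a 1 - a 3 by linarith)
  have g3 := (convexOn_hp 3).smul (show (0:ℝ) ≤ 2 * a 3 - a 2 - a 4 by linarith)
  have g4 := (convexOn_hp 4).smul (show (0:ℝ) ≤ 2 * a 4 - a 3 - a 5 by linarith)
  have g5 := (convexOn_hp 5).smul (show (0:ℝ) ≤ M + (a 5 - a 4) by linarith)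
  exact (((((g0.add g1).add g2).add g3).add g4).add g5).add hl

/-! ### Bilinear interpolation of a table -/

/-- Conditions on an integer table: concave rows and columns with slopes bounded by `M`. -/
def Tab (M : ℤ) (v : Fin 6 → Fin 6 → ℤ) : Prop :=
  ∀ j, (v 0 j + v 2 j ≤ 2 * v 1 j ∧ v 1 j + v 3 j ≤ 2 * v 2 j ∧ v 2 j + v 4 j ≤ 2 * v 3 j ∧
    v 3 j + v 5 j ≤ 2 * v 4 j ∧ v 1 j - v 0 j ≤ M ∧ -M ≤ v 5 j - v 4 j)

instance (M : ℤ) (v : Fin 6 → Fin 6 → ℤ) : Decidable (Tab M v) := by
  unfold Tab; infer_instance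

noncomputable def F (M : ℤ) (v : Fin 6 → Fin 6 → ℤ) (x y : ℝ) : ℝ :=
  ∑ i, ∑ j, (v i j : ℝ) * w i x * w j y - M * (out x + out y)

lemma F_swap (M : ℤ) (v : Fin 6 → Fin 6 → ℤ) (x y : ℝ) :
    F M v x y = F M (fun i j => v j i) y x := by
  unfold F
  rw [Finset.sum_comm]
  congr 1
  · apply Finset.sum_congr rfl; intro i _
    apply Finset.sum_congr rfl; intro j _
    ring
  · ring

lemma F_conc {M : ℤ} {v : Fin 6 → Fin 6 → ℤ} (h : Tab M v) (y : ℝ) :
    ConcaveOn ℝ Set.univ (fun x => F M v x y) := by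
  have e : (fun x => F M v x y) = fun x =>
      ∑ i, (∑ j, (v i j : ℝ) * w j y) * w i x - (M : ℝ) * out x + (-(M * out y)) := by
    funext x
    unfold F
    have : ∑ i, ∑ j, (v i j : ℝ) * w i x * w j y
        = ∑ i, (∑ j, (v i j : ℝ) * w j y) * w i x := by
      apply Finset.sum_congr rfl; intro i _
      rw [Finset.sum_mul]
      apply Finset.sum_congr rfl; intro j _
      ring
    rw [this]; ring
  rw [e]
  have gen : ∀ (p q r : Fin 6), (∀ j, v p j + v r j ≤ 2 * v q j) →
      (∑ j, (v p j : ℝ) * w j y) + (∑ j, (v r j : ℝ) * w j y)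
        ≤ 2 * ∑ j, (v q j : ℝ) * w j y := by
    intro p q r hh
    rw [← Finset.sum_add_distrib, Finset.mul_sum]
    apply Finset.sum_le_sum
    intro j _
    have h1 : (v p j : ℝ) + v r j ≤ 2 * v q j := by exact_mod_cast hh j
    have := mul_le_mul_of_nonneg_right h1 (w_nonneg j y)
    linarith
  have gen2 : ∀ (p q : Fin 6) (N : ℤ), (∀ j, v p j - v q j ≤ N) →
      (∑ j, (v p j : ℝ) * w j y) - (∑ j, (v q j : ℝ) * w j y) ≤ N := by
    intro p q N hh
    rw [← Finset.sum_sub_distrib]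
    have : (N : ℝ) = ∑ j, (N : ℝ) * w j y := by rw [← Finset.mul_sum, sum_w, mul_one]
    rw [this]
    apply Finset.sum_le_sum
    intro j _
    have h1 : (v p j : ℝ) - v q j ≤ N := by exact_mod_cast hh j
    have := mul_le_mul_of_nonneg_right h1 (w_nonneg j y)
    linarith
  apply conc1
  · exact gen 0 1 2 fun j => (h j).1
  · exact gen 1 2 3 fun j => (h j).2.1
  · exact gen 2 3 4 fun j => (h j).2.2.1
  · exact gen 3 4 5 fun j => (h j).2.2.2.1
  · exact gen2 1 0 M fun j => (h j).2.2.2.2.1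
  · have := gen2 4 5 M fun j => by have := (h j).2.2.2.2.2; linarith
    linarith

lemma F_node (M : ℤ) (v : Fin 6 → Fin 6 → ℤ) (i j : Fin 6) :
    F M v (i.val : ℝ) (j.val : ℝ) = v i j := by
  unfold F
  simp only [w_node, out_node]
  simp

/-- Separately concave functions of two variables. -/
def SepConc (H : ℝ → ℝ → ℝ) : Prop :=
  (∀ y, ConcaveOn ℝ Set.univ (fun x => H x y)) ∧ (∀ x, ConcaveOn ℝ Set.univ (fun y => H x y))

lemma sepConc_F {M : ℤ} {v : Fin 6 → Fin 6 → ℤ} (h : Tab M v)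
    (h' : Tab M (fun i j => v j i)) : SepConc (F M v) := by
  refine ⟨fun y => F_conc h y, fun x => ?_⟩
  have := F_conc h' x
  have e : (fun y => F M v x y) = fun y => F M (fun i j => v j i) y x := by
    funext y; exact F_swap M v x y
  rw [e]; exact this

lemma SepConc.comb {H H' : ℝ → ℝ → ℝ} (h : SepConc H) (h' : SepConc H') {e : ℝ}
    (he : 0 ≤ e) (he1 : e ≤ 1) : SepConc (fun x y => (1 - e) * H x y + e * H' x y) := by
  constructor
  · intro y
    exact ((h.1 y).smul (show 0 ≤ 1 - e by linarith)).add ((h'.1 y).smul he)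
  · intro x
    exact ((h.2 x).smul (show 0 ≤ 1 - e by linarith)).add ((h'.2 x).smul he)

lemma rankOneConvex_of_sepConc {H : ℝ → ℝ → ℝ} (h : SepConc H) :
    RankOneConvex (fun B => max (B.2.2 - H B.1 B.2.1) 0) := by
  intro A d hd
  have hc : ConvexOn ℝ Set.univ
      (fun t : ℝ => (A + t • d).2.2 - H (A + t • d).1 (A + t • d).2.1) := by
    rcases mul_eq_zero.mp hd.2 with h0 | h0
    · refine ⟨convex_univ, fun s _ t _ a b ha hb hab => ?_⟩
      have := (h.2 A.1).2 (Set.mem_univ (A.2.1 + s * d.2.1)) (Set.mem_univ (A.2.1 + t * d.2.1))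
        ha hb hab
      simp only [smul_eq_mul, Prod.fst_add, Prod.snd_add, Prod.smul_fst, Prod.smul_snd, h0,
        mul_zero, add_zero] at this ⊢
      have e1 : A.2.1 + (a * s + b * t) * d.2.1
          = a * (A.2.1 + s * d.2.1) + b * (A.2.1 + t * d.2.1) := by
        have : A.2.1 = (a + b) * A.2.1 := by rw [hab, one_mul]
        linear_combination this
      rw [e1]
      have e2 : A.2.2 = (a + b) * A.2.2 := by rw [hab, one_mul]
      linarith [e2]
    · refine ⟨convex_univ, fun s _ t _ a b ha hb hab => ?_⟩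
      have := (h.1 A.2.1).2 (Set.mem_univ (A.1 + s * d.1)) (Set.mem_univ (A.1 + t * d.1))
        ha hb hab
      simp only [smul_eq_mul, Prod.fst_add, Prod.snd_add, Prod.smul_fst, Prod.smul_snd, h0,
        mul_zero, add_zero] at this ⊢
      have e1 : A.1 + (a * s + b * t) * d.1
          = a * (A.1 + s * d.1) + b * (A.1 + t * d.1) := by
        have : A.1 = (a + b) * A.1 := by rw [hab, one_mul]
        linear_combination this
      rw [e1]
      have e2 : A.2.2 = (a + b) * A.2.2 := by rw [hab, one_mul]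
      linarith [e2]
  exact hc.sup (convexOn_const 0 convex_univ)

/-! ### The tables -/

def gT : Fin 6 → Fin 6 → ℤ :=
  ![![-200000, -133000, -67000, -1000, -100000, -200000],
    ![0, 0, 0, 0, -66000, -133000],
    ![-50000, 0, 6000, 1000, -32500, -66000],
    ![-100000, 0, 3000, 2000, 1000, 0],
    ![-150000, 0, 0, 0, 0, -100000],
    ![-200000, 0, -50000, -100000, -150000, -200000]]

def uT : Fin 6 → Fin 6 → Fin 6 → ℤ :=
  ![![![-300000, -199700, -100034, -1000, -150184, -300000],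
    ![0, -3165, -6962, -11392, -105063, -199367],
    ![-74051, -33709, 6000, -22418, -60576, -99367],
    ![-148734, -100082, -52063, -34076, -16722, 0],
    ![-224051, -167089, -110759, -55063, 0, -149684],
    ![-300000, -234728, -170089, -212759, -256063, -300000]],
   ![![-300000, -200325, -100658, -1000, -150496, -300000],
    ![0, -214, -437, -668, -100326, -199992],
    ![-74988, -148, 6000, -344, -50164, -99992],
    ![-149984, -91, -56, -29, -10, 0],
    ![-224988, -41, -37518, -75002, -112495, -149996],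
    ![-300000, 0, -74988, -149984, -224988, -300000]],
   ![![-300000, -200330, -100664, -1000, -150499, -300000],
    ![0, -224, -450, -680, -100337, -199997],
    ![-74996, -163, -261, -362, -50178, -99997],
    ![-149994, -106, -75, -47, -22, 0],
    ![-224996, -52, -32, -14, 0, -149999],
    ![-300000, 0, -74996, -149994, -224996, -300000]],
   ![![-300000, -200330, -100664, -1000, -150498, -300000],
    ![0, -247, -496, -749, -112869, -224992],
    ![-74995, -180, 6000, -502, -75243, -243739],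
    ![-149994, -117, 2984, -257, -37620, -262490],
    ![-224995, -57, -35, -16, 0, -281243],
    ![-300000, 0, -74995, -149994, -224995, -300000]],
   ![![-300000, -232424, -165018, -209843, -254837, -300000],
    ![0, -39627, -79424, -119390, -159526, -199831],
    ![-74746, -29467, 6000, -29108, -64384, -99831],
    ![-149661, -19475, -48, 137, 153, 0],
    ![-224746, -9653, -6266, -3048, 0, -149915],
    ![-300000, 0, -74746, -149661, -224746, -300000]],
   ![![-300000, -199892, -100225, -1000, -150279, -300000],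
    ![-271610, -159030, -46892, -2209, -100663, -199558],
    ![-243661, -118610, 6000, -3859, -51488, -99558],
    ![-261999, -78631, -9590, -5951, -2755, 0],
    ![-280779, -39095, -25621, -12590, 0, -149779],
    ![-300000, 0, -74337, -149117, -224337, -300000]]]

def kn : Fin 6 → Fin 6 × Fin 6 := ![(5, 1), (4, 4), (2, 2), (3, 5), (0, 3), (1, 0)]

lemma tab_g : Tab 400000 gT ∧ Tab 400000 (fun i j => gT j i) := by decide

lemma tab_u : ∀ m, Tab 400001 (uT m) ∧ Tab 400001 (fun i j => uT m j i) := by decide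

lemma gap_u : ∀ m i j, uT m i j ≤ gT i j := by decide

lemma gap_u0 : ∀ m i j, uT m i j = gT i j → ∃ l, l ≠ m ∧ kn l = (i, j) := by decide

lemma eq_u : ∀ m l, l ≠ m → uT m (kn l).1 (kn l).2 = gT (kn l).1 (kn l).2 := by decide

lemma kn_inj1 : ∀ l l', (kn l).1 = (kn l').1 → l = l' := by decide

lemma kn_inj2 : ∀ l l', (kn l).2 = (kn l').2 → l = l' := by decide

noncomputable def G (x y : ℝ) : ℝ := F 400000 gT x y

noncomputable def U (m : Fin 6) (x y : ℝ) : ℝ := F 400001 (uT m) x y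

lemma sepConc_G : SepConc G := sepConc_F tab_g.1 tab_g.2

lemma sepConc_U (m : Fin 6) : SepConc (U m) := sepConc_F (tab_u m).1 (tab_u m).2

lemma G_sub_U (m : Fin 6) (x y : ℝ) :
    G x y - U m x y = ∑ i, ∑ j, ((gT i j - uT m i j : ℤ) : ℝ) * w i x * w j y
      + (out x + out y) := by
  unfold G U F
  have : ∑ i, ∑ j, ((gT i j - uT m i j : ℤ) : ℝ) * w i x * w j y
      = ∑ i, ∑ j, (gT i j : ℝ) * w i x * w j y - ∑ i, ∑ j, (uT m i j : ℝ) * w i x * w j y := by
    rw [← Finset.sum_sub_distrib]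
    apply Finset.sum_congr rfl; intro i _
    rw [← Finset.sum_sub_distrib]
    apply Finset.sum_congr rfl; intro j _
    push_cast; ring
  rw [this]
  push_cast
  ring

lemma term_nonneg (m i j : Fin 6) (x y : ℝ) :
    0 ≤ ((gT i j - uT m i j : ℤ) : ℝ) * w i x * w j y := by
  have h : (0 : ℝ) ≤ ((gT i j - uT m i j : ℤ) : ℝ) := by
    have := gap_u m i j
    exact_mod_cast (sub_nonneg.mpr this)
  exact mul_nonneg (mul_nonneg h (w_nonneg i x)) (w_nonneg j y)

lemma U_le_G (m : Fin 6) (x y : ℝ) : U m x y ≤ G x y := by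
  have h := G_sub_U m x y
  have h1 : 0 ≤ ∑ i, ∑ j, ((gT i j - uT m i j : ℤ) : ℝ) * w i x * w j y :=
    Finset.sum_nonneg fun i _ => Finset.sum_nonneg fun j _ => term_nonneg m i j x y
  have h2 := out_nonneg x
  have h3 := out_nonneg y
  linarith

lemma exists_w_ne (x : ℝ) : ∃ i, w i x ≠ 0 := by
  by_contra hcon
  push Not at hcon
  have := sum_w x
  simp [hcon] at this

lemma coord_of_w {x : ℝ} (hx : out x = 0) {i : Fin 6} (h : ∀ i', i' ≠ i → w i' x = 0) :
    x = (i.val : ℝ) := by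
  have hs := sum_w x
  have hid := sum_id_w x
  rw [Finset.sum_eq_single i (fun b _ hb => h b hb) (by simp)] at hs
  rw [Finset.sum_eq_single i (fun b _ hb => by rw [h b hb, mul_zero]) (by simp), hs, mul_one,
    hp_zero] at hid
  unfold out at hx
  have h1 := le_max_right (-x) 0
  have h2 : 0 ≤ hp 5 x := le_max_right _ _
  linarith

lemma gap_zero (m : Fin 6) {x y : ℝ} (h : G x y ≤ U m x y) :
    ∃ l, l ≠ m ∧ x = ((kn l).1.val : ℝ) ∧ y = ((kn l).2.val : ℝ) := by
  have hs := G_sub_U m x y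
  have hin : ∀ i, 0 ≤ ∑ j, ((gT i j - uT m i j : ℤ) : ℝ) * w i x * w j y :=
    fun i => Finset.sum_nonneg fun j _ => term_nonneg m i j x y
  have h1 : 0 ≤ ∑ i, ∑ j, ((gT i j - uT m i j : ℤ) : ℝ) * w i x * w j y :=
    Finset.sum_nonneg fun i _ => hin i
  have h2 := out_nonneg x
  have h3 := out_nonneg y
  have ox : out x = 0 := by linarith
  have oy : out y = 0 := by linarith
  have hz : ∑ i, ∑ j, ((gT i j - uT m i j : ℤ) : ℝ) * w i x * w j y = 0 := by linarith
  have hz' : ∀ i j, ((gT i j - uT m i j : ℤ) : ℝ) * w i x * w j y = 0 := by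
    intro i j
    have hi := (Finset.sum_eq_zero_iff_of_nonneg (fun i _ => hin i)).mp hz i (Finset.mem_univ i)
    exact (Finset.sum_eq_zero_iff_of_nonneg (fun j _ => term_nonneg m i j x y)).mp hi j
      (Finset.mem_univ j)
  have node : ∀ i j, w i x ≠ 0 → w j y ≠ 0 → ∃ l, l ≠ m ∧ kn l = (i, j) := by
    intro i j hi hj
    have := hz' i j
    have h0 : ((gT i j - uT m i j : ℤ) : ℝ) = 0 := by
      rcases mul_eq_zero.mp this with h | h
      · rcases mul_eq_zero.mp h with h | h
        · exact h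
        · exact absurd h hi
      · exact absurd h hj
    have h0' : gT i j - uT m i j = 0 := by exact_mod_cast h0
    exact gap_u0 m i j (by omega)
  obtain ⟨i, hi⟩ := exists_w_ne x
  obtain ⟨j, hj⟩ := exists_w_ne y
  obtain ⟨l, hl, hkl⟩ := node i j hi hj
  refine ⟨l, hl, ?_, ?_⟩
  · rw [hkl]
    apply coord_of_w ox
    intro i' hi'
    by_contra hne
    obtain ⟨l', _, hkl'⟩ := node i' j hne hj
    have : l = l' := kn_inj2 l l' (by rw [hkl, hkl'])
    subst this
    rw [hkl] at hkl'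
    exact hi' (Prod.ext_iff.mp hkl').1.symm
  · rw [hkl]
    apply coord_of_w oy
    intro j' hj'
    by_contra hne
    obtain ⟨l', _, hkl'⟩ := node i j' hi hne
    have : l = l' := kn_inj1 l l' (by rw [hkl, hkl'])
    subst this
    rw [hkl] at hkl'
    exact hj' (Prod.ext_iff.mp hkl').2.symm

/-! ### The six points -/

noncomputable def kp (l : Fin 6) : Pt :=
  (((kn l).1.val : ℝ), ((kn l).2.val : ℝ), (gT (kn l).1 (kn l).2 : ℝ))

noncomputable def K6 : Set Pt := Set.range kp

/-- The invariant: below the graph of `G`, and strictly below except at the six points. -/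
def S : Set Pt := {A | A.2.2 ≤ G A.1 A.2.1 ∧ (A.2.2 = G A.1 A.2.1 → A ∈ K6)}

lemma G_kp (l : Fin 6) : G (kp l).1 (kp l).2.1 = (kp l).2.2 := F_node _ _ _ _

lemma U_kp {m l : Fin 6} (h : l ≠ m) : U m (kp l).1 (kp l).2.1 = (kp l).2.2 := by
  unfold U kp
  simp only
  rw [F_node, eq_u m l h]

lemma kp_mem_S (l : Fin 6) : kp l ∈ S := ⟨(G_kp l).ge, fun _ => ⟨l, rfl⟩⟩

lemma closure_S (T : Fin 4 → Pt) (hT : ∀ k, T k ∈ S) : rcHull (Set.range T) ⊆ S := by
  -- one of the six points is missing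
  obtain ⟨m, hm⟩ : ∃ m, kp m ∉ Set.range T := by
    by_contra hcon
    push Not at hcon
    choose g hg using hcon
    have hinj : Function.Injective g := by
      intro a b hab
      have : kp a = kp b := by rw [← hg a, ← hg b, hab]
      have h1 : ((kn a).1.val : ℝ) = ((kn b).1.val : ℝ) := congrArg Prod.fst this
      have h2 : (kn a).1.val = (kn b).1.val := by exact_mod_cast h1
      exact kn_inj1 a b (Fin.ext h2)
    have := Fintype.card_le_of_injective g hinj
    simp at this
  -- a small parameter for each point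
  have hex : ∀ k, ∃ e : ℝ, 0 < e ∧ e ≤ 1 ∧ ∀ e', 0 ≤ e' → e' ≤ e →
      (T k).2.2 ≤ (1 - e') * G (T k).1 (T k).2.1 + e' * U m (T k).1 (T k).2.1 := by
    intro k
    by_cases hk : T k ∈ K6
    · obtain ⟨l, hl⟩ := hk
      have hlm : l ≠ m := by
        rintro rfl
        exact hm ⟨k, hl.symm⟩
      refine ⟨1, one_pos, le_refl _, fun e' _ _ => ?_⟩
      rw [← hl, G_kp, U_kp hlm]
      apply le_of_eq; ring
    · have h1 := (hT k).1
      have h2 : (T k).2.2 < G (T k).1 (T k).2.1 :=
        lt_of_le_of_ne h1 fun h => hk ((hT k).2 h)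
      have hd := U_le_G m (T k).1 (T k).2.1
      set a := G (T k).1 (T k).2.1 with ha
      set b := U m (T k).1 (T k).2.1 with hb
      set z := (T k).2.2 with hz
      have hpos : 0 < a - b + 1 := by linarith
      refine ⟨min 1 ((a - z) / (a - b + 1)), lt_min one_pos (div_pos (by linarith) hpos),
        min_le_left _ _, fun e' he0 he' => ?_⟩
      have h3 : e' ≤ (a - z) / (a - b + 1) := he'.trans (min_le_right _ _)
      rw [le_div_iff₀ hpos] at h3
      nlinarith
  choose e he0 he1 he using hex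
  set ε : ℝ := min (min (e 0) (e 1)) (min (e 2) (e 3)) with hε
  have hε0 : 0 < ε := lt_min (lt_min (he0 0) (he0 1)) (lt_min (he0 2) (he0 3))
  have hεk : ∀ k, ε ≤ e k := by
    intro k
    fin_cases k
    · exact (min_le_left _ _).trans (min_le_left _ _)
    · exact (min_le_left _ _).trans (min_le_right _ _)
    · exact (min_le_right _ _).trans (min_le_left _ _)
    · exact (min_le_right _ _).trans (min_le_right _ _)
  have hε1 : ε ≤ 1 := (hεk 0).trans (he1 0)
  have hsc : SepConc (fun x y => (1 - ε) * G x y + ε * U m x y) :=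
    sepConc_G.comb (sepConc_U m) hε0.le hε1
  intro A hA
  have hf := hA _ (rankOneConvex_of_sepConc hsc) (by
    rintro B ⟨k, rfl⟩
    have := he k ε hε0.le (hεk k)
    exact max_eq_right (by linarith))
  have hA' : A.2.2 ≤ (1 - ε) * G A.1 A.2.1 + ε * U m A.1 A.2.1 := by
    have := (le_max_left _ _).trans hf
    linarith
  have hUG := U_le_G m A.1 A.2.1
  refine ⟨by nlinarith, fun hEq => ?_⟩
  have hGU : G A.1 A.2.1 ≤ U m A.1 A.2.1 := by
    rw [hEq] at hA'
    have : ε * G A.1 A.2.1 ≤ ε * U m A.1 A.2.1 := by linarith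
    exact le_of_mul_le_mul_left this hε0
  obtain ⟨l, _, hx, hy⟩ := gap_zero m hGU
  refine ⟨l, ?_⟩
  have hz : (kp l).2.2 = A.2.2 := by
    rw [← G_kp l, hEq]
    show G ((kn l).1.val : ℝ) ((kn l).2.val : ℝ) = _
    rw [← hx, ← hy]
  exact Prod.ext hx.symm (Prod.ext hy.symm hz)

lemma rankOne_le {f : Pt → ℝ} (hf : RankOneConvex f) {P d : Pt} (hd : RankOneDir d) {t : ℝ}
    (h0 : 0 ≤ t) (h1 : t ≤ 1) : f (P + t • d) ≤ (1 - t) * f P + t * f (P + d) := by
  have h := (hf P d hd).2 (Set.mem_univ 0) (Set.mem_univ 1) (show 0 ≤ 1 - t by linarith) h0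
    (by ring)
  simpa using h

lemma segment_S {A B : Pt} (hA : A ∈ S) (hB : B ∈ S) (hd : RankOneDir (B - A)) :
    segment ℝ A B ⊆ S := by
  intro C hC
  apply closure_S ![A, B, B, B] (by intro k; fin_cases k <;> simp [hA, hB])
  intro f hf h0
  rw [segment_eq_image'] at hC
  obtain ⟨t, ⟨ht0, ht1⟩, rfl⟩ := hC
  have h := rankOne_le hf (P := A) hd ht0 ht1
  have e1 : A + (B - A) = B := by abel
  rw [e1] at h
  have fA : f A = 0 := h0 A ⟨0, rfl⟩
  have fB : f B = 0 := h0 B ⟨1, rfl⟩
  rw [fA, fB] at h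
  simpa using h

lemma stage_sub (i : ℕ) : stage K6 i ⊆ S := by
  induction i with
  | zero =>
    rintro A ⟨l, rfl⟩
    exact kp_mem_S l
  | succ i ih =>
    rintro A ((hA | ⟨T, _, hT, hA⟩) | ⟨B, hB, C, hC, hd, hA⟩)
    · exact ih hA
    · exact closure_S T (fun k => ih (hT k)) hA
    · exact segment_S (ih hB) (ih hC) hd hA

/-- The missing point. -/
noncomputable def P0 : Pt := (1, 1, 0)

lemma P0_not_mem (i : ℕ) : P0 ∉ stage K6 i := by
  intro h
  have hS := stage_sub i h
  have hG : G 1 1 = 0 := by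
    have := F_node 400000 gT 1 1
    have e : gT 1 1 = 0 := by decide
    rw [e] at this
    simpa [G] using this
  have := hS.2 (by show (0:ℝ) = G 1 1; rw [hG])
  obtain ⟨l, hl⟩ := this
  have h1 : ((kn l).1.val : ℝ) = 1 := congrArg Prod.fst hl
  have h2 : ((kn l).2.val : ℝ) = 1 := congrArg (fun q : Pt => q.2.1) hl
  have h1' : (kn l).1.val = 1 := by exact_mod_cast h1
  have h2' : (kn l).2.val = 1 := by exact_mod_cast h2
  have : ∀ l, ¬ ((kn l).1.val = 1 ∧ (kn l).2.val = 1) := by decide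
  exact this l ⟨h1', h2'⟩

lemma kp_eq : kp 0 = (5, 1, 0) ∧ kp 1 = (4, 4, 0) ∧ kp 2 = (2, 2, 6000) ∧ kp 3 = (3, 5, 0) ∧
    kp 4 = (0, 3, -1000) ∧ kp 5 = (1, 0, 0) := by
  refine ⟨?_, ?_, ?_, ?_, ?_, ?_⟩ <;> simp [kp, kn, gT]

lemma P0_mem : P0 ∈ rcHull K6 := by
  intro f hf h0
  obtain ⟨k0, k1, k2, k3, k4, k5⟩ := kp_eq
  have z0 : f (5, 1, 0) = 0 := by rw [← k0]; exact h0 _ ⟨0, rfl⟩
  have z1 : f (4, 4, 0) = 0 := by rw [← k1]; exact h0 _ ⟨1, rfl⟩
  have z2 : f (2, 2, 6000) = 0 := by rw [← k2]; exact h0 _ ⟨2, rfl⟩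
  have z3 : f (3, 5, 0) = 0 := by rw [← k3]; exact h0 _ ⟨3, rfl⟩
  have z4 : f (0, 3, -1000) = 0 := by rw [← k4]; exact h0 _ ⟨4, rfl⟩
  have z5 : f (1, 0, 0) = 0 := by rw [← k5]; exact h0 _ ⟨5, rfl⟩
  have a1 := rankOne_le hf (P := (1, 1, 0)) (d := (4, 0, 0)) (t := 3 / 4)
    ⟨by simp, by simp⟩ (by norm_num) (by norm_num)
  have a2 := rankOne_le hf (P := (4, 1, 0)) (d := (0, 3, 0)) (t := 1 / 3)
    ⟨by simp, by simp⟩ (by norm_num) (by norm_num)
  have a3 := rankOne_le hf (P := (4, 2, 0)) (d := (-2, 0, 6000)) (t := 1 / 2)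
    ⟨by simp, by simp⟩ (by norm_num) (by norm_num)
  have a4 := rankOne_le hf (P := (3, 2, 3000)) (d := (0, 3, -3000)) (t := 1 / 3)
    ⟨by simp, by simp⟩ (by norm_num) (by norm_num)
  have a5 := rankOne_le hf (P := (3, 3, 2000)) (d := (-3, 0, -3000)) (t := 2 / 3)
    ⟨by simp, by simp⟩ (by norm_num) (by norm_num)
  have a6 := rankOne_le hf (P := (1, 3, 0)) (d := (0, -3, 0)) (t := 2 / 3)
    ⟨by simp, by simp⟩ (by norm_num) (by norm_num)
  norm_num at a1 a2 a3 a4 a5 a6
  rw [z0] at a1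
  rw [z1] at a2
  rw [z2] at a3
  rw [z3] at a4
  rw [z4] at a5
  rw [z5] at a6
  show f (1, 1, 0) ≤ 0
  linarith

theorem main : ∃ K : Set Pt, K.Finite ∧ ∃ A ∈ rcHull K, ∀ i, A ∉ stage K i :=
  ⟨K6, Set.finite_range kp, P0, P0_mem, P0_not_mem⟩

end Pool.Agent.V11269.T4
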