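import Mathlib

/-!
Shift operator on sequences, linear recurrences, and sequences whose distances to the nearest
integer are small.
-/

namespace Pool.Agent.V11269.LinRec

open Polynomial Filter Topology

/-- The distance from `x` to the nearest integer. -/
noncomputable def nd (x : ℝ) : ℝ := |x - round x|

lemma nd_nonneg (x : ℝ) : 0 ≤ nd x := abs_nonneg _

lemma nd_le_half (x : ℝ) : nd x ≤ 1 / 2 := abs_sub_round x

lemma nd_le_abs_sub_int (x : ℝ) (m : ℤ) : nd x ≤ |x - m| := round_le x m

lemma nd_add_int (x : ℝ) (m : ℤ) : nd (x + m) = nd x := by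
  unfold nd; rw [round_add_intCast]; push_cast; congr 1; ring

lemma nd_eq_abs {x : ℝ} (h : |x| < 1 / 2) : nd x = |x| := by
  have : round x = 0 := by
    rw [round_eq_zero_iff]
    rw [abs_lt] at h
    exact ⟨by linarith [h.1], by linarith [h.2]⟩
  unfold nd; rw [this]; simp

/-- The shift operator `(E f)(n) = f (n+1)`. -/
def shift (R : Type*) [CommRing R] : Module.End R (ℕ → R) where
  toFun f := fun n => f (n + 1)
  map_add' _ _ := rfl
  map_smul' _ _ := rfl

@[simp] lemma shift_apply {R : Type*} [CommRing R] (f : ℕ → R) (n : ℕ) :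
    shift R f n = f (n + 1) := rfl

lemma shift_pow_apply {R : Type*} [CommRing R] (i : ℕ) (f : ℕ → R) (n : ℕ) :
    (shift R ^ i) f n = f (n + i) := by
  induction i generalizing n with
  | zero => simp
  | succ i ih =>
    rw [pow_succ', Module.End.mul_apply, shift_apply, ih]
    congr 1; omega

lemma aeval_shift_apply {R : Type*} [CommRing R] (Q : R[X]) (f : ℕ → R) (n : ℕ) :
    (aeval (shift R) Q) f n = ∑ i ∈ Finset.range (Q.natDegree + 1), Q.coeff i * f (n + i) := by
  rw [aeval_eq_sum_range]
  simp [LinearMap.sum_apply, Finset.sum_apply, shift_pow_apply]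

lemma sub_shift_pow_apply (α : ℂ) (m : ℕ) (f : ℕ → ℂ) (n : ℕ) :
    ((aeval (shift ℂ) ((X - C α) ^ m)) (fun n => f n * α ^ n)) n =
      α ^ m * ((fwdDiff 1)^[m] f) n * α ^ n := by
  induction m generalizing f n with
  | zero => simp
  | succ m ih =>
    rw [pow_succ, map_mul, Module.End.mul_apply]
    have h1 : (aeval (shift ℂ) (X - C α)) (fun n => f n * α ^ n) =
        fun n => (α * fwdDiff 1 f n) * α ^ n := by
      funext j
      simp only [map_sub, aeval_X, aeval_C, LinearMap.sub_apply, Pi.sub_apply, shift_apply,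
        Module.algebraMap_end_apply, Pi.smul_apply, smul_eq_mul, fwdDiff]
      ring
    rw [h1]
    rw [ih (fun n => α * fwdDiff 1 f n) n]
    rw [Function.iterate_succ_apply]
    have h2 : (fwdDiff 1)^[m] (fun n => α * fwdDiff 1 f n) = fun n => α * ((fwdDiff 1)^[m] (fwdDiff 1 f)) n := by
      have := fwdDiff_iter_const_smul (R := ℂ) (1 : ℕ) α (fwdDiff 1 f) m
      simpa [Pi.smul_def, smul_eq_mul] using this
    rw [h2]
    ring

lemma fwdDiff_iter_natCast (p : ℂ[X]) (m n : ℕ) :
    ((fwdDiff 1)^[m] (fun n : ℕ => p.eval (n : ℂ))) n = ((fwdDiff 1)^[m] p.eval) (n : ℂ) := by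
  induction m generalizing n with
  | zero => simp
  | succ m ih =>
    rw [Function.iterate_succ_apply', Function.iterate_succ_apply']
    simp only [fwdDiff]
    rw [ih, ih]
    push_cast
    rfl

/-- Exponential polynomials are annihilated by powers of `X - α`. -/
lemma kill (α : ℂ) (p : ℂ[X]) (k : ℕ) (hp : p.natDegree ≤ k) :
    (aeval (shift ℂ) ((X - C α) ^ (k + 1))) (fun n => p.eval (n : ℂ) * α ^ n) = 0 := by
  funext n
  rw [sub_shift_pow_apply α (k + 1) (fun n => p.eval (n : ℂ)) n, fwdDiff_iter_natCast,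
    Polynomial.fwdDiff_iter_eq_zero_of_degree_lt (Nat.lt_succ_of_le hp)]
  simp

lemma kill_of_dvd {α : ℂ} {p : ℂ[X]} {k : ℕ} (hp : p.natDegree ≤ k) {Q : ℂ[X]}
    (hQ : (X - C α) ^ (k + 1) ∣ Q) :
    (aeval (shift ℂ) Q) (fun n => p.eval (n : ℂ) * α ^ n) = 0 := by
  obtain ⟨T, rfl⟩ := hQ
  rw [mul_comm, map_mul, Module.End.mul_apply, kill α p k hp, map_zero]

/-- `(aeval E Q) f` is bounded if `f` is. -/
lemma aeval_bounded (Q : ℂ[X]) (f : ℕ → ℂ) (hf : ∃ B, ∀ n, ‖f n‖ ≤ B) :
    ∃ B, ∀ n, ‖(aeval (shift ℂ) Q) f n‖ ≤ B := by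
  obtain ⟨B, hB⟩ := hf
  refine ⟨∑ i ∈ Finset.range (Q.natDegree + 1), ‖Q.coeff i‖ * B, fun n => ?_⟩
  rw [aeval_shift_apply]
  refine (norm_sum_le _ _).trans (Finset.sum_le_sum fun i _ => ?_)
  rw [norm_mul]
  exact mul_le_mul_of_nonneg_left (hB _) (norm_nonneg _)

/-- A bounded sequence annihilated by a product of `E - α` with `|α| > 1` vanishes. -/
lemma eq_zero_of_bounded (s : Multiset ℂ) (hs : ∀ α ∈ s, 1 < ‖α‖) (f : ℕ → ℂ)
    (hf : ∃ B, ∀ n, ‖f n‖ ≤ B) (h : (aeval (shift ℂ) (s.map (fun α => X - C α)).prod) f = 0) :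
    f = 0 := by
  induction s using Multiset.induction_on generalizing f with
  | empty => simpa using h
  | cons α s ih =>
    rw [Multiset.map_cons, Multiset.prod_cons, map_mul, Module.End.mul_apply] at h
    set g := (aeval (shift ℂ) (s.map (fun α => X - C α)).prod) f with hg
    have hgb : ∃ B, ∀ n, ‖g n‖ ≤ B := aeval_bounded _ _ hf
    have hg0 : g = 0 := by
      have hrec : ∀ n, g (n + 1) = α * g n := by
        intro n
        have := congrFun h n
        simp only [map_sub, aeval_X, aeval_C, LinearMap.sub_apply, Pi.sub_apply, shift_apply,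
          Module.algebraMap_end_apply, Pi.smul_apply, smul_eq_mul, Pi.zero_apply] at this
        exact sub_eq_zero.1 this
      have hpow : ∀ j n, g (n + j) = α ^ j * g n := by
        intro j
        induction j with
        | zero => intro n; simp
        | succ j ihj => intro n; rw [← add_assoc, hrec, ihj, pow_succ]; ring
      obtain ⟨B, hB⟩ := hgb
      have hα : 1 < ‖α‖ := hs α (Multiset.mem_cons_self _ _)
      funext n
      by_contra hne
      simp only [Pi.zero_apply] at hne
      have hpos : 0 < ‖g n‖ := norm_pos_iff.2 hne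
      obtain ⟨j, hj⟩ := pow_unbounded_of_one_lt (B / ‖g n‖) hα
      have := hB (n + j)
      rw [hpow, norm_mul, norm_pow] at this
      rw [div_lt_iff₀ hpos] at hj
      linarith
    exact ih (fun β hβ => hs β (Multiset.mem_cons_of_mem hβ)) f hf hg0

/-- The length (sum of absolute values of the coefficients) of an integer polynomial. -/
def len (Q : ℤ[X]) : ℤ := ∑ i ∈ Finset.range (Q.natDegree + 1), |Q.coeff i|

lemma len_pos {Q : ℤ[X]} (hQ : Q.Monic) : 1 ≤ len Q := by
  unfold len
  have h1 : |Q.coeff Q.natDegree| ≤ ∑ i ∈ Finset.range (Q.natDegree + 1), |Q.coeff i| :=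
    Finset.single_le_sum (f := fun i => |Q.coeff i|) (fun i _ => abs_nonneg _)
      (Finset.mem_range.2 (Nat.lt_succ_self _))
  have h2 : Q.coeff Q.natDegree = 1 := hQ
  rw [h2] at h1
  simpa using h1

/-- If a real sequence satisfies an integer recurrence and is close to integers from `n₀` on, then
the nearest integers satisfy the same recurrence from `n₀` on. -/
lemma round_rec (Q : ℤ[X]) (x : ℕ → ℝ) (n₀ : ℕ)
    (hx : ∀ n, ∑ i ∈ Finset.range (Q.natDegree + 1), (Q.coeff i : ℝ) * x (n + i) = 0)
    (δ : ℝ) (hδ : δ * len Q ≤ 1) (hlen : 1 ≤ len Q)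
    (hclose : ∀ n, n₀ ≤ n → nd (x n) < δ) (n : ℕ) (hn : n₀ ≤ n) :
    ∑ i ∈ Finset.range (Q.natDegree + 1), Q.coeff i * round (x (n + i)) = 0 := by
  have hlen' : (1 : ℝ) ≤ len Q := by exact_mod_cast hlen
  set S := ∑ i ∈ Finset.range (Q.natDegree + 1), Q.coeff i * round (x (n + i)) with hS
  have h1 : (S : ℝ) = ∑ i ∈ Finset.range (Q.natDegree + 1),
      (Q.coeff i : ℝ) * ((round (x (n + i)) : ℝ) - x (n + i)) := by
    rw [hS]
    push_cast
    simp only [mul_sub, Finset.sum_sub_distrib, hx n, sub_zero]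
  have hne : ∃ i ∈ Finset.range (Q.natDegree + 1), 0 < |(Q.coeff i : ℝ)| := by
    by_contra hcon
    push Not at hcon
    have : len Q = 0 := by
      unfold len
      apply Finset.sum_eq_zero
      intro i hi
      have := le_antisymm (hcon i hi) (abs_nonneg _)
      rw [abs_eq_zero] at this ⊢
      exact_mod_cast this
    omega
  have h2 : |(S : ℝ)| < 1 := by
    rw [h1]
    calc |∑ i ∈ Finset.range (Q.natDegree + 1), (Q.coeff i : ℝ) * ((round (x (n + i)) : ℝ) - x (n + i))|
        ≤ ∑ i ∈ Finset.range (Q.natDegree + 1), |(Q.coeff i : ℝ) * ((round (x (n + i)) : ℝ) - x (n + i))| :=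
          Finset.abs_sum_le_sum_abs _ _
      _ < ∑ i ∈ Finset.range (Q.natDegree + 1), |(Q.coeff i : ℝ)| * δ := by
          apply Finset.sum_lt_sum
          · intro i _
            rw [abs_mul]
            apply mul_le_mul_of_nonneg_left _ (abs_nonneg _)
            rw [abs_sub_comm]
            exact (hclose (n + i) (by omega)).le
          · obtain ⟨i, hi, hpos⟩ := hne
            refine ⟨i, hi, ?_⟩
            rw [abs_mul]
            apply mul_lt_mul_of_pos_left _ hpos
            rw [abs_sub_comm]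
            exact hclose (n + i) (by omega)
      _ = δ * len Q := by
          rw [← Finset.sum_mul, mul_comm]
          unfold len
          push_cast
          rfl
      _ ≤ 1 := hδ
  have h3 : |S| < 1 := by
    rw [← Int.cast_abs] at h2
    exact_mod_cast h2
  exact Int.abs_lt_one_iff.1 h3

/-- Two integer sequences satisfying the same monic recurrence from `n₀` on that agree on the
initial window agree from `n₀` on. -/
lemma rec_unique (Q : ℤ[X]) (hQ : Q.Monic) (u v : ℕ → ℤ) (n₀ : ℕ)
    (hu : ∀ n, n₀ ≤ n → ∑ i ∈ Finset.range (Q.natDegree + 1), Q.coeff i * u (n + i) = 0)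
    (hv : ∀ n, n₀ ≤ n → ∑ i ∈ Finset.range (Q.natDegree + 1), Q.coeff i * v (n + i) = 0)
    (h0 : ∀ i, i < Q.natDegree → u (n₀ + i) = v (n₀ + i)) :
    ∀ n, u (n₀ + n) = v (n₀ + n) := by
  intro n
  induction n using Nat.strong_induction_on with
  | _ n ih =>
    by_cases hn : n < Q.natDegree
    · exact h0 n hn
    · push Not at hn
      obtain ⟨j, rfl⟩ := Nat.exists_eq_add_of_le hn
      have h1 := hu (n₀ + j) (by omega)
      have h2 := hv (n₀ + j) (by omega)
      rw [Finset.sum_range_succ] at h1 h2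
      have hlead : Q.coeff Q.natDegree = 1 := hQ
      rw [hlead] at h1 h2
      have h3 : ∑ i ∈ Finset.range Q.natDegree, Q.coeff i * u (n₀ + j + i) =
          ∑ i ∈ Finset.range Q.natDegree, Q.coeff i * v (n₀ + j + i) := by
        apply Finset.sum_congr rfl
        intro i hi
        rw [Finset.mem_range] at hi
        have := ih (j + i) (by omega)
        rw [← add_assoc] at this
        rw [this]
      rw [h3] at h1
      have h4 : u (n₀ + j + Q.natDegree) = v (n₀ + j + Q.natDegree) := by linarith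
      rw [show n₀ + (Q.natDegree + j) = n₀ + j + Q.natDegree by omega]
      exact h4

end Pool.Agent.V11269.LinRec
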