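import Pool.Agent.V11269.Salem2

/-!
An explicit Salem number: the root `> 1` of `X^4 - X^3 - X^2 - X + 1`.
-/

namespace Pool.Agent.V11269.Salem

open Polynomial Filter Topology Pool.Agent.V11269.LinRec

/-- The polynomial `X^4 - X^3 - X^2 - X + 1`. -/
noncomputable def P₀ : ℤ[X] := X ^ 4 - X ^ 3 - X ^ 2 - X + 1

lemma P₀_monic : P₀.Monic := by unfold P₀; monicity!

lemma P₀_natDegree : P₀.natDegree = 4 := by unfold P₀; compute_degree!

lemma P₀_eval (m : ℤ) : P₀.eval m = m ^ 4 - m ^ 3 - m ^ 2 - m + 1 := by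
  simp [P₀]

lemma quad_eval {g : ℤ[X]} (hg : g.Monic) (h2 : g.natDegree = 2) (m : ℤ) :
    g.eval m = m ^ 2 + g.coeff 1 * m + g.coeff 0 := by
  rw [eval_eq_sum_range, h2]
  have : g.coeff 2 = 1 := by rw [← h2]; exact hg
  simp [Finset.sum_range_succ, this]
  ring

lemma P₀_irreducible : Irreducible P₀ := by
  rw [P₀_monic.irreducible_iff_natDegree']
  refine ⟨?_, ?_⟩
  · intro h
    have := P₀_natDegree
    rw [h] at this
    simp at this
  · intro f g hf hg hfg hmem
    rw [P₀_natDegree, Finset.mem_Ioc] at hmem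
    have hdeg : f.natDegree + g.natDegree = 4 := by
      rw [← hf.natDegree_mul hg, hfg, P₀_natDegree]
    have hev : ∀ m : ℤ, f.eval m * g.eval m = m ^ 4 - m ^ 3 - m ^ 2 - m + 1 := by
      intro m; rw [← eval_mul, hfg, P₀_eval]
    have hcase : g.natDegree = 1 ∨ g.natDegree = 2 := by omega
    rcases hcase with h1 | h1
    · -- a linear factor
      have hg1 : g.coeff 1 = 1 := by rw [← h1]; exact hg
      have hge : ∀ m : ℤ, g.eval m = m + g.coeff 0 := by
        intro m
        rw [eval_eq_sum_range, h1]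
        simp [Finset.sum_range_succ, hg1]
        ring
      have h0 := hev 0
      have h1' := hev 1
      have h2' := hev (-1)
      rw [hge] at h0 h1' h2'
      norm_num at h0 h1' h2'
      have h3 : g.coeff 0 ∣ 1 := Dvd.intro_left _ h0
      rcases Int.isUnit_iff.1 (isUnit_of_dvd_one h3) with h | h
      · rw [h] at h2'; norm_num at h2'
      · rw [h] at h1'; norm_num at h1'
    · have h1f : f.natDegree = 2 := by omega
      have h0 := hev 0
      have h1' := hev 1
      have h2' := hev (-1)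
      rw [quad_eval hg h1, quad_eval hf h1f] at h0 h1' h2'
      set a := f.coeff 1
      set b := f.coeff 0
      set c := g.coeff 1
      set d := g.coeff 0
      norm_num at h0 h1' h2'
      have h3 : d ∣ 1 := Dvd.intro_left _ h0
      rcases Int.isUnit_iff.1 (isUnit_of_dvd_one h3) with h | h
      · have hb : b = 1 := by rw [h] at h0; linarith
        rw [h, hb] at h1' h2'
        have h4 : (1 + a + 1) ∣ -1 := Dvd.intro _ h1'
        rcases Int.isUnit_iff.1 (isUnit_of_dvd_one ((Int.dvd_neg).1 h4)) with h5 | h5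
        · have ha : a = -1 := by linarith
          rw [ha] at h1' h2'
          have hc : c = -3 := by linarith
          rw [hc] at h2'; norm_num at h2'
        · have ha : a = -3 := by linarith
          rw [ha] at h1' h2'
          have hc : c = -1 := by linarith
          rw [hc] at h2'; norm_num at h2'
      · have hb : b = -1 := by rw [h] at h0; linarith
        rw [h, hb] at h1' h2'
        nlinarith

/-- `y = (1 + √13) / 2`. -/
noncomputable def y₁ : ℝ := (1 + √13) / 2

/-- `y₂ = (1 - √13) / 2`. -/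
noncomputable def y₂ : ℝ := (1 - √13) / 2

lemma sqrt13 : (3.6 : ℝ) < √13 ∧ √13 < 3.7 := by
  constructor
  · rw [Real.lt_sqrt (by norm_num)]; norm_num
  · rw [Real.sqrt_lt' (by norm_num)]; norm_num

/-- The Salem number `α = (y₁ + √(y₁^2 - 4)) / 2 ≈ 1.722`. -/
noncomputable def α₀ : ℝ := (y₁ + √(y₁ ^ 2 - 4)) / 2

lemma y₁_gt : (2.3 : ℝ) < y₁ := by unfold y₁; have := sqrt13.1; linarith

lemma α₀_quad : α₀ ^ 2 - y₁ * α₀ + 1 = 0 := by
  have h1 : √(y₁ ^ 2 - 4) ^ 2 = y₁ ^ 2 - 4 := Real.sq_sqrt (by nlinarith [y₁_gt])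
  unfold α₀
  nlinarith

lemma α₀_gt : 1 < α₀ := by
  have h1 : (2.3 : ℝ) < y₁ := y₁_gt
  have h2 : 0 ≤ √(y₁ ^ 2 - 4) := Real.sqrt_nonneg _
  unfold α₀; linarith

lemma factor {R : Type*} [CommRing R] (a b z : R) (hab : a + b = 1) (hab2 : a * b = -3) :
    z ^ 4 - z ^ 3 - z ^ 2 - z + 1 = (z ^ 2 - a * z + 1) * (z ^ 2 - b * z + 1) := by
  linear_combination (z ^ 3 + z) * hab - z ^ 2 * hab2

lemma y_add : y₁ + y₂ = 1 := by unfold y₁ y₂; ring

lemma y_mul : y₁ * y₂ = -3 := by
  have : √13 ^ 2 = 13 := Real.sq_sqrt (by norm_num)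
  unfold y₁ y₂; nlinarith

lemma P₀_root : aeval α₀ P₀ = 0 := by
  have h1 : aeval α₀ P₀ = α₀ ^ 4 - α₀ ^ 3 - α₀ ^ 2 - α₀ + 1 := by simp [P₀]
  rw [h1, factor y₁ y₂ α₀ y_add y_mul, α₀_quad, zero_mul]

lemma P₀_evalC (z : ℂ) : aeval z P₀ = z ^ 4 - z ^ 3 - z ^ 2 - z + 1 := by simp [P₀]

lemma α₀_int : IsIntegral ℤ α₀ := ⟨P₀, P₀_monic, P₀_root⟩

lemma P₀_map_eval (z : ℂ) : aeval z (minpoly ℚ α₀) = z ^ 4 - z ^ 3 - z ^ 2 - z + 1 := by
  have h1 : minpoly ℚ α₀ = P₀.map (Int.castRingHom ℚ) := by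
    symm
    apply minpoly.eq_of_irreducible_of_monic
    · exact (P₀_monic.irreducible_iff_irreducible_map_fraction_map (K := ℚ)).1 P₀_irreducible
    · rw [aeval_def, eval₂_map]
      have h2 := P₀_root
      rw [aeval_def] at h2
      have h3 : (algebraMap ℚ ℝ).comp (Int.castRingHom ℚ) = algebraMap ℤ ℝ := RingHom.ext_int _ _
      rw [h3]
      exact h2
    · exact P₀_monic.map _
  rw [h1, aeval_def, eval₂_map, ← P₀_evalC, aeval_def]
  congr 1

lemma isSalem_α₀ : IsSalem α₀ := by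
  have hadd : (y₁ : ℂ) + (y₂ : ℂ) = 1 := by exact_mod_cast y_add
  have hmul : (y₁ : ℂ) * (y₂ : ℂ) = -3 := by exact_mod_cast y_mul
  have hy2 : y₂ ^ 2 < 4 := by
    unfold y₂; have := sqrt13; nlinarith
  refine ⟨α₀_gt, α₀_int, ?_, ?_⟩
  · intro z hz hne
    rw [P₀_map_eval, factor (y₁ : ℂ) (y₂ : ℂ) z hadd hmul] at hz
    rcases mul_eq_zero.1 hz with h | h
    · -- the other real root
      have hq : (α₀ : ℂ) ^ 2 - (y₁ : ℂ) * α₀ + 1 = 0 := by exact_mod_cast α₀_quad
      have h1 : (z - α₀) * (z - (y₁ - α₀)) = 0 := by linear_combination h - hq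
      have h2 : z = ((y₁ - α₀ : ℝ) : ℂ) := by
        rcases mul_eq_zero.1 h1 with h3 | h3
        · exact absurd (sub_eq_zero.1 h3) hne
        · push_cast; exact sub_eq_zero.1 h3
      rw [h2, Complex.norm_real, Real.norm_eq_abs]
      have h4 : α₀ * (y₁ - α₀) = 1 := by have := α₀_quad; linarith
      have h5 := α₀_gt
      have h6 : 0 < y₁ - α₀ := by
        by_contra hle
        have : α₀ * (y₁ - α₀) ≤ 0 := mul_nonpos_of_nonneg_of_nonpos (by linarith) (not_lt.1 hle)
        linarith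
      rw [abs_of_pos h6]
      nlinarith
    · -- the unimodular roots
      have hre := congrArg Complex.re h
      have him := congrArg Complex.im h
      simp only [pow_two, Complex.add_re, Complex.sub_re, Complex.mul_re, Complex.ofReal_re,
        Complex.ofReal_im, Complex.one_re, Complex.zero_re, Complex.add_im, Complex.sub_im,
        Complex.mul_im, Complex.one_im, Complex.zero_im, zero_mul, sub_zero, add_zero] at hre him
      have h1 : z.im * (2 * z.re - y₂) = 0 := by linarith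
      rcases mul_eq_zero.1 h1 with h2 | h2
      · exfalso
        rw [h2] at hre
        nlinarith [sq_nonneg (z.re - y₂ / 2)]
      · have h3 : z.re = y₂ / 2 := by linarith
        have h4 : z.im * z.im = 1 - z.re * z.re := by
          rw [h3] at hre ⊢; linarith
        have h5 : ‖z‖ ^ 2 = 1 := by
          rw [← Complex.normSq_eq_norm_sq, Complex.normSq_apply, h4]; ring
        nlinarith [norm_nonneg z]
  · refine ⟨⟨y₂ / 2, √(1 - (y₂ / 2) ^ 2)⟩, ?_, ?_⟩
    · rw [P₀_map_eval, factor (y₁ : ℂ) (y₂ : ℂ) _ hadd hmul]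
      apply mul_eq_zero_of_right
      have hs : √(1 - (y₂ / 2) ^ 2) * √(1 - (y₂ / 2) ^ 2) = 1 - (y₂ / 2) ^ 2 :=
        Real.mul_self_sqrt (by nlinarith)
      apply Complex.ext
      · simp only [pow_two, Complex.add_re, Complex.sub_re, Complex.mul_re, Complex.ofReal_re,
          Complex.ofReal_im, Complex.one_re, Complex.zero_re, zero_mul, sub_zero]
        rw [pow_two] at hs
        rw [hs]; ring
      · simp only [pow_two, Complex.add_im, Complex.sub_im, Complex.mul_im, Complex.ofReal_re,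
          Complex.ofReal_im, Complex.one_im, Complex.zero_im, zero_mul, add_zero]
        ring
    · have hs : √(1 - (y₂ / 2) ^ 2) * √(1 - (y₂ / 2) ^ 2) = 1 - (y₂ / 2) ^ 2 :=
        Real.mul_self_sqrt (by nlinarith)
      have h5 : ‖(⟨y₂ / 2, √(1 - (y₂ / 2) ^ 2)⟩ : ℂ)‖ ^ 2 = 1 := by
        rw [← Complex.normSq_eq_norm_sq, Complex.normSq_mk, hs]; ring
      nlinarith [norm_nonneg (⟨y₂ / 2, √(1 - (y₂ / 2) ^ 2)⟩ : ℂ)]

end Pool.Agent.V11269.Salem
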