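import Pool.Agent.V11269.BadTorus2

/-!
Definitions: targets on the torus, badly approximable targets, singular matrices, Haar measures of
cosets of subtori.
-/

namespace Pool.Agent.V11269.BadTorus

open MeasureTheory

/-- The torus `T^m = R^m / Z^m`. Its norm is the sup-norm distance to `Z^m`. -/
abbrev Torus (m : ℕ) := Fin m → UnitAddCircle

/-- `A q` modulo `Z^m`. -/
noncomputable def img {m n : ℕ} (A : Matrix (Fin m) (Fin n) ℝ) (q : Fin n → ℤ) : Torus m :=
  fun i => ((A.mulVec (fun j => (q j : ℝ)) i : ℝ) : UnitAddCircle)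

/-- The set of badly approximable targets for `A`: the lower limit of
`‖q‖^(n/m) ⟨A q - η⟩` as `‖q‖ → ∞` is positive. -/
def Bad {m n : ℕ} (A : Matrix (Fin m) (Fin n) ℝ) : Set (Torus m) :=
  {η | ∃ c : ℝ, 0 < c ∧ ∃ Q : ℝ, ∀ q : Fin n → ℤ, Q ≤ ‖q‖ →
    c ≤ ‖q‖ ^ ((n : ℝ) / m) * ‖img A q - η‖}

/-- `A` is singular. -/
def Singular {m n : ℕ} (A : Matrix (Fin m) (Fin n) ℝ) : Prop :=
  ∀ ε : ℝ, 0 < ε → ∃ N₀ : ℕ, ∀ N : ℕ, N₀ ≤ N →
    ∃ q : Fin n → ℤ, q ≠ 0 ∧ ‖q‖ ≤ N ∧ ‖img A q‖ ≤ ε * (N : ℝ) ^ (-((n : ℝ) / m))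

/-- The `2 × 1` matrix `(α₁, α₂)`. -/
noncomputable def mat : Matrix (Fin 2) (Fin 1) ℝ :=
  fun i _ => if i = 0 then S (fun i => (w i : ℤ)) else S (fun _ => 1)

lemma img_zero (q : Fin 1 → ℤ) : img mat q 0 = q 0 • a₁ := by
  unfold img mat a₁
  rw [zsmul_coe]
  simp [Matrix.mulVec, dotProduct, mul_comm]

lemma img_one (q : Fin 1 → ℤ) : img mat q 1 = q 0 • a₂ := by
  unfold img mat a₂
  rw [zsmul_coe]
  simp [Matrix.mulVec, dotProduct, mul_comm]

lemma norm_torus (v : Torus 2) : ‖v‖ = max ‖v 0‖ ‖v 1‖ := by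
  apply le_antisymm
  · rw [pi_norm_le_iff_of_nonneg (by positivity)]
    intro i
    fin_cases i
    · exact le_max_left _ _
    · exact le_max_right _ _
  · exact max_le (norm_le_pi_norm v 0) (norm_le_pi_norm v 1)

lemma norm_vec (q : Fin 1 → ℤ) : ‖q‖ = |(q 0 : ℝ)| := by
  apply le_antisymm
  · rw [pi_norm_le_iff_of_nonneg (by positivity)]
    intro i
    rw [Subsingleton.elim i 0, Int.norm_eq_abs]
  · have := norm_le_pi_norm q 0
    rwa [Int.norm_eq_abs] at this

lemma exponent : (((1 : ℕ) : ℝ) / ((2 : ℕ) : ℝ)) = 1 / 2 := by norm_num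

lemma mem_bad_iff (η : Torus 2) : η ∈ Bad mat ↔ ∃ c : ℝ, 0 < c ∧ ∃ Q : ℝ, ∀ q : ℤ, Q ≤ |(q : ℝ)| →
    c ≤ √|(q : ℝ)| * max ‖q • a₁ - η 0‖ ‖q • a₂ - η 1‖ := by
  unfold Bad
  simp only [Set.mem_ofPred_eq]
  constructor
  · rintro ⟨c, hc, Q, h⟩
    refine ⟨c, hc, Q, fun q hq => ?_⟩
    have h1 := h (fun _ => q) (by rw [norm_vec]; exact hq)
    rw [norm_vec, norm_torus, exponent, ← Real.sqrt_eq_rpow] at h1
    simpa [img_zero, img_one] using h1
  · rintro ⟨c, hc, Q, h⟩
    refine ⟨c, hc, Q, fun q hq => ?_⟩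
    rw [norm_vec] at hq
    have h1 := h (q 0) hq
    rw [norm_vec, norm_torus, exponent, ← Real.sqrt_eq_rpow]
    simpa [img_zero, img_one] using h1

lemma not_singular : ¬ Singular mat := by
  intro h
  obtain ⟨N₀, hN₀⟩ := h (1 / 8) (by norm_num)
  -- choose the level
  have hdvd : 16 ∣ N (N₀ + 1) ^ 2 := by
    unfold N
    rw [← pow_mul]
    have : (16 : ℕ) = 2 ^ 4 := by norm_num
    rw [this]
    apply pow_dvd_pow
    have h1 : 1 ≤ 3 ^ N₀ := Nat.one_le_pow _ _ (by norm_num)
    rw [pow_succ]; omega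
  obtain ⟨T, hT⟩ := hdvd
  have hTr : (T : ℝ) = (N (N₀ + 1) : ℝ) ^ 2 / 16 := by
    have : (N (N₀ + 1) : ℝ) ^ 2 = 16 * T := by exact_mod_cast hT
    rw [this]; ring
  have hge : N₀ ≤ T := by
    have h1 := N_succ_ge N₀
    have h2 := lt_N N₀
    have h3 : 4 * N₀ ≤ N (N₀ + 1) := by omega
    have h4 := Nat.mul_le_mul h3 h3
    nlinarith
  obtain ⟨q, hq0, hqT, hq⟩ := hN₀ T hge
  have hq1 : q 0 ≠ 0 := by
    intro h0
    apply hq0
    funext i
    rw [Subsingleton.elim i 0, h0]; rfl
  rw [norm_vec, hTr] at hqT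
  have h1 := nonsingular N₀ (q 0) hq1 hqT
  rw [norm_torus, img_zero, img_one, exponent] at hq
  have h0 := NR_pos (N₀ + 1)
  have h2 : (T : ℝ) ^ (-(1 / 2 : ℝ)) = 4 / N (N₀ + 1) := by
    rw [Real.rpow_neg (by positivity), ← Real.sqrt_eq_rpow, hTr]
    have : (N (N₀ + 1) : ℝ) ^ 2 / 16 = ((N (N₀ + 1) : ℝ) / 4) ^ 2 := by ring
    rw [this, Real.sqrt_sq (by positivity)]
    field_simp
  rw [h2] at hq
  have h3 : (1 : ℝ) / 8 * (4 / N (N₀ + 1)) = 1 / (2 * N (N₀ + 1)) := by field_simp; norm_num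
  rw [h3] at hq
  linarith

lemma mem_bad_of_ne {x : UnitAddCircle} (hx : x ≠ 0) (η : Torus 2) (h0 : η 0 = x) (h1 : η 1 = 0) :
    η ∈ Bad mat := by
  rw [mem_bad_iff]
  have := bad_of_far (x := x) (y := 0) (norm_pos_iff.2 hx) 0 (fun j _ => by simp)
  rw [h0, h1]
  simpa [gt_iff_lt] using this

lemma zero_not_mem_bad : (0 : Torus 2) ∉ Bad mat := by
  rw [mem_bad_iff]
  have := zero_not_bad
  simpa [gt_iff_lt] using this

/-- `μ` is the Haar probability measure on the coset `C` of a `k`-dimensional subtorus of `T^m`: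
the subtorus is the image of an injective continuous homomorphism `φ : T^k → T^m`,
`C = η₀ + φ(T^k)`, and `μ` is the image of the Haar probability measure of `T^k` under
`x ↦ η₀ + φ x`. -/
def AlgebraicOn {m : ℕ} (k : ℕ) (μ : Measure (Torus m)) (C : Set (Torus m)) : Prop :=
  ∃ (η₀ : Torus m) (φ : Torus k →+ Torus m), Continuous φ ∧ Function.Injective φ ∧
    C = Set.range (fun x => η₀ + φ x) ∧
    μ = (volume : Measure (Torus k)).map (fun x => η₀ + φ x)

/-- `x ↦ (x, 0)` -/
def incl : Torus 1 →+ Torus 2 where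
  toFun x := fun i => if i = 0 then x 0 else 0
  map_zero' := by funext i; simp
  map_add' x y := by funext i; by_cases h : i = 0 <;> simp [h]

lemma incl_zero (x : Torus 1) : incl x 0 = x 0 := by simp [incl]

lemma incl_one (x : Torus 1) : incl x 1 = 0 := by simp [incl]

lemma incl_cont : Continuous incl := by
  apply continuous_pi
  intro i
  by_cases h : i = 0
  · subst h
    simp only [incl_zero]
    exact continuous_apply 0
  · have : i = 1 := by omega
    subst this
    simp only [incl_one]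
    exact continuous_const

lemma incl_inj : Function.Injective incl := by
  intro x y h
  funext i
  rw [Subsingleton.elim i 0, ← incl_zero x, ← incl_zero y, h]

lemma vol_univ : (volume : Measure (Torus 1)) Set.univ = 1 := by
  rw [MeasureTheory.volume_pi, Measure.pi_univ]
  simp

instance : IsProbabilityMeasure (volume : Measure (Torus 1)) := ⟨vol_univ⟩

lemma incl_cont' : Continuous (fun x : Torus 1 => (0 : Torus 2) + incl x) := by
  simpa using incl_cont

lemma measure_bad : ((volume : Measure (Torus 1)).map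
    (fun x : Torus 1 => (0 : Torus 2) + incl x)) (Bad mat) = 1 := by
  have hcont := incl_cont'
  apply le_antisymm
  · have : IsProbabilityMeasure ((volume : Measure (Torus 1)).map
        (fun x : Torus 1 => (0 : Torus 2) + incl x)) :=
      Measure.isProbabilityMeasure_map hcont.measurable.aemeasurable
    exact prob_le_one
  · refine le_trans ?_ (Measure.le_map_apply hcont.measurable.aemeasurable _)
    have hsub : ({0}ᶜ : Set (Torus 1)) ⊆
        (fun x : Torus 1 => (0 : Torus 2) + incl x) ⁻¹' (Bad mat) := by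
      intro x hx
      simp only [Set.mem_compl_iff, Set.mem_singleton_iff] at hx
      have hx0 : x 0 ≠ 0 := by
        intro h
        apply hx
        funext i
        rw [Subsingleton.elim i 0, h]; rfl
      exact mem_bad_of_ne hx0 _ (by simp [incl_zero]) (by simp [incl_one])
    refine le_trans ?_ (measure_mono hsub)
    rw [prob_compl_eq_one_sub (MeasurableSet.singleton _)]
    have h0 : (volume : Measure (Torus 1)) {0} = 0 := by
      have h1 : ({0} : Set (Torus 1)) = Set.pi Set.univ (fun _ => {0}) := by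
        ext x; simp [funext_iff]
      have h2 : (volume : Measure UnitAddCircle) {0} = 0 := by
        have h3 := AddCircle.volume_closedBall (T := (1 : ℝ)) (x := (0 : AddCircle (1 : ℝ))) 0
        rw [Metric.closedBall_zero] at h3
        rw [h3]; simp
      rw [h1, MeasureTheory.volume_pi, Measure.pi_pi]
      simp [h2]
    rw [h0]; simp

end Pool.Agent.V11269.BadTorus
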