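import Pool.Agent.V11269.Forest

namespace Pool.Agent.V11269.Forest

open Filter Topology Complex MeasureTheory

lemma pt_ne_zero {a b : ℤ} (h : (a, b) ≠ (0, 0)) : pt a b ≠ 0 := by
  intro h0
  apply h
  have h1 := congrArg Complex.im h0
  have h2 := congrArg Complex.re h0
  rw [pt_im, Complex.zero_im] at h1
  rw [pt_re, Complex.zero_re] at h2
  have h3 := sqrt3_pos
  have hb : (b : ℝ) = 0 := by
    rcases mul_eq_zero.1 h1 with h4 | h4
    · exact h4
    · linarith
  have ha : (a : ℝ) = 0 := by rw [hb] at h2; linarith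
  rw [Prod.mk.injEq]
  exact ⟨by exact_mod_cast ha, by exact_mod_cast hb⟩

/-- Two lattices without a common rational direction. -/
lemma forest_two (c x : Fin 2 → ℂ) (hc : ∀ i, ‖c i‖ = 1)
    (h : ∀ a b a' b' : ℤ, (a, b) ≠ (0, 0) → (a', b') ≠ (0, 0) →
      (c 0 * pt a b * (starRingEnd ℂ) (c 1 * pt a' b')).im ≠ 0) : IsForest (Y c x) := by
  apply forest_of_irrational c x hc
  intro u hu
  by_contra hcon
  push Not at hcon
  obtain ⟨a, b, hab, h0⟩ := hcon 0
  obtain ⟨a', b', hab', h1⟩ := hcon 1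
  apply h a b a' b' hab hab'
  have huu : u * (starRingEnd ℂ) u = 1 := by
    rw [Complex.mul_conj, Complex.normSq_eq_norm_sq, hu]; simp
  set l0 := c 0 * pt a b
  set l1 := c 1 * pt a' b'
  have e0 : u * (starRingEnd ℂ) l0 = (((u * (starRingEnd ℂ) l0).re : ℝ) : ℂ) := by
    apply Complex.ext <;> simp [h0]
  have e1 : u * (starRingEnd ℂ) l1 = (((u * (starRingEnd ℂ) l1).re : ℝ) : ℂ) := by
    apply Complex.ext <;> simp [h1]
  set s0 := (u * (starRingEnd ℂ) l0).re
  set s1 := (u * (starRingEnd ℂ) l1).re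
  have e0' : (starRingEnd ℂ) u * l0 = (s0 : ℂ) := by
    have := congrArg (starRingEnd ℂ) e0
    rw [map_mul, Complex.conj_conj, Complex.conj_ofReal] at this
    exact this
  have e2 : l0 * (starRingEnd ℂ) l1 = ((s0 * s1 : ℝ) : ℂ) := by
    push_cast
    rw [← e0', ← e1]
    linear_combination (-(l0 * (starRingEnd ℂ) l1)) * huu
  rw [e2, Complex.ofReal_im]

instance twoPiPos : Fact (0 < 2 * Real.pi) := ⟨Real.two_pi_pos⟩

/-- The circle `S^1 = R / 2π Z`. -/
abbrev S1 := AddCircle (2 * Real.pi)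

/-- `e^{iθ}`. -/
noncomputable def ei (θ : S1) : ℂ := (AddCircle.toCircle θ : ℂ)

lemma norm_ei (θ : S1) : ‖ei θ‖ = 1 := Circle.norm_coe _

lemma ei_inj : Function.Injective ei := by
  intro a b h
  exact AddCircle.injective_toCircle Real.two_pi_pos.ne' (Circle.coe_injective h)

lemma ei_sub (a b : S1) : ei a * (starRingEnd ℂ) (ei b) = ei (a - b) := by
  unfold ei
  rw [sub_eq_add_neg, AddCircle.toCircle_add, AddCircle.toCircle_neg, Circle.coe_mul,
    Circle.coe_inv_eq_conj]

/-- The exceptional angles. -/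
def C : Set S1 := ⋃ τ : (ℤ × ℤ) × (ℤ × ℤ), {φ | τ.1 ≠ (0, 0) ∧ τ.2 ≠ (0, 0) ∧
  (ei φ * (pt τ.1.1 τ.1.2 * (starRingEnd ℂ) (pt τ.2.1 τ.2.2))).im = 0}

lemma C_countable : C.Countable := by
  apply Set.countable_iUnion
  rintro ⟨⟨a, b⟩, ⟨a', b'⟩⟩
  by_cases h : (a, b) ≠ (0, 0) ∧ (a', b') ≠ (0, 0)
  · set w := pt a b * (starRingEnd ℂ) (pt a' b') with hw
    have hw0 : w ≠ 0 := by
      apply mul_ne_zero (pt_ne_zero h.1)
      rw [Ne, map_eq_zero]
      exact pt_ne_zero h.2
    have hfin : ({(‖w‖ : ℂ) / w, -(‖w‖ : ℂ) / w} : Set ℂ).Finite := by simp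
    have hpre := hfin.preimage (f := ei) ei_inj.injOn
    apply (hpre.subset _).countable
    rintro φ ⟨-, -, hφ⟩
    have hφ' : (ei φ * w).im = 0 := hφ
    rw [Set.mem_preimage, Set.mem_insert_iff, Set.mem_singleton_iff]
    have e1 : ei φ * w = (((ei φ * w).re : ℝ) : ℂ) := by
      apply Complex.ext <;> simp [hφ']
    have e2 : |(ei φ * w).re| = ‖w‖ := by
      have : ‖ei φ * w‖ = ‖w‖ := by rw [norm_mul, norm_ei, one_mul]
      rw [e1, Complex.norm_real, Real.norm_eq_abs] at this
      exact this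
    rcases abs_choice (ei φ * w).re with h3 | h3
    · left
      rw [h3] at e2
      rw [e2] at e1
      rw [eq_div_iff hw0, e1]
    · right
      rw [h3] at e2
      have e3 : (ei φ * w).re = -‖w‖ := by linarith
      rw [e3] at e1
      rw [eq_div_iff hw0, e1]; push_cast; ring
  · convert Set.countable_empty using 1
    ext φ
    simp only [Set.mem_ofPred_eq, Set.mem_empty_iff_false, iff_false]
    intro h1
    exact h ⟨h1.1, h1.2.1⟩

instance : NullSingletonClass (volume : Measure S1) := ⟨fun x => by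
  rw [← Metric.closedBall_zero, AddCircle.volume_closedBall]
  simp [Real.pi_pos.le]⟩

lemma ae_angles : ∀ᵐ θ : Fin 2 → S1, θ 0 - θ 1 ∉ C := by
  have hC := C_countable
  have hmeas : MeasurableSet {p : S1 × S1 | p.1 - p.2 ∈ C} :=
    (measurable_fst.sub measurable_snd) hC.measurableSet
  have hnull : (volume : Measure (S1 × S1)) {p : S1 × S1 | p.1 - p.2 ∈ C} = 0 := by
    rw [Measure.volume_eq_prod, Measure.measure_prod_null hmeas]
    refine Filter.Eventually.of_forall fun a => ?_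
    have : Prod.mk a ⁻¹' {p : S1 × S1 | p.1 - p.2 ∈ C} = (fun b => a - b) '' C := by
      ext b
      simp only [Set.mem_preimage, Set.mem_ofPred_eq, Set.mem_image]
      constructor
      · intro h; exact ⟨a - b, h, by abel⟩
      · rintro ⟨c, hc, rfl⟩
        simpa using hc
    show (volume : Measure S1) (Prod.mk a ⁻¹' {p : S1 × S1 | p.1 - p.2 ∈ C}) = 0
    rw [this]
    exact (hC.image _).measure_zero _
  have hmp := volume_preserving_finTwoArrow S1
  have h2 := hmp.measure_preimage hmeas.nullMeasurableSet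
  rw [hnull] at h2
  rw [ae_iff]
  simp only [not_not]
  exact h2

/-- Almost every pair of angles works. -/
lemma forest_of_angle {θ : Fin 2 → S1} (h : θ 0 - θ 1 ∉ C) (x : Fin 2 → ℂ) :
    IsForest (Y (fun i => ei (θ i)) x) := by
  apply forest_two _ _ (fun i => norm_ei _)
  intro a b a' b' hab hab' h0
  apply h
  rw [C, Set.mem_iUnion]
  refine ⟨((a, b), (a', b')), hab, hab', ?_⟩
  rw [← h0, ← ei_sub, map_mul]
  congr 1
  ring

lemma exists_angles : ∃ θ : Fin 2 → S1, θ 0 - θ 1 ∉ C := ae_angles.exists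

/-! ### Uniformly discrete unions -/

/-- Every point is within distance one of a lattice point. -/
lemma cover (z : ℂ) : ∃ a b : ℤ, ‖z - pt a b‖ ≤ 1 := by
  obtain ⟨A, B, rfl⟩ := exists_coord z
  refine ⟨round A, round B, ?_⟩
  rw [pt_sub]
  have h1 := abs_sub_round A
  have h2 := abs_sub_round B
  set p := A - round A
  set q := B - round B
  have h3 : ‖pt p q‖ ≤ |p| + |q| := by
    unfold pt
    refine (norm_add_le _ _).trans ?_
    rw [norm_mul, norm_ω, mul_one, Complex.norm_real, Complex.norm_real, Real.norm_eq_abs,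
      Real.norm_eq_abs]
  linarith

/-- `ω * (a + b ω) = -b + (a + b) ω`. -/
lemma ω_sq : ω * ω = ω - 1 := by
  have := sqrt3_sq
  apply Complex.ext
  · simp [ω]; nlinarith
  · simp [ω]; ring

lemma pt_mul (a b c d : ℤ) : ∃ e f : ℤ, pt a b * pt c d = pt e f := by
  refine ⟨a * c - b * d, a * d + b * c + b * d, ?_⟩
  unfold pt
  push_cast
  linear_combination ((b : ℂ) * d) * ω_sq

/-- No small nonzero elements in `Λ_i + Λ_j` if the union is uniformly discrete. -/
lemma no_small {k : ℕ} {c x : Fin k → ℂ} {r : ℝ}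
    (hr : ∀ p ∈ Y c x, ∀ q ∈ Y c x, p ≠ q → r ≤ dist p q) (i j : Fin k) {a b a' b' : ℤ}
    (hne : c i * pt a b - c j * pt a' b' ≠ 0) : r ≤ ‖c i * pt a b - c j * pt a' b'‖ := by
  set g := c i * pt a b - c j * pt a' b' with hg
  set v := x i - x j with hv
  -- elements `v + g λ`
  have key : ∀ m n : ℤ, v + g * pt m n ≠ 0 → r ≤ ‖v + g * pt m n‖ := by
    intro m n h0
    obtain ⟨e, f, hef⟩ := pt_mul a b m n
    obtain ⟨e', f', hef'⟩ := pt_mul a' b' m n
    have h1 : v + g * pt m n = (c i * pt e f + x i) - (c j * pt e' f' + x j) := by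
      rw [← hef, ← hef', hv, hg]; ring
    have h2 : c i * pt e f + x i ∈ Y c x := Set.mem_iUnion.2 ⟨i, _, ⟨e, f, rfl⟩, rfl⟩
    have h3 : c j * pt e' f' + x j ∈ Y c x := Set.mem_iUnion.2 ⟨j, _, ⟨e', f', rfl⟩, rfl⟩
    rw [h1] at h0 ⊢
    rw [← dist_eq_norm]
    exact hr _ h2 _ h3 (sub_ne_zero.1 h0)
  obtain ⟨m, n, hmn⟩ := cover (-(v / g))
  have hbound : ‖v + g * pt m n‖ ≤ ‖g‖ := by
    have : v + g * pt m n = -(g * (-(v / g) - pt m n)) := by field_simp; ring
    rw [this, norm_neg, norm_mul]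
    exact mul_le_of_le_one_right (norm_nonneg _) hmn
  by_cases h0 : v + g * pt m n = 0
  · have h1 : v + g * pt (m + 1 : ℤ) n = g := by
      have : pt (m + 1 : ℤ) n = pt m n + 1 := by unfold pt; push_cast; ring
      rw [this]
      linear_combination h0
    have h2 := key (m + 1) n (by rw [h1]; exact hne)
    rw [h1] at h2
    exact h2
  · exact (key m n h0).trans hbound

/-- Commensurability. -/
lemma commens {k : ℕ} {c x : Fin k → ℂ} (hc : ∀ i, ‖c i‖ = 1) {r : ℝ} (hr0 : 0 < r)
    (hr : ∀ p ∈ Y c x, ∀ q ∈ Y c x, p ≠ q → r ≤ dist p q) (i j : Fin k) :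
    ∃ n : ℕ, 0 < n ∧ ∃ a b : ℤ, (n : ℂ) * c j = c i * pt a b := by
  have hci : c i ≠ 0 := by intro h; have := hc i; rw [h] at this; simp at this
  -- pigeonhole
  obtain ⟨K, hK⟩ := exists_nat_gt (4 / r)
  have hKpos : (0 : ℝ) < K := lt_trans (by positivity) hK
  have hKn : 0 < K := by exact_mod_cast hKpos
  choose A B hAB using fun n : ℕ => exists_coord ((n : ℂ) * c j / c i)
  let f : ℕ → Fin K × Fin K := fun n =>
    (⟨(⌊K * Int.fract (A n)⌋).toNat, by
      have h1 : (0:ℝ) ≤ K * Int.fract (A n) := by positivity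
      have h2 : K * Int.fract (A n) < K := by
        have := Int.fract_lt_one (A n)
        nlinarith
      have h3 : ⌊K * Int.fract (A n)⌋ < K := by rw [Int.floor_lt]; exact_mod_cast h2
      have h4 : 0 ≤ ⌊K * Int.fract (A n)⌋ := Int.floor_nonneg.2 h1
      omega⟩,
     ⟨(⌊K * Int.fract (B n)⌋).toNat, by
      have h1 : (0:ℝ) ≤ K * Int.fract (B n) := by positivity
      have h2 : K * Int.fract (B n) < K := by
        have := Int.fract_lt_one (B n)
        nlinarith
      have h3 : ⌊K * Int.fract (B n)⌋ < K := by rw [Int.floor_lt]; exact_mod_cast h2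
      have h4 : 0 ≤ ⌊K * Int.fract (B n)⌋ := Int.floor_nonneg.2 h1
      omega⟩)
  have hclose : ∀ s t : ℝ, (⌊K * Int.fract s⌋).toNat = (⌊K * Int.fract t⌋).toNat →
      |Int.fract s - Int.fract t| < r / 4 := by
    intro s t h2
    have h4 : 0 ≤ ⌊K * Int.fract s⌋ := Int.floor_nonneg.2 (by positivity)
    have h5 : 0 ≤ ⌊K * Int.fract t⌋ := Int.floor_nonneg.2 (by positivity)
    have h6 : ⌊K * Int.fract s⌋ = ⌊K * Int.fract t⌋ := by omega
    have h7 := Int.abs_sub_lt_one_of_floor_eq_floor h6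
    rw [← mul_sub, abs_mul, abs_of_pos hKpos] at h7
    rw [div_lt_iff₀ hr0] at hK
    have h8 := abs_nonneg (Int.fract s - Int.fract t)
    by_contra hge
    push Not at hge
    nlinarith
  obtain ⟨n, n', hnn, hf⟩ := Finite.exists_ne_map_eq_of_infinite f
  wlog hlt : n < n' generalizing n n'
  · exact this n' n hnn.symm hf.symm (by omega)
  have hfA := hclose _ _ (congrArg Fin.val (congrArg Prod.fst hf))
  have hfB := hclose _ _ (congrArg Fin.val (congrArg Prod.snd hf))
  refine ⟨n' - n, by omega, ⌊A n'⌋ - ⌊A n⌋, ⌊B n'⌋ - ⌊B n⌋, ?_⟩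
  by_contra hne
  have hcast : ((n' - n : ℕ) : ℂ) = (n' : ℂ) - n := by push_cast [hlt.le]; ring
  have hdiff : ((n' - n : ℕ) : ℂ) * c j - c i * pt ((⌊A n'⌋ - ⌊A n⌋ : ℤ)) ((⌊B n'⌋ - ⌊B n⌋ : ℤ)) =
      c i * pt (Int.fract (A n') - Int.fract (A n)) (Int.fract (B n') - Int.fract (B n)) := by
    have e1 : (n' : ℂ) * c j = c i * pt (A n') (B n') := by rw [← hAB]; field_simp
    have e2 : (n : ℂ) * c j = c i * pt (A n) (B n) := by rw [← hAB]; field_simp
    rw [hcast, sub_mul, e1, e2]
    simp only [pt, Int.fract]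
    push_cast
    ring
  have hsmall : ‖((n' - n : ℕ) : ℂ) * c j - c i * pt ((⌊A n'⌋ - ⌊A n⌋ : ℤ)) ((⌊B n'⌋ - ⌊B n⌋ : ℤ))‖ < r := by
    rw [hdiff, norm_mul, hc, one_mul]
    unfold pt
    refine (norm_add_le _ _).trans_lt ?_
    rw [norm_mul, norm_ω, mul_one, Complex.norm_real, Complex.norm_real, Real.norm_eq_abs,
      Real.norm_eq_abs]
    rw [abs_sub_comm] at hfA hfB
    linarith
  have hns := no_small (x := x) hr j i (a := ((n' - n : ℕ) : ℤ)) (b := 0)
    (a' := ⌊A n'⌋ - ⌊A n⌋) (b' := ⌊B n'⌋ - ⌊B n⌋)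
  have hpt : c j * pt (((n' - n : ℕ) : ℤ) : ℝ) ((0 : ℤ) : ℝ) = ((n' - n : ℕ) : ℂ) * c j := by
    unfold pt; push_cast; ring
  rw [hpt] at hns
  have := hns (sub_ne_zero.2 hne)
  linarith

/-- A finite union of translates of one lattice misses a strip. -/
lemma not_forest {k : ℕ} {c x : Fin k → ℂ} (hc : ∀ i, ‖c i‖ = 1) {r : ℝ} (hr0 : 0 < r)
    (hr : ∀ p ∈ Y c x, ∀ q ∈ Y c x, p ≠ q → r ≤ dist p q) :
    ∃ ε : ℝ, 0 < ε ∧ ε < 1 ∧ ∀ V : ℝ, 0 < V → ∃ p q : ℂ, dist p q = V ∧
      ∀ z ∈ segment ℝ p q, ∀ y ∈ Y c x, ε < dist z y := by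
  rcases Nat.eq_zero_or_pos k with rfl | hk
  · refine ⟨1 / 2, by norm_num, by norm_num, fun V hV => ⟨0, V, ?_, ?_⟩⟩
    · rw [dist_zero_left, Complex.norm_real, Real.norm_eq_abs, abs_of_pos hV]
    · intro z _ y hy
      obtain ⟨i, _⟩ := Set.mem_iUnion.1 hy
      exact i.elim0
  · set i0 : Fin k := ⟨0, hk⟩
    choose n hn A B hAB using fun j => commens hc hr0 hr i0 j
    set N : ℕ := ∏ j, n j with hN
    have hNpos : 0 < N := Finset.prod_pos fun j _ => hn j
    have hNr : (0 : ℝ) < N := by exact_mod_cast hNpos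
    have hs := sqrt3_pos
    have hci : (starRingEnd ℂ) (c i0) * c i0 = 1 := by
      rw [mul_comm, Complex.mul_conj, Complex.normSq_eq_norm_sq, hc]; simp
    -- height function
    let H : ℂ → ℝ := fun z => (N * (starRingEnd ℂ) (c i0) * z).im / (√3 / 2)
    have hHlat : ∀ j, ∀ a b : ℤ, ∃ m : ℤ, H (c j * pt a b + x j) = m + H (x j) := by
      intro j a b
      have hdvd : n j ∣ N := Finset.dvd_prod_of_mem n (Finset.mem_univ j)
      obtain ⟨m, hm⟩ := hdvd
      obtain ⟨e, f, hef⟩ := pt_mul (A j) (B j) a b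
      refine ⟨m * f, ?_⟩
      have h1 : (N : ℂ) * (starRingEnd ℂ) (c i0) * (c j * pt a b + x j) =
          (m : ℝ) * pt e f + (N : ℂ) * (starRingEnd ℂ) (c i0) * x j := by
        rw [mul_add, ← hef]
        have h2 := hAB j
        have h3 : (N : ℂ) = (n j : ℂ) * m := by exact_mod_cast hm
        rw [h3]
        push_cast
        linear_combination ((m : ℂ) * (starRingEnd ℂ) (c i0) * pt a b) * h2 +
          ((m : ℂ) * pt (A j) (B j) * pt a b) * hci
      simp only [H]
      rw [h1, Complex.add_im, add_div, smul_pt, pt_im]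
      push_cast
      field_simp
    -- choose the height
    set δ : ℝ := 1 / (2 * (k + 1)) with hδ
    have hδpos : 0 < δ := by positivity
    obtain ⟨t, ht⟩ : ∃ t : ℝ, ∀ j : Fin k, ∀ m : ℤ, δ ≤ |t - (m + H (x j))| := by
      by_contra hcon
      push Not at hcon
      choose J M hJM using fun s : Fin (k + 1) => hcon ((s : ℝ) / (k + 1))
      obtain ⟨s, s', hss, hJ⟩ := Fintype.exists_ne_map_eq_of_card_lt J (by simp)
      have h1 := hJM s
      have h2 := hJM s'
      rw [hJ] at h1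
      have h3 : |(s : ℝ) / (k + 1) - (s' : ℝ) / (k + 1) - ((M s - M s' : ℤ) : ℝ)| < 2 * δ := by
        push_cast
        have : (s : ℝ) / (k + 1) - (s' : ℝ) / (k + 1) - (M s - M s') =
          ((s : ℝ) / (k + 1) - (M s + H (x (J s')))) -
          ((s' : ℝ) / (k + 1) - (M s' + H (x (J s')))) := by ring
        rw [this]
        refine (abs_sub _ _).trans_lt ?_
        linarith
      have h4 : 2 * δ = 1 / (k + 1) := by rw [hδ]; field_simp
      have hk1 : (0 : ℝ) < k + 1 := by positivity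
      have h5 : (s : ℝ) / (k + 1) - (s' : ℝ) / (k + 1) - ((M s - M s' : ℤ) : ℝ) =
          (((s : ℤ) - (s' : ℤ) - (M s - M s') * (k + 1) : ℤ) : ℝ) / (k + 1) := by
        push_cast; field_simp
      rw [h4, h5, abs_div, abs_of_pos hk1, div_lt_div_iff_of_pos_right hk1] at h3
      have h6 : (s : ℤ) - (s' : ℤ) - (M s - M s') * (k + 1) = 0 := by
        by_contra h7
        have := Int.one_le_abs h7
        have h8 : (1 : ℝ) ≤ |(((s : ℤ) - (s' : ℤ) - (M s - M s') * (k + 1) : ℤ) : ℝ)| := by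
          exact_mod_cast this
        linarith
      have hs1 := s.2
      have hs2 := s'.2
      apply hss
      apply Fin.ext
      have h7 : (s : ℤ) - (s' : ℤ) = (M s - M s') * (k + 1) := by linarith
      have h8 : |(s : ℤ) - (s' : ℤ)| < k + 1 := by rw [abs_lt]; constructor <;> omega
      rw [h7, abs_mul, abs_of_pos (by positivity : (0 : ℤ) < k + 1)] at h8
      have h9 : |M s - M s'| < 1 := by
        by_contra h10
        push Not at h10
        nlinarith
      have h10 : M s - M s' = 0 := Int.abs_lt_one_iff.1 h9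
      rw [h10, zero_mul] at h7
      omega
    refine ⟨min (1 / 2) (δ * (√3 / 2) / N / 2), lt_min (by norm_num) (by positivity),
      (min_le_left _ _).trans_lt (by norm_num), fun V hV => ?_⟩
    -- the segment at height `t`
    set p : ℂ := c i0 * ((t * (√3 / 2) / N : ℝ) * I) with hp
    have hHp : ∀ s : ℝ, H (p + s * c i0) = t := by
      intro s
      simp only [H]
      have h1 : (N : ℂ) * (starRingEnd ℂ) (c i0) * (p + s * c i0) =
          ((N * (t * (√3 / 2) / N) : ℝ) : ℂ) * I + ((N * s : ℝ) : ℂ) := by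
        rw [hp]
        push_cast
        linear_combination ((N : ℂ) * (t * (√3 / 2) / N * I) + N * s) * hci
      rw [h1]
      simp only [Complex.add_im, Complex.mul_I_im, Complex.ofReal_re, Complex.ofReal_im, add_zero]
      field_simp
    refine ⟨p, p + V * c i0, ?_, ?_⟩
    · rw [dist_eq_norm]
      have : p - (p + V * c i0) = -(V * c i0) := by ring
      rw [this, norm_neg, norm_mul, hc, mul_one, Complex.norm_real, Real.norm_eq_abs, abs_of_pos hV]
    · intro z hz y hy
      rw [segment_eq_image] at hz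
      obtain ⟨θ, -, rfl⟩ := hz
      obtain ⟨j, l, ⟨a, b, rfl⟩, rfl⟩ := Set.mem_iUnion.1 hy
      obtain ⟨m, hm⟩ := hHlat j a b
      have h1 : (1 - θ) • p + θ • (p + V * c i0) = p + ((θ * V : ℝ) : ℂ) * c i0 := by
        simp only [Complex.real_smul]; push_cast; ring
      show _ < dist ((1 - θ) • p + θ • (p + V * c i0)) _
      rw [h1]
      set z := p + ((θ * V : ℝ) : ℂ) * c i0 with hz
      set y := c j * pt a b + x j with hy'
      have hHz : H z = t := hHp _
      have h2 : δ ≤ |H z - H y| := by rw [hHz, hm]; exact ht j m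
      have h3 : |H z - H y| ≤ N * dist z y / (√3 / 2) := by
        have h4 : H z - H y = (N * (starRingEnd ℂ) (c i0) * (z - y)).im / (√3 / 2) := by
          simp only [H]
          rw [← sub_div, ← Complex.sub_im]
          congr 2
          ring
        rw [h4, abs_div, abs_of_pos (by positivity : 0 < √3 / 2)]
        gcongr
        refine (Complex.abs_im_le_norm _).trans ?_
        rw [norm_mul, norm_mul, Complex.norm_natCast, RCLike.norm_conj, hc, mul_one, dist_eq_norm]
      have h5 : δ * (√3 / 2) / N ≤ dist z y := by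
        have h6 := h2.trans h3
        rw [le_div_iff₀ (by positivity)] at h6
        rw [div_le_iff₀ hNr]
        linarith
      refine lt_of_le_of_lt (min_le_right _ _) (lt_of_lt_of_le ?_ h5)
      apply half_lt_self
      positivity

end Pool.Agent.V11269.Forest
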