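import Mathlib

/-!
Matrix monomial manifolds whose words satisfy a polynomial identity of `2 × 2` matrices.
-/

namespace Pool.Agent.V11269.HallWords

open MeasureTheory

/-- The value of the word `w` (a list of letters) at the tuple of matrices `X`. -/
noncomputable def wordVal {m r : ℕ} (X : Fin r → Fin m → Fin m → ℝ) (w : List (Fin r)) :
    Matrix (Fin m) (Fin m) ℝ :=
  (w.map fun k => Matrix.of (X k)).prod

/-- `ψ^(P)(X) = p₁(X) ⊕ ⋯ ⊕ pₙ(X)`: the columns are indexed by pairs (word, column). -/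
noncomputable def psi {m n r : ℕ} (P : Fin n → List (Fin r)) (X : Fin r → Fin m → Fin m → ℝ) :
    Matrix (Fin m) (Fin n × Fin m) ℝ :=
  Matrix.of fun i c => wordVal X (P c.1) i c.2

/-- `A` is very well approximable: for some exponent `ω > N / m` there are infinitely many nonzero
integer vectors `q` with `‖A q - p‖ ≤ ‖q‖ ^ (-ω)` for some integer vector `p` (sup-norms). -/
def VWA {m : ℕ} {κ : Type} [Fintype κ] (A : Matrix (Fin m) κ ℝ) : Prop :=
  ∃ ω : ℝ, (Fintype.card κ : ℝ) / m < ω ∧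
    {q : κ → ℤ | q ≠ 0 ∧ ∃ p : Fin m → ℤ,
      ‖A.mulVec (fun j => (q j : ℝ)) - (fun i => (p i : ℝ))‖ ≤ ‖q‖ ^ (-ω)}.Infinite

/-- `A` is very well multiplicatively approximable: for some exponent `ω > 1` there are infinitely
many nonzero integer vectors `q` with `∏ᵢ |(A q - p)ᵢ| ≤ (∏ⱼ max(|qⱼ|, 1)) ^ (-ω)` for some
integer vector `p`. -/
def VWMA {m : ℕ} {κ : Type} [Fintype κ] (A : Matrix (Fin m) κ ℝ) : Prop :=
  ∃ ω : ℝ, 1 < ω ∧
    {q : κ → ℤ | q ≠ 0 ∧ ∃ p : Fin m → ℤ,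
      ∏ i, |A.mulVec (fun j => (q j : ℝ)) i - (p i : ℝ)| ≤
        (∏ j, max |(q j : ℝ)| 1) ^ (-ω)}.Infinite

/-- The manifold `ψ^(P)((M_{m,m})^r)` is extremal. -/
def Extremal {m n r : ℕ} (P : Fin n → List (Fin r)) : Prop :=
  ∀ᵐ X : Fin r → Fin m → Fin m → ℝ, ¬ VWA (psi P X)

/-- The manifold `ψ^(P)((M_{m,m})^r)` is strongly extremal. -/
def StronglyExtremal {m n r : ℕ} (P : Fin n → List (Fin r)) : Prop :=
  ∀ᵐ X : Fin r → Fin m → Fin m → ℝ, ¬ VWMA (psi P X)

/-- Six words in two letters. -/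
def hall : Fin 6 → List (Fin 2) :=
  ![[0, 1, 1, 0, 0], [1, 0, 0, 1, 0], [1, 0, 1, 0, 0], [0, 0, 1, 0, 1], [0, 0, 1, 1, 0],
    [0, 1, 0, 0, 1]]

/-- The coefficients in Hall's identity `[[x, y]², x] = 0`. -/
def coef : Fin 6 → ℤ := ![-1, -1, 1, -1, 1, 1]

lemma hall_injective : Function.Injective hall := by decide

lemma hall_ne_nil : ∀ ℓ, hall ℓ ≠ [] := by decide

lemma hall_identity (A B : Matrix (Fin 2) (Fin 2) ℝ) :
    - (A * B * B * A * A) - (B * A * A * B * A) + B * A * B * A * A - A * A * B * A * B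
      + A * A * B * B * A + A * B * A * A * B = 0 := by
  ext i j
  fin_cases i <;> fin_cases j <;>
    simp [Matrix.mul_apply, Fin.sum_univ_two] <;> ring

/-- The integer vector with `ψ(X) q₀ = 0` for all `X`. -/
def q₀ : Fin 6 × Fin 2 → ℤ := fun c => if c.2 = 0 then coef c.1 else 0

lemma psi_mulVec (X : Fin 2 → Fin 2 → Fin 2 → ℝ) (k : ℤ) :
    (psi hall X).mulVec (fun j => ((k * q₀ j : ℤ) : ℝ)) = 0 := by
  funext i
  have h := congrFun (congrFun (hall_identity (Matrix.of (X 0)) (Matrix.of (X 1))) i) 0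
  simp only [Matrix.mulVec, dotProduct, psi, Matrix.of_apply, Fintype.sum_prod_type,
    Fin.sum_univ_succ, Fin.sum_univ_two, Pi.zero_apply]
  simp [q₀, coef, hall, wordVal]
  simp only [Matrix.add_apply, Matrix.sub_apply, Matrix.neg_apply, Matrix.zero_apply] at h
  simp only [Matrix.mul_assoc] at h ⊢
  linear_combination (k : ℝ) * h

lemma q₀_ne : q₀ ≠ 0 := by
  intro h
  have := congrFun h (0, 0)
  simp [q₀, coef] at this

lemma infinite_multiples (S : Set (Fin 6 × Fin 2 → ℤ))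
    (h : ∀ k : ℕ, (fun j => ((k + 1 : ℕ) : ℤ) * q₀ j) ∈ S) : S.Infinite := by
  apply Set.infinite_of_injective_forall_mem (f := fun k : ℕ => fun j => ((k + 1 : ℕ) : ℤ) * q₀ j)
  · intro a b hab
    have := congrFun hab (0, 0)
    simp [q₀, coef] at this
    omega
  · exact h

lemma mult_ne (k : ℕ) : (fun j => ((k + 1 : ℕ) : ℤ) * q₀ j) ≠ 0 := by
  intro h
  have := congrFun h (0, 0)
  simp [q₀, coef] at this
  omega

/-- Every point of the manifold is very well approximable. -/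
lemma all_vwa (X : Fin 2 → Fin 2 → Fin 2 → ℝ) : VWA (psi hall X) := by
  refine ⟨(Fintype.card (Fin 6 × Fin 2) : ℝ) / (2 : ℕ) + 1, by linarith, ?_⟩
  apply infinite_multiples
  intro k
  refine ⟨mult_ne k, 0, ?_⟩
  rw [psi_mulVec X]
  have : (0 : Fin 2 → ℝ) - (fun i => (((0 : Fin 2 → ℤ) i : ℤ) : ℝ)) = 0 := by
    funext i; simp
  rw [this, norm_zero]
  exact Real.rpow_nonneg (norm_nonneg _) _

/-- Every point of the manifold is very well multiplicatively approximable. -/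
lemma all_vwma (X : Fin 2 → Fin 2 → Fin 2 → ℝ) : VWMA (psi hall X) := by
  refine ⟨2, by norm_num, ?_⟩
  apply infinite_multiples
  intro k
  refine ⟨mult_ne k, 0, ?_⟩
  rw [psi_mulVec X]
  have : ∏ i : Fin 2, |(0 : Fin 2 → ℝ) i - (((0 : Fin 2 → ℤ) i : ℤ) : ℝ)| = 0 := by
    simp
  rw [this]
  apply Real.rpow_nonneg
  apply Finset.prod_nonneg
  intro i _
  exact le_max_of_le_right zero_le_one

end Pool.Agent.V11269.HallWords
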