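import Mathlib

/-!
The vector `(α₁, α₂)` with `α₂ = ∑ 1/N_j`, `α₁ = ∑ w_j/N_j`, `N_j = 2^(3^j)`, `w_j = ∑_{i<j} N_i`.
-/

namespace Pool.Agent.V11269.BadTorus

open Filter Topology

/-- `N_j = 2^(3^j)`. -/
def N (j : ℕ) : ℕ := 2 ^ 3 ^ j

lemma N_succ (j : ℕ) : N (j + 1) = N j ^ 3 := by unfold N; rw [← pow_mul, pow_succ]

lemma two_le_N (j : ℕ) : 2 ≤ N j := by
  unfold N
  calc 2 = 2 ^ 1 := rfl
    _ ≤ 2 ^ 3 ^ j := Nat.pow_le_pow_right (by norm_num) (Nat.one_le_pow _ _ (by norm_num))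

lemma N_pos (j : ℕ) : 0 < N j := by have := two_le_N j; omega

lemma N_dvd {i j : ℕ} (h : i ≤ j) : N i ∣ N j :=
  pow_dvd_pow _ (Nat.pow_le_pow_right (by norm_num) h)

lemma lt_N (j : ℕ) : j < N j := by
  unfold N
  calc j < 3 ^ j := Nat.lt_pow_self (by norm_num)
    _ < 2 ^ 3 ^ j := Nat.lt_two_pow_self

lemma N_succ_ge (j : ℕ) : 4 * N j ≤ N (j + 1) := by
  rw [N_succ]; have := two_le_N j; nlinarith [mul_self_nonneg (N j), Nat.mul_le_mul this this]

lemma N_mono : Monotone N := monotone_nat_of_le_succ fun j => by have := N_succ_ge j; omega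

/-- real version -/
lemma two_le_NR (j : ℕ) : (2 : ℝ) ≤ N j := by exact_mod_cast two_le_N j

lemma NR_pos (j : ℕ) : (0 : ℝ) < N j := by exact_mod_cast N_pos j

lemma NR_succ (j : ℕ) : (N (j + 1) : ℝ) = (N j : ℝ) ^ 3 := by exact_mod_cast N_succ j

lemma inv_N_add (k i : ℕ) : 1 / (N (i + k) : ℝ) ≤ 1 / (N k : ℝ) * (1 / 2) ^ i := by
  induction i with
  | zero => simp
  | succ i ih =>
    have h1 : 2 * (N (i + k) : ℝ) ≤ N (i + 1 + k) := by
      have := N_succ_ge (i + k)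
      have h2 : i + 1 + k = i + k + 1 := by ring
      rw [h2]
      have h3 : (4 : ℝ) * N (i + k) ≤ N (i + k + 1) := by exact_mod_cast this
      have := NR_pos (i + k)
      linarith
    have h2 := NR_pos (i + k)
    calc 1 / (N (i + 1 + k) : ℝ) ≤ 1 / (2 * (N (i + k) : ℝ)) :=
          one_div_le_one_div_of_le (by positivity) h1
      _ = 1 / (N (i + k) : ℝ) * (1 / 2) := by field_simp
      _ ≤ (1 / (N k : ℝ) * (1 / 2) ^ i) * (1 / 2) := by
          apply mul_le_mul_of_nonneg_right ih; norm_num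
      _ = 1 / (N k : ℝ) * (1 / 2) ^ (i + 1) := by rw [pow_succ]; ring

/-- `w_j = ∑_{i<j} N_i`. -/
def w (j : ℕ) : ℕ := ∑ i ∈ Finset.range j, N i

lemma w_succ (j : ℕ) : w (j + 1) = w j + N j := Finset.sum_range_succ _ _

lemma w_le (j : ℕ) : w j ≤ N j := by
  induction j with
  | zero => simp [w]
  | succ j ih => rw [w_succ]; have := N_succ_ge j; omega

lemma w_succ_le (j : ℕ) : w (j + 1) ≤ 2 * N j := by rw [w_succ]; have := w_le j; omega

/-! ### Sums with geometric majorants -/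

lemma tsum_bound (b : ℕ → ℝ) (K : ℝ) (h : ∀ i, |b i| ≤ K * (1 / 2) ^ i) :
    Summable b ∧ |∑' i, b i| ≤ 2 * K := by
  have hs : Summable fun i : ℕ => K * (1 / 2 : ℝ) ^ i := summable_geometric_two.mul_left K
  have h1 : Summable b := Summable.of_norm_bounded hs h
  refine ⟨h1, ?_⟩
  have h2 : ∑' i : ℕ, K * (1 / 2 : ℝ) ^ i = 2 * K := by
    rw [tsum_mul_left, tsum_geometric_two]; ring
  rw [← h2]
  have h3 : ∀ i, ‖b i‖ ≤ K * (1 / 2) ^ i := h
  exact tsum_of_norm_bounded hs.hasSum h3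

/-- The sum `S c = ∑ c_i / N_i`. -/
noncomputable def S (c : ℕ → ℤ) : ℝ := ∑' i, (c i : ℝ) / N i

/-- Admissible digit sequences. -/
def Adm (c : ℕ → ℤ) : Prop := ∀ i, (N i : ℤ) ∣ c (i + 1) - c i

lemma Adm.dvd {c : ℕ → ℤ} (h : Adm c) {i j : ℕ} (hij : i ≤ j) : (N i : ℤ) ∣ c j - c i := by
  induction j, hij using Nat.le_induction with
  | base => simp
  | succ j hij ih =>
    have h1 : (N i : ℤ) ∣ N j := by exact_mod_cast N_dvd hij
    have h2 := dvd_add (h1.trans (h j)) ih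
    simpa using h2

lemma decomp {c : ℕ → ℤ} (h : Adm c) (hs : Summable fun i => (c i : ℝ) / N i) {q : ℤ} {j : ℕ}
    (hq : (N j : ℤ) ∣ q - c j) :
    ∃ M : ℤ, q * S (fun _ => 1) - S c = M + ∑' i, ((q : ℝ) - c (i + (j + 1))) / N (i + (j + 1)) := by
  have hs1 : Summable fun i : ℕ => ((1 : ℤ) : ℝ) / N i := by
    refine (tsum_bound _ (1 / N 0) fun i => ?_).1
    rw [abs_of_pos (by have := NR_pos i; positivity)]
    have := inv_N_add 0 i
    simpa using this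
  have h1 : q * S (fun _ => 1) - S c = ∑' i, ((q : ℝ) - c i) / N i := by
    unfold S
    rw [← tsum_mul_left, ← (hs1.mul_left (q : ℝ)).tsum_sub hs]
    congr 1
    funext i
    push_cast
    ring
  have hs2 : Summable fun i : ℕ => ((q : ℝ) - c i) / N i := by
    have := (hs1.mul_left (q : ℝ)).sub hs
    refine this.congr fun i => ?_
    push_cast; ring
  rw [h1, ← hs2.sum_add_tsum_nat_add (j + 1)]
  have hint : ∀ i ∈ Finset.range (j + 1), ∃ m : ℤ, ((q : ℝ) - c i) / N i = m := by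
    intro i hi
    rw [Finset.mem_range] at hi
    have h2 : (N i : ℤ) ∣ q - c i := by
      have h3 : (N i : ℤ) ∣ N j := by exact_mod_cast N_dvd (by omega : i ≤ j)
      have h4 := dvd_add (h3.trans hq) (h.dvd (by omega : i ≤ j))
      simpa using h4
    obtain ⟨m, hm⟩ := h2
    refine ⟨m, ?_⟩
    have h3 : ((q : ℝ) - c i) = N i * m := by exact_mod_cast hm
    rw [h3, mul_comm, mul_div_assoc, div_self (NR_pos i).ne', mul_one]
  choose! m hm using hint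
  refine ⟨∑ i ∈ Finset.range (j + 1), m i, ?_⟩
  rw [Finset.sum_congr rfl hm]
  push_cast
  ring

/-! ### The circle -/

lemma norm_coe_le (x : ℝ) : ‖(x : UnitAddCircle)‖ ≤ |x| := by
  rw [UnitAddCircle.norm_eq]
  simpa using round_le x 0

lemma coe_int (m : ℤ) : ((m : ℝ) : UnitAddCircle) = 0 := by
  rw [AddCircle.coe_eq_zero_iff]
  exact ⟨m, by simp⟩

lemma zsmul_coe (q : ℤ) (x : ℝ) : q • (x : UnitAddCircle) = ((q * x : ℝ) : UnitAddCircle) := by
  rw [← zsmul_eq_mul]; rfl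

lemma nsmul_coe (q : ℕ) (x : ℝ) : q • (x : UnitAddCircle) = ((q * x : ℝ) : UnitAddCircle) := by
  rw [← nsmul_eq_mul]; rfl

/-- `α₂ = ∑ 1/N_j` modulo one. -/
noncomputable def a₂ : UnitAddCircle := ((S (fun _ => 1) : ℝ) : UnitAddCircle)

/-- `α₁ = ∑ w_j/N_j` modulo one. -/
noncomputable def a₁ : UnitAddCircle := ((S (fun i => (w i : ℤ)) : ℝ) : UnitAddCircle)

lemma decomp' {c : ℕ → ℤ} (h : Adm c) (hs : Summable fun i => (c i : ℝ) / N i) {q : ℤ} {j : ℕ}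
    (hq : (N j : ℤ) ∣ q - c j) :
    q • a₂ - ((S c : ℝ) : UnitAddCircle) =
      ((∑' i, ((q : ℝ) - c (i + (j + 1))) / N (i + (j + 1)) : ℝ) : UnitAddCircle) := by
  obtain ⟨M, hM⟩ := decomp h hs hq
  unfold a₂
  rw [zsmul_coe, ← AddCircle.coe_sub, hM, AddCircle.coe_add, coe_int, zero_add]

lemma adm_w : Adm (fun i => (w i : ℤ)) := by
  intro i
  simp only [w_succ]
  push_cast
  simp

lemma w_term (i j : ℕ) : (w (i + (j + 1)) : ℝ) / N (i + (j + 1)) ≤ 2 / (N j : ℝ) ^ 2 * (1 / 2) ^ i := by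
  have h1 : i + (j + 1) = (i + j) + 1 := by ring
  have h2 : (w (i + j + 1) : ℝ) ≤ 2 * N (i + j) := by exact_mod_cast w_succ_le (i + j)
  have h3 := NR_pos (i + j)
  rw [h1, NR_succ]
  calc (w (i + j + 1) : ℝ) / (N (i + j) : ℝ) ^ 3 ≤ (2 * N (i + j)) / (N (i + j) : ℝ) ^ 3 := by
        gcongr
    _ = 2 * (1 / (N (i + j) : ℝ)) ^ 2 := by field_simp
    _ ≤ 2 * (1 / (N j : ℝ) * (1 / 2) ^ i) ^ 2 := by
        have := inv_N_add j i
        gcongr
    _ = 2 / (N j : ℝ) ^ 2 * ((1 / 2) ^ i * (1 / 2) ^ i) := by ring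
    _ ≤ 2 / (N j : ℝ) ^ 2 * (1 / 2) ^ i := by
        have h4 : (1 / 2 : ℝ) ^ i ≤ 1 := pow_le_one₀ (by norm_num) (by norm_num)
        have h5 : (0 : ℝ) ≤ (1 / 2) ^ i := by positivity
        have h6 := NR_pos j
        apply mul_le_mul_of_nonneg_left _ (by positivity)
        nlinarith

lemma summable_w : Summable fun i => ((w i : ℤ) : ℝ) / N i := by
  rw [← summable_nat_add_iff (0 + 1)]
  refine (tsum_bound _ (2 / (N 0 : ℝ) ^ 2) fun i => ?_).1
  have h := w_term i 0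
  have h2 := NR_pos (i + (0 + 1))
  rw [abs_of_nonneg (by push_cast; positivity)]
  push_cast
  exact h

/-- `∑_{i>j} w_i / N_i` -/
noncomputable def tw (j : ℕ) : ℝ := ∑' i, (w (i + (j + 1)) : ℝ) / N (i + (j + 1))

lemma tw_nonneg (j : ℕ) : 0 ≤ tw j := tsum_nonneg fun i => by positivity

lemma tw_summable (j : ℕ) : Summable fun i => (w (i + (j + 1)) : ℝ) / N (i + (j + 1)) := by
  refine (tsum_bound _ (2 / (N j : ℝ) ^ 2) fun i => ?_).1
  rw [abs_of_nonneg (by positivity)]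
  exact w_term i j

lemma tw_le (j : ℕ) : tw j ≤ 4 / (N j : ℝ) ^ 2 := by
  have h := (tsum_bound (fun i => (w (i + (j + 1)) : ℝ) / N (i + (j + 1))) (2 / (N j : ℝ) ^ 2)
    fun i => by rw [abs_of_nonneg (by positivity)]; exact w_term i j).2
  have h2 := (abs_le.1 h).2
  calc tw j ≤ 2 * (2 / (N j : ℝ) ^ 2) := h2
    _ = 4 / (N j : ℝ) ^ 2 := by ring

/-- `α₁ = w_j α₂ + e_j` modulo one. -/
lemma a₁_eq (j : ℕ) : ∃ e : ℝ, |e| ≤ 4 / (N j : ℝ) ^ 2 ∧ a₁ = (w j) • a₂ + (e : UnitAddCircle) := by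
  have h := decomp' adm_w summable_w (q := (w j : ℤ)) (j := j) (by simp)
  refine ⟨-∑' i, (((w j : ℤ) : ℝ) - ((w (i + (j + 1)) : ℤ) : ℝ)) / N (i + (j + 1)), ?_, ?_⟩
  · rw [abs_neg]
    have h2 := (tsum_bound (fun i => (((w j : ℤ) : ℝ) - ((w (i + (j + 1)) : ℤ) : ℝ)) / N (i + (j + 1)))
      (2 / (N j : ℝ) ^ 2) fun i => by
        have h3 : (w j : ℝ) ≤ w (i + (j + 1)) := by
          have : w j ≤ w (i + (j + 1)) := Finset.sum_le_sum_of_subset (by
            apply Finset.range_subset_range.2; omega)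
          exact_mod_cast this
        have h4 : (0 : ℝ) ≤ w j := by positivity
        rw [abs_div, abs_of_pos (NR_pos (i + (j + 1)))]
        push_cast
        rw [abs_sub_comm, abs_of_nonneg (by linarith)]
        refine le_trans ?_ (w_term i j)
        apply div_le_div_of_nonneg_right _ (NR_pos _).le
        linarith).2
    calc _ ≤ _ := h2
      _ = 4 / (N j : ℝ) ^ 2 := by ring
  · rw [AddCircle.coe_neg, ← h]
    unfold a₁
    rw [natCast_zsmul]
    abel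

/-- The key inequality. -/
lemma keyK (q : ℤ) (y : UnitAddCircle) (j : ℕ) :
    ‖q • a₁ - (w j) • y‖ ≤ w j * ‖q • a₂ - y‖ + |(q : ℝ)| * (4 / (N j : ℝ) ^ 2) := by
  obtain ⟨e, he, h⟩ := a₁_eq j
  have h1 : q • a₁ - (w j) • y = (w j) • (q • a₂ - y) + q • (e : UnitAddCircle) := by
    rw [h, smul_add, smul_sub, smul_comm q (w j) a₂]
    abel
  rw [h1]
  refine (norm_add_le _ _).trans (add_le_add ?_ ?_)
  · exact norm_nsmul_le
  · rw [zsmul_coe]
    refine (norm_coe_le _).trans ?_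
    rw [abs_mul]
    exact mul_le_mul_of_nonneg_left he (abs_nonneg _)

lemma exists_level (q : ℝ) (J : ℕ) (hq : (N (J + 1) : ℝ) ≤ q) :
    ∃ j, J ≤ j ∧ (N (j + 1) : ℝ) ≤ q ∧ q < N (j + 2) := by
  classical
  have hex : ∃ j, q < N (j + 2) := by
    obtain ⟨n, hn⟩ := exists_nat_gt q
    refine ⟨n, hn.trans_le ?_⟩
    have := lt_N (n + 2)
    exact_mod_cast (by omega : n ≤ N (n + 2))
  refine ⟨Nat.find hex, ?_, ?_, Nat.find_spec hex⟩
  · by_contra hlt
    have h1 : (N (Nat.find hex + 2) : ℝ) ≤ N (J + 1) := by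
      exact_mod_cast N_mono (by omega : Nat.find hex + 2 ≤ J + 1)
    have h2 := Nat.find_spec hex
    linarith
  · by_contra hlt
    push Not at hlt
    have hne : Nat.find hex ≠ 0 := by
      intro h0
      rw [h0] at hlt
      have h1 : (N (0 + 1) : ℝ) ≤ N (J + 1) := by exact_mod_cast N_mono (by omega : 0 + 1 ≤ J + 1)
      linarith
    have h3 := Nat.find_min hex (m := Nat.find hex - 1) (by omega)
    apply h3
    have h4 : Nat.find hex - 1 + 2 = Nat.find hex + 1 := by omega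
    rw [h4]
    exact hlt

/-- If `√|q| ‖q α₂ - y‖` is small then `q α₁` is close to one of the `w_j y`. -/
lemma key (y : UnitAddCircle) {δ : ℝ} (hδ : 0 < δ) : ∃ ε > 0, ∀ J : ℕ, ∃ Q : ℝ, ∀ q : ℤ,
    Q ≤ |(q : ℝ)| → √|(q : ℝ)| * ‖q • a₂ - y‖ < ε → ∃ j, J ≤ j ∧ ‖q • a₁ - (w j) • y‖ < δ := by
  set θ : ℝ := δ / 16 with hθ
  have hθ0 : 0 < θ := by positivity
  have hsθ : 0 < √θ := Real.sqrt_pos.2 hθ0
  refine ⟨min (δ / 8) (δ * √θ / 8), lt_min (by positivity) (by positivity), fun J => ?_⟩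
  refine ⟨max (N (J + 1)) (16 / δ), fun q hQ hε => ?_⟩
  have hQ1 : (N (J + 1) : ℝ) ≤ |(q : ℝ)| := (le_max_left _ _).trans hQ
  have hQ2 : 16 / δ ≤ |(q : ℝ)| := (le_max_right _ _).trans hQ
  obtain ⟨j, hJj, hj1, hj2⟩ := exists_level _ J hQ1
  have hε1 : √|(q : ℝ)| * ‖q • a₂ - y‖ < δ / 8 := hε.trans_le (min_le_left _ _)
  have hε2 : √|(q : ℝ)| * ‖q • a₂ - y‖ < δ * √θ / 8 := hε.trans_le (min_le_right _ _)
  have hn := norm_nonneg (q • a₂ - y)
  have hN0 := NR_pos j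
  have hN1 := NR_pos (j + 1)
  by_cases hcase : |(q : ℝ)| ≤ θ * (N (j + 1) : ℝ) ^ 2
  · refine ⟨j + 1, by omega, ?_⟩
    refine (keyK q y (j + 1)).trans_lt ?_
    have h1 : (w (j + 1) : ℝ) ≤ 2 * N j := by exact_mod_cast w_succ_le j
    have h2 : (N j : ℝ) ≤ √|(q : ℝ)| := by
      apply Real.le_sqrt_of_sq_le
      refine le_trans ?_ hj1
      rw [NR_succ]
      have := two_le_NR j
      nlinarith [pow_pos hN0 2]
    have h3 : (w (j + 1) : ℝ) * ‖q • a₂ - y‖ ≤ 2 * (√|(q : ℝ)| * ‖q • a₂ - y‖) := by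
      calc (w (j + 1) : ℝ) * ‖q • a₂ - y‖ ≤ (2 * √|(q : ℝ)|) * ‖q • a₂ - y‖ := by
            apply mul_le_mul_of_nonneg_right _ hn; linarith
        _ = _ := by ring
    have h4 : |(q : ℝ)| * (4 / (N (j + 1) : ℝ) ^ 2) ≤ 4 * θ := by
      rw [mul_div_assoc', div_le_iff₀ (by positivity)]; linarith
    have h5 : 4 * θ = δ / 4 := by rw [hθ]; ring
    linarith
  · push Not at hcase
    refine ⟨j + 2, by omega, ?_⟩
    refine (keyK q y (j + 2)).trans_lt ?_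
    have h1 : (w (j + 2) : ℝ) ≤ 2 * N (j + 1) := by exact_mod_cast w_succ_le (j + 1)
    have h2 : √θ * N (j + 1) ≤ √|(q : ℝ)| := by
      apply Real.le_sqrt_of_sq_le
      rw [mul_pow, Real.sq_sqrt hθ0.le]; exact hcase.le
    have h3 : √θ * ((w (j + 2) : ℝ) * ‖q • a₂ - y‖) ≤ 2 * (√|(q : ℝ)| * ‖q • a₂ - y‖) := by
      calc √θ * ((w (j + 2) : ℝ) * ‖q • a₂ - y‖)
          ≤ √θ * ((2 * N (j + 1)) * ‖q • a₂ - y‖) := by gcongr
        _ = 2 * ((√θ * N (j + 1)) * ‖q • a₂ - y‖) := by ring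
        _ ≤ 2 * (√|(q : ℝ)| * ‖q • a₂ - y‖) := by gcongr
    have h4 : (w (j + 2) : ℝ) * ‖q • a₂ - y‖ < δ / 4 := by
      have : √θ * ((w (j + 2) : ℝ) * ‖q • a₂ - y‖) < √θ * (δ / 4) := by
        calc _ ≤ _ := h3
          _ < 2 * (δ * √θ / 8) := by linarith
          _ = √θ * (δ / 4) := by ring
      exact lt_of_mul_lt_mul_left this hsθ.le
    have h5 : |(q : ℝ)| * (4 / (N (j + 2) : ℝ) ^ 2) ≤ δ / 4 := by
      have h6 := NR_pos (j + 2)
      have h7 : 16 / δ < N (j + 2) := lt_of_le_of_lt hQ2 hj2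
      rw [div_lt_iff₀ hδ] at h7
      rw [mul_div_assoc', div_le_iff₀ (by positivity)]
      calc |(q : ℝ)| * 4 ≤ N (j + 2) * 4 := by linarith
        _ ≤ N (j + 2) * ((N (j + 2) * δ) / 4) := by
          apply mul_le_mul_of_nonneg_left _ h6.le; linarith
        _ = δ / 4 * (N (j + 2) : ℝ) ^ 2 := by ring
    linarith

/-- Targets `(x, y)` with `x` away from the points `w_j y` are badly approximable. -/
lemma bad_of_far {x y : UnitAddCircle} {δ : ℝ} (hδ : 0 < δ) (J : ℕ)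
    (h : ∀ j, J ≤ j → δ ≤ ‖x - (w j) • y‖) :
    ∃ c > 0, ∃ Q : ℝ, ∀ q : ℤ, Q ≤ |(q : ℝ)| →
      c ≤ √|(q : ℝ)| * max ‖q • a₁ - x‖ ‖q • a₂ - y‖ := by
  obtain ⟨ε, hε, hkey⟩ := key y (δ := δ / 2) (by positivity)
  obtain ⟨Q, hQ⟩ := hkey J
  refine ⟨min ε (δ / 2), lt_min hε (by positivity), max Q 1, fun q hq => ?_⟩
  by_contra hlt
  push Not at hlt
  have hs : 1 ≤ √|(q : ℝ)| := by
    rw [Real.one_le_sqrt]; exact (le_max_right _ _).trans hq
  have h1 : √|(q : ℝ)| * ‖q • a₂ - y‖ < ε := by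
    refine lt_of_le_of_lt ?_ (hlt.trans_le (min_le_left _ _))
    apply mul_le_mul_of_nonneg_left (le_max_right _ _) (by positivity)
  have h2 : √|(q : ℝ)| * ‖q • a₁ - x‖ < δ / 2 := by
    refine lt_of_le_of_lt ?_ (hlt.trans_le (min_le_right _ _))
    apply mul_le_mul_of_nonneg_left (le_max_left _ _) (by positivity)
  obtain ⟨j, hJ, hj⟩ := hQ q ((le_max_left _ _).trans hq) h1
  have h3 := h j hJ
  have h4 : ‖q • a₁ - x‖ ≤ √|(q : ℝ)| * ‖q • a₁ - x‖ := le_mul_of_one_le_left (norm_nonneg _) hs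
  have h5 : ‖x - (w j) • y‖ ≤ ‖q • a₁ - x‖ + ‖q • a₁ - (w j) • y‖ := by
    have : x - (w j) • y = -(q • a₁ - x) + (q • a₁ - (w j) • y) := by abel
    rw [this]
    refine (norm_add_le _ _).trans ?_
    rw [norm_neg]
  linarith

end Pool.Agent.V11269.BadTorus
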