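import Pool.Agent.V11269.BadTorus

/-!
The vector `(α₁, α₂)` is non-singular; `(0,0)` is not badly approximable.
-/

namespace Pool.Agent.V11269.BadTorus

open Filter Topology

/-- Real representative of `N_j α₁`. -/
noncomputable def g (j : ℕ) : ℝ := N j * tw j

lemma N_smul_a₁ (j : ℕ) : (N j : ℤ) • a₁ = (g j : UnitAddCircle) := by
  have hadm : Adm (fun i => (N j : ℤ) * (w i : ℤ)) := by
    intro i
    show (N i : ℤ) ∣ (N j : ℤ) * (w (i + 1) : ℤ) - (N j : ℤ) * (w i : ℤ)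
    rw [← mul_sub]
    exact Dvd.dvd.mul_left (adm_w i) _
  have hs : Summable fun i => (((N j : ℤ) * (w i : ℤ) : ℤ) : ℝ) / N i := by
    refine (summable_w.mul_left (N j : ℝ)).congr fun i => ?_
    push_cast; ring
  have h := decomp' hadm hs (q := 0) (j := j) (by simp)
  rw [zero_smul, zero_sub] at h
  have h1 : S (fun i => (N j : ℤ) * (w i : ℤ)) = N j * S (fun i => (w i : ℤ)) := by
    unfold S
    rw [← tsum_mul_left]
    congr 1
    funext i
    push_cast; ring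
  unfold a₁
  rw [zsmul_coe]
  push_cast
  rw [← h1, ← neg_neg ((S (fun i => (N j : ℤ) * (w i : ℤ)) : ℝ) : UnitAddCircle), h,
    ← AddCircle.coe_neg, ← tsum_neg]
  congr 1
  unfold g tw
  rw [← tsum_mul_left]
  congr 1
  funext i
  push_cast
  ring

lemma tw_succ (j : ℕ) : tw j = (w (j + 1) : ℝ) / N (j + 1) + tw (j + 1) := by
  unfold tw
  rw [(tw_summable j).tsum_eq_zero_add]
  congr 2
  · simp
  · simp
  · funext i
    congr 2
    · congr 1; ring
    · congr 1; ring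

lemma g_ge (j : ℕ) : 1 / (N j : ℝ) ≤ g j := by
  have h0 := NR_pos j
  unfold g
  rw [tw_succ, NR_succ, w_succ]
  have h1 := tw_nonneg (j + 1)
  push_cast
  calc 1 / (N j : ℝ) = N j * ((N j : ℝ) / (N j : ℝ) ^ 3) := by field_simp
    _ ≤ N j * (((w j : ℝ) + N j) / (N j : ℝ) ^ 3 + tw (j + 1)) := by
      apply mul_le_mul_of_nonneg_left _ h0.le
      have : (N j : ℝ) / (N j : ℝ) ^ 3 ≤ ((w j : ℝ) + N j) / (N j : ℝ) ^ 3 := by
        gcongr
        have : (0 : ℝ) ≤ w j := by positivity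
        linarith
      linarith

lemma g_pos (j : ℕ) : 0 < g j := lt_of_lt_of_le (by have := NR_pos j; positivity) (g_ge j)

lemma g_le (j : ℕ) : g j ≤ 4 / (N j : ℝ) := by
  have h0 := NR_pos j
  unfold g
  calc N j * tw j ≤ N j * (4 / (N j : ℝ) ^ 2) := by gcongr; exact tw_le j
    _ = 4 / (N j : ℝ) := by field_simp

lemma adm_const (c : ℤ) : Adm (fun _ => c) := fun i => by simp

/-- Real representative of `q α₂` for `q` a multiple of `N_j`. -/
lemma norm_N_smul_a₂ (j : ℕ) : ‖(N j : ℤ) • a₂‖ ≤ 2 / (N j : ℝ) ^ 2 := by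
  have hs : Summable fun i : ℕ => (((0 : ℤ)) : ℝ) / N i := by simp
  have h := decomp' (adm_const 0) hs (q := N j) (j := j) (by simp)
  have h1 : S (fun _ => 0) = 0 := by simp [S]
  rw [h1] at h
  have h2 : (N j : ℤ) • a₂ = (N j : ℤ) • a₂ - ((0 : ℝ) : UnitAddCircle) := by simp
  rw [h2, h]
  refine (norm_coe_le _).trans ?_
  have h0 := NR_pos j
  have h3 := (tsum_bound (fun i : ℕ => (((N j : ℤ) : ℝ) - ((0 : ℤ) : ℝ)) / N (i + (j + 1)))
    (1 / (N j : ℝ) ^ 2) fun i => by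
      have h4 := inv_N_add (j + 1) i
      have h5 := NR_pos (i + (j + 1))
      push_cast
      rw [sub_zero, abs_of_nonneg (by positivity)]
      calc (N j : ℝ) / N (i + (j + 1)) = N j * (1 / N (i + (j + 1))) := by ring
        _ ≤ N j * (1 / (N (j + 1) : ℝ) * (1 / 2) ^ i) := by gcongr
        _ = 1 / (N j : ℝ) ^ 2 * (1 / 2) ^ i := by
          rw [NR_succ]; field_simp).2
  calc _ ≤ _ := h3
    _ = 2 / (N j : ℝ) ^ 2 := by ring

/-- `(0,0)` is very well approximable along `q = N_j`. -/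
lemma zero_close (j : ℕ) :
    √(N j : ℝ) * max ‖(N j : ℤ) • a₁ - 0‖ ‖(N j : ℤ) • a₂ - 0‖ ≤ 4 / √(N j : ℝ) := by
  have h0 := NR_pos j
  have hs : 0 < √(N j : ℝ) := Real.sqrt_pos.2 h0
  have h1 : ‖(N j : ℤ) • a₁ - 0‖ ≤ 4 / (N j : ℝ) := by
    rw [sub_zero, N_smul_a₁]
    refine (norm_coe_le _).trans ?_
    rw [abs_of_pos (g_pos j)]
    exact g_le j
  have h2 : ‖(N j : ℤ) • a₂ - 0‖ ≤ 4 / (N j : ℝ) := by
    rw [sub_zero]
    refine (norm_N_smul_a₂ j).trans ?_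
    have := two_le_NR j
    rw [div_le_div_iff₀ (by positivity) h0]
    nlinarith
  calc √(N j : ℝ) * max ‖(N j : ℤ) • a₁ - 0‖ ‖(N j : ℤ) • a₂ - 0‖
      ≤ √(N j : ℝ) * (4 / (N j : ℝ)) := by
        apply mul_le_mul_of_nonneg_left (max_le h1 h2) hs.le
    _ = 4 / √(N j : ℝ) := by
        have h3 : (N j : ℝ) = √(N j : ℝ) * √(N j : ℝ) := (Real.mul_self_sqrt h0.le).symm
        rw [mul_div_assoc', div_eq_div_iff (by positivity) (by positivity)]
        nlinarith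

lemma zero_not_bad : ¬ ∃ c > 0, ∃ Q : ℝ, ∀ q : ℤ, Q ≤ |(q : ℝ)| →
      c ≤ √|(q : ℝ)| * max ‖q • a₁ - 0‖ ‖q • a₂ - 0‖ := by
  rintro ⟨c, hc, Q, h⟩
  obtain ⟨n, hn⟩ := exists_nat_gt (max Q ((4 / c) ^ 2))
  have h1 : (n : ℝ) < N n := by exact_mod_cast lt_N n
  have h0 := NR_pos n
  have h2 := h (N n) (by
    push_cast; rw [abs_of_pos h0]
    exact ((le_max_left _ _).trans_lt (hn.trans h1)).le)
  push_cast at h2
  rw [abs_of_pos h0] at h2
  have h3 := zero_close n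
  have h4 : 4 / √(N n : ℝ) < c := by
    have h5 : 4 / c < √(N n : ℝ) := by
      apply Real.lt_sqrt_of_sq_lt
      exact (le_max_right _ _).trans_lt (hn.trans h1)
    rw [div_lt_iff₀ (Real.sqrt_pos.2 h0)]
    rw [div_lt_iff₀ hc] at h5
    linarith
  linarith

/-! ### Non-singularity -/

/-- The integer `∑_{i ≤ j} N_j / N_i`. -/
def A (j : ℕ) : ℕ := ∑ i ∈ Finset.range (j + 1), N j / N i

lemma A_odd (j : ℕ) : Odd (A j) := by
  unfold A
  rw [Finset.sum_range_succ, Nat.div_self (N_pos j)]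
  apply Even.add_one
  rw [even_iff_two_dvd]
  apply Finset.dvd_sum
  intro i hi
  rw [Finset.mem_range] at hi
  have h1 : N i * 2 ∣ N j := by
    unfold N
    rw [← pow_succ]
    apply pow_dvd_pow
    have : 3 ^ i < 3 ^ j := Nat.pow_lt_pow_right (by norm_num) hi
    omega
  obtain ⟨m, hm⟩ := h1
  rw [hm, mul_assoc, Nat.mul_div_cancel_left _ (N_pos i)]
  exact dvd_mul_right _ _

lemma coprime_A (j : ℕ) : IsCoprime (N j : ℤ) (A j : ℤ) := by
  rw [Nat.isCoprime_iff_coprime]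
  unfold N
  apply Nat.Coprime.pow_left
  rw [Nat.coprime_two_left]
  exact A_odd j

lemma A_real (j : ℕ) : (A j : ℝ) / N j = ∑ i ∈ Finset.range (j + 1), 1 / (N i : ℝ) := by
  unfold A
  push_cast
  rw [Finset.sum_div]
  apply Finset.sum_congr rfl
  intro i hi
  rw [Finset.mem_range] at hi
  rw [Nat.cast_div (N_dvd (by omega)) (NR_pos i).ne']
  have h1 := NR_pos i
  have h2 := NR_pos j
  field_simp

lemma a₂_lower {q : ℤ} {j : ℕ} (hq : ¬ (N j : ℤ) ∣ q) :
    1 / (N j : ℝ) - |(q : ℝ)| * (2 / N (j + 1)) ≤ ‖q • a₂‖ := by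
  have hs1 : Summable fun i : ℕ => ((1 : ℤ) : ℝ) / N i := by
    refine (tsum_bound _ (1 / N 0) fun i => ?_).1
    rw [abs_of_pos (by have := NR_pos i; positivity)]
    have := inv_N_add 0 i
    simpa using this
  have h1 : S (fun _ => 1) = (A j : ℝ) / N j + ∑' i, 1 / (N (i + (j + 1)) : ℝ) := by
    unfold S
    rw [← hs1.sum_add_tsum_nat_add (j + 1), A_real]
    simp
  have h2 := (tsum_bound (fun i : ℕ => 1 / (N (i + (j + 1)) : ℝ)) (1 / N (j + 1)) fun i => by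
    rw [abs_of_pos (by have := NR_pos (i + (j + 1)); positivity)]
    exact inv_N_add (j + 1) i).2
  set t := ∑' i, 1 / (N (i + (j + 1)) : ℝ) with ht
  have h0 := NR_pos j
  unfold a₂
  rw [zsmul_coe, UnitAddCircle.norm_eq, h1]
  set m := round ((q : ℝ) * ((A j : ℝ) / N j + t)) with hm
  have h3 : (q : ℝ) * ((A j : ℝ) / N j + t) - m = ((q * A j - m * N j : ℤ) : ℝ) / N j + q * t := by
    push_cast; field_simp; ring
  rw [h3]
  have h4 : q * A j - m * N j ≠ 0 := by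
    intro h
    apply hq
    have h5 : (N j : ℤ) ∣ q * A j := ⟨m, by linarith⟩
    exact (coprime_A j).dvd_of_dvd_mul_right h5
  have h5 : (1 : ℝ) ≤ |((q * A j - m * N j : ℤ) : ℝ)| := by
    have := Int.one_le_abs h4
    exact_mod_cast this
  have h6 : 1 / (N j : ℝ) ≤ |((q * A j - m * N j : ℤ) : ℝ) / N j| := by
    rw [abs_div, abs_of_pos h0]
    gcongr
  have h7 : |(q : ℝ) * t| ≤ |(q : ℝ)| * (2 / N (j + 1)) := by
    rw [abs_mul]
    apply mul_le_mul_of_nonneg_left _ (abs_nonneg _)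
    calc |t| ≤ 2 * (1 / N (j + 1)) := h2
      _ = 2 / N (j + 1) := by ring
  have h8 := abs_sub_abs_le_abs_sub (((q * A j - m * N j : ℤ) : ℝ) / N j) (-(q * t))
  rw [sub_neg_eq_add, abs_neg] at h8
  linarith

/-- Non-singularity at the times `T = N_{j+1}^2 / 16`. -/
lemma nonsingular (j : ℕ) (q : ℤ) (hq : q ≠ 0) (hT : |(q : ℝ)| ≤ (N (j + 1) : ℝ) ^ 2 / 16) :
    1 / (2 * (N (j + 1) : ℝ)) < max ‖q • a₁‖ ‖q • a₂‖ := by
  have h0 := NR_pos (j + 1)
  by_cases hdvd : (N (j + 1) : ℤ) ∣ q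
  · obtain ⟨l, hl⟩ := hdvd
    have hl0 : l ≠ 0 := by rintro rfl; simp at hl; exact hq hl
    refine lt_max_of_lt_left ?_
    have h1 : q • a₁ = ((l * g (j + 1) : ℝ) : UnitAddCircle) := by
      rw [hl, mul_comm, mul_smul, N_smul_a₁, zsmul_coe]
    have h2 : |(l : ℝ)| ≤ N (j + 1) / 16 := by
      have h3 : |(q : ℝ)| = N (j + 1) * |(l : ℝ)| := by
        rw [hl]; push_cast; rw [abs_mul, abs_of_pos h0]
      rw [h3] at hT
      by_contra hlt
      push Not at hlt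
      nlinarith
    have h4 : |(l : ℝ) * g (j + 1)| ≤ 1 / 4 := by
      rw [abs_mul, abs_of_pos (g_pos _)]
      calc |(l : ℝ)| * g (j + 1) ≤ (N (j + 1) / 16) * (4 / N (j + 1)) := by
            apply mul_le_mul h2 (g_le _) (g_pos _).le (by positivity)
        _ = 1 / 4 := by field_simp; norm_num
    have h5 : ‖((l * g (j + 1) : ℝ) : UnitAddCircle)‖ = |(l : ℝ) * g (j + 1)| := by
      rw [AddCircle.norm_coe_eq_abs_iff _ one_ne_zero]
      rw [abs_one]; linarith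
    rw [h1, h5, abs_mul, abs_of_pos (g_pos _)]
    have h6 : (1 : ℝ) ≤ |(l : ℝ)| := by exact_mod_cast Int.one_le_abs hl0
    calc 1 / (2 * (N (j + 1) : ℝ)) < 1 / (N (j + 1) : ℝ) := by
          apply one_div_lt_one_div_of_lt h0; linarith
      _ ≤ g (j + 1) := g_ge _
      _ ≤ |(l : ℝ)| * g (j + 1) := le_mul_of_one_le_left (g_pos _).le h6
  · refine lt_max_of_lt_right ?_
    refine lt_of_lt_of_le ?_ (a₂_lower hdvd)
    have h1 : |(q : ℝ)| * (2 / N (j + 1 + 1)) ≤ 1 / (8 * (N (j + 1) : ℝ)) := by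
      rw [NR_succ (j + 1)]
      calc |(q : ℝ)| * (2 / (N (j + 1) : ℝ) ^ 3) ≤ ((N (j + 1) : ℝ) ^ 2 / 16) * (2 / (N (j + 1) : ℝ) ^ 3) := by
            gcongr
        _ = 1 / (8 * (N (j + 1) : ℝ)) := by field_simp; norm_num
    have h2 : 1 / (2 * (N (j + 1) : ℝ)) = (1 / 2) * (1 / N (j + 1)) := by field_simp
    have h3 : 1 / (8 * (N (j + 1) : ℝ)) = (1 / 8) * (1 / N (j + 1)) := by field_simp
    have h4 : 0 < 1 / (N (j + 1) : ℝ) := by positivity
    rw [h2]
    rw [h3] at h1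
    linarith

end Pool.Agent.V11269.BadTorus
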