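import Pool.Agent.V11269.BadTorusDefs

/-!
A target `y` such that `(x, y)` is badly approximable for `x` in an open arc and not badly
approximable for `x` in another open arc.
-/

namespace Pool.Agent.V11269.BadTorus

open Filter Topology

/-- A slowly oscillating sequence. -/
noncomputable def D (j : ℕ) : ℝ := (1 - Real.cos (Real.pi * √(j : ℝ))) / 8

/-- Its increments. -/
noncomputable def d (j : ℕ) : ℝ := D (j + 1) - D j

lemma D_nonneg (j : ℕ) : 0 ≤ D j := by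
  unfold D; have := Real.cos_le_one (Real.pi * √(j : ℝ)); linarith

lemma D_le (j : ℕ) : D j ≤ 1 / 4 := by
  unfold D; have := Real.neg_one_le_cos (Real.pi * √(j : ℝ)); linarith

lemma abs_d_le (j : ℕ) : |d j| ≤ 1 / 4 := by
  have h1 := D_nonneg j
  have h2 := D_le j
  have h3 := D_nonneg (j + 1)
  have h4 := D_le (j + 1)
  unfold d
  rw [abs_le]; constructor <;> linarith

lemma abs_d_le' (j : ℕ) : |d j| ≤ 1 / √((j : ℝ) + 1) := by
  have h1 : |d j| = |Real.cos (Real.pi * √(j : ℝ)) - Real.cos (Real.pi * √((j : ℝ) + 1))| / 8 := by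
    unfold d D
    push_cast
    rw [← abs_of_pos (by norm_num : (0 : ℝ) < 8), ← abs_div, abs_of_pos (by norm_num : (0 : ℝ) < 8)]
    congr 1; ring
  have h2 := Real.abs_cos_sub_cos_le (Real.pi * √(j : ℝ)) (Real.pi * √((j : ℝ) + 1))
  have hj : (0 : ℝ) ≤ j := by positivity
  have hs : 0 < √((j : ℝ) + 1) := Real.sqrt_pos.2 (by positivity)
  have hs2 : √((j : ℝ) + 1) * √((j : ℝ) + 1) = (j : ℝ) + 1 := Real.mul_self_sqrt (by positivity)
  have hs3 : √(j : ℝ) * √(j : ℝ) = j := Real.mul_self_sqrt hj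
  have hs0 : 0 ≤ √(j : ℝ) := Real.sqrt_nonneg _
  have hle : √(j : ℝ) ≤ √((j : ℝ) + 1) := Real.sqrt_le_sqrt (by linarith)
  have h3 : |Real.pi * √(j : ℝ) - Real.pi * √((j : ℝ) + 1)| = Real.pi * (√((j : ℝ) + 1) - √(j : ℝ)) := by
    rw [← mul_sub, abs_mul, abs_of_pos Real.pi_pos, abs_sub_comm, abs_of_nonneg (by linarith)]
  rw [h3] at h2
  rw [h1, div_le_div_iff₀ (by norm_num) hs]
  have h4 : (√((j : ℝ) + 1) - √(j : ℝ)) * √((j : ℝ) + 1) ≤ 1 := by nlinarith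
  have h5 : |Real.cos (Real.pi * √(j : ℝ)) - Real.cos (Real.pi * √((j : ℝ) + 1))| * √((j : ℝ) + 1)
      ≤ Real.pi * ((√((j : ℝ) + 1) - √(j : ℝ)) * √((j : ℝ) + 1)) := by
    rw [← mul_assoc]
    exact mul_le_mul_of_nonneg_right h2 hs.le
  have h6 : Real.pi * ((√((j : ℝ) + 1) - √(j : ℝ)) * √((j : ℝ) + 1)) ≤ Real.pi * 1 :=
    mul_le_mul_of_nonneg_left h4 Real.pi_pos.le
  have h7 := Real.pi_le_four
  linarith

/-- The numbers `m_j = ⌊d_j N_j⌋`. -/
noncomputable def m (j : ℕ) : ℤ := ⌊d j * N j⌋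

/-- `r_j = ∑_{i<j} m_i N_i`. -/
noncomputable def r (j : ℕ) : ℤ := ∑ i ∈ Finset.range j, m i * N i

lemma r_succ (j : ℕ) : r (j + 1) = r j + m j * N j := Finset.sum_range_succ _ _

lemma abs_m_le (j : ℕ) : |(m j : ℝ)| ≤ |d j| * N j + 1 := by
  have h1 := Int.floor_le (d j * N j)
  have h2 := Int.lt_floor_add_one (d j * N j)
  have h3 : |d j * N j| = |d j| * N j := by rw [abs_mul, abs_of_pos (NR_pos j)]
  rw [← h3]
  unfold m
  have h4 := neg_abs_le (d j * N j)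
  have h5 := le_abs_self (d j * N j)
  rw [abs_le]; constructor <;> linarith

lemma abs_r_succ_aux {j : ℕ} (h : |(r j : ℝ)| ≤ N j) :
    |(r (j + 1) : ℝ)| ≤ 2 * N j + |d j| * (N j : ℝ) ^ 2 ∧
    |(r j : ℝ)| + |(m j : ℝ)| * N j ≤ 2 * N j + |d j| * (N j : ℝ) ^ 2 := by
  have h1 := abs_m_le j
  have h0 := NR_pos j
  have h2 : |(m j : ℝ)| * N j ≤ (|d j| * N j + 1) * N j := mul_le_mul_of_nonneg_right h1 h0.le
  have h3 : |(r (j + 1) : ℝ)| ≤ |(r j : ℝ)| + |(m j : ℝ)| * N j := by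
    rw [r_succ]
    push_cast
    refine (abs_add_le _ _).trans ?_
    rw [abs_mul, abs_of_pos h0]
  constructor <;> nlinarith

lemma abs_r_le (j : ℕ) : |(r j : ℝ)| ≤ N j := by
  induction j with
  | zero => simp [r]
  | succ j ih =>
    have h1 := (abs_r_succ_aux ih).1
    have h2 := abs_d_le j
    have h3 := two_le_NR j
    rw [NR_succ]
    have h4 : (0 : ℝ) ≤ (N j : ℝ) ^ 2 := by positivity
    have h5 : |d j| * (N j : ℝ) ^ 2 ≤ 1 / 4 * (N j : ℝ) ^ 2 := mul_le_mul_of_nonneg_right h2 h4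
    have h6 : 2 * (N j : ℝ) ^ 2 ≤ (N j : ℝ) ^ 3 := by nlinarith
    nlinarith

/-- `ν_j = 3 / √(j+1)`. -/
noncomputable def ν (j : ℕ) : ℝ := 3 / √((j : ℝ) + 1)

lemma ν_pos (j : ℕ) : 0 < ν j := by unfold ν; positivity

lemma ν_le (j : ℕ) : ν j ≤ 3 := by
  unfold ν
  rw [div_le_iff₀ (by positivity)]
  have : 1 ≤ √((j : ℝ) + 1) := by
    rw [Real.one_le_sqrt]
    have : (0 : ℝ) ≤ j := by positivity
    linarith
  linarith

lemma ν_anti {i j : ℕ} (h : i ≤ j) : ν j ≤ ν i := by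
  unfold ν
  have h1 : (i : ℝ) ≤ j := by exact_mod_cast h
  have h2 : √((i : ℝ) + 1) ≤ √((j : ℝ) + 1) := Real.sqrt_le_sqrt (by linarith)
  have h3 : 0 < √((i : ℝ) + 1) := by positivity
  gcongr

lemma N_ge_sqrt (j : ℕ) : √((j : ℝ) + 1) ≤ N j := by
  have h1 : (j : ℝ) + 1 ≤ N j := by exact_mod_cast lt_N j
  have h2 : (0 : ℝ) ≤ j := by positivity
  apply Real.sqrt_le_iff.2
  constructor
  · exact (NR_pos j).le
  · nlinarith [two_le_NR j]

lemma two_mul_N_le (j : ℕ) : 2 * (N j : ℝ) + |d j| * (N j : ℝ) ^ 2 ≤ ν j * (N j : ℝ) ^ 2 := by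
  have h1 := abs_d_le' j
  have h2 := N_ge_sqrt j
  have h3 : 0 < √((j : ℝ) + 1) := by positivity
  have h0 := NR_pos j
  have h4 : 1 ≤ 1 / √((j : ℝ) + 1) * N j := by
    rw [div_mul_eq_mul_div, one_mul, one_le_div h3]; exact h2
  have h5 : ν j = 3 * (1 / √((j : ℝ) + 1)) := by unfold ν; ring
  rw [h5]
  have h6 : |d j| * (N j : ℝ) ^ 2 ≤ 1 / √((j : ℝ) + 1) * (N j : ℝ) ^ 2 :=
    mul_le_mul_of_nonneg_right h1 (by positivity)
  have h7 : (N j : ℝ) ≤ (1 / √((j : ℝ) + 1) * N j) * N j := le_mul_of_one_le_left h0.le h4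
  nlinarith

lemma abs_r_succ_le (j : ℕ) : |(r (j + 1) : ℝ)| ≤ ν j * (N j : ℝ) ^ 2 :=
  (abs_r_succ_aux (abs_r_le j)).1.trans (two_mul_N_le j)

lemma abs_r_le' (j : ℕ) : |(r j : ℝ)| ≤ ν j * (N j : ℝ) ^ 2 := by
  refine (abs_r_le j).trans (le_trans ?_ (two_mul_N_le j))
  have h0 := NR_pos j
  have : 0 ≤ |d j| * (N j : ℝ) ^ 2 := by positivity
  linarith

lemma adm_r : Adm r := by
  intro i
  rw [r_succ, add_sub_cancel_left]
  exact dvd_mul_left _ _

lemma r_term (i j : ℕ) : |(r (i + (j + 1)) : ℝ) / N (i + (j + 1))| ≤ ν j / N j * (1 / 2) ^ i := by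
  have h1 : i + (j + 1) = (i + j) + 1 := by ring
  have h0 := NR_pos (i + j)
  rw [h1, abs_div, NR_succ, abs_of_pos (by positivity : (0:ℝ) < (N (i + j) : ℝ) ^ 3)]
  calc |(r (i + j + 1) : ℝ)| / (N (i + j) : ℝ) ^ 3
      ≤ (ν (i + j) * (N (i + j) : ℝ) ^ 2) / (N (i + j) : ℝ) ^ 3 := by
        gcongr; exact abs_r_succ_le _
    _ = ν (i + j) * (1 / N (i + j)) := by field_simp
    _ ≤ ν j * (1 / (N j : ℝ) * (1 / 2) ^ i) := by
        apply mul_le_mul (ν_anti (by omega)) (inv_N_add j i) (by positivity) (ν_pos j).le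
    _ = ν j / N j * (1 / 2) ^ i := by ring

lemma summable_r : Summable fun i => (r i : ℝ) / N i := by
  rw [← summable_nat_add_iff (0 + 1)]
  exact (tsum_bound _ (ν 0 / N 0) fun i => r_term i 0).1

/-- The second coordinate of the target. -/
noncomputable def y : UnitAddCircle := ((S r : ℝ) : UnitAddCircle)

lemma close_y {q : ℤ} {j : ℕ} (hq : (N j : ℤ) ∣ q - r j) (hq2 : |(q : ℝ)| ≤ ν j * (N j : ℝ) ^ 2) :
    ‖q • a₂ - y‖ ≤ 4 * (ν j / N j) := by
  unfold y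
  rw [decomp' adm_r summable_r hq]
  refine (norm_coe_le _).trans ?_
  have h0 := NR_pos j
  have h3 := (tsum_bound (fun i : ℕ => ((q : ℝ) - r (i + (j + 1))) / N (i + (j + 1)))
    (2 * (ν j / N j)) fun i => by
      have h4 := inv_N_add (j + 1) i
      have h5 := NR_pos (i + (j + 1))
      rw [sub_div]
      refine (abs_sub _ _).trans ?_
      have h6 : |(q : ℝ) / N (i + (j + 1))| ≤ ν j / N j * (1 / 2) ^ i := by
        rw [abs_div, abs_of_pos h5]
        calc |(q : ℝ)| / N (i + (j + 1)) = |(q : ℝ)| * (1 / N (i + (j + 1))) := by ring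
          _ ≤ (ν j * (N j : ℝ) ^ 2) * (1 / (N (j + 1) : ℝ) * (1 / 2) ^ i) := by
            apply mul_le_mul hq2 h4 (by positivity)
            have := ν_pos j
            positivity
          _ = ν j / N j * (1 / 2) ^ i := by rw [NR_succ]; field_simp
      have h7 := r_term i j
      linarith).2
  calc _ ≤ _ := h3
    _ = 4 * (ν j / N j) := by ring

end Pool.Agent.V11269.BadTorus
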