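import Mathlib

/-!
Digital sequences over function fields: counting lemmas.
-/

namespace Pool.Agent.V11269.FF

open Finset Polynomial

variable {F : Type*} [Field F] [Fintype F] (E : F ≃ Fin (Fintype.card F))

/-- `∑_r E(s_r) q^(-r-1)` -/
noncomputable def val (s : ℕ → F) : ℝ :=
  ∑' r, ((E (s r) : ℕ) : ℝ) / (Fintype.card F : ℝ) ^ (r + 1)

lemma two_le_card : 2 ≤ Fintype.card F := Fintype.one_lt_card

lemma card_pos' : (0 : ℝ) < Fintype.card F := by
  have := two_le_card (F := F)
  exact_mod_cast (by omega : 0 < Fintype.card F)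

lemma term_le (s : ℕ → F) (r : ℕ) : ((E (s r) : ℕ) : ℝ) / (Fintype.card F : ℝ) ^ (r + 1) ≤
    1 / (Fintype.card F : ℝ) ^ r - 1 / (Fintype.card F : ℝ) ^ (r + 1) := by
  have hq := card_pos' (F := F)
  have h1 : ((E (s r) : ℕ) : ℝ) + 1 ≤ Fintype.card F := by
    exact_mod_cast (E (s r)).2
  have h2 : 1 / (Fintype.card F : ℝ) ^ r - 1 / (Fintype.card F : ℝ) ^ (r + 1) =
      ((Fintype.card F : ℝ) - 1) / (Fintype.card F : ℝ) ^ (r + 1) := by
    field_simp
    ring
  rw [h2]
  gcongr
  linarith

lemma summable_tele : HasSum (fun r : ℕ => 1 / (Fintype.card F : ℝ) ^ r -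
    1 / (Fintype.card F : ℝ) ^ (r + 1)) 1 := by
  have hq := card_pos' (F := F)
  have h2 : (1 : ℝ) < Fintype.card F := by
    have := two_le_card (F := F)
    exact_mod_cast (by omega : 1 < Fintype.card F)
  have h3 : HasSum (fun r : ℕ => (1 / (Fintype.card F : ℝ)) ^ r) (1 - 1 / (Fintype.card F : ℝ))⁻¹ :=
    hasSum_geometric_of_lt_one (by positivity) (by rw [div_lt_one hq]; exact h2)
  have h4 := h3.mul_left (1 - 1 / (Fintype.card F : ℝ))
  have h5 : 1 - 1 / (Fintype.card F : ℝ) ≠ 0 := by
    have : 1 / (Fintype.card F : ℝ) < 1 := by rw [div_lt_one hq]; exact h2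
    linarith
  rw [mul_inv_cancel₀ h5] at h4
  have h6 : (fun r : ℕ => 1 / (Fintype.card F : ℝ) ^ r - 1 / (Fintype.card F : ℝ) ^ (r + 1)) =
      fun r : ℕ => (1 - 1 / (Fintype.card F : ℝ)) * (1 / (Fintype.card F : ℝ)) ^ r := by
    funext r
    rw [one_div_pow, pow_succ]
    field_simp
  rw [h6]
  exact h4

lemma summable_val (s : ℕ → F) :
    Summable fun r => ((E (s r) : ℕ) : ℝ) / (Fintype.card F : ℝ) ^ (r + 1) :=
  Summable.of_nonneg_of_le (fun r => by positivity) (term_le E s) summable_tele.summable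

lemma val_nonneg (s : ℕ → F) : 0 ≤ val E s := tsum_nonneg fun r => by positivity

lemma val_le_one (s : ℕ → F) : val E s ≤ 1 := by
  rw [← summable_tele (F := F).tsum_eq]
  exact (summable_val E s).tsum_le_tsum (term_le E s) summable_tele.summable

/-- splitting off the first `d` digits -/
lemma val_split (s : ℕ → F) (d : ℕ) : val E s = ∑ r ∈ range d,
    ((E (s r) : ℕ) : ℝ) / (Fintype.card F : ℝ) ^ (r + 1) +
    val E (fun r => s (r + d)) / (Fintype.card F : ℝ) ^ d := by
  unfold val
  rw [← (summable_val E s).sum_add_tsum_nat_add d]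
  congr 1
  rw [← tsum_div_const]
  congr 1
  funext r
  rw [div_div, ← pow_add]
  congr 2; ring

/-- The digits as an integer. -/
def piEquiv (d : ℕ) : (Fin d → F) ≃ Fin (Fintype.card F ^ d) :=
  (Equiv.arrowCongr Fin.revPerm E).trans finFunctionFinEquiv

lemma piEquiv_val (d : ℕ) (u : Fin d → F) :
    ((piEquiv E d u : ℕ) : ℝ) / (Fintype.card F : ℝ) ^ d =
      ∑ r : Fin d, ((E (u r) : ℕ) : ℝ) / (Fintype.card F : ℝ) ^ ((r : ℕ) + 1) := by
  have hq := card_pos' (F := F)
  have h1 : (piEquiv E d u : ℕ) = ∑ i : Fin d, (E (u (Fin.rev i)) : ℕ) * Fintype.card F ^ (i : ℕ) := by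
    unfold piEquiv
    rw [Equiv.trans_apply, finFunctionFinEquiv_apply]
    rfl
  rw [h1]
  push_cast
  rw [sum_div, ← Equiv.sum_comp Fin.revPerm]
  apply sum_congr rfl
  intro i _
  simp only [Fin.revPerm_apply, Fin.rev_rev, Fin.val_rev]
  have h2 : (Fintype.card F : ℝ) ^ d = (Fintype.card F : ℝ) ^ (d - (i + 1)) *
      (Fintype.card F : ℝ) ^ ((i : ℕ) + 1) := by
    rw [← pow_add]; congr 1; omega
  rw [h2]
  field_simp

lemma val_bounds (s : ℕ → F) (d : ℕ) :
    ((piEquiv E d (fun r => s r) : ℕ) : ℝ) / (Fintype.card F : ℝ) ^ d ≤ val E s ∧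
    val E s ≤ (((piEquiv E d (fun r => s r) : ℕ) : ℝ) + 1) / (Fintype.card F : ℝ) ^ d := by
  have hq := card_pos' (F := F)
  rw [add_div, piEquiv_val, val_split E s d, ← Fin.sum_univ_eq_sum_range
    (fun r => ((E (s r) : ℕ) : ℝ) / (Fintype.card F : ℝ) ^ (r + 1)) d]
  have h1 := val_nonneg E (fun r => s (r + d))
  have h2 := val_le_one E (fun r => s (r + d))
  constructor
  · have : 0 ≤ val E (fun r => s (r + d)) / (Fintype.card F : ℝ) ^ d := by positivity
    linarith
  · gcongr

/-- Number of naturals below `M` and below `x`. -/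
lemma count_lt (M : ℕ) (x : ℝ) (h0 : 0 ≤ x) (hM : x ≤ M) :
    x ≤ ((univ.filter (fun m : Fin M => ((m : ℕ) : ℝ) < x)).card : ℝ) ∧
    ((univ.filter (fun m : Fin M => ((m : ℕ) : ℝ) < x)).card : ℝ) ≤ x + 1 := by
  have h1 : (univ.filter (fun m : Fin M => ((m : ℕ) : ℝ) < x)).card = ⌈x⌉₊ := by
    have h2 : (univ.filter (fun m : Fin M => ((m : ℕ) : ℝ) < x)).map Fin.valEmbedding =
        range ⌈x⌉₊ := by
      ext k
      simp only [mem_map, mem_filter, mem_univ, true_and, Fin.valEmbedding_apply, mem_range]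
      constructor
      · rintro ⟨m, hm, rfl⟩
        exact Nat.lt_ceil.2 hm
      · intro hk
        have h3 := Nat.lt_ceil.1 hk
        have h4 : k < M := by
          have : (k : ℝ) < M := lt_of_lt_of_le h3 hM
          exact_mod_cast this
        exact ⟨⟨k, h4⟩, h3, rfl⟩
    rw [← card_map Fin.valEmbedding, h2, card_range]
  rw [h1]
  exact ⟨Nat.le_ceil x, (Nat.ceil_lt_add_one h0).le⟩

/-- fibres of a surjective linear map -/
lemma card_fiber {n d : ℕ} (L : (Fin n → F) →ₗ[F] (Fin d → F)) (hL : Function.Surjective L)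
    {l : ℕ} (hn : n = d + l) (P : (Fin d → F) → Prop) [DecidablePred P] :
    (univ.filter (fun c : Fin n → F => P (L c))).card =
      Fintype.card F ^ l * (univ.filter P).card := by
  classical
  have hq : 0 < Fintype.card F := Fintype.card_pos
  have hfib : ∀ u : Fin d → F, (univ.filter (fun c : Fin n → F => L c = u)).card =
      Fintype.card F ^ l := by
    have hconst : ∀ u : Fin d → F, (univ.filter (fun c : Fin n → F => L c = u)).card =
        (univ.filter (fun c : Fin n → F => L c = 0)).card := by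
      intro u
      obtain ⟨c0, hc0⟩ := hL u
      symm
      apply card_bij (fun c _ => c + c0)
      · intro c hc
        rw [mem_filter] at hc ⊢
        exact ⟨mem_univ _, by rw [map_add, hc.2, hc0, zero_add]⟩
      · intro c _ c' _ h
        exact add_right_cancel h
      · intro c hc
        rw [mem_filter] at hc
        refine ⟨c - c0, ?_, by abel⟩
        rw [mem_filter]
        exact ⟨mem_univ _, by rw [map_sub, hc.2, hc0, sub_self]⟩
    have htot : ∑ u : Fin d → F, (univ.filter (fun c : Fin n → F => L c = u)).card =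
        Fintype.card F ^ n := by
      rw [← card_eq_sum_card_fiberwise (fun c _ => mem_coe.2 (mem_univ (L c)))]
      simp
    have h1 : Fintype.card F ^ d * (univ.filter (fun c : Fin n → F => L c = 0)).card =
        Fintype.card F ^ n := by
      rw [← htot, sum_congr rfl (fun u _ => hconst u)]
      simp
    have h1' : Fintype.card F ^ d * (univ.filter (fun c : Fin n → F => L c = 0)).card =
        Fintype.card F ^ d * Fintype.card F ^ l := by
      rw [h1, hn, pow_add]
    intro u
    rw [hconst u]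
    exact Nat.eq_of_mul_eq_mul_left (pow_pos hq d) h1'
  rw [card_eq_sum_card_fiberwise (f := L) (t := univ.filter P) (fun c hc => by
    rw [mem_coe, mem_filter] at hc ⊢
    exact ⟨mem_univ _, hc.2⟩)]
  have h2 : ∀ u ∈ univ.filter P, ((univ.filter (fun c : Fin n → F => P (L c))).filter
      (fun c => L c = u)).card = Fintype.card F ^ l := by
    intro u hu
    rw [mem_filter] at hu
    rw [← hfib u, filter_filter]
    congr 1
    apply filter_congr
    intro c _
    constructor
    · exact fun h => h.2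
    · rintro rfl; exact ⟨hu.2, rfl⟩
  rw [sum_congr rfl h2, sum_const, smul_eq_mul, mul_comm]

/-- The Hankel map. -/
def hank (b : ℕ → F) (n d : ℕ) : (Fin n → F) →ₗ[F] (Fin d → F) where
  toFun c := fun r => ∑ s : Fin n, c s * b (r + s)
  map_add' c c' := by
    funext r
    simp only [Pi.add_apply, add_mul, sum_add_distrib]
  map_smul' a c := by
    funext r
    simp only [Pi.smul_apply, smul_eq_mul, mul_assoc, mul_sum, RingHom.id_apply]

omit [Fintype F] in
lemma hank_surj (b : ℕ → F) (n d : ℕ)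
    (h : ∀ u : Fin d → F, u ≠ 0 → ∃ r : Fin n, ∑ s : Fin d, u s * b (r + s) ≠ 0) :
    Function.Surjective (hank b n d) := by
  classical
  rw [← LinearMap.range_eq_top]
  by_contra hne
  obtain ⟨f, hf0, hf⟩ := Submodule.exists_le_ker_of_lt_top _ (lt_top_iff_ne_top.2 hne)
  set u : Fin d → F := fun r => f (Pi.single r 1) with hu
  have hfu : ∀ x : Fin d → F, f x = ∑ r, u r * x r := by
    intro x
    have h1 : x = ∑ r, x r • (Pi.single r (1 : F) : Fin d → F) := by
      funext i
      simp [Finset.sum_apply, Pi.single_apply]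
    conv_lhs => rw [h1]
    rw [map_sum]
    apply sum_congr rfl
    intro r _
    rw [map_smul, smul_eq_mul, mul_comm]
  have hu0 : u ≠ 0 := by
    intro h0
    apply hf0
    ext x
    simp [hfu, h0]
  obtain ⟨r, hr⟩ := h u hu0
  apply hr
  have h2 : hank b n d (Pi.single r 1) ∈ LinearMap.ker f := hf ⟨_, rfl⟩
  rw [LinearMap.mem_ker, hfu] at h2
  rw [← h2]
  apply sum_congr rfl
  intro s _
  congr 1
  simp only [hank, LinearMap.coe_mk, AddHom.coe_mk, Pi.single_apply, ite_mul, one_mul, zero_mul,
    sum_ite_eq', mem_univ, if_true]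
  congr 1; ring

/-- Equidistribution up to `q^l`. -/
lemma equi (b : ℕ → F) (l d : ℕ)
    (h : ∀ u : Fin d → F, u ≠ 0 → ∃ r : Fin (d + l), ∑ s : Fin d, u s * b (r + s) ≠ 0)
    (w : ℕ → F) (γ : ℝ) (h0 : 0 ≤ γ) (h1 : γ ≤ 1) :
    |((univ.filter (fun c : Fin (d + l) → F =>
      val E (fun r => w r + ∑ s : Fin (d + l), c s * b (r + s)) < γ)).card : ℝ) -
      γ * (Fintype.card F : ℝ) ^ (d + l)| ≤ (Fintype.card F : ℝ) ^ l := by
  classical
  have hq := card_pos' (F := F)
  set q : ℝ := (Fintype.card F : ℝ) with hqdef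
  set L := hank b (d + l) d with hL
  have hsurj := hank_surj b (d + l) d h
  set W : Fin d → F := fun r => w r with hW
  have hpre : ∀ c : Fin (d + l) → F, (fun r : Fin d => w r + ∑ s : Fin (d + l), c s * b (r + s)) =
      W + L c := by
    intro c; funext r; rfl
  have hx1 : γ * q ^ d ≤ (Fintype.card F ^ d : ℕ) := by
    push_cast; rw [← hqdef]; have := pow_pos hq d; nlinarith
  -- translation invariance
  have htrans : ∀ Q : (Fin d → F) → Prop, ∀ [DecidablePred Q],
      (univ.filter (fun u : Fin d → F => Q (W + u))).card = (univ.filter Q).card := by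
    intro Q _
    apply card_bij (fun u _ => W + u)
    · intro u hu; rw [mem_filter] at hu ⊢; exact ⟨mem_univ _, hu.2⟩
    · intro u _ v _ h; exact add_left_cancel h
    · intro v hv
      rw [mem_filter] at hv
      exact ⟨v - W, by rw [mem_filter]; exact ⟨mem_univ _, by simpa using hv.2⟩, by abel⟩
  have hpi : ∀ Q : ℕ → Prop, ∀ [DecidablePred Q],
      (univ.filter (fun u : Fin d → F => Q (piEquiv E d u))).card =
      (univ.filter (fun m : Fin (Fintype.card F ^ d) => Q m)).card := by
    intro Q _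
    apply card_bij (fun u _ => piEquiv E d u)
    · intro u hu; rw [mem_filter] at hu ⊢; exact ⟨mem_univ _, hu.2⟩
    · intro u _ v _ h; exact (piEquiv E d).injective h
    · intro m hm
      rw [mem_filter] at hm
      exact ⟨(piEquiv E d).symm m, by rw [mem_filter]; exact ⟨mem_univ _, by simpa using hm.2⟩,
        by simp⟩
  rw [abs_le]
  constructor
  · -- lower bound
    have hsub : (univ.filter (fun c : Fin (d + l) → F =>
        ((piEquiv E d (W + L c) : ℕ) : ℝ) < γ * q ^ d - 1)) ⊆
        univ.filter (fun c : Fin (d + l) → F =>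
          val E (fun r => w r + ∑ s : Fin (d + l), c s * b (r + s)) < γ) := by
      intro c hc
      rw [mem_filter] at hc ⊢
      refine ⟨mem_univ _, ?_⟩
      have h3 := (val_bounds E (fun r => w r + ∑ s : Fin (d + l), c s * b (r + s)) d).2
      rw [hpre c] at h3
      refine lt_of_le_of_lt h3 ?_
      rw [div_lt_iff₀ (pow_pos hq d)]
      linarith [hc.2]
    have h3 := card_le_card hsub
    rw [card_fiber L hsurj rfl (fun u => ((piEquiv E d (W + u) : ℕ) : ℝ) < γ * q ^ d - 1),
      htrans (fun u => ((piEquiv E d u : ℕ) : ℝ) < γ * q ^ d - 1),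
      hpi (fun m => (m : ℝ) < γ * q ^ d - 1)] at h3
    have h4 : γ * q ^ d - 1 ≤ ((univ.filter (fun m : Fin (Fintype.card F ^ d) =>
        ((m : ℕ) : ℝ) < γ * q ^ d - 1)).card : ℝ) := by
      rcases le_total (γ * q ^ d - 1) 0 with h5 | h5
      · exact h5.trans (by positivity)
      · exact (count_lt _ _ h5 (by linarith)).1
    have h5 : q ^ l * (γ * q ^ d - 1) ≤ ((univ.filter (fun c : Fin (d + l) → F =>
          val E (fun r => w r + ∑ s : Fin (d + l), c s * b (r + s)) < γ)).card : ℝ) := by
      calc q ^ l * (γ * q ^ d - 1) ≤ q ^ l * ((univ.filter (fun m : Fin (Fintype.card F ^ d) =>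
          ((m : ℕ) : ℝ) < γ * q ^ d - 1)).card : ℝ) := by gcongr
        _ ≤ _ := by
          have h3' := (Nat.cast_le (α := ℝ)).2 h3
          rw [Nat.cast_mul, Nat.cast_pow] at h3'
          exact h3'
    have h6 : q ^ l * (γ * q ^ d - 1) = γ * q ^ (d + l) - q ^ l := by rw [pow_add]; ring
    linarith
  · -- upper bound
    have hsub : univ.filter (fun c : Fin (d + l) → F =>
          val E (fun r => w r + ∑ s : Fin (d + l), c s * b (r + s)) < γ) ⊆
        (univ.filter (fun c : Fin (d + l) → F =>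
        ((piEquiv E d (W + L c) : ℕ) : ℝ) < γ * q ^ d)) := by
      intro c hc
      rw [mem_filter] at hc ⊢
      refine ⟨mem_univ _, ?_⟩
      have h3 := (val_bounds E (fun r => w r + ∑ s : Fin (d + l), c s * b (r + s)) d).1
      rw [hpre c] at h3
      have h4 := lt_of_le_of_lt h3 hc.2
      rwa [div_lt_iff₀ (pow_pos hq d)] at h4
    have h3 := card_le_card hsub
    rw [card_fiber L hsurj rfl (fun u => ((piEquiv E d (W + u) : ℕ) : ℝ) < γ * q ^ d),
      htrans (fun u => ((piEquiv E d u : ℕ) : ℝ) < γ * q ^ d),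
      hpi (fun m => (m : ℝ) < γ * q ^ d)] at h3
    have h4 := (count_lt _ (γ * q ^ d) (by positivity) hx1).2
    have h5 : ((univ.filter (fun c : Fin (d + l) → F =>
          val E (fun r => w r + ∑ s : Fin (d + l), c s * b (r + s)) < γ)).card : ℝ) ≤
          q ^ l * (γ * q ^ d + 1) := by
      calc _ ≤ q ^ l * ((univ.filter (fun m : Fin (Fintype.card F ^ d) =>
          ((m : ℕ) : ℝ) < γ * q ^ d)).card : ℝ) := by
            have h3' := (Nat.cast_le (α := ℝ)).2 h3
            rw [Nat.cast_mul, Nat.cast_pow] at h3'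
            exact h3'
        _ ≤ q ^ l * (γ * q ^ d + 1) := by gcongr
    have h6 : q ^ l * (γ * q ^ d + 1) = γ * q ^ (d + l) + q ^ l := by rw [pow_add]; ring
    linarith

end Pool.Agent.V11269.FF
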