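import Mathlib

/-!
Definitions for digital Kronecker–Van der Corput sequences over `F((1/t))`.
The field `F((t⁻¹))` is Mathlib's `LaurentSeries F` in the variable `t⁻¹`: the coefficient of
`t^(-i)` of `Θ` is `Θ.coeff i` for an integer `i`.
-/

namespace Pool.Agent.V11269.FFDefs

open Finset Polynomial

/-- The embedding `F[t] → F((t⁻¹))`, sending `t` to the inverse of the variable. -/
noncomputable def ι {F : Type*} [Field F] (g : F[X]) : LaurentSeries F :=
  aeval (HahnSeries.single (-1 : ℤ) (1 : F)) g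

/-- The fractional part: the terms with negative powers of `t`. -/
noncomputable def frac {F : Type*} [Field F] (Ψ : LaurentSeries F) : LaurentSeries F where
  coeff i := if 1 ≤ i then Ψ.coeff i else 0
  isPWO_support' := Ψ.isPWO_support'.mono (by
    intro i hi
    rw [Function.mem_support] at hi ⊢
    split_ifs at hi with h
    · exact hi
    · exact absurd rfl hi)

variable {F : Type*} [Field F] [Fintype F]

/-- `|Ψ| = q^h` if the leading term of `Ψ` is a multiple of `t^h`, and `|0| = 0`. -/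
noncomputable def absL (Ψ : LaurentSeries F) : ℝ :=
  open Classical in if Ψ = 0 then 0 else (Fintype.card F : ℝ) ^ (-Ψ.order)

/-- `Θ ∈ Bad(P,q)`. -/
def Bad (P : F[X]) (Θ : LaurentSeries F) : Prop :=
  ∃ c : ℝ, 0 < c ∧ ∀ N : F[X], N ≠ 0 → ∀ k : ℕ,
    c ≤ absL (ι N) * absL (frac (ι N * ι P ^ k * Θ))

variable (E : F ≃ Fin (Fintype.card F))

/-- The base `q` digit of `n` at `q^s`. -/
def dig (F : Type*) [Field F] [Fintype F] (n s : ℕ) : Fin (Fintype.card F) :=
  ⟨n / Fintype.card F ^ s % Fintype.card F, Nat.mod_lt _ Fintype.card_pos⟩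

/-- `n(t) = ∑_s E⁻¹(d_s) t^s` where `d_s` are the base `q` digits of `n`
(the digits with `s ≥ n` are zero). -/
noncomputable def toPoly (n : ℕ) : F[X] := ∑ s ∈ range n, C (E.symm (dig F n s)) * X ^ s

/-- `ev_q (∑ c_j t^j) = ∑ E(c_j) q^j`. -/
noncomputable def evP (b : F[X]) : ℕ :=
  ∑ s ∈ b.support, (E (b.coeff s) : ℕ) * Fintype.card F ^ s

/-- `ev_q (∑_{i ≥ 1} a_i t^(-i)) = ∑ E(a_i) q^(-i)`. -/
noncomputable def evL (Ψ : LaurentSeries F) : ℝ :=
  ∑' r : ℕ, ((E (Ψ.coeff (r + 1)) : ℕ) : ℝ) / (Fintype.card F : ℝ) ^ (r + 1)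

/-- The digital Kronecker sequence. -/
noncomputable def K (Θ : LaurentSeries F) (n : ℕ) : ℝ := evL E (frac (ι (toPoly E n) * Θ))

/-- `V(g) = ∑_i ev_q(b_i) / |B|^(i+1)` where `g = ∑ b_i B^i`, `deg b_i < deg B`, so that
`b_i = (g / B^i) % B`. -/
noncomputable def vdcP (B g : F[X]) : ℝ :=
  ∑' i : ℕ, (evP E ((g / B ^ i) % B) : ℝ) / ((Fintype.card F : ℝ) ^ B.natDegree) ^ (i + 1)

/-- The digital Van der Corput sequence. -/
noncomputable def V (B : F[X]) (n : ℕ) : ℝ := vdcP E B (toPoly E n)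

open Classical in
/-- The star discrepancy of the first `N` points of a sequence of points in the plane. -/
noncomputable def starDisc (H : ℕ → ℝ × ℝ) (N : ℕ) : ℝ :=
  ⨆ p : Set.Icc (0 : ℝ) 1 × Set.Icc (0 : ℝ) 1,
    |(((range N).filter fun n => 0 ≤ (H n).1 ∧ (H n).1 < p.1 ∧ 0 ≤ (H n).2 ∧
      (H n).2 < p.2).card : ℝ) / N - p.1 * p.2|

end Pool.Agent.V11269.FFDefs
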