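import Pool.Agent.V11269.FF
import Pool.Agent.V11269.FFDefs

namespace Pool.Agent.V11269.FF

open Finset Polynomial Pool.Agent.V11269.FFDefs

variable {F : Type*} [Field F]

lemma ι_C_mul_X_pow (a : F) (s : ℕ) : ι (C a * X ^ s) = HahnSeries.single (-(s : ℤ)) a := by
  unfold ι
  rw [map_mul, map_pow, aeval_C, aeval_X, HahnSeries.single_pow, one_pow]
  have h1 : (algebraMap F (LaurentSeries F)) a = HahnSeries.single 0 a := by
    rw [HahnSeries.algebraMap_apply']
    simp
  rw [h1, HahnSeries.single_mul_single]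
  congr 1
  · simp
  · simp

/-- polynomial from coefficients -/
noncomputable def mkP {n : ℕ} (c : Fin n → F) : F[X] := ∑ s : Fin n, C (c s) * X ^ (s : ℕ)

lemma mkP_coeff {n : ℕ} (c : Fin n → F) (s : ℕ) :
    (mkP c).coeff s = if h : s < n then c ⟨s, h⟩ else 0 := by
  unfold mkP
  rw [finsetSum_coeff]
  simp only [coeff_C_mul_X_pow]
  split_ifs with h
  · rw [sum_eq_single (⟨s, h⟩ : Fin n)]
    · simp
    · intro b _ hb
      rw [if_neg]
      intro h1
      exact hb (Fin.ext h1.symm)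
    · intro h1; exact absurd (mem_univ _) h1
  · apply sum_eq_zero
    intro b _
    rw [if_neg]
    intro h1
    exact h (h1 ▸ b.2)

lemma mkP_inj {n : ℕ} {c c' : Fin n → F} (h : mkP c = mkP c') : c = c' := by
  funext s
  have h1 := congrArg (fun p => p.coeff (s : ℕ)) h
  simp only [mkP_coeff, s.2, dif_pos] at h1
  exact h1

lemma mkP_of {n : ℕ} {g : F[X]} (hg : ∀ s, n ≤ s → g.coeff s = 0) :
    mkP (fun s : Fin n => g.coeff s) = g := by
  ext s
  rw [mkP_coeff]
  split_ifs with h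
  · rfl
  · exact (hg s (by omega)).symm

lemma coeff_ι_mkP {n : ℕ} (c : Fin n → F) (Ψ : LaurentSeries F) (k : ℤ) :
    (ι (mkP c) * Ψ).coeff k = ∑ s : Fin n, c s * Ψ.coeff (k + (s : ℕ)) := by
  have h1 : ι (mkP c) = ∑ s : Fin n, HahnSeries.single (-((s : ℕ) : ℤ)) (c s) := by
    unfold mkP
    have : ι (∑ s : Fin n, C (c s) * X ^ (s : ℕ)) = ∑ s : Fin n, ι (C (c s) * X ^ (s : ℕ)) := by
      unfold ι; rw [map_sum]
    rw [this]
    exact sum_congr rfl (fun s _ => ι_C_mul_X_pow _ _)
  rw [h1, sum_mul, HahnSeries.coeff_sum]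
  apply sum_congr rfl
  intro s _
  rw [HahnSeries.coeff_single_mul, sub_neg_eq_add]

variable [Fintype F] (E : F ≃ Fin (Fintype.card F))

lemma E_symm_zero (hE : (E 0 : ℕ) = 0) {x : Fin (Fintype.card F)} (hx : (x : ℕ) = 0) :
    E.symm x = 0 := by
  rw [Equiv.symm_apply_eq]
  exact Fin.ext (by rw [hx, hE])

lemma toPoly_coeff (hE : (E 0 : ℕ) = 0) (n s : ℕ) :
    (toPoly E n).coeff s = E.symm (dig F n s) := by
  unfold toPoly
  rw [finsetSum_coeff]
  simp only [coeff_C_mul_X_pow]
  rw [sum_ite_eq]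
  split_ifs with h
  · rfl
  · rw [mem_range, not_lt] at h
    symm
    apply E_symm_zero E hE
    have h1 : n < Fintype.card F ^ s :=
      lt_of_le_of_lt h (Nat.lt_pow_self two_le_card)
    simp [dig, Nat.div_eq_of_lt h1]

lemma dig_add {j n c : ℕ} (hn : n < Fintype.card F ^ j) (hc : c < Fintype.card F) (s : ℕ) :
    ((dig F (c * Fintype.card F ^ j + n) s : Fin _) : ℕ) =
      if s < j then (dig F n s : ℕ) else if s = j then c else 0 := by
  have hq : 0 < Fintype.card F := Fintype.card_pos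
  simp only [dig]
  split_ifs with h1 h2
  · obtain ⟨e, rfl⟩ : ∃ e, j = s + (e + 1) := ⟨j - s - 1, by omega⟩
    have h3 : c * Fintype.card F ^ (s + (e + 1)) + n =
        n + Fintype.card F ^ s * (Fintype.card F * (c * Fintype.card F ^ e)) := by
      rw [pow_add, pow_succ]; ring
    rw [h3, Nat.add_mul_div_left _ _ (pow_pos hq s), Nat.add_mul_mod_self_left]
  · rw [h2, mul_comm, Nat.mul_add_div (pow_pos hq j), Nat.div_eq_of_lt hn, add_zero,
      Nat.mod_eq_of_lt hc]
  · have h3 : c * Fintype.card F ^ j + n < Fintype.card F ^ s := by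
      calc c * Fintype.card F ^ j + n < c * Fintype.card F ^ j + Fintype.card F ^ j := by omega
        _ = (c + 1) * Fintype.card F ^ j := by ring
        _ ≤ Fintype.card F * Fintype.card F ^ j := Nat.mul_le_mul_right _ hc
        _ = Fintype.card F ^ (j + 1) := by rw [pow_succ, mul_comm]
        _ ≤ Fintype.card F ^ s := Nat.pow_le_pow_right hq (by omega)
    rw [Nat.div_eq_of_lt h3, Nat.zero_mod]

lemma toPoly_add (hE : (E 0 : ℕ) = 0) {j n c : ℕ} (hn : n < Fintype.card F ^ j)
    (hc : c < Fintype.card F) :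
    toPoly E (c * Fintype.card F ^ j + n) = C (E.symm ⟨c, hc⟩) * X ^ j + toPoly E n := by
  have hq : 0 < Fintype.card F := Fintype.card_pos
  ext s
  rw [coeff_add, toPoly_coeff E hE, toPoly_coeff E hE, coeff_C_mul_X_pow]
  have h0 := dig_add hn hc s
  split_ifs with h1
  · have h2 : dig F (c * Fintype.card F ^ j + n) s = ⟨c, hc⟩ := by
      apply Fin.ext; rw [h0, if_neg (by omega), if_pos h1]
    have h3 : E.symm (dig F n s) = 0 := by
      apply E_symm_zero E hE
      simp [dig, h1, Nat.div_eq_of_lt hn]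
    rw [h2, h3, add_zero]
  · rw [zero_add]
    by_cases h2 : s < j
    · congr 1; apply Fin.ext; rw [h0, if_pos h2]
    · rw [E_symm_zero E hE (x := dig F (c * Fintype.card F ^ j + n) s)
        (by rw [h0, if_neg h2, if_neg h1]), E_symm_zero E hE (x := dig F n s)]
      have : n < Fintype.card F ^ s :=
        lt_of_lt_of_le hn (Nat.pow_le_pow_right hq (by omega))
      simp [dig, Nat.div_eq_of_lt this]

lemma toPoly_coeff_ge (hE : (E 0 : ℕ) = 0) {n j : ℕ} (hn : n < Fintype.card F ^ j) :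
    ∀ s, j ≤ s → (toPoly E n).coeff s = 0 := by
  intro s hs
  rw [toPoly_coeff E hE]
  apply E_symm_zero E hE
  have : n < Fintype.card F ^ s :=
    lt_of_lt_of_le hn (Nat.pow_le_pow_right Fintype.card_pos (by omega))
  simp [dig, Nat.div_eq_of_lt this]

lemma sum_digits (n j : ℕ) : ∑ s ∈ range j, ((dig F n s : Fin _) : ℕ) * Fintype.card F ^ s =
    n % Fintype.card F ^ j := by
  induction j with
  | zero => simp [Nat.mod_one]
  | succ j ih =>
    rw [sum_range_succ, ih, Nat.mod_pow_succ]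
    simp only [dig]
    ring

lemma evP_eq (hE : (E 0 : ℕ) = 0) {g : F[X]} {j : ℕ} (hg : ∀ s, j ≤ s → g.coeff s = 0) :
    evP E g = ∑ s ∈ range j, (E (g.coeff s) : ℕ) * Fintype.card F ^ s := by
  unfold evP
  apply sum_subset
  · intro s hs
    rw [mem_range]
    by_contra h
    exact (mem_support_iff.1 hs) (hg s (by omega))
  · intro s _ hs
    rw [notMem_support_iff.1 hs, hE, zero_mul]

lemma evP_toPoly (hE : (E 0 : ℕ) = 0) (n : ℕ) : evP E (toPoly E n) = n := by
  have h1 : n < Fintype.card F ^ n := Nat.lt_pow_self two_le_card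
  rw [evP_eq E hE (toPoly_coeff_ge E hE h1)]
  simp only [toPoly_coeff E hE, Equiv.apply_symm_apply]
  rw [sum_digits, Nat.mod_eq_of_lt h1]

lemma toPoly_inj (hE : (E 0 : ℕ) = 0) {n m : ℕ} (h : toPoly E n = toPoly E m) : n = m := by
  rw [← evP_toPoly E hE n, h, evP_toPoly E hE m]

lemma toPoly_zero : toPoly E 0 = 0 := by simp [toPoly]

lemma exists_toPoly (hE : (E 0 : ℕ) = 0) (j : ℕ) : ∀ g : F[X],
    (∀ s, j ≤ s → g.coeff s = 0) → ∃ n < Fintype.card F ^ j, toPoly E n = g := by
  induction j with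
  | zero =>
    intro g hg
    refine ⟨0, by simp, ?_⟩
    rw [toPoly_zero]
    ext s
    rw [coeff_zero, hg s (Nat.zero_le s)]
  | succ j ih =>
    intro g hg
    obtain ⟨n, hn, hn2⟩ := ih (g - C (g.coeff j) * X ^ j) (by
      intro s hs
      rw [coeff_sub, coeff_C_mul_X_pow]
      split_ifs with h
      · rw [h, sub_self]
      · rw [sub_zero]; exact hg s (by omega))
    refine ⟨(E (g.coeff j) : ℕ) * Fintype.card F ^ j + n, ?_, ?_⟩
    · have h1 := (E (g.coeff j)).2
      calc (E (g.coeff j) : ℕ) * Fintype.card F ^ j + n <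
          (E (g.coeff j) : ℕ) * Fintype.card F ^ j + Fintype.card F ^ j := by omega
        _ = ((E (g.coeff j) : ℕ) + 1) * Fintype.card F ^ j := by ring
        _ ≤ Fintype.card F * Fintype.card F ^ j := Nat.mul_le_mul_right _ h1
        _ = Fintype.card F ^ (j + 1) := by rw [pow_succ, mul_comm]
    · rw [toPoly_add E hE hn (E (g.coeff j)).2, hn2]
      have h1 : (⟨(E (g.coeff j) : ℕ), (E (g.coeff j)).2⟩ : Fin (Fintype.card F)) =
        E (g.coeff j) := rfl
      rw [h1, Equiv.symm_apply_apply]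
      ring

lemma evP_lt (hE : (E 0 : ℕ) = 0) {g : F[X]} {j : ℕ} (hg : ∀ s, j ≤ s → g.coeff s = 0) :
    evP E g < Fintype.card F ^ j := by
  obtain ⟨n, hn, rfl⟩ := exists_toPoly E hE j g hg
  rwa [evP_toPoly E hE]

lemma toPoly_evP (hE : (E 0 : ℕ) = 0) (g : F[X]) : toPoly E (evP E g) = g := by
  obtain ⟨n, hn, rfl⟩ := exists_toPoly E hE (g.natDegree + 1) g
    (fun s hs => coeff_eq_zero_of_natDegree_lt (by omega))
  rw [evP_toPoly E hE]

end Pool.Agent.V11269.FF
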