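import Pool.Agent.V11269.FF2

namespace Pool.Agent.V11269.FF

open Finset Polynomial Pool.Agent.V11269.FFDefs

variable {F : Type*} [Field F] [Fintype F] (E : F ≃ Fin (Fintype.card F))

/-- the Kronecker value of a polynomial -/
noncomputable def KK (Θ : LaurentSeries F) (g : F[X]) : ℝ :=
  val E (fun r => (ι g * Θ).coeff ((r : ℤ) + 1))

lemma K_eq (Θ : LaurentSeries F) (n : ℕ) : FFDefs.K E Θ n = KK E Θ (toPoly E n) := by
  unfold FFDefs.K evL KK val frac
  congr 1
  funext r
  simp

omit [Fintype F] in
lemma ι_mul (f g : F[X]) : ι (f * g) = ι f * ι g := by unfold ι; rw [map_mul]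
omit [Fintype F] in
lemma ι_add (f g : F[X]) : ι (f + g) = ι f + ι g := by unfold ι; rw [map_add]

variable {P : F[X]} (hP : Irreducible P) {Θ : LaurentSeries F} {l : ℕ}

open Classical in
/-- number of elements of a finite set with a property -/
noncomputable def cnt {α : Type*} (s : Finset α) (p : α → Prop) : ℕ := (s.filter p).card

lemma cnt_eq {α : Type*} (s : Finset α) (p : α → Prop) [DecidablePred p] :
    cnt s p = (s.filter p).card := by
  unfold cnt; congr

/-- number of solutions of a congruence in a block -/
lemma block0 (hE : (E 0 : ℕ) = 0) (hP : P ≠ 0) (T : F[X]) (i j : ℕ) :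
    cnt (range (Fintype.card F ^ j)) (fun n => P ^ i ∣ T + toPoly E n) ≤
      Fintype.card F ^ (j - P.natDegree * i) := by
  classical
  rw [cnt_eq]
  have hPi : P ^ i ≠ 0 := pow_ne_zero _ hP
  rw [show Fintype.card F ^ (j - P.natDegree * i) =
    (range (Fintype.card F ^ (j - P.natDegree * i))).card from (card_range _).symm]
  set g0 := (-T) % P ^ i with hg0
  have hg0' : P ^ i ∣ T + g0 := by
    have : P ^ i ∣ g0 - (-T) := by
      rw [hg0]
      refine ⟨-((-T) / P ^ i), ?_⟩
      have := EuclideanDomain.div_add_mod (-T) (P ^ i)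
      linear_combination this
    rwa [sub_neg_eq_add, add_comm] at this
  have hdeg0 : g0.degree < (P ^ i).degree := degree_mod_lt _ hPi
  have key : ∀ n < Fintype.card F ^ j, P ^ i ∣ T + toPoly E n →
      ∃ h : F[X], toPoly E n = g0 + P ^ i * h ∧ ∀ s, j - P.natDegree * i ≤ s → h.coeff s = 0 := by
    intro n hn hd
    obtain ⟨h, hh⟩ : P ^ i ∣ toPoly E n - g0 := by
      have := dvd_sub hd hg0'
      rwa [add_sub_add_left_eq_sub] at this
    refine ⟨h, by rw [← hh]; ring, ?_⟩
    intro s hs
    by_cases hh0 : h = 0
    · rw [hh0, coeff_zero]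
    apply coeff_eq_zero_of_natDegree_lt
    -- degree comparison
    have h1 : toPoly E n = g0 + P ^ i * h := by rw [← hh]; ring
    have h2 : (P ^ i * h).degree = (P ^ i).degree + h.degree := degree_mul
    have h3 : g0.degree < (P ^ i * h).degree := by
      rw [h2]
      refine lt_of_lt_of_le hdeg0 ?_
      rw [degree_eq_natDegree hPi, degree_eq_natDegree hh0]
      exact_mod_cast Nat.le_add_right _ _
    have h4 : (toPoly E n).degree = (P ^ i * h).degree := by
      rw [h1]; exact degree_add_eq_right_of_degree_lt h3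
    have h5 : (toPoly E n).degree < j := by
      rw [degree_lt_iff_coeff_zero]; exact toPoly_coeff_ge E hE hn
    rw [h4, h2, degree_eq_natDegree hPi, degree_eq_natDegree hh0, natDegree_pow] at h5
    have h6 : i * P.natDegree + h.natDegree < j := by exact_mod_cast h5
    have h7 : P.natDegree * i = i * P.natDegree := mul_comm _ _
    omega
  choose! H hH1 hH2 using key
  apply card_le_card_of_injOn (fun n => evP E (H n))
  · intro n hn
    rw [mem_coe, mem_filter, mem_range] at hn
    rw [mem_coe, mem_range]
    exact evP_lt E hE (hH2 n hn.1 hn.2)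
  · intro n hn m hm hnm
    rw [mem_coe, mem_filter, mem_range] at hn hm
    have h1 : H n = H m := by
      rw [← toPoly_evP E hE (H n), ← toPoly_evP E hE (H m)]
      exact congrArg _ hnm
    apply toPoly_inj E hE
    rw [hH1 n hn.1 hn.2, hH1 m hm.1 hm.2, h1]

/-- full blocks -/
lemma block (hE : (E 0 : ℕ) = 0) (hP : P ≠ 0)
    (hbad : ∀ i d : ℕ, ∀ u : Fin d → F, u ≠ 0 → ∃ r : Fin (d + l),
      (ι (mkP u) * (ι (P ^ i) * Θ)).coeff (((r : ℕ) : ℤ) + 1) ≠ 0)
    (T R : F[X]) (i j : ℕ) (γ : ℝ) (h0 : 0 ≤ γ) (h1 : γ ≤ 1) :
    |(cnt (range (Fintype.card F ^ j)) (fun n => P ^ i ∣ R + toPoly E n ∧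
      KK E Θ (T + toPoly E n) < γ) : ℝ) -
      γ * (Fintype.card F : ℝ) ^ j / (Fintype.card F : ℝ) ^ (P.natDegree * i)| ≤
      (Fintype.card F : ℝ) ^ l := by
  classical
  rw [cnt_eq]
  have hq := card_pos' (F := F)
  have hq1 : (1 : ℝ) ≤ Fintype.card F := by
    have := two_le_card (F := F)
    exact_mod_cast (by omega : 1 ≤ Fintype.card F)
  have hPi : P ^ i ≠ 0 := pow_ne_zero _ hP
  rcases lt_or_ge j (P.natDegree * i + l) with hj | hj
  · -- small case
    have h2 : ((range (Fintype.card F ^ j)).filter (fun n => P ^ i ∣ R + toPoly E n ∧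
      KK E Θ (T + toPoly E n) < γ)).card ≤ Fintype.card F ^ l := by
      have h6 := block0 E hE hP R i j
      rw [cnt_eq] at h6
      refine (card_le_card ?_).trans (h6.trans
        (Nat.pow_le_pow_right Fintype.card_pos (by omega)))
      intro n hn
      rw [mem_filter] at hn ⊢
      exact ⟨hn.1, hn.2.1⟩
    have h2' : (((range (Fintype.card F ^ j)).filter (fun n => P ^ i ∣ R + toPoly E n ∧
      KK E Θ (T + toPoly E n) < γ)).card : ℝ) ≤ (Fintype.card F : ℝ) ^ l := by
      have := (Nat.cast_le (α := ℝ)).2 h2
      rwa [Nat.cast_pow] at this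
    have h3 : γ * (Fintype.card F : ℝ) ^ j / (Fintype.card F : ℝ) ^ (P.natDegree * i) ≤
        (Fintype.card F : ℝ) ^ l := by
      rw [div_le_iff₀ (pow_pos hq _), ← pow_add]
      calc γ * (Fintype.card F : ℝ) ^ j ≤ 1 * (Fintype.card F : ℝ) ^ j := by gcongr
        _ = (Fintype.card F : ℝ) ^ j := one_mul _
        _ ≤ (Fintype.card F : ℝ) ^ (l + P.natDegree * i) :=
          pow_le_pow_right₀ hq1 (by omega)
    have h4 : 0 ≤ γ * (Fintype.card F : ℝ) ^ j / (Fintype.card F : ℝ) ^ (P.natDegree * i) := by
      positivity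
    have h5 : (0 : ℝ) ≤ (((range (Fintype.card F ^ j)).filter (fun n => P ^ i ∣ R + toPoly E n ∧
      KK E Θ (T + toPoly E n) < γ)).card : ℝ) := Nat.cast_nonneg _
    rw [abs_le]; constructor <;> linarith
  · obtain ⟨d, hd⟩ : ∃ d, j = P.natDegree * i + (d + l) := ⟨j - P.natDegree * i - l, by omega⟩
    set g0 := (-R) % P ^ i with hg0
    have hg0' : P ^ i ∣ R + g0 := by
      have : P ^ i ∣ g0 - (-R) := by
        rw [hg0]
        refine ⟨-((-R) / P ^ i), ?_⟩
        have := EuclideanDomain.div_add_mod (-R) (P ^ i)
        linear_combination this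
      rwa [sub_neg_eq_add, add_comm] at this
    have hdeg0 : g0.degree < (P ^ i).degree := degree_mod_lt _ hPi
    have hcard : ((range (Fintype.card F ^ j)).filter (fun n => P ^ i ∣ R + toPoly E n ∧
      KK E Θ (T + toPoly E n) < γ)).card = (univ.filter (fun c : Fin (d + l) → F =>
      val E (fun r => (ι (T + g0) * Θ).coeff ((r : ℤ) + 1) + ∑ s : Fin (d + l), c s *
        (fun k : ℕ => (ι (P ^ i) * Θ).coeff ((k : ℤ) + 1)) (r + s)) < γ)).card := by
      symm
      have hval : ∀ c : Fin (d + l) → F, val E (fun r => (ι (T + g0) * Θ).coeff ((r : ℤ) + 1) +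
          ∑ s : Fin (d + l), c s * (fun k : ℕ => (ι (P ^ i) * Θ).coeff ((k : ℤ) + 1)) (r + s)) =
          KK E Θ (T + (g0 + P ^ i * mkP c)) := by
        intro c
        unfold KK
        congr 1
        funext r
        rw [show T + (g0 + P ^ i * mkP c) = (T + g0) + mkP c * P ^ i by ring, ι_add (T + g0), add_mul,
          HahnSeries.coeff_add, ι_mul, mul_assoc, coeff_ι_mkP]
        congr 1
        apply sum_congr rfl
        intro s _
        congr 2
        push_cast
        ring_nf
      have hdegc : ∀ c : Fin (d + l) → F, ∀ s, j ≤ s → (g0 + P ^ i * mkP c).coeff s = 0 := by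
        intro c
        rw [← degree_lt_iff_coeff_zero]
        have h2 : g0.degree < j := by
          refine lt_of_lt_of_le hdeg0 ?_
          rw [degree_eq_natDegree hPi, natDegree_pow, hd, mul_comm]
          exact_mod_cast Nat.le_add_right _ _
        have h3 : (P ^ i * mkP c).degree < j := by
          by_cases hc : mkP c = 0
          · rw [hc, mul_zero, degree_zero]; exact WithBot.bot_lt_coe _
          · rw [degree_mul, degree_eq_natDegree hPi, degree_eq_natDegree hc, natDegree_pow, hd]
            have h4 : (mkP c).degree < (d + l : ℕ) := by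
              rw [degree_lt_iff_coeff_zero]
              intro s hs
              rw [mkP_coeff, dif_neg (by omega)]
            rw [degree_eq_natDegree hc] at h4
            have h5 : (mkP c).natDegree < d + l := by exact_mod_cast h4
            have h6 : i * P.natDegree + (mkP c).natDegree < P.natDegree * i + (d + l) := by
              rw [mul_comm]; omega
            exact_mod_cast h6
        exact lt_of_le_of_lt (degree_add_le _ _) (max_lt h2 h3)
      apply card_bij (fun c _ => evP E (g0 + P ^ i * mkP c))
      · intro c hc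
        rw [mem_filter, hval] at hc
        rw [mem_filter, mem_range, toPoly_evP E hE]
        refine ⟨evP_lt E hE (hdegc c), ?_, hc.2⟩
        rw [← add_assoc]
        exact dvd_add hg0' (dvd_mul_right _ _)
      · intro c _ c' _ h
        have h2 := congrArg (toPoly E) h
        rw [toPoly_evP E hE, toPoly_evP E hE] at h2
        exact mkP_inj (mul_left_cancel₀ hPi (add_left_cancel h2))
      · intro n hn
        rw [mem_filter, mem_range] at hn
        obtain ⟨h, hh⟩ : P ^ i ∣ toPoly E n - g0 := by
          have := dvd_sub hn.2.1 hg0'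
          rwa [add_sub_add_left_eq_sub] at this
        have h1' : toPoly E n = g0 + P ^ i * h := by rw [← hh]; ring
        have hcoef : ∀ s, d + l ≤ s → h.coeff s = 0 := by
          intro s hs
          by_cases hh0 : h = 0
          · rw [hh0, coeff_zero]
          apply coeff_eq_zero_of_natDegree_lt
          have h2 : (P ^ i * h).degree = (P ^ i).degree + h.degree := degree_mul
          have h3 : g0.degree < (P ^ i * h).degree := by
            rw [h2]
            refine lt_of_lt_of_le hdeg0 ?_
            rw [degree_eq_natDegree hPi, degree_eq_natDegree hh0]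
            exact_mod_cast Nat.le_add_right _ _
          have h4 : (toPoly E n).degree = (P ^ i * h).degree := by
            rw [h1']; exact degree_add_eq_right_of_degree_lt h3
          have h5 : (toPoly E n).degree < j := by
            rw [degree_lt_iff_coeff_zero]; exact toPoly_coeff_ge E hE hn.1
          rw [h4, h2, degree_eq_natDegree hPi, degree_eq_natDegree hh0, natDegree_pow] at h5
          have h6 : i * P.natDegree + h.natDegree < j := by exact_mod_cast h5
          have h7 : P.natDegree * i = i * P.natDegree := mul_comm _ _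
          omega
        have h8 : evP E (g0 + P ^ i * mkP (fun s : Fin (d + l) => h.coeff s)) = n := by
          rw [mkP_of hcoef, ← h1', evP_toPoly E hE]
        refine ⟨fun s => h.coeff s, ?_, h8⟩
        rw [mem_filter, hval, mkP_of hcoef, ← h1']
        exact ⟨mem_univ _, hn.2.2⟩
    rw [hcard]
    have hequi := equi E (fun k : ℕ => (ι (P ^ i) * Θ).coeff ((k : ℤ) + 1)) l d (by
      intro u hu
      obtain ⟨r, hr⟩ := hbad i d u hu
      refine ⟨r, ?_⟩
      rw [coeff_ι_mkP] at hr
      intro hz
      apply hr
      rw [← hz]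
      apply sum_congr rfl
      intro s _
      congr 2
      push_cast; ring) (fun r => (ι (T + g0) * Θ).coeff ((r : ℤ) + 1)) γ h0 h1
    have hmain : γ * (Fintype.card F : ℝ) ^ j / (Fintype.card F : ℝ) ^ (P.natDegree * i) =
        γ * (Fintype.card F : ℝ) ^ (d + l) := by
      rw [hd, pow_add (Fintype.card F : ℝ) (P.natDegree * i)]
      field_simp
    rw [hmain]
    exact hequi

end Pool.Agent.V11269.FF
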