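import Pool.Agent.V11269.FF3

namespace Pool.Agent.V11269.FF

open Finset Polynomial Pool.Agent.V11269.FFDefs

lemma cnt_congr {α : Type*} (s : Finset α) {p p' : α → Prop} (h : ∀ x ∈ s, p x ↔ p' x) :
    cnt s p = cnt s p' := by
  classical
  rw [cnt_eq, cnt_eq]
  congr 1
  apply filter_congr
  exact h

lemma cnt_add (a b : ℕ) (p : ℕ → Prop) :
    cnt (range (a + b)) p = cnt (range a) p + cnt (range b) (fun n => p (a + n)) := by
  classical
  rw [cnt_eq, cnt_eq, cnt_eq, card_filter, card_filter, card_filter, sum_range_add]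

lemma cnt_le_cnt {α : Type*} {s t : Finset α} {p p' : α → Prop} (hst : s ⊆ t)
    (h : ∀ x, p x → p' x) : cnt s p ≤ cnt t p' := by
  classical
  rw [cnt_eq, cnt_eq]
  apply card_le_card
  intro x hx
  rw [mem_filter] at hx ⊢
  exact ⟨hst hx.1, h x hx.2⟩

variable {F : Type*} [Field F] [Fintype F] (E : F ≃ Fin (Fintype.card F))
variable {P : F[X]} {Θ : LaurentSeries F} {l : ℕ}

/-- general blocks -/
lemma general (hE : (E 0 : ℕ) = 0) (hP : P ≠ 0)
    (hbad : ∀ i d : ℕ, ∀ u : Fin d → F, u ≠ 0 → ∃ r : Fin (d + l),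
      (ι (mkP u) * (ι (P ^ i) * Θ)).coeff (((r : ℕ) : ℤ) + 1) ≠ 0)
    (i : ℕ) (γ : ℝ) (h0 : 0 ≤ γ) (h1 : γ ≤ 1) (j : ℕ) : ∀ (T R : F[X]) (N : ℕ),
    N ≤ Fintype.card F ^ j →
    |(cnt (range N) (fun n => P ^ i ∣ R + toPoly E n ∧
      KK E Θ (T + toPoly E n) < γ) : ℝ) -
      γ * N / (Fintype.card F : ℝ) ^ (P.natDegree * i)| ≤
      j * (Fintype.card F : ℝ) ^ (l + 1) + (Fintype.card F : ℝ) ^ l := by
  have hq := card_pos' (F := F)
  have hqn : 0 < Fintype.card F := Fintype.card_pos
  induction j with
  | zero =>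
    intro T R N hN
    have h2 := block (l := l) (Θ := Θ) E hE hP hbad T R i 0 γ h0 h1
    rw [pow_zero, pow_zero] at h2
    rw [pow_zero] at hN
    rcases Nat.lt_or_ge N 1 with h3 | h3
    · have h4 : N = 0 := by omega
      subst h4
      have h5 : cnt (range 0) (fun n => P ^ i ∣ R + toPoly E n ∧
        KK E Θ (T + toPoly E n) < γ) = 0 := by
        classical
        rw [cnt_eq]; simp
      rw [h5]
      simp
    · have h4 : N = 1 := by omega
      subst h4
      simpa using h2
  | succ j ih =>
    intro T R N hN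
    -- inner induction
    have inner : ∀ c : ℕ, c ≤ Fintype.card F → ∀ T R : F[X],
        |(cnt (range (c * Fintype.card F ^ j)) (fun n => P ^ i ∣ R + toPoly E n ∧
        KK E Θ (T + toPoly E n) < γ) : ℝ) -
        γ * (c * Fintype.card F ^ j : ℕ) / (Fintype.card F : ℝ) ^ (P.natDegree * i)| ≤
        c * (Fintype.card F : ℝ) ^ l := by
      intro c
      induction c with
      | zero =>
        intro _ T R
        have h5 : cnt (range (0 * Fintype.card F ^ j)) (fun n => P ^ i ∣ R + toPoly E n ∧
          KK E Θ (T + toPoly E n) < γ) = 0 := by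
          classical
          rw [cnt_eq]; simp
        rw [h5]
        simp
      | succ c ihc =>
        intro hc T R
        have h2 := ihc (by omega) T R
        rw [add_mul, one_mul, cnt_add]
        have h3 : cnt (range (Fintype.card F ^ j)) (fun n =>
            P ^ i ∣ R + toPoly E (c * Fintype.card F ^ j + n) ∧
            KK E Θ (T + toPoly E (c * Fintype.card F ^ j + n)) < γ) =
            cnt (range (Fintype.card F ^ j)) (fun n =>
            P ^ i ∣ (R + C (E.symm ⟨c, by omega⟩) * X ^ j) + toPoly E n ∧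
            KK E Θ ((T + C (E.symm ⟨c, by omega⟩) * X ^ j) + toPoly E n) < γ) := by
          apply cnt_congr
          intro n hn
          rw [mem_range] at hn
          rw [toPoly_add E hE hn (by omega), ← add_assoc, ← add_assoc]
        rw [h3]
        have h4 := block (l := l) (Θ := Θ) E hE hP hbad (T + C (E.symm ⟨c, by omega⟩) * X ^ j)
          (R + C (E.symm ⟨c, by omega⟩) * X ^ j) i j γ h0 h1
        push_cast at h2 h4 ⊢
        rw [abs_le] at h2 h4 ⊢
        have h5 : γ * ((c : ℝ) * (Fintype.card F : ℝ) ^ j + (Fintype.card F : ℝ) ^ j) /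
            (Fintype.card F : ℝ) ^ (P.natDegree * i) =
            γ * ((c : ℝ) * (Fintype.card F : ℝ) ^ j) / (Fintype.card F : ℝ) ^ (P.natDegree * i) +
            γ * (Fintype.card F : ℝ) ^ j / (Fintype.card F : ℝ) ^ (P.natDegree * i) := by
          rw [← add_div]; congr 1; ring
        rw [h5]
        constructor <;> linarith [h2.1, h2.2, h4.1, h4.2]
    -- decompose
    have hdm := Nat.div_add_mod N (Fintype.card F ^ j)
    set c := N / Fintype.card F ^ j with hcdef
    set N' := N % Fintype.card F ^ j with hN'def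
    have hN' : N' < Fintype.card F ^ j := Nat.mod_lt _ (pow_pos hqn j)
    have hc : c ≤ Fintype.card F := by
      rw [hcdef]
      apply Nat.div_le_of_le_mul
      rw [← pow_succ]; exact hN
    have hNe : N = c * Fintype.card F ^ j + N' := by rw [← hdm]; ring
    rw [hNe, cnt_add]
    have h2 := inner c hc T R
    have hlast : |(cnt (range N') (fun n =>
            P ^ i ∣ R + toPoly E (c * Fintype.card F ^ j + n) ∧
            KK E Θ (T + toPoly E (c * Fintype.card F ^ j + n)) < γ) : ℝ) -
            γ * N' / (Fintype.card F : ℝ) ^ (P.natDegree * i)| ≤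
            j * (Fintype.card F : ℝ) ^ (l + 1) + (Fintype.card F : ℝ) ^ l := by
      rcases Nat.lt_or_ge c (Fintype.card F) with h3 | h3
      · have h4 : cnt (range N') (fun n =>
            P ^ i ∣ R + toPoly E (c * Fintype.card F ^ j + n) ∧
            KK E Θ (T + toPoly E (c * Fintype.card F ^ j + n)) < γ) =
            cnt (range N') (fun n =>
            P ^ i ∣ (R + C (E.symm ⟨c, h3⟩) * X ^ j) + toPoly E n ∧
            KK E Θ ((T + C (E.symm ⟨c, h3⟩) * X ^ j) + toPoly E n) < γ) := by
          apply cnt_congr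
          intro n hn
          rw [mem_range] at hn
          rw [toPoly_add E hE (hn.trans hN') h3, ← add_assoc, ← add_assoc]
        rw [h4]
        exact ih _ _ N' hN'.le
      · have h4 : N' = 0 := by
          have h5 : c = Fintype.card F := le_antisymm hc h3
          rw [h5] at hNe
          rw [pow_succ, mul_comm] at hN
          have h6 : N' ≤ 0 := by linarith
          exact Nat.le_zero.1 h6
        rw [h4]
        have h5 : cnt (range 0) (fun n =>
            P ^ i ∣ R + toPoly E (c * Fintype.card F ^ j + n) ∧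
            KK E Θ (T + toPoly E (c * Fintype.card F ^ j + n)) < γ) = 0 := by
          classical
          rw [cnt_eq]; simp
        rw [h5]
        simp
        positivity
    push_cast at h2 ⊢
    rw [abs_le] at h2 hlast ⊢
    have h5 : γ * ((c : ℝ) * (Fintype.card F : ℝ) ^ j + N') /
            (Fintype.card F : ℝ) ^ (P.natDegree * i) =
            γ * ((c : ℝ) * (Fintype.card F : ℝ) ^ j) / (Fintype.card F : ℝ) ^ (P.natDegree * i) +
            γ * N' / (Fintype.card F : ℝ) ^ (P.natDegree * i) := by
          rw [← add_div]; congr 1; ring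
    have h6 : (c : ℝ) * (Fintype.card F : ℝ) ^ l ≤ (Fintype.card F : ℝ) ^ (l + 1) := by
      rw [pow_succ, mul_comm ((Fintype.card F : ℝ) ^ l)]
      have : (c : ℝ) ≤ Fintype.card F := by exact_mod_cast hc
      gcongr
    rw [h5]
    constructor <;> nlinarith [h2.1, h2.2, hlast.1, hlast.2]

omit [Fintype F] in
/-- uniqueness of division -/
lemma div_unique {b h x r : F[X]} (hb : b ≠ 0) (h1 : h = b * x + r) (h2 : r.degree < b.degree) :
    h / b = x := by
  have h3 := EuclideanDomain.div_add_mod h b
  have h4 : b * (h / b - x) = r - h % b := by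
    have : h % b = h - b * (h / b) := by linear_combination h3
    rw [this, h1]; ring
  have h5 : (r - h % b).degree < b.degree :=
    lt_of_le_of_lt (degree_sub_le _ _) (max_lt h2 (degree_mod_lt _ hb))
  by_contra hne
  have h6 : h / b - x ≠ 0 := sub_ne_zero.2 hne
  rw [← h4, degree_mul, degree_eq_natDegree hb, degree_eq_natDegree h6] at h5
  have h7 : b.natDegree + (h / b - x).natDegree < b.natDegree := by exact_mod_cast h5
  omega

omit [Fintype F] in
lemma div_pow_succ (hP : P ≠ 0) (h : F[X]) (i : ℕ) : h / P ^ (i + 1) = (h / P) / P ^ i := by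
  apply div_unique (pow_ne_zero _ hP) (r := P * ((h / P) % P ^ i) + h % P)
  · have h1 := EuclideanDomain.div_add_mod h P
    have h2 := EuclideanDomain.div_add_mod (h / P) (P ^ i)
    calc h = P * (h / P) + h % P := h1.symm
      _ = P * (P ^ i * (h / P / P ^ i) + h / P % P ^ i) + h % P := by rw [h2]
      _ = _ := by rw [pow_succ]; ring
  · have h3 : (h % P).degree < P.degree := degree_mod_lt _ hP
    have h4 : P.degree ≤ (P ^ (i + 1)).degree := by
      rw [degree_eq_natDegree hP, degree_eq_natDegree (pow_ne_zero _ hP), natDegree_pow]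
      exact_mod_cast Nat.le_mul_of_pos_left _ (Nat.succ_pos i)
    have h5 : (P * ((h / P) % P ^ i)).degree < (P ^ (i + 1)).degree := by
      by_cases h6 : (h / P) % P ^ i = 0
      · rw [h6, mul_zero, degree_zero, bot_lt_iff_ne_bot]
        intro h7
        exact pow_ne_zero _ hP (degree_eq_bot.1 h7)
      · have h7 : ((h / P) % P ^ i).degree < (P ^ i).degree := degree_mod_lt _ (pow_ne_zero _ hP)
        rw [degree_mul, pow_succ, mul_comm (P ^ i), degree_mul]
        rw [degree_eq_natDegree h6, degree_eq_natDegree (pow_ne_zero _ hP)] at h7 ⊢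
        rw [degree_eq_natDegree hP]
        have h8 : ((h / P) % P ^ i).natDegree < (P ^ i).natDegree := by exact_mod_cast h7
        exact_mod_cast Nat.add_lt_add_left h8 _
    exact lt_of_le_of_lt (degree_add_le _ _) (max_lt h5 (lt_of_lt_of_le h3 h4))

omit [Fintype F] in
lemma mod_coeff (hP : P ≠ 0) (h : F[X]) : ∀ s, P.natDegree ≤ s → (h % P).coeff s = 0 := by
  rw [← degree_lt_iff_coeff_zero, ← degree_eq_natDegree hP]
  exact degree_mod_lt _ hP

lemma evP_zero : evP E (0 : F[X]) = 0 := by simp [evP]

lemma vdcP_zero : vdcP E P 0 = 0 := by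
  unfold vdcP
  simp [evP_zero]

lemma vdcP_summable (hP : P ≠ 0) (hD : 0 < P.natDegree) (h : F[X]) :
    Summable fun i : ℕ => (evP E ((h / P ^ i) % P) : ℝ) /
      ((Fintype.card F : ℝ) ^ P.natDegree) ^ (i + 1) := by
  apply summable_of_ne_finset_zero (s := range (h.natDegree + 1))
  intro i hi
  rw [mem_range, not_lt] at hi
  have h1 : h / P ^ i = 0 := by
    rw [Polynomial.div_eq_zero_iff (pow_ne_zero _ hP)]
    refine lt_of_le_of_lt degree_le_natDegree ?_
    rw [degree_eq_natDegree (pow_ne_zero _ hP), natDegree_pow]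
    have : h.natDegree < i * P.natDegree := by nlinarith
    exact_mod_cast this
  rw [h1]
  simp [evP_zero]

lemma vdcP_rec (hP : P ≠ 0) (hD : 0 < P.natDegree) (h : F[X]) :
    vdcP E P h = ((evP E (h % P) : ℝ) + vdcP E P (h / P)) / (Fintype.card F : ℝ) ^ P.natDegree := by
  have hq := card_pos' (F := F)
  unfold vdcP
  rw [(vdcP_summable E hP hD h).tsum_eq_zero_add, add_div, ← tsum_div_const]
  congr 1
  · simp
  · congr 1
    funext i
    rw [div_pow_succ hP, div_div, ← pow_succ]

lemma vdcP_nonneg (h : F[X]) : 0 ≤ vdcP E P h := by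
  have hq := card_pos' (F := F)
  exact tsum_nonneg fun i => by positivity

lemma vdcP_lt_one (hE : (E 0 : ℕ) = 0) (hP : P ≠ 0) (hD : 0 < P.natDegree) (n : ℕ) : ∀ h : F[X],
    h.degree < n → vdcP E P h < 1 := by
  have hq := card_pos' (F := F)
  induction n with
  | zero =>
    intro h hh
    have h1 : h = 0 := by
      rw [← degree_eq_bot]
      by_contra h2
      have h3 := degree_eq_natDegree (p := h) (fun h0 => h2 (by rw [h0, degree_zero]))
      rw [h3] at hh
      have : h.natDegree < 0 := by exact_mod_cast hh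
      omega
    rw [h1, vdcP_zero]; norm_num
  | succ n ih =>
    intro h hh
    by_cases h0 : h = 0
    · rw [h0, vdcP_zero]; norm_num
    have h1 : (h / P).degree < h.degree := degree_div_lt h0 (natDegree_pos_iff_degree_pos.1 hD)
    have h2 : (h / P).degree < n := by
      by_cases h3 : h / P = 0
      · rw [h3, degree_zero]; exact WithBot.bot_lt_coe _
      rw [degree_eq_natDegree h0] at h1 hh
      rw [degree_eq_natDegree h3] at h1 ⊢
      have h4 : h.natDegree < n + 1 := by exact_mod_cast hh
      have h5 : (h / P).natDegree < h.natDegree := by exact_mod_cast h1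
      exact_mod_cast (by omega : (h / P).natDegree < n)
    have h3 := ih _ h2
    rw [vdcP_rec E hP hD, div_lt_one (pow_pos hq _)]
    have h4 : evP E (h % P) < Fintype.card F ^ P.natDegree := evP_lt E hE (mod_coeff hP h)
    have h5 : (evP E (h % P) : ℝ) + 1 ≤ (Fintype.card F : ℝ) ^ P.natDegree := by
      exact_mod_cast h4
    linarith

end Pool.Agent.V11269.FF
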