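import Pool.Agent.V11269.FF4

namespace Pool.Agent.V11269.FF

open Finset Polynomial Pool.Agent.V11269.FFDefs

variable {F : Type*} [Field F] [Fintype F] (E : F ≃ Fin (Fintype.card F))
variable {P : F[X]} {Θ : LaurentSeries F} {l : ℕ}

/-- one step of the recursion on the Van der Corput coordinate -/
lemma step (hE : (E 0 : ℕ) = 0) (hP : P ≠ 0) (hD : 0 < P.natDegree) (N i : ℕ) (R : F[X])
    (γ lam : ℝ) (_h0 : 0 ≤ lam) (h1 : lam < 1) (B : ℕ)
    (hB : (B : ℝ) ≤ (Fintype.card F : ℝ) ^ P.natDegree * lam)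
    (hB1 : (Fintype.card F : ℝ) ^ P.natDegree * lam < B + 1) :
    cnt (range N) (fun n => KK E Θ (toPoly E n) < γ ∧ ∃ h, toPoly E n = R + P ^ i * h ∧
      vdcP E P h < lam) =
    (∑ m ∈ range B, cnt (range N) (fun n => KK E Θ (toPoly E n) < γ ∧
      ∃ h, toPoly E n = (R + P ^ i * toPoly E m) + P ^ (i + 1) * h)) +
    cnt (range N) (fun n => KK E Θ (toPoly E n) < γ ∧
      ∃ h, toPoly E n = (R + P ^ i * toPoly E B) + P ^ (i + 1) * h ∧
      vdcP E P h < (Fintype.card F : ℝ) ^ P.natDegree * lam - B) := by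
  classical
  have hq := card_pos' (F := F)
  set Q : ℝ := (Fintype.card F : ℝ) ^ P.natDegree with hQ
  have hQ0 : 0 < Q := pow_pos hq _
  have hPi : ∀ i, P ^ i ≠ 0 := fun i => pow_ne_zero _ hP
  simp only [cnt_eq]
  have hlt1 : ∀ h : F[X], vdcP E P h < 1 := by
    intro h
    apply vdcP_lt_one E hE hP hD (h.natDegree + 1)
    refine lt_of_le_of_lt degree_le_natDegree ?_
    exact_mod_cast Nat.lt_succ_self _
  have hBQ : B < Fintype.card F ^ P.natDegree := by
    have : (B : ℝ) < Fintype.card F ^ P.natDegree := by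
      rw [← hQ]; nlinarith
    exact_mod_cast this
  -- uniqueness
  have huniq : ∀ m m' : ℕ, m ≤ B → m' ≤ B → ∀ g : F[X], (∃ h, g = (R + P ^ i * toPoly E m) +
      P ^ (i + 1) * h) → (∃ h, g = (R + P ^ i * toPoly E m') + P ^ (i + 1) * h) → m = m' := by
    rintro m m' hm hm' g ⟨h, hh⟩ ⟨h', hh'⟩
    have h2 : P ^ i * (toPoly E m - toPoly E m') = P ^ i * (P * (h' - h)) := by
      rw [hh, pow_succ] at hh'
      linear_combination hh'
    have h3 := mul_left_cancel₀ (hPi i) h2
    have h4 : P ∣ toPoly E m - toPoly E m' := ⟨_, h3⟩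
    have h5 : (toPoly E m - toPoly E m').degree < P.degree := by
      have h6 : ∀ m, m ≤ B → (toPoly E m).degree < P.degree := by
        intro m hm
        rw [degree_eq_natDegree hP, degree_lt_iff_coeff_zero]
        exact toPoly_coeff_ge E hE (lt_of_le_of_lt hm hBQ)
      exact lt_of_le_of_lt (degree_sub_le _ _) (max_lt (h6 m hm) (h6 m' hm'))
    have h6 : toPoly E m - toPoly E m' = 0 := by
      by_contra h7
      exact absurd (degree_le_of_dvd h4 h7) (not_le.2 h5)
    exact toPoly_inj E hE (sub_eq_zero.1 h6)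
  rw [← card_biUnion]
  · rw [← card_union_of_disjoint]
    · congr 1
      ext n
      simp only [mem_union, mem_biUnion, mem_filter, mem_range]
      constructor
      · rintro ⟨hn, hK, h, hh, hv⟩
        rw [vdcP_rec E hP hD, div_lt_iff₀ hQ0] at hv
        have hdm := EuclideanDomain.div_add_mod h P
        have h2 : toPoly E n = (R + P ^ i * toPoly E (evP E (h % P))) + P ^ (i + 1) * (h / P) := by
          rw [toPoly_evP E hE, hh, pow_succ]
          linear_combination (-(P ^ i)) * hdm
        have hv0 := vdcP_nonneg (P := P) E (h / P)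
        have hv1 := hlt1 (h / P)
        rcases lt_trichotomy (evP E (h % P)) B with h3 | h3 | h3
        · left
          exact ⟨_, h3, hn, hK, _, h2⟩
        · right
          rw [h3] at h2 hv
          exact ⟨hn, hK, _, h2, by linarith⟩
        · exfalso
          have : (B : ℝ) + 1 ≤ evP E (h % P) := by exact_mod_cast h3
          nlinarith
      · rintro (⟨m, hm, hn, hK, h, hh⟩ | ⟨hn, hK, h, hh, hv⟩)
        · refine ⟨hn, hK, toPoly E m + P * h, ?_, ?_⟩
          · rw [hh, pow_succ]; ring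
          · have hdeg : (toPoly E m).degree < P.degree := by
              rw [degree_eq_natDegree hP, degree_lt_iff_coeff_zero]
              exact toPoly_coeff_ge E hE (hm.trans hBQ)
            have h3 : (toPoly E m + P * h) / P = h := by
              apply div_unique hP (r := toPoly E m) (by ring) hdeg
            have h4 : (toPoly E m + P * h) % P = toPoly E m := by
              have := EuclideanDomain.div_add_mod (toPoly E m + P * h) P
              rw [h3] at this
              linear_combination this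
            rw [vdcP_rec E hP hD, div_lt_iff₀ hQ0, h3, h4, evP_toPoly E hE]
            have hv1 := hlt1 h
            have : (m : ℝ) + 1 ≤ B := by exact_mod_cast hm
            nlinarith
        · refine ⟨hn, hK, toPoly E B + P * h, ?_, ?_⟩
          · rw [hh, pow_succ]; ring
          · have hdeg : (toPoly E B).degree < P.degree := by
              rw [degree_eq_natDegree hP, degree_lt_iff_coeff_zero]
              exact toPoly_coeff_ge E hE hBQ
            have h3 : (toPoly E B + P * h) / P = h := by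
              apply div_unique hP (r := toPoly E B) (by ring) hdeg
            have h4 : (toPoly E B + P * h) % P = toPoly E B := by
              have := EuclideanDomain.div_add_mod (toPoly E B + P * h) P
              rw [h3] at this
              linear_combination this
            rw [vdcP_rec E hP hD, div_lt_iff₀ hQ0, h3, h4, evP_toPoly E hE]
            linarith
    · rw [disjoint_left]
      intro n hn hn'
      simp only [mem_biUnion, mem_filter, mem_range] at hn hn'
      obtain ⟨m, hm, -, -, hh⟩ := hn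
      obtain ⟨-, -, h', hh', -⟩ := hn'
      have := huniq m B hm.le le_rfl _ hh ⟨h', hh'⟩
      omega
  · intro m hm m' hm' hne
    rw [Function.onFun, disjoint_left]
    intro n hn hn'
    simp only [mem_filter, mem_range] at hn hn'
    rw [mem_coe, mem_range] at hm hm'
    exact hne (huniq m m' hm.le hm'.le _ hn.2.2 hn'.2.2)

/-- the main count -/
lemma main (hE : (E 0 : ℕ) = 0) (hP : P ≠ 0) (hD : 0 < P.natDegree)
    (hbad : ∀ i d : ℕ, ∀ u : Fin d → F, u ≠ 0 → ∃ r : Fin (d + l),
      (ι (mkP u) * (ι (P ^ i) * Θ)).coeff (((r : ℕ) : ℤ) + 1) ≠ 0)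
    (γ : ℝ) (h0 : 0 ≤ γ) (h1 : γ ≤ 1) (j N I : ℕ) (hN : N ≤ Fintype.card F ^ j)
    (hNI : N ≤ Fintype.card F ^ (P.natDegree * I)) (k : ℕ) : ∀ i : ℕ, i + k = I → ∀ (R : F[X])
    (lam : ℝ), 0 ≤ lam → lam < 1 →
    |(cnt (range N) (fun n => KK E Θ (toPoly E n) < γ ∧ ∃ h, toPoly E n = R + P ^ i * h ∧
      vdcP E P h < lam) : ℝ) - γ * lam * N / (Fintype.card F : ℝ) ^ (P.natDegree * i)| ≤
    k * ((Fintype.card F : ℝ) ^ P.natDegree * (j * (Fintype.card F : ℝ) ^ (l + 1) +
      (Fintype.card F : ℝ) ^ l)) + 1 := by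
  have hq := card_pos' (F := F)
  have hPi : ∀ i, P ^ i ≠ 0 := fun i => pow_ne_zero _ hP
  induction k with
  | zero =>
    intro i hi R lam hl0 hl1
    have hiI : i = I := by omega
    subst hiI
    have h2 : cnt (range N) (fun n => KK E Θ (toPoly E n) < γ ∧
        ∃ h, toPoly E n = R + P ^ i * h ∧ vdcP E P h < lam) ≤ 1 := by
      have h3 := block0 E hE hP (-R) i (P.natDegree * i)
      rw [Nat.sub_self, pow_zero] at h3
      refine le_trans (cnt_le_cnt (range_subset_range.2 hNI) ?_) h3
      rintro n ⟨-, h, hh, -⟩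
      exact ⟨h, by rw [hh]; ring⟩
    have h3 : (N : ℝ) ≤ (Fintype.card F : ℝ) ^ (P.natDegree * i) := by exact_mod_cast hNI
    have h4 : γ * lam * N / (Fintype.card F : ℝ) ^ (P.natDegree * i) ≤ 1 := by
      rw [div_le_one (pow_pos hq _)]
      have h5 : γ * lam ≤ 1 := by nlinarith
      have h6 : (0 : ℝ) ≤ N := Nat.cast_nonneg _
      nlinarith
    have h5 : 0 ≤ γ * lam * N / (Fintype.card F : ℝ) ^ (P.natDegree * i) := by positivity
    have h6 : (cnt (range N) (fun n => KK E Θ (toPoly E n) < γ ∧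
        ∃ h, toPoly E n = R + P ^ i * h ∧ vdcP E P h < lam) : ℝ) ≤ 1 := by exact_mod_cast h2
    have h7 : (0 : ℝ) ≤ (cnt (range N) (fun n => KK E Θ (toPoly E n) < γ ∧
        ∃ h, toPoly E n = R + P ^ i * h ∧ vdcP E P h < lam) : ℝ) := Nat.cast_nonneg _
    rw [Nat.cast_zero, zero_mul, zero_add, abs_le]
    constructor <;> linarith
  | succ k ih =>
    intro i hi R lam hl0 hl1
    set Q : ℝ := (Fintype.card F : ℝ) ^ P.natDegree with hQ
    have hQ0 : 0 < Q := pow_pos hq _
    set B := ⌊Q * lam⌋₊ with hBdef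
    have hB : (B : ℝ) ≤ Q * lam := Nat.floor_le (by positivity)
    have hB1 : Q * lam < B + 1 := Nat.lt_floor_add_one _
    rw [step E hE hP hD N i R γ lam hl0 hl1 B hB hB1]
    have h2 := ih (i + 1) (by omega) (R + P ^ i * toPoly E B) (Q * lam - B) (by linarith)
      (by linarith)
    rw [← hQ] at *
    have h3 : ∀ m ∈ range B, |(cnt (range N) (fun n => KK E Θ (toPoly E n) < γ ∧
        ∃ h, toPoly E n = (R + P ^ i * toPoly E m) + P ^ (i + 1) * h) : ℝ) -
        γ * N / (Fintype.card F : ℝ) ^ (P.natDegree * (i + 1))| ≤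
        j * (Fintype.card F : ℝ) ^ (l + 1) + (Fintype.card F : ℝ) ^ l := by
      intro m _
      have h4 := general (l := l) (Θ := Θ) E hE hP hbad (i + 1) γ h0 h1 j 0
        (-(R + P ^ i * toPoly E m)) N hN
      have h5 : cnt (range N) (fun n => P ^ (i + 1) ∣ -(R + P ^ i * toPoly E m) + toPoly E n ∧
        KK E Θ (0 + toPoly E n) < γ) = cnt (range N) (fun n => KK E Θ (toPoly E n) < γ ∧
        ∃ h, toPoly E n = (R + P ^ i * toPoly E m) + P ^ (i + 1) * h) := by
        apply cnt_congr
        intro n _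
        rw [zero_add, and_comm]
        apply and_congr_right
        intro _
        constructor
        · rintro ⟨h, hh⟩
          exact ⟨h, by rw [← hh]; ring⟩
        · rintro ⟨h, hh⟩
          exact ⟨h, by rw [hh]; ring⟩
      rw [h5] at h4
      exact h4
    have h4 : |(∑ m ∈ range B, (cnt (range N) (fun n => KK E Θ (toPoly E n) < γ ∧
        ∃ h, toPoly E n = (R + P ^ i * toPoly E m) + P ^ (i + 1) * h) : ℝ)) -
        B * (γ * N / (Fintype.card F : ℝ) ^ (P.natDegree * (i + 1)))| ≤
        B * (j * (Fintype.card F : ℝ) ^ (l + 1) + (Fintype.card F : ℝ) ^ l) := by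
      have h5 : (∑ m ∈ range B, (cnt (range N) (fun n => KK E Θ (toPoly E n) < γ ∧
        ∃ h, toPoly E n = (R + P ^ i * toPoly E m) + P ^ (i + 1) * h) : ℝ)) -
        B * (γ * N / (Fintype.card F : ℝ) ^ (P.natDegree * (i + 1))) =
        ∑ m ∈ range B, ((cnt (range N) (fun n => KK E Θ (toPoly E n) < γ ∧
        ∃ h, toPoly E n = (R + P ^ i * toPoly E m) + P ^ (i + 1) * h) : ℝ) -
        γ * N / (Fintype.card F : ℝ) ^ (P.natDegree * (i + 1))) := by
        rw [sum_sub_distrib, sum_const, card_range, nsmul_eq_mul]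
      rw [h5]
      refine (abs_sum_le_sum_abs _ _).trans ((sum_le_sum h3).trans ?_)
      rw [sum_const, card_range, nsmul_eq_mul]
    have hBQ : (B : ℝ) ≤ Q := by nlinarith
    have h6 : (B : ℝ) * (j * (Fintype.card F : ℝ) ^ (l + 1) + (Fintype.card F : ℝ) ^ l) ≤
        Q * (j * (Fintype.card F : ℝ) ^ (l + 1) + (Fintype.card F : ℝ) ^ l) := by gcongr
    have h7 : γ * lam * N / (Fintype.card F : ℝ) ^ (P.natDegree * i) =
        B * (γ * N / (Fintype.card F : ℝ) ^ (P.natDegree * (i + 1))) +
        γ * (Q * lam - B) * N / (Fintype.card F : ℝ) ^ (P.natDegree * (i + 1)) := by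
      have h8 : (Fintype.card F : ℝ) ^ (P.natDegree * (i + 1)) =
        (Fintype.card F : ℝ) ^ (P.natDegree * i) * Q := by rw [hQ, ← pow_add]; ring_nf
      rw [h8]
      field_simp
      ring
    rw [h7]
    push_cast
    rw [abs_le] at h2 h4 ⊢
    constructor <;> linarith [h2.1, h2.2, h4.1, h4.2]

/-- consequence of badness -/
lemma bad_of (hΘ : Bad P Θ) : ∃ l : ℕ, ∀ i d : ℕ, ∀ u : Fin d → F, u ≠ 0 → ∃ r : Fin (d + l),
      (ι (mkP u) * (ι (P ^ i) * Θ)).coeff (((r : ℕ) : ℤ) + 1) ≠ 0 := by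
  have hq := card_pos' (F := F)
  have hq1 : (1 : ℝ) < Fintype.card F := by
    have := two_le_card (F := F)
    exact_mod_cast (by omega : 1 < Fintype.card F)
  obtain ⟨c, hc, hbad⟩ := hΘ
  obtain ⟨l, hl⟩ := exists_pow_lt_of_lt_one hc (show (1 / (Fintype.card F : ℝ)) < 1 by
    rw [div_lt_one hq]; exact hq1)
  refine ⟨l, ?_⟩
  intro i d u hu
  have hN : mkP u ≠ 0 := by
    intro h0
    apply hu
    apply mkP_inj
    rw [h0]
    unfold mkP
    simp
  have h1 := hbad (mkP u) hN i
  have h2 : absL (ι (mkP u)) ≤ (Fintype.card F : ℝ) ^ (d : ℤ) := by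
    unfold absL
    split_ifs with h3
    · positivity
    · apply zpow_le_zpow_right₀ hq1.le
      have h4 : (ι (mkP u)).coeff (ι (mkP u)).order ≠ 0 := mt HahnSeries.coeff_order_eq_zero.1 h3
      rw [← mul_one (ι (mkP u)), coeff_ι_mkP] at h4
      obtain ⟨s, -, hs⟩ := exists_ne_zero_of_sum_ne_zero h4
      rw [mul_one] at hs
      have h5 : (ι (mkP u)).order + ((s : ℕ) : ℤ) = 0 := by
        by_contra h6
        apply hs
        rw [HahnSeries.coeff_one, if_neg h6, mul_zero]
      have := s.2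
      omega
  set φ := frac (ι (mkP u) * ι P ^ i * Θ) with hφ
  have h3 : 0 < absL (ι (mkP u)) * absL φ := lt_of_lt_of_le hc h1
  have hφ0 : φ ≠ 0 := by
    intro h0
    rw [h0] at h3
    unfold absL at h3
    simp at h3
  have h4 : absL φ = (Fintype.card F : ℝ) ^ (-φ.order) := by
    unfold absL; rw [if_neg hφ0]
  have h5 := mt HahnSeries.coeff_order_eq_zero.1 hφ0
  have h6 : φ.coeff φ.order = if 1 ≤ φ.order then (ι (mkP u) * ι P ^ i * Θ).coeff φ.order else 0 :=
    rfl
  have h7 : 1 ≤ φ.order := by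
    by_contra h8
    rw [h6, if_neg h8] at h5
    exact h5 rfl
  rw [h6, if_pos h7] at h5
  have h8 : (Fintype.card F : ℝ) ^ (-(l : ℤ)) < (Fintype.card F : ℝ) ^ ((d : ℤ) - φ.order) := by
    calc (Fintype.card F : ℝ) ^ (-(l : ℤ)) = (1 / (Fintype.card F : ℝ)) ^ l := by
          rw [zpow_neg, zpow_natCast, one_div, inv_pow]
      _ < c := hl
      _ ≤ absL (ι (mkP u)) * absL φ := h1
      _ ≤ (Fintype.card F : ℝ) ^ (d : ℤ) * (Fintype.card F : ℝ) ^ (-φ.order) := by
          rw [h4]; gcongr
      _ = _ := by rw [← zpow_add₀ hq.ne']; rfl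
  have h9 := (zpow_lt_zpow_iff_right₀ hq1).1 h8
  refine ⟨⟨(φ.order - 1).toNat, by omega⟩, ?_⟩
  have h10 : (((φ.order - 1).toNat : ℕ) : ℤ) + 1 = φ.order := by omega
  rw [h10, show ι (P ^ i) = ι P ^ i by unfold ι; rw [map_pow], ← mul_assoc]
  exact h5

end Pool.Agent.V11269.FF
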