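import Mathlib

/-!
Unions of rotated translated copies of the honeycomb lattice: two copies without a common rational
direction form a dense forest; a uniformly discrete finite union is never a dense forest.
-/

namespace Pool.Agent.V11269.Forest

open Filter Topology Complex

/-- `ω = 1/2 + (√3/2) i`. -/
noncomputable def ω : ℂ := ⟨1 / 2, √3 / 2⟩

/-- The lattice point `a + b ω`. -/
noncomputable def pt (a b : ℝ) : ℂ := a + b * ω

lemma pt_re (a b : ℝ) : (pt a b).re = a + b / 2 := by simp [pt, ω]; ring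

lemma pt_im (a b : ℝ) : (pt a b).im = b * (√3 / 2) := by simp [pt, ω]

lemma sqrt3_pos : 0 < √3 := Real.sqrt_pos.2 (by norm_num)

lemma sqrt3_sq : √3 * √3 = 3 := Real.mul_self_sqrt (by norm_num)

lemma norm_ω : ‖ω‖ = 1 := by
  have h : ‖ω‖ ^ 2 = 1 := by
    rw [← Complex.normSq_eq_norm_sq, ω, Complex.normSq_mk]
    have := sqrt3_sq
    nlinarith
  nlinarith [norm_nonneg ω]

/-- Coordinates. -/
lemma exists_coord (z : ℂ) : ∃ A B : ℝ, z = pt A B := by
  have h := sqrt3_pos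
  refine ⟨z.re - z.im / √3, 2 * z.im / √3, ?_⟩
  apply Complex.ext
  · rw [pt_re]; ring
  · rw [pt_im]; field_simp

lemma pt_add (a b c d : ℝ) : pt a b + pt c d = pt (a + c) (b + d) := by
  simp only [pt]; push_cast; ring

lemma pt_sub (a b c d : ℝ) : pt a b - pt c d = pt (a - c) (b - d) := by
  simp only [pt]; push_cast; ring

lemma smul_pt (t a b : ℝ) : (t : ℂ) * pt a b = pt (t * a) (t * b) := by
  simp only [pt]; push_cast; ring

lemma norm_pt_zero (b : ℝ) : ‖pt 0 b‖ = |b| := by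
  simp [pt, norm_ω]

/-- Density of a line of irrational direction modulo the lattice. -/
lemma dense_line {α β : ℝ} (h : ∀ a b : ℤ, (a, b) ≠ (0, 0) → α * b - β * a ≠ 0) (z : ℂ) {ε : ℝ}
    (hε : 0 < ε) : ∃ (t : ℝ) (m n : ℤ), ‖z + t * pt α β - pt m n‖ < ε := by
  have hα : α ≠ 0 := by
    have := h 0 1 (by simp)
    simpa using this
  have hirr : Irrational (β / α / 1) := by
    rw [div_one]
    rintro ⟨q, hq⟩
    have hq1 : (q.den : ℝ) ≠ 0 := by exact_mod_cast q.den_ne_zero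
    have h1 := h q.den q.num (by
      intro h0
      rw [Prod.mk.injEq] at h0
      exact q.den_ne_zero (by exact_mod_cast h0.1))
    apply h1
    have h2 : (q : ℝ) = q.num / q.den := by exact_mod_cast (Rat.num_div_den q).symm
    rw [h2, div_eq_div_iff hq1 hα] at hq
    push_cast
    linarith
  have hd := dense_addSubgroupClosure_pair_iff.2 hirr
  obtain ⟨A, B, rfl⟩ := exists_coord z
  set γ := β / α with hγ
  obtain ⟨s, hs, hs2⟩ := Metric.dense_iff.1 hd (A * γ - B) ε hε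
  rw [Metric.mem_ball, Real.dist_eq] at hs
  obtain ⟨m, n, hmn⟩ := AddSubgroup.mem_closure_pair.1 hs2
  simp only [zsmul_eq_mul, mul_one] at hmn
  refine ⟨(m - A) / α, m, -n, ?_⟩
  rw [smul_pt, pt_add, pt_sub]
  have h1 : A + (m - A) / α * α - m = 0 := by field_simp; ring
  have h2 : B + (m - A) / α * β - ((-n : ℤ) : ℝ) = s - (A * γ - B) := by
    rw [← hmn, hγ]; push_cast; field_simp; ring
  rw [h1, h2, norm_pt_zero]
  exact hs

/-- The rotated lattice generated by `c`, where `‖c‖ = 1`. -/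
def Lat (c : ℂ) : Set ℂ := {z | ∃ a b : ℤ, z = c * pt a b}

/-- Uniform version for a fixed direction. -/
lemma uniform_line {c u : ℂ} (hc : ‖c‖ = 1)
    (h : ∀ a b : ℤ, (a, b) ≠ (0, 0) → (u * (starRingEnd ℂ) (c * pt a b)).im ≠ 0) {ε : ℝ}
    (hε : 0 < ε) : ∃ L : ℝ, 0 < L ∧ ∀ p : ℂ, ∃ t : ℝ, |t| ≤ L ∧ ∃ l ∈ Lat c, ‖p + t * u - l‖ < ε := by
  have hc0 : c ≠ 0 := by rintro rfl; simp at hc
  have hcc : c * (starRingEnd ℂ) c = 1 := by
    rw [Complex.mul_conj, Complex.normSq_eq_norm_sq, hc]; simp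
  -- coordinates of `u / c`
  obtain ⟨α, β, hαβ⟩ := exists_coord (u / c)
  have hu : u = c * pt α β := by rw [← hαβ]; field_simp
  have hirr : ∀ a b : ℤ, (a, b) ≠ (0, 0) → α * b - β * a ≠ 0 := by
    intro a b hab h0
    apply h a b hab
    rw [hu, map_mul]
    have h1 : c * pt α β * ((starRingEnd ℂ) c * (starRingEnd ℂ) (pt a b)) =
        pt α β * (starRingEnd ℂ) (pt a b) := by
      linear_combination (pt α β * (starRingEnd ℂ) (pt a b)) * hcc
    rw [h1, Complex.mul_im, Complex.conj_re, Complex.conj_im, pt_re, pt_re, pt_im, pt_im]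
    have : -(α + β / 2) * (b * (√3 / 2)) + β * (√3 / 2) * (a + b / 2) =
      -(√3 / 2) * (α * b - β * a) := by ring
    rw [h0, mul_zero] at this
    linarith
  -- compactness
  set K : Set ℂ := (fun p : ℝ × ℝ => c * pt p.1 p.2) '' (Set.Icc 0 1 ×ˢ Set.Icc 0 1) with hK
  have hKc : IsCompact K := by
    apply (isCompact_Icc.prod isCompact_Icc).image
    unfold pt
    fun_prop
  let U : ℝ × ℤ × ℤ → Set ℂ := fun τ => {z | ‖z + τ.1 * u - c * pt τ.2.1 τ.2.2‖ < ε}
  have hUo : ∀ τ, IsOpen (U τ) := by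
    intro τ
    apply isOpen_lt _ continuous_const
    fun_prop
  have hcover : K ⊆ ⋃ τ, U τ := by
    intro z _
    obtain ⟨t, m, n, htmn⟩ := dense_line hirr (z / c) hε
    rw [Set.mem_iUnion]
    refine ⟨(t, m, n), ?_⟩
    show ‖z + t * u - c * pt m n‖ < ε
    have : z + t * u - c * pt m n = c * (z / c + t * pt α β - pt m n) := by
      rw [hu]; field_simp
    rw [this, norm_mul, hc, one_mul]
    exact htmn
  obtain ⟨s, hs⟩ := hKc.elim_finite_subcover U hUo hcover
  refine ⟨∑ τ ∈ s, |τ.1| + 1, by positivity, fun p => ?_⟩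
  obtain ⟨A, B, hAB⟩ := exists_coord (p / c)
  have hp : p = c * pt A B := by rw [← hAB]; field_simp
  have hfr : c * pt (Int.fract A) (Int.fract B) ∈ K := by
    refine ⟨(Int.fract A, Int.fract B), ⟨⟨Int.fract_nonneg _, (Int.fract_lt_one _).le⟩,
      ⟨Int.fract_nonneg _, (Int.fract_lt_one _).le⟩⟩, rfl⟩
  obtain ⟨τ, hτs, hτ⟩ := Set.mem_iUnion₂.1 (hs hfr)
  refine ⟨τ.1, ?_, c * pt (τ.2.1 + ⌊A⌋) (τ.2.2 + ⌊B⌋), ⟨τ.2.1 + ⌊A⌋, τ.2.2 + ⌊B⌋, by push_cast; rfl⟩, ?_⟩
  · have : |τ.1| ≤ ∑ τ ∈ s, |τ.1| :=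
      Finset.single_le_sum (f := fun τ : ℝ × ℤ × ℤ => |τ.1|) (fun _ _ => abs_nonneg _) hτs
    linarith
  · have h2 : p + τ.1 * u - c * pt (τ.2.1 + ⌊A⌋) (τ.2.2 + ⌊B⌋) =
        c * pt (Int.fract A) (Int.fract B) + τ.1 * u - c * pt τ.2.1 τ.2.2 := by
      rw [hp]
      simp only [pt, Int.fract]
      push_cast
      ring
    rw [h2]
    exact hτ

/-- The union of the rotated translated lattices. -/
def Y {k : ℕ} (c x : Fin k → ℂ) : Set ℂ := ⋃ i, {z | ∃ l ∈ Lat (c i), z = l + x i}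

/-- Dense forest, in the strong form. -/
def IsForest (Y : Set ℂ) : Prop :=
  ∀ ε : ℝ, 0 < ε → ∃ V : ℝ, 0 < V ∧ ∀ p q : ℂ, dist p q = V →
    ∃ z ∈ segment ℝ p q, ∃ y ∈ Y, dist z y < ε

/-- If every direction is irrational for one of the lattices, the union is a dense forest. -/
lemma forest_of_irrational {k : ℕ} (c x : Fin k → ℂ) (hc : ∀ i, ‖c i‖ = 1)
    (h : ∀ u : ℂ, ‖u‖ = 1 → ∃ i, ∀ a b : ℤ, (a, b) ≠ (0, 0) →
      (u * (starRingEnd ℂ) (c i * pt a b)).im ≠ 0) : IsForest (Y c x) := by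
  intro ε hε
  have : Nonempty (Fin k) := ⟨(h 1 (by simp)).choose⟩
  -- local statement
  have hloc : ∀ u : ℂ, ‖u‖ = 1 → ∃ L : ℝ, 0 < L ∧ ∃ i, ∀ p : ℂ, ∃ t : ℝ, |t| ≤ L ∧
      ∃ l ∈ Lat (c i), ‖p + t * u - l‖ < ε / 2 := by
    intro u hu
    obtain ⟨i, hi⟩ := h u hu
    obtain ⟨L, hL, h1⟩ := uniform_line (hc i) hi (half_pos hε)
    exact ⟨L, hL, i, h1⟩
  choose! L hL idx hidx using hloc
  -- compactness of the circle
  have hS : IsCompact (Metric.sphere (0 : ℂ) 1) := isCompact_sphere 0 1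
  obtain ⟨s, hs1, hs2⟩ := hS.elim_nhds_subcover (fun u => Metric.ball u (ε / 2 / L u)) (by
    intro u hu
    rw [mem_sphere_zero_iff_norm] at hu
    exact Metric.ball_mem_nhds _ (div_pos (half_pos hε) (hL u hu)))
  set M := ∑ u ∈ s, L u + 1 with hM
  have hLM : ∀ u ∈ s, L u ≤ M := by
    intro u hu
    have h1 : L u ≤ ∑ u ∈ s, L u := Finset.single_le_sum (f := L) (fun v hv => by
      have := hs1 v hv
      rw [mem_sphere_zero_iff_norm] at this
      exact (hL v this).le) hu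
    linarith
  have hMpos : 0 < M := by
    have : 0 ≤ ∑ u ∈ s, L u := Finset.sum_nonneg (fun v hv => by
      have := hs1 v hv
      rw [mem_sphere_zero_iff_norm] at this
      exact (hL v this).le)
    linarith
  refine ⟨2 * M, by positivity, fun p q hpq => ?_⟩
  set V := 2 * M with hV
  have hVpos : 0 < V := by positivity
  set u : ℂ := (q - p) / V with hu
  have hun : ‖u‖ = 1 := by
    rw [hu, norm_div, Complex.norm_real, Real.norm_eq_abs, abs_of_pos hVpos, norm_sub_rev,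
      ← dist_eq_norm, hpq, div_self hVpos.ne']
  obtain ⟨v, hvs, hv⟩ := Set.mem_iUnion₂.1 (hs2 (mem_sphere_zero_iff_norm.2 hun))
  rw [Metric.mem_ball, dist_eq_norm] at hv
  have hv1 : ‖v‖ = 1 := by
    have := hs1 v hvs
    rwa [mem_sphere_zero_iff_norm] at this
  set cen : ℂ := (p + q) / 2 with hcen
  obtain ⟨t, ht, l, hl, hdist⟩ := hidx v hv1 (cen - x (idx v))
  have htM : |t| ≤ M := ht.trans (hLM v hvs)
  refine ⟨cen + t * u, ?_, l + x (idx v), ?_, ?_⟩
  · -- in the segment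
    rw [segment_eq_image]
    refine ⟨1 / 2 + t / V, ⟨?_, ?_⟩, ?_⟩
    · have := (abs_le.1 htM).1
      have h1 : -(1 / 2) ≤ t / V := by rw [le_div_iff₀ hVpos]; linarith
      linarith
    · have := (abs_le.1 htM).2
      have h1 : t / V ≤ 1 / 2 := by rw [div_le_iff₀ hVpos]; linarith
      linarith
    · simp only [hcen, hu, Complex.real_smul]
      have : (V : ℂ) ≠ 0 := by exact_mod_cast hVpos.ne'
      push_cast
      field_simp
      ring
  · exact Set.mem_iUnion.2 ⟨idx v, l, hl, rfl⟩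
  · rw [dist_eq_norm]
    have h1 : cen + t * u - (l + x (idx v)) = (cen - x (idx v) + t * v - l) + t * (u - v) := by ring
    rw [h1]
    refine (norm_add_le _ _).trans_lt ?_
    have h2 : ‖(t : ℂ) * (u - v)‖ ≤ ε / 2 := by
      rw [norm_mul, Complex.norm_real, Real.norm_eq_abs]
      have hLv := hL v hv1
      calc |t| * ‖u - v‖ ≤ L v * (ε / 2 / L v) := by
            apply mul_le_mul ht hv.le (norm_nonneg _) hLv.le
        _ = ε / 2 := by field_simp
    linarith

end Pool.Agent.V11269.Forest
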