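import Mathlib

/-!
Occupancy estimates for i.i.d. points: probabilistic part of the uniform Khintchine law.
-/

namespace Pool.Agent.V11269.RK

open MeasureTheory ProbabilityTheory Finset

variable {X : Type*} [MeasurableSpace X] (μ : Measure X) [IsProbabilityMeasure μ]
variable {κ : Type*}

/-- i.i.d. sequences -/
noncomputable abbrev PP : Measure (ℕ → X) := Measure.infinitePi (fun _ : ℕ => μ)

/-- the event that no point of the block `B` lies in `D` -/
def miss (B : Finset ℕ) (D : Set X) : Set (ℕ → X) := Set.pi (B : Set ℕ) (fun _ => Dᶜ)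

lemma miss_meas (B : Finset ℕ) {D : Set X} (hD : MeasurableSet D) : MeasurableSet (miss B D) :=
  MeasurableSet.pi B.countable_toSet (fun _ _ => hD.compl)

lemma miss_measure (B : Finset ℕ) {D : Set X} (hD : MeasurableSet D) :
    (PP μ).real (miss B D) = (1 - μ.real D) ^ B.card := by
  unfold miss PP
  rw [measureReal_def, Measure.infinitePi_pi _ (fun _ _ => hD.compl), prod_const,
    ENNReal.toReal_pow, ← measureReal_def, measureReal_compl hD]
  simp

omit [MeasurableSpace X] in
lemma miss_inter (B : Finset ℕ) (D D' : Set X) : miss B D ∩ miss B D' = miss B (D ∪ D') := by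
  unfold miss
  rw [← Set.pi_inter_distrib, Set.compl_union]

/-- the centred missing indicator -/
noncomputable def Zc (B : Finset ℕ) (D : Set X) (p : ℝ) (ω : ℕ → X) : ℝ :=
  (miss B D).indicator (fun _ => (1 : ℝ)) ω - (1 - p) ^ B.card

lemma Zc_meas (B : Finset ℕ) {D : Set X} (hD : MeasurableSet D) (p : ℝ) :
    Measurable (Zc B D p) :=
  (measurable_const.indicator (miss_meas B hD)).sub measurable_const

lemma integrable_ind (s : Set (ℕ → X)) (hs : MeasurableSet s) :
    Integrable (s.indicator (fun _ => (1 : ℝ))) (PP μ) :=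
  (integrable_const _).indicator hs

omit [IsProbabilityMeasure μ] in
lemma integral_ind (s : Set (ℕ → X)) (hs : MeasurableSet s) :
    ∫ ω, s.indicator (fun _ => (1 : ℝ)) ω ∂(PP μ) = (PP μ).real s := by
  rw [integral_indicator_const _ hs]; simp

omit [MeasurableSpace X] in
lemma Zc_mul (B : Finset ℕ) (D D' : Set X) (p : ℝ) (ω : ℕ → X) :
    Zc B D p ω * Zc B D' p ω = (miss B D ∩ miss B D').indicator (fun _ => (1 : ℝ)) ω -
      (1 - p) ^ B.card * (miss B D).indicator (fun _ => (1 : ℝ)) ω -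
      (1 - p) ^ B.card * (miss B D').indicator (fun _ => (1 : ℝ)) ω +
      (1 - p) ^ B.card * (1 - p) ^ B.card := by
  unfold Zc
  by_cases h1 : ω ∈ miss B D <;> by_cases h2 : ω ∈ miss B D' <;>
    simp [h1, h2, Set.indicator, Set.mem_inter_iff] <;> ring

lemma Zc_mul_integrable (B : Finset ℕ) {D D' : Set X} (hD : MeasurableSet D)
    (hD' : MeasurableSet D') (p : ℝ) :
    Integrable (fun ω => Zc B D p ω * Zc B D' p ω) (PP μ) := by
  simp only [Zc_mul]
  exact (((integrable_ind μ _ ((miss_meas B hD).inter (miss_meas B hD'))).sub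
    ((integrable_ind μ _ (miss_meas B hD)).const_mul _)).sub
    ((integrable_ind μ _ (miss_meas B hD')).const_mul _)).add (integrable_const _)

lemma Zc_mul_integral (B : Finset ℕ) {D D' : Set X} (hD : MeasurableSet D)
    (hD' : MeasurableSet D') {p : ℝ} (hp : μ.real D = p) (hp' : μ.real D' = p) :
    ∫ ω, Zc B D p ω * Zc B D' p ω ∂(PP μ) =
      (1 - μ.real (D ∪ D')) ^ B.card - (1 - p) ^ B.card * (1 - p) ^ B.card := by
  simp only [Zc_mul]
  rw [integral_add, integral_sub, integral_sub, integral_const_mul, integral_const_mul,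
    integral_ind μ _ ((miss_meas B hD).inter (miss_meas B hD')), integral_ind μ _ (miss_meas B hD),
    integral_ind μ _ (miss_meas B hD'), miss_inter, miss_measure μ B (hD.union hD'),
    miss_measure μ B hD, miss_measure μ B hD', hp, hp']
  · simp
  · exact integrable_ind μ _ ((miss_meas B hD).inter (miss_meas B hD'))
  · exact (integrable_ind μ _ (miss_meas B hD)).const_mul _
  · exact (integrable_ind μ _ ((miss_meas B hD).inter (miss_meas B hD'))).sub
      ((integrable_ind μ _ (miss_meas B hD)).const_mul _)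
  · exact (integrable_ind μ _ (miss_meas B hD')).const_mul _
  · exact ((integrable_ind μ _ ((miss_meas B hD).inter (miss_meas B hD'))).sub
      ((integrable_ind μ _ (miss_meas B hD)).const_mul _)).sub
      ((integrable_ind μ _ (miss_meas B hD')).const_mul _)
  · exact integrable_const _

/-- the deviation -/
noncomputable def T (B : Finset ℕ) (Q : Finset κ) (D : κ → Set X) (p : ℝ) (w : κ → ℝ)
    (ω : ℕ → X) : ℝ := ∑ c ∈ Q, w c * Zc B (D c) p ω

variable {Q : Finset κ} {D : κ → Set X} {p : ℝ}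

lemma T_meas (B : Finset ℕ) (hD : ∀ c ∈ Q, MeasurableSet (D c)) (w : κ → ℝ) :
    Measurable (T B Q D p w) := by
  unfold T
  exact Finset.measurable_fun_sum _ (fun c hc => (Zc_meas B (hD c hc) p).const_mul _)

lemma second (B : Finset ℕ) (hD : ∀ c ∈ Q, MeasurableSet (D c)) (hp : ∀ c ∈ Q, μ.real (D c) = p)
    (hdisj : ∀ c ∈ Q, ∀ c' ∈ Q, c ≠ c' → Disjoint (D c) (D c')) (w : κ → ℝ)
    (hw0 : ∀ c ∈ Q, 0 ≤ w c) (hwp : ∀ c ∈ Q, w c ≤ p) :
    Integrable (fun ω => T B Q D p w ω ^ 2) (PP μ) ∧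
    ∫ ω, T B Q D p w ω ^ 2 ∂(PP μ) ≤ p * (1 - (1 - p) ^ B.card) * ∑ c ∈ Q, w c := by
  classical
  have hexp : ∀ ω, T B Q D p w ω ^ 2 =
      ∑ c ∈ Q, ∑ c' ∈ Q, (w c * w c') * (Zc B (D c) p ω * Zc B (D c') p ω) := by
    intro ω
    unfold T
    rw [sq, sum_mul_sum]
    apply sum_congr rfl; intro c _
    apply sum_congr rfl; intro c' _
    ring
  have hint : ∀ c ∈ Q, ∀ c' ∈ Q,
      Integrable (fun ω => (w c * w c') * (Zc B (D c) p ω * Zc B (D c') p ω)) (PP μ) :=
    fun c hc c' hc' => (Zc_mul_integrable μ B (hD c hc) (hD c' hc') p).const_mul _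
  simp only [hexp]
  constructor
  · exact integrable_finsetSum _ (fun c hc => integrable_finsetSum _ (fun c' hc' =>
      hint c hc c' hc'))
  rw [integral_finsetSum _ (fun c hc => integrable_finsetSum _ (fun c' hc' =>
      hint c hc c' hc'))]
  have h1 : ∀ c ∈ Q, ∫ ω, ∑ c' ∈ Q, (w c * w c') * (Zc B (D c) p ω * Zc B (D c') p ω) ∂(PP μ) ≤
      w c * (p * (1 - (1 - p) ^ B.card)) := by
    intro c hc
    have hp0 : 0 ≤ p := by rw [← hp c hc]; exact measureReal_nonneg
    have hp1 : p ≤ 1 := by rw [← hp c hc]; exact measureReal_le_one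
    have hq0 : 0 ≤ (1 - p) ^ B.card := pow_nonneg (by linarith) _
    have hq1 : (1 - p) ^ B.card ≤ 1 := pow_le_one₀ (by linarith) (by linarith)
    rw [integral_finsetSum _ (fun c' hc' => hint c hc c' hc')]
    have h2 : ∀ c' ∈ Q, ∫ ω, (w c * w c') * (Zc B (D c) p ω * Zc B (D c') p ω) ∂(PP μ) ≤
        if c' = c then w c * (p * (1 - (1 - p) ^ B.card)) else 0 := by
      intro c' hc'
      rw [integral_const_mul, Zc_mul_integral μ B (hD c hc) (hD c' hc') (hp c hc) (hp c' hc')]
      split_ifs with h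
      · rw [h, Set.union_self, hp c hc]
        have h3 : w c * w c ≤ w c * p := mul_le_mul_of_nonneg_left (hwp c hc) (hw0 c hc)
        have h4 : (1 - p) ^ B.card - (1 - p) ^ B.card * (1 - p) ^ B.card ≤
          1 - (1 - p) ^ B.card := by nlinarith
        have h5 : 0 ≤ (1 - p) ^ B.card - (1 - p) ^ B.card * (1 - p) ^ B.card := by nlinarith
        calc w c * w c * ((1 - p) ^ B.card - (1 - p) ^ B.card * (1 - p) ^ B.card) ≤
            w c * p * (1 - (1 - p) ^ B.card) :=
              mul_le_mul h3 h4 h5 (mul_nonneg (hw0 c hc) hp0)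
          _ = _ := by ring
      · have h3 : μ.real (D c ∪ D c') = 2 * p := by
          rw [measureReal_union (hdisj c hc c' hc' (Ne.symm h)) (hD c' hc'), hp c hc, hp c' hc']
          ring
        have h4 : 2 * p ≤ 1 := by rw [← h3]; exact measureReal_le_one
        rw [h3, ← mul_pow]
        have h5 : (1 - 2 * p) ^ B.card ≤ ((1 - p) * (1 - p)) ^ B.card := by
          apply pow_le_pow_left₀ (by linarith)
          nlinarith
        have h6 : 0 ≤ w c * w c' := mul_nonneg (hw0 c hc) (hw0 c' hc')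
        have h7 : (1 - 2 * p) ^ B.card - ((1 - p) * (1 - p)) ^ B.card ≤ 0 := by linarith
        exact mul_nonpos_of_nonneg_of_nonpos h6 h7
    refine (sum_le_sum h2).trans ?_
    rw [sum_ite_eq' Q c]
    rw [if_pos hc]
  refine (sum_le_sum h1).trans (le_of_eq ?_)
  rw [← sum_mul]; ring

/-- Chebyshev -/
lemma dev (B : Finset ℕ) (hD : ∀ c ∈ Q, MeasurableSet (D c)) (hp : ∀ c ∈ Q, μ.real (D c) = p)
    (hdisj : ∀ c ∈ Q, ∀ c' ∈ Q, c ≠ c' → Disjoint (D c) (D c')) (w : κ → ℝ)
    (hw0 : ∀ c ∈ Q, 0 ≤ w c) (hwp : ∀ c ∈ Q, w c ≤ p) {t : ℝ} (ht : 0 < t) :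
    (PP μ).real {ω | t ≤ |T B Q D p w ω|} ≤
      p * (1 - (1 - p) ^ B.card) * (∑ c ∈ Q, w c) / t ^ 2 := by
  obtain ⟨h1, h2⟩ := second μ B hD hp hdisj w hw0 hwp
  have h3 := mul_meas_ge_le_integral_of_nonneg (μ := PP μ) (f := fun ω => T B Q D p w ω ^ 2)
    (Filter.Eventually.of_forall (fun ω => sq_nonneg _)) h1 (t ^ 2)
  have h4 : {ω | t ^ 2 ≤ T B Q D p w ω ^ 2} = {ω | t ≤ |T B Q D p w ω|} := by
    ext ω
    simp only [Set.mem_ofPred_eq]
    rw [sq_le_sq, abs_of_pos ht]
  rw [h4] at h3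
  rw [le_div_iff₀ (by positivity), mul_comm]
  exact h3.trans h2

/-- independence of blocks -/
lemma indep_blocks {B B' : Finset ℕ} (hB : Disjoint B B') {M : Set (B → X)} {M' : Set (B' → X)}
    (hM : MeasurableSet M) (hM' : MeasurableSet M') :
    (PP μ).real ({ω : ℕ → X | (fun i : B => ω i) ∈ M} ∩ {ω : ℕ → X | (fun i : B' => ω i) ∈ M'}) =
    (PP μ).real {ω : ℕ → X | (fun i : B => ω i) ∈ M} *
      (PP μ).real {ω : ℕ → X | (fun i : B' => ω i) ∈ M'} := by
  have h1 : iIndepFun (fun (i : ℕ) (ω : ℕ → X) => ω i) (PP μ) := by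
    rw [iIndepFun_iff_map_fun_eq_infinitePi_map₀ (by fun_prop)]
    have h2 : ∀ i : ℕ, (PP μ).map (fun ω : ℕ → X => ω i) = μ := by
      intro i
      exact Measure.infinitePi_map_eval (μ := fun _ : ℕ => μ) i
    simp only [h2]
    exact Measure.map_id
  have h2 := (h1.indepFun_finset B B' hB (fun i => measurable_pi_apply i)).measure_inter_preimage_eq_mul
    M M' hM hM'
  rw [measureReal_def, measureReal_def, measureReal_def, ← ENNReal.toReal_mul]
  exact congrArg _ h2

end Pool.Agent.V11269.RK
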