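import Pool.Agent.V11269.RK

namespace Pool.Agent.V11269.RK

open MeasureTheory ProbabilityTheory Finset

variable {X : Type*} [MeasurableSpace X] (μ : Measure X) [IsProbabilityMeasure μ]
variable {κ : Type*}

open Classical in
/-- the set of cells hit by the block -/
noncomputable def pat (B : Finset ℕ) (Q : Finset κ) (D : κ → Set X) (ω : ℕ → X) : Finset κ :=
  Q.filter (fun c => ∃ j ∈ B, ω j ∈ D c)

/-- pattern as a set of configurations of the block -/
def M1 (B : Finset ℕ) (Q : Finset κ) (D : κ → Set X) (S : Finset κ) : Set (B → X) :=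
  ⋂ c ∈ Q, {y | (∃ i, y i ∈ D c) ↔ c ∈ S}

lemma M1_meas (B : Finset ℕ) {Q : Finset κ} {D : κ → Set X} (hD : ∀ c ∈ Q, MeasurableSet (D c))
    (S : Finset κ) : MeasurableSet (M1 B Q D S) := by
  classical
  unfold M1
  apply Finset.measurableSet_biInter
  intro c hc
  have h1 : MeasurableSet {y : B → X | ∃ i, y i ∈ D c} := by
    have : {y : B → X | ∃ i, y i ∈ D c} = ⋃ i, (fun y : B → X => y i) ⁻¹' (D c) := by
      ext y; simp
    rw [this]
    exact MeasurableSet.iUnion (fun i => measurable_pi_apply i (hD c hc))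
  by_cases h : c ∈ S
  · simp only [h, iff_true]; exact h1
  · simp only [h, iff_false]; exact h1.compl

omit [MeasurableSpace X] in
lemma pat_event (B : Finset ℕ) (Q : Finset κ) (D : κ → Set X) {S : Finset κ} (hS : S ⊆ Q) :
    {ω : ℕ → X | pat B Q D ω = S} = {ω | (fun i : B => ω i) ∈ M1 B Q D S} := by
  classical
  ext ω
  simp only [Set.mem_ofPred_eq, M1, Set.mem_iInter, pat, Subtype.exists, exists_prop]
  constructor
  · intro h c hc
    rw [← h, mem_filter]
    exact ⟨fun h1 => ⟨hc, h1⟩, fun h1 => h1.2⟩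
  · intro h
    ext c
    rw [mem_filter]
    constructor
    · rintro ⟨hc, h1⟩
      exact (h c hc).1 h1
    · intro hc
      exact ⟨hS hc, (h c (hS hc)).2 hc⟩

lemma T_event (B : Finset ℕ) {Q : Finset κ} {D : κ → Set X} (hD : ∀ c ∈ Q, MeasurableSet (D c))
    (p : ℝ) (w : κ → ℝ) (t : ℝ) : ∃ M : Set (B → X), MeasurableSet M ∧
    {ω : ℕ → X | t ≤ |T B Q D p w ω|} = {ω | (fun i : B => ω i) ∈ M} := by
  classical
  refine ⟨{y | t ≤ |∑ c ∈ Q, w c * ((Set.univ.pi (fun _ : B => (D c)ᶜ)).indicator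
    (fun _ => (1 : ℝ)) y - (1 - p) ^ B.card)|}, ?_, ?_⟩
  · apply measurableSet_le measurable_const
    apply Measurable.abs
    apply Finset.measurable_fun_sum
    intro c hc
    apply Measurable.const_mul
    apply Measurable.sub _ measurable_const
    exact measurable_const.indicator (MeasurableSet.univ_pi (fun _ => (hD c hc).compl))
  · ext ω
    simp only [Set.mem_ofPred_eq, T, Zc, miss]
    have h1 : ∀ c, ((B : Set ℕ).pi fun _ => (D c)ᶜ).indicator (fun _ => (1 : ℝ)) ω =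
        (Set.univ.pi (fun _ : B => (D c)ᶜ)).indicator (fun _ => (1 : ℝ)) (fun i : B => ω i) := by
      intro c
      simp only [Set.indicator, Set.mem_pi, Set.mem_univ, forall_true_left, Subtype.forall,
        mem_coe]
    simp only [h1]

lemma bad_random {B B' : Finset ℕ} (hB : Disjoint B B') {Qa Qb : Finset κ} {Da Db : κ → Set X}
    {p : ℝ} (hDa : ∀ c ∈ Qa, MeasurableSet (Da c)) (hDb : ∀ c ∈ Qb, MeasurableSet (Db c))
    (hp : ∀ c ∈ Qb, μ.real (Db c) = p)
    (hdisj : ∀ c ∈ Qb, ∀ c' ∈ Qb, c ≠ c' → Disjoint (Db c) (Db c'))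
    (w : Finset κ → κ → ℝ) (hw0 : ∀ S, ∀ c ∈ Qb, 0 ≤ w S c) (hwp : ∀ S, ∀ c ∈ Qb, w S c ≤ p)
    {g δ : ℝ} (hg : 0 < g) (hδ : 0 < δ) (hp0 : 0 < p) (hp1 : p ≤ 1) (hB' : B'.Nonempty) :
    (PP μ).real {ω | g ≤ ∑ c ∈ Qb, w (pat B Qa Da ω) c ∧
      δ * (1 - (1 - p) ^ B'.card) * (∑ c ∈ Qb, w (pat B Qa Da ω) c) ≤
        |T B' Qb Db p (w (pat B Qa Da ω)) ω|} ≤ p / (δ ^ 2 * (1 - (1 - p) ^ B'.card) * g) := by
  classical
  set h : ℝ := 1 - (1 - p) ^ B'.card with hh
  have hh0 : 0 < h := by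
    rw [hh, sub_pos]
    exact pow_lt_one₀ (by linarith) (by linarith) (card_pos.2 hB').ne'
  set W : Finset κ → ℝ := fun S => ∑ c ∈ Qb, w S c with hW
  set FF := Qa.powerset.filter (fun S => g ≤ W S) with hFF
  set Ev : Finset κ → Set (ℕ → X) := fun S => {ω | pat B Qa Da ω = S} ∩
    {ω | δ * h * W S ≤ |T B' Qb Db p (w S) ω|} with hEv
  have hsub : {ω | g ≤ ∑ c ∈ Qb, w (pat B Qa Da ω) c ∧
      δ * h * (∑ c ∈ Qb, w (pat B Qa Da ω) c) ≤
        |T B' Qb Db p (w (pat B Qa Da ω)) ω|} ⊆ ⋃ S ∈ FF, Ev S := by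
    intro ω hω
    rw [Set.mem_ofPred_eq] at hω
    simp only [Set.mem_iUnion]
    refine ⟨pat B Qa Da ω, ?_, rfl, hω.2⟩
    rw [hFF, mem_filter, mem_powerset]
    exact ⟨filter_subset _ _, hω.1⟩
  have hpat : ∀ S ∈ FF, MeasurableSet {ω : ℕ → X | pat B Qa Da ω = S} := by
    intro S hS
    rw [hFF, mem_filter, mem_powerset] at hS
    rw [pat_event B Qa Da hS.1]
    exact (measurable_pi_lambda _ (fun i => measurable_pi_apply _)) (M1_meas B hDa S)
  calc (PP μ).real {ω | g ≤ ∑ c ∈ Qb, w (pat B Qa Da ω) c ∧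
      δ * h * (∑ c ∈ Qb, w (pat B Qa Da ω) c) ≤
        |T B' Qb Db p (w (pat B Qa Da ω)) ω|} ≤ (PP μ).real (⋃ S ∈ FF, Ev S) :=
        measureReal_mono hsub (measure_ne_top _ _)
    _ ≤ ∑ S ∈ FF, (PP μ).real (Ev S) := measureReal_biUnion_finset_le _ _
    _ ≤ ∑ S ∈ FF, (PP μ).real {ω : ℕ → X | pat B Qa Da ω = S} * (p / (δ ^ 2 * h * g)) := by
        apply sum_le_sum
        intro S hS
        have hS' := hS
        rw [hFF, mem_filter, mem_powerset] at hS'
        obtain ⟨M, hM, hM2⟩ := T_event B' hDb p (w S) (δ * h * W S)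
        have hWS : 0 < W S := lt_of_lt_of_le hg hS'.2
        have h1 : (PP μ).real (Ev S) = (PP μ).real {ω : ℕ → X | pat B Qa Da ω = S} *
            (PP μ).real {ω | δ * h * W S ≤ |T B' Qb Db p (w S) ω|} := by
          rw [hEv]
          dsimp only
          rw [pat_event B Qa Da hS'.1, hM2]
          exact indep_blocks μ hB (M1_meas B hDa S) hM
        rw [h1]
        apply mul_le_mul_of_nonneg_left _ measureReal_nonneg
        refine (dev μ B' hDb hp hdisj (w S) (hw0 S) (hwp S) (by positivity)).trans ?_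
        have h2 : p * (1 - (1 - p) ^ B'.card) * (∑ c ∈ Qb, w S c) / (δ * h * W S) ^ 2 =
            p / (δ ^ 2 * h * W S) := by
          rw [← hh]
          change p * h * W S / (δ * h * W S) ^ 2 = _
          field_simp
        rw [h2]
        apply div_le_div_of_nonneg_left hp0.le (by positivity)
        have := hS'.2
        gcongr
    _ = (PP μ).real (⋃ S ∈ FF, {ω : ℕ → X | pat B Qa Da ω = S}) * (p / (δ ^ 2 * h * g)) := by
        rw [← sum_mul, measureReal_biUnion_finset _ hpat]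
        intro S _ S' _ hne
        rw [Function.onFun, Set.disjoint_left]
        intro ω h1 h2
        exact hne (h1.symm.trans h2)
    _ ≤ 1 * (p / (δ ^ 2 * h * g)) := by
        gcongr
        exact measureReal_le_one
    _ = _ := one_mul _

end Pool.Agent.V11269.RK
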