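import Pool.Agent.V11269.RK2

namespace Pool.Agent.V11269.RK

open MeasureTheory ProbabilityTheory Finset

variable {n : ℕ}

/-- the uniform distribution on the cube -/
noncomputable abbrev cube (n : ℕ) : Measure (Fin n → ℝ) := volume.restrict (Set.Icc 0 1)

instance : IsProbabilityMeasure (cube n) := by
  constructor
  rw [Measure.restrict_apply_univ, Real.volume_Icc_pi]
  simp

/-- dyadic cell -/
def cell (b c : Fin n → ℕ) : Set (Fin n → ℝ) :=
  Set.univ.pi (fun i => Set.Ico ((c i : ℝ) / 2 ^ b i) (((c i : ℝ) + 1) / 2 ^ b i))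

/-- addresses -/
def QQ (b : Fin n → ℕ) : Finset (Fin n → ℕ) := Fintype.piFinset (fun i => range (2 ^ b i))

/-- measure of a cell -/
noncomputable def pr (b : Fin n → ℕ) : ℝ := (1 / 2) ^ (∑ i, b i)

lemma pr_pos (b : Fin n → ℕ) : 0 < pr b := by unfold pr; positivity

lemma pr_le_one (b : Fin n → ℕ) : pr b ≤ 1 := by
  unfold pr; exact pow_le_one₀ (by norm_num) (by norm_num)

lemma cell_meas (b c : Fin n → ℕ) : MeasurableSet (cell b c) :=
  MeasurableSet.univ_pi (fun _ => measurableSet_Ico)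

lemma cell_sub {b c : Fin n → ℕ} (hc : c ∈ QQ b) : cell b c ⊆ Set.Icc 0 1 := by
  intro x hx
  rw [QQ, Fintype.mem_piFinset] at hc
  constructor
  · intro i
    have h1 := (hx i (Set.mem_univ i)).1
    have : (0 : ℝ) ≤ (c i : ℝ) / 2 ^ b i := by positivity
    exact this.trans h1
  · intro i
    have h1 := (hx i (Set.mem_univ i)).2
    have h2 : (c i : ℝ) + 1 ≤ 2 ^ b i := by
      have := mem_range.1 (hc i)
      exact_mod_cast this
    have h3 : ((c i : ℝ) + 1) / 2 ^ b i ≤ 1 := (div_le_one (by positivity)).2 h2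
    exact h1.le.trans h3

lemma cell_measure {b c : Fin n → ℕ} (hc : c ∈ QQ b) : (cube n).real (cell b c) = pr b := by
  rw [measureReal_def, Measure.restrict_apply (cell_meas b c),
    Set.inter_eq_left.2 (cell_sub hc), cell, Real.volume_pi_Ico]
  have h1 : ∀ i, ENNReal.ofReal (((c i : ℝ) + 1) / 2 ^ b i - (c i : ℝ) / 2 ^ b i) =
      ENNReal.ofReal ((1 / 2) ^ b i) := by
    intro i
    congr 1
    rw [← sub_div, add_sub_cancel_left, one_div_pow]
  simp only [h1]
  rw [← ENNReal.ofReal_prod_of_nonneg (fun i _ => by positivity),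
    ENNReal.toReal_ofReal (prod_nonneg (fun i _ => by positivity)), prod_pow_eq_pow_sum]
  rfl

lemma cell_addr {b c : Fin n → ℕ} {x : Fin n → ℝ} (hx : x ∈ cell b c) (i : Fin n) :
    c i = ⌊2 ^ b i * x i⌋₊ := by
  obtain ⟨h1, h2⟩ := hx i (Set.mem_univ i)
  symm
  rw [Nat.floor_eq_iff]
  · rw [div_le_iff₀ (by positivity)] at h1
    rw [lt_div_iff₀ (by positivity)] at h2
    constructor <;> linarith
  · have : (0 : ℝ) ≤ (c i : ℝ) / 2 ^ b i := by positivity
    have h3 : 0 ≤ x i := this.trans h1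
    positivity

lemma cell_disj {b c c' : Fin n → ℕ} (h : c ≠ c') : Disjoint (cell b c) (cell b c') := by
  rw [Set.disjoint_left]
  intro x h1 h2
  apply h
  funext i
  rw [cell_addr h1 i, cell_addr h2 i]

lemma cell_cover (b : Fin n → ℕ) {x : Fin n → ℝ}
    (hx : x ∈ Set.univ.pi (fun _ : Fin n => Set.Ico (0 : ℝ) 1)) : ∃ c ∈ QQ b, x ∈ cell b c := by
  refine ⟨fun i => ⌊2 ^ b i * x i⌋₊, ?_, ?_⟩
  · rw [QQ, Fintype.mem_piFinset]
    intro i
    obtain ⟨h1, h2⟩ := hx i (Set.mem_univ i)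
    rw [mem_range, Nat.floor_lt (by positivity)]
    push_cast
    have : (0 : ℝ) < 2 ^ b i := by positivity
    nlinarith
  · intro i _
    obtain ⟨h1, h2⟩ := hx i (Set.mem_univ i)
    have h3 := Nat.floor_le (show 0 ≤ 2 ^ b i * x i by positivity)
    have h4 := Nat.lt_floor_add_one (2 ^ b i * x i)
    constructor
    · rw [div_le_iff₀ (by positivity)]; linarith
    · rw [lt_div_iff₀ (by positivity)]; linarith

/-- the union of a set of cells -/
def GG (b : Fin n → ℕ) (S : Finset (Fin n → ℕ)) : Set (Fin n → ℝ) := ⋃ c ∈ S, cell b c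

lemma GG_meas (b : Fin n → ℕ) (S : Finset (Fin n → ℕ)) : MeasurableSet (GG b S) :=
  Finset.measurableSet_biUnion _ (fun _ _ => cell_meas _ _)

lemma measure_split (b : Fin n → ℕ) {S : Finset (Fin n → ℕ)} {G : Set (Fin n → ℝ)}
    (hG : MeasurableSet G) :
    ∑ c ∈ S, (cube n).real (cell b c ∩ G) = (cube n).real (G ∩ GG b S) := by
  rw [← measureReal_biUnion_finset]
  · congr 1
    unfold GG
    ext x
    simp only [Set.mem_iUnion, Set.mem_inter_iff, exists_prop]
    constructor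
    · rintro ⟨c, h1, h2, h3⟩
      exact ⟨h3, c, h1, h2⟩
    · rintro ⟨h3, c, h1, h2⟩
      exact ⟨c, h1, h2, h3⟩
  · intro c _ c' _ h
    exact (cell_disj h).mono Set.inter_subset_left Set.inter_subset_left
  · intro c _
    exact (cell_meas b c).inter hG

lemma measure_total (b : Fin n → ℕ) {G : Set (Fin n → ℝ)} (hG : MeasurableSet G) :
    ∑ c ∈ QQ b, (cube n).real (cell b c ∩ G) = (cube n).real G := by
  rw [measure_split b hG]
  have h1 : (cube n) = volume.restrict (Set.univ.pi (fun _ : Fin n => Set.Ico (0 : ℝ) 1)) := by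
    apply Measure.restrict_congr_set
    exact (Measure.univ_pi_Ico_ae_eq_Icc (f := (0 : Fin n → ℝ)) (g := 1)).symm
  rw [measureReal_def, measureReal_def, h1,
    Measure.restrict_apply (hG.inter (GG_meas b _)), Measure.restrict_apply hG]
  congr 2
  ext x
  simp only [Set.mem_inter_iff]
  constructor
  · rintro ⟨⟨h2, -⟩, h3⟩; exact ⟨h2, h3⟩
  · rintro ⟨h2, h3⟩
    obtain ⟨c, hc, hx⟩ := cell_cover b h3
    exact ⟨⟨h2, Set.mem_biUnion hc hx⟩, h3⟩

/-- the hit region -/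
noncomputable def HH (b : Fin n → ℕ) (B : Finset ℕ) (ω : ℕ → (Fin n → ℝ)) : Set (Fin n → ℝ) :=
  GG b (pat B (QQ b) (cell b) ω)

lemma HH_meas (b : Fin n → ℕ) (B : Finset ℕ) (ω : ℕ → (Fin n → ℝ)) : MeasurableSet (HH b B ω) :=
  GG_meas _ _

lemma T_eq (b : Fin n → ℕ) (B : Finset ℕ) {G : Set (Fin n → ℝ)} (hG : MeasurableSet G)
    (ω : ℕ → (Fin n → ℝ)) :
    T B (QQ b) (cell b) (pr b) (fun c => (cube n).real (cell b c ∩ G)) ω =
      (1 - (1 - pr b) ^ B.card) * (cube n).real G - (cube n).real (G ∩ HH b B ω) := by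
  classical
  unfold T Zc HH
  rw [← measure_split b hG]
  simp only [mul_sub, sum_sub_distrib]
  rw [← sum_mul, measure_total b hG]
  have h1 : ∀ c ∈ QQ b, (cube n).real (cell b c ∩ G) *
      (miss B (cell b c)).indicator (fun _ => (1 : ℝ)) ω =
      (cube n).real (cell b c ∩ G) - if (∃ j ∈ B, ω j ∈ cell b c) then
        (cube n).real (cell b c ∩ G) else 0 := by
    intro c _
    by_cases h : ∃ j ∈ B, ω j ∈ cell b c
    · rw [if_pos h]
      have h2 : ω ∉ miss B (cell b c) := by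
        obtain ⟨j, hj, hj2⟩ := h
        intro h3
        exact h3 j hj hj2
      rw [Set.indicator_of_notMem h2]; ring
    · rw [if_neg h]
      have h2 : ω ∈ miss B (cell b c) := by
        intro j hj hj2
        exact h ⟨j, hj, hj2⟩
      rw [Set.indicator_of_mem h2]; ring
  rw [sum_congr rfl h1, sum_sub_distrib, measure_total b hG, ← sum_filter]
  unfold pat
  ring_nf

/-- blocks -/
def Bk (k : ℕ) : Finset ℕ := Finset.Ico (2 ^ k) (2 ^ (k + 1))

lemma Bk_card (k : ℕ) : (Bk k).card = 2 ^ k := by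
  unfold Bk; rw [Nat.card_Ico, pow_succ]; omega

lemma Bk_nonempty (k : ℕ) : (Bk k).Nonempty := by
  rw [← card_pos, Bk_card]; positivity

lemma Bk_disj {k l : ℕ} (h : k < l) : Disjoint (Bk k) (Bk l) := by
  rw [Finset.disjoint_left]
  intro j h1 h2
  unfold Bk at h1 h2
  rw [Finset.mem_Ico] at h1 h2
  have : 2 ^ (k + 1) ≤ 2 ^ l := Nat.pow_le_pow_right (by norm_num) h
  omega

/-- hitting probability -/
noncomputable def hp (k : ℕ) (b : Fin n → ℕ) : ℝ := 1 - (1 - pr b) ^ (2 ^ k)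

lemma hp_lower {k : ℕ} {b : Fin n → ℕ} (hb : k ≤ ∑ i, b i) : 2 ^ k * pr b / 2 ≤ hp k b := by
  have hp0 := pr_pos b
  have hp1 := pr_le_one b
  have hx : 2 ^ k * pr b ≤ 1 := by
    unfold pr
    calc (2 : ℝ) ^ k * (1 / 2) ^ (∑ i, b i) ≤ 2 ^ k * (1 / 2) ^ k := by
          gcongr ?_ * ?_
          exact pow_le_pow_of_le_one (by norm_num) (by norm_num) hb
      _ = 1 := by rw [← mul_pow]; norm_num
  have h1 : (1 - pr b) ^ (2 ^ k) * (1 + pr b) ^ (2 ^ k) ≤ 1 := by
    rw [← mul_pow]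
    apply pow_le_one₀
    · nlinarith
    · nlinarith
  have h2 : 1 + 2 ^ k * pr b ≤ (1 + pr b) ^ (2 ^ k) := by
    have := one_add_mul_le_pow (show (-2 : ℝ) ≤ pr b by linarith) (2 ^ k)
    push_cast at this
    exact this
  have h3 : 0 ≤ (1 - pr b) ^ (2 ^ k) := pow_nonneg (by linarith) _
  have h4 : (1 - pr b) ^ (2 ^ k) * (1 + 2 ^ k * pr b) ≤ 1 :=
    (mul_le_mul_of_nonneg_left h2 h3).trans h1
  have h5 : 0 ≤ (2 : ℝ) ^ k * pr b := by positivity
  unfold hp
  nlinarith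

lemma hp_pos {k : ℕ} {b : Fin n → ℕ} (hb : k ≤ ∑ i, b i) : 0 < hp k b := by
  have := hp_lower hb
  have h1 := pr_pos b
  have : 0 < 2 ^ k * pr b / 2 := by positivity
  linarith

open Classical in
/-- relevant shapes -/
noncomputable def RR (n k : ℕ) : Finset (Fin n → ℕ) :=
  (Fintype.piFinset (fun _ => range (2 * k + 1))).filter
    (fun a => k ≤ ∑ i, a i ∧ 2 * ∑ i, a i ≤ 3 * k)

lemma RR_card (n k : ℕ) : (RR n k).card ≤ (2 * k + 1) ^ n := by
  classical
  unfold RR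
  refine (card_filter_le _ _).trans ?_
  rw [Fintype.card_piFinset]
  simp

/-- first bad event -/
def bad1 (δ : ℝ) (k : ℕ) (a : Fin n → ℕ) : Set (ℕ → (Fin n → ℝ)) :=
  {ω | δ * hp k a ≤ |hp k a - (cube n).real (HH a (Bk k) ω)|}

/-- second bad event -/
def bad2 (δ : ℝ) (k l : ℕ) (a b : Fin n → ℕ) : Set (ℕ → (Fin n → ℝ)) :=
  {ω | (1 - δ) * hp k a ≤ (cube n).real (HH a (Bk k) ω) ∧
    δ * hp l b * (cube n).real (HH a (Bk k) ω) ≤
    |hp l b * (cube n).real (HH a (Bk k) ω) -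
      (cube n).real (HH a (Bk k) ω ∩ HH b (Bk l) ω)|}

lemma bad1_bound {δ : ℝ} (hδ : 0 < δ) {k : ℕ} {a : Fin n → ℕ} (ha : k ≤ ∑ i, a i) :
    (PP (cube n)).real (bad1 δ k a) ≤ 2 / (δ ^ 2 * 2 ^ k) := by
  have hp0 := pr_pos a
  have hh := hp_pos ha
  have hl := hp_lower ha
  have h1 := dev (cube n) (Bk k) (Q := QQ a) (D := cell a) (p := pr a)
    (fun c _ => cell_meas a c) (fun c hc => cell_measure hc)
    (fun c _ c' _ h => cell_disj h) (fun c => (cube n).real (cell a c ∩ Set.univ))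
    (fun c _ => measureReal_nonneg) (fun c hc => by
      rw [Set.inter_univ, cell_measure hc]) (t := δ * hp k a) (by positivity)
  rw [measure_total a MeasurableSet.univ, probReal_univ, Bk_card] at h1
  have h2 : {ω | δ * hp k a ≤ |T (Bk k) (QQ a) (cell a) (pr a)
      (fun c => (cube n).real (cell a c ∩ Set.univ)) ω|} = bad1 δ k a := by
    ext ω
    unfold bad1
    rw [Set.mem_ofPred_eq, Set.mem_ofPred_eq, T_eq a (Bk k) MeasurableSet.univ, Bk_card,
      probReal_univ, mul_one, Set.univ_inter]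
    rfl
  rw [h2] at h1
  refine h1.trans ?_
  change pr a * hp k a * 1 / (δ * hp k a) ^ 2 ≤ _
  have h3 : pr a * hp k a * 1 / (δ * hp k a) ^ 2 = pr a / (δ ^ 2 * hp k a) := by
    field_simp
  rw [h3, div_le_div_iff₀ (by positivity) (by positivity)]
  have h4 : 0 < δ ^ 2 := by positivity
  nlinarith

lemma bad2_bound {δ : ℝ} (hδ : 0 < δ) (hδ1 : δ < 1) {k l : ℕ} (hkl : k < l) {a b : Fin n → ℕ}
    (ha : k ≤ ∑ i, a i) (ha2 : 2 * ∑ i, a i ≤ 3 * k) (hb : l ≤ ∑ i, b i) :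
    (PP (cube n)).real (bad2 δ k l a b) ≤ 4 / (δ ^ 2 * (1 - δ)) * (1 / √2) ^ l := by
  have hpa := pr_pos a
  have hpb := pr_pos b
  have hha := hp_pos ha
  have hhb := hp_pos hb
  have hla := hp_lower ha
  have hlb := hp_lower hb
  have hδ' : 0 < 1 - δ := by linarith
  have h1 := bad_random (cube n) (Bk_disj hkl) (Qa := QQ a) (Qb := QQ b) (Da := cell a)
    (Db := cell b) (p := pr b) (fun c _ => cell_meas a c) (fun c _ => cell_meas b c)
    (fun c hc => cell_measure hc) (fun c _ c' _ h => cell_disj h)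
    (fun S c => (cube n).real (cell b c ∩ GG a S)) (fun _ c _ => measureReal_nonneg)
    (fun S c hc => by
      rw [← cell_measure hc]
      exact measureReal_mono Set.inter_subset_left (measure_ne_top _ _))
    (g := (1 - δ) * hp k a) (δ := δ) (by positivity) hδ hpb (pr_le_one b) (Bk_nonempty l)
  have h2 : bad2 δ k l a b = {ω | (1 - δ) * hp k a ≤ ∑ c ∈ QQ b, (cube n).real (cell b c ∩
      GG a (pat (Bk k) (QQ a) (cell a) ω)) ∧
      δ * (1 - (1 - pr b) ^ (Bk l).card) * (∑ c ∈ QQ b, (cube n).real (cell b c ∩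
      GG a (pat (Bk k) (QQ a) (cell a) ω))) ≤
        |T (Bk l) (QQ b) (cell b) (pr b) (fun c => (cube n).real (cell b c ∩
          GG a (pat (Bk k) (QQ a) (cell a) ω))) ω|} := by
    ext ω
    unfold bad2
    rw [Set.mem_ofPred_eq, Set.mem_ofPred_eq, T_eq b (Bk l) (GG_meas a _), Bk_card,
      measure_total b (GG_meas a _)]
    rfl
  rw [h2]
  refine h1.trans ?_
  rw [Bk_card]
  change pr b / (δ ^ 2 * hp l b * ((1 - δ) * hp k a)) ≤ _
  -- pr b / hp l b ≤ 2 / 2^l ; hp k a ≥ (1/√2)^k / 2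
  set s : ℝ := 1 / √2 with hs
  have hs0 : 0 < s := by positivity
  have hs2 : s ^ 2 = 1 / 2 := by
    rw [hs, div_pow, one_pow, Real.sq_sqrt (by norm_num)]
  have hs1 : s ≤ 1 := by nlinarith
  have h3 : s ^ k ≤ 2 ^ k * pr a := by
    obtain ⟨e, he⟩ : ∃ e, ∑ i, a i = k + e := ⟨∑ i, a i - k, by omega⟩
    unfold pr
    rw [he, pow_add, ← mul_assoc, ← mul_pow]
    norm_num
    rw [show (1 / 2 : ℝ) ^ e = s ^ (2 * e) by rw [pow_mul, hs2]]
    exact pow_le_pow_of_le_one hs0.le hs1 (by omega)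
  have h4 : s ^ k / 2 ≤ hp k a := by linarith
  have h5 : s ^ l ≤ s ^ k := pow_le_pow_of_le_one hs0.le hs1 hkl.le
  have h6 : s ^ l * s ^ l * 2 ^ l = 1 := by
    rw [← mul_pow, ← mul_pow, ← sq, hs2]; norm_num
  have h7 : s ^ l / 2 ≤ hp k a := by linarith
  rw [div_le_iff₀ (by positivity)]
  have h8 : 4 / (δ ^ 2 * (1 - δ)) * s ^ l * (δ ^ 2 * hp l b * ((1 - δ) * hp k a)) =
      4 * s ^ l * (hp l b * hp k a) := by
    field_simp
  rw [h8]
  have h9 : (2 ^ l * pr b / 2) * (s ^ l / 2) ≤ hp l b * hp k a := by gcongr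
  calc pr b = 4 * s ^ l * ((2 ^ l * pr b / 2) * (s ^ l / 2)) := by
        have : 4 * s ^ l * ((2 ^ l * pr b / 2) * (s ^ l / 2)) = (s ^ l * s ^ l * 2 ^ l) * pr b := by
          ring
        rw [this, h6, one_mul]
    _ ≤ _ := by gcongr

end Pool.Agent.V11269.RK
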