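import Pool.Agent.V11269.RK3

namespace Pool.Agent.V11269.RK

open MeasureTheory ProbabilityTheory Finset Filter

section KochenStone

variable {X : Type*} [MeasurableSpace X] (μ : Measure X) [IsProbabilityMeasure μ]

lemma KS_finite {E : ℕ → Set X} (hE : ∀ k, MeasurableSet (E k)) {C : ℝ} (hC : 0 < C)
    (hpair : ∀ k l, k < l → μ.real (E k ∩ E l) ≤ C * (μ.real (E k) * μ.real (E l)))
    (I : Finset ℕ) (hV : 0 < ∑ k ∈ I, μ.real (E k)) :
    (∑ k ∈ I, μ.real (E k)) / (1 + C * ∑ k ∈ I, μ.real (E k)) ≤ μ.real (⋃ k ∈ I, E k) := by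
  classical
  set V := ∑ k ∈ I, μ.real (E k) with hVdef
  set U : Set X := ⋃ k ∈ I, E k with hU
  have hUm : MeasurableSet U := Finset.measurableSet_biUnion _ (fun k _ => hE k)
  set f : X → ℝ := fun x => ∑ k ∈ I, (E k).indicator (fun _ => (1 : ℝ)) x with hf
  have hii : ∀ s : Set X, MeasurableSet s → Integrable (s.indicator (fun _ => (1 : ℝ))) μ :=
    fun s hs => (integrable_const _).indicator hs
  have hiv : ∀ s : Set X, MeasurableSet s →
      ∫ x, s.indicator (fun _ => (1 : ℝ)) x ∂μ = μ.real s := by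
    intro s hs
    rw [integral_indicator_const _ hs]; simp
  set S2 : ℝ := ∑ k ∈ I, ∑ l ∈ I, μ.real (E k ∩ E l) with hS2
  have hkl : ∀ k ∈ I, ∀ l ∈ I, k ≠ l → μ.real (E k ∩ E l) ≤ C * (μ.real (E k) * μ.real (E l)) := by
    intro k _ l _ h
    rcases lt_or_gt_of_ne h with h1 | h1
    · exact hpair k l h1
    · rw [Set.inter_comm, mul_comm (μ.real (E k))]; exact hpair l k h1
  have hS2le : S2 ≤ V + C * (V * V) := by
    have h1 : ∀ k ∈ I, ∀ l ∈ I, μ.real (E k ∩ E l) ≤ (if l = k then μ.real (E k) else 0) +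
        C * (μ.real (E k) * μ.real (E l)) := by
      intro k hk l hl
      split_ifs with h
      · rw [h, Set.inter_self]
        have : 0 ≤ C * (μ.real (E k) * μ.real (E k)) := by positivity
        linarith
      · rw [zero_add]; exact hkl k hk l hl (Ne.symm h)
    calc S2 ≤ ∑ k ∈ I, ∑ l ∈ I, ((if l = k then μ.real (E k) else 0) +
        C * (μ.real (E k) * μ.real (E l))) :=
          sum_le_sum (fun k hk => sum_le_sum (fun l hl => h1 k hk l hl))
      _ = V + C * (V * V) := by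
          simp only [sum_add_distrib, sum_ite_eq', ← mul_sum]
          rw [← sum_mul]
          congr 1
          apply sum_congr rfl
          intro k hk
          rw [if_pos hk]
  have hS2pos : V ≤ S2 := by
    rw [hS2, hVdef]
    apply sum_le_sum
    intro k hk
    have : μ.real (E k) = μ.real (E k ∩ E k) := by rw [Set.inter_self]
    rw [this]
    exact single_le_sum (f := fun l => μ.real (E k ∩ E l)) (fun l _ => measureReal_nonneg) hk
  -- the square
  have hsq : ∀ lam : ℝ, 0 ≤ S2 - 2 * lam * V + lam ^ 2 * μ.real U := by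
    intro lam
    have h1 : ∀ x, (f x - lam * U.indicator (fun _ => (1 : ℝ)) x) ^ 2 =
        (∑ k ∈ I, ∑ l ∈ I, (E k ∩ E l).indicator (fun _ => (1 : ℝ)) x) -
        2 * lam * (∑ k ∈ I, (E k).indicator (fun _ => (1 : ℝ)) x) +
        lam ^ 2 * U.indicator (fun _ => (1 : ℝ)) x := by
      intro x
      have h2 : f x * f x = ∑ k ∈ I, ∑ l ∈ I, (E k ∩ E l).indicator (fun _ => (1 : ℝ)) x := by
        rw [hf]
        dsimp only
        rw [sum_mul_sum]
        apply sum_congr rfl; intro k _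
        apply sum_congr rfl; intro l _
        by_cases ha : x ∈ E k <;> by_cases hb : x ∈ E l <;> simp [ha, hb]
      have h3 : f x * U.indicator (fun _ => (1 : ℝ)) x = f x := by
        by_cases hx : x ∈ U
        · rw [Set.indicator_of_mem hx, mul_one]
        · rw [Set.indicator_of_notMem hx, mul_zero]
          symm
          apply sum_eq_zero
          intro k hk
          apply Set.indicator_of_notMem
          intro h4
          exact hx (Set.mem_biUnion hk h4)
      have h4 : U.indicator (fun _ => (1 : ℝ)) x * U.indicator (fun _ => (1 : ℝ)) x =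
          U.indicator (fun _ => (1 : ℝ)) x := by
        by_cases hx : x ∈ U <;> simp [hx]
      rw [← h2]
      have h5 : (∑ k ∈ I, (E k).indicator (fun _ => (1 : ℝ)) x) = f x := rfl
      rw [h5]
      linear_combination (-2 * lam) * h3 + lam ^ 2 * h4
    have h2 : 0 ≤ ∫ x, (f x - lam * U.indicator (fun _ => (1 : ℝ)) x) ^ 2 ∂μ :=
      integral_nonneg (fun x => sq_nonneg _)
    have hi1 : Integrable (fun x => ∑ k ∈ I, ∑ l ∈ I,
        (E k ∩ E l).indicator (fun _ => (1 : ℝ)) x) μ :=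
      integrable_finsetSum _ (fun k _ => integrable_finsetSum _ (fun l _ =>
        hii _ ((hE k).inter (hE l))))
    have hi2 : Integrable (fun x => 2 * lam * (∑ k ∈ I,
        (E k).indicator (fun _ => (1 : ℝ)) x)) μ :=
      (integrable_finsetSum _ (fun k _ => hii _ (hE k))).const_mul _
    have hi3 : Integrable (fun x => lam ^ 2 * U.indicator (fun _ => (1 : ℝ)) x) μ :=
      (hii _ hUm).const_mul _
    simp only [h1] at h2
    have hi12 : Integrable (fun x => (∑ k ∈ I, ∑ l ∈ I,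
        (E k ∩ E l).indicator (fun _ => (1 : ℝ)) x) - 2 * lam * (∑ k ∈ I,
        (E k).indicator (fun _ => (1 : ℝ)) x)) μ := hi1.sub hi2
    rw [integral_add hi12 hi3, integral_sub hi1 hi2, integral_const_mul,
      integral_const_mul, hiv _ hUm, integral_finsetSum _ (fun k _ => hii _ (hE k)),
      integral_finsetSum _ (fun k _ => integrable_finsetSum _ (fun l _ =>
        hii _ ((hE k).inter (hE l))))] at h2
    have h3 : ∀ k ∈ I, ∫ x, ∑ l ∈ I, (E k ∩ E l).indicator (fun _ => (1 : ℝ)) x ∂μ =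
        ∑ l ∈ I, μ.real (E k ∩ E l) := by
      intro k _
      rw [integral_finsetSum _ (fun l _ => hii _ ((hE k).inter (hE l)))]
      exact sum_congr rfl (fun l _ => hiv _ ((hE k).inter (hE l)))
    rw [sum_congr rfl h3, sum_congr rfl (fun k _ => hiv _ (hE k))] at h2
    exact h2
  have hS20 : 0 < S2 := lt_of_lt_of_le hV hS2pos
  have h1 := hsq (S2 / V)
  have h2 : S2 - 2 * (S2 / V) * V + (S2 / V) ^ 2 * μ.real U =
      S2 * (S2 * μ.real U / V ^ 2 - 1) := by field_simp; ring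
  rw [h2] at h1
  have h3 : 0 ≤ S2 * μ.real U / V ^ 2 - 1 := by
    by_contra h
    exact absurd h1 (not_le.2 (mul_neg_of_pos_of_neg hS20 (not_le.1 h)))
  have h4 : V ^ 2 ≤ S2 * μ.real U := by
    have : 1 ≤ S2 * μ.real U / V ^ 2 := by linarith
    rwa [one_le_div (by positivity)] at this
  rw [div_le_iff₀ (by positivity)]
  have h5 : V * V ≤ V * (μ.real U * (1 + C * V)) := by
    have h6 : S2 * μ.real U ≤ (V + C * (V * V)) * μ.real U :=
      mul_le_mul_of_nonneg_right hS2le measureReal_nonneg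
    nlinarith
  exact le_of_mul_le_mul_left h5 hV

lemma KS {E : ℕ → Set X} (hE : ∀ k, MeasurableSet (E k)) {C : ℝ} (hC : 0 < C)
    (hpair : ∀ k l, k < l → μ.real (E k ∩ E l) ≤ C * (μ.real (E k) * μ.real (E l)))
    (hdiv : ¬ Summable (fun k => μ.real (E k))) :
    1 / C ≤ μ.real (⋂ m : ℕ, ⋃ k ∈ Set.Ici m, E k) := by
  have hmeas : ∀ m : ℕ, MeasurableSet (⋃ k ∈ Set.Ici m, E k) :=
    fun m => MeasurableSet.biUnion (Set.to_countable _) (fun k _ => hE k)
  have hanti : Antitone (fun m : ℕ => ⋃ k ∈ Set.Ici m, E k) := by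
    intro m m' h
    apply Set.biUnion_subset_biUnion_left
    exact Set.Ici_subset_Ici.2 h
  have hm : ∀ m : ℕ, 1 / C ≤ μ.real (⋃ k ∈ Set.Ici m, E k) := by
    intro m
    have hdiv2 : ¬ Summable (fun k => μ.real (E (k + m))) := by
      intro h; exact hdiv ((summable_nat_add_iff m).1 h)
    have htend := (not_summable_iff_tendsto_nat_atTop_of_nonneg
      (fun k => measureReal_nonneg)).1 hdiv2
    have hlim : Tendsto (fun N : ℕ => (∑ k ∈ range N, μ.real (E (k + m))) /
        (1 + C * ∑ k ∈ range N, μ.real (E (k + m)))) atTop (nhds (1 / C)) := by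
      have h1 : Tendsto (fun V : ℝ => V / (1 + C * V)) atTop (nhds (1 / C)) := by
        have h2 : Tendsto (fun V : ℝ => (V⁻¹ + C)⁻¹) atTop (nhds ((0 + C)⁻¹)) :=
          ((tendsto_inv_atTop_zero).add tendsto_const_nhds).inv₀ (by simpa using hC.ne')
        rw [zero_add, ← one_div] at h2
        apply h2.congr'
        filter_upwards [eventually_gt_atTop 0] with V hV
        field_simp
      exact h1.comp htend
    apply le_of_tendsto hlim
    filter_upwards [htend.eventually_gt_atTop 0] with N hN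
    have h1 : ∑ k ∈ range N, μ.real (E (k + m)) = ∑ k ∈ Finset.Ico m (m + N), μ.real (E k) := by
      rw [Finset.sum_Ico_eq_sum_range, Nat.add_sub_cancel_left]
      exact sum_congr rfl (fun k _ => by rw [add_comm])
    rw [h1] at hN ⊢
    refine (KS_finite μ hE hC hpair _ hN).trans ?_
    apply measureReal_mono _ (measure_ne_top _ _)
    apply Set.biUnion_subset_biUnion_left
    intro k hk
    exact (Finset.mem_Ico.1 hk).1
  have ht := tendsto_measure_iInter_atTop (μ := μ) (fun m => (hmeas m).nullMeasurableSet) hanti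
    ⟨0, measure_ne_top _ _⟩
  have ht2 : Tendsto (fun m : ℕ => μ.real (⋃ k ∈ Set.Ici m, E k)) atTop
      (nhds (μ.real (⋂ m : ℕ, ⋃ k ∈ Set.Ici m, E k))) :=
    (ENNReal.tendsto_toReal (measure_ne_top _ _)).comp ht
  exact ge_of_tendsto' ht2 hm

end KochenStone

variable {n : ℕ}

/-- the union of all bad events at level `l` -/
def badAll (n : ℕ) (δ : ℝ) (l : ℕ) : Set (ℕ → (Fin n → ℝ)) :=
  (⋃ a ∈ RR n l, bad1 δ l a) ∪ ⋃ k ∈ range l, ⋃ a ∈ RR n k, ⋃ b ∈ RR n l, bad2 δ k l a b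

lemma RR_prop {k : ℕ} {a : Fin n → ℕ} (ha : a ∈ RR n k) :
    k ≤ ∑ i, a i ∧ 2 * ∑ i, a i ≤ 3 * k := by
  classical
  unfold RR at ha
  exact (mem_filter.1 ha).2

lemma badAll_bound {δ : ℝ} (hδ : 0 < δ) (hδ1 : δ < 1) (l : ℕ) :
    (PP (cube n)).real (badAll n δ l) ≤
      6 / (δ ^ 2 * (1 - δ)) * ((2 * l + 1 : ℝ) ^ (2 * n + 1) * (1 / √2) ^ l) := by
  set s : ℝ := 1 / √2 with hs
  have hs0 : 0 < s := by positivity
  have hs2 : s ^ 2 = 1 / 2 := by
    rw [hs, div_pow, one_pow, Real.sq_sqrt (by norm_num)]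
  have hs1 : s ≤ 1 := by nlinarith
  have hδ' : 0 < 1 - δ := by linarith
  have hL : (1 : ℝ) ≤ 2 * l + 1 := by
    have : (0 : ℝ) ≤ l := Nat.cast_nonneg _
    linarith
  have hcard : ∀ k ≤ l, ((RR n k).card : ℝ) ≤ (2 * l + 1 : ℝ) ^ n := by
    intro k hk
    have h1 : ((RR n k).card : ℝ) ≤ (2 * k + 1 : ℝ) ^ n := by exact_mod_cast RR_card n k
    have h2 : (k : ℝ) ≤ l := by exact_mod_cast hk
    exact h1.trans (by gcongr)
  have h1 : (PP (cube n)).real (⋃ a ∈ RR n l, bad1 δ l a) ≤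
      (2 * l + 1 : ℝ) ^ n * (2 / (δ ^ 2 * 2 ^ l)) := by
    refine (measureReal_biUnion_finset_le _ _).trans ?_
    refine (sum_le_sum (fun a ha => bad1_bound hδ (RR_prop ha).1)).trans ?_
    rw [sum_const, nsmul_eq_mul]
    have := hcard l le_rfl
    gcongr
  have h2 : (PP (cube n)).real (⋃ k ∈ range l, ⋃ a ∈ RR n k, ⋃ b ∈ RR n l, bad2 δ k l a b) ≤
      l * ((2 * l + 1 : ℝ) ^ n * ((2 * l + 1 : ℝ) ^ n * (4 / (δ ^ 2 * (1 - δ)) * s ^ l))) := by
    refine (measureReal_biUnion_finset_le _ _).trans ?_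
    have h3 : ∀ k ∈ range l, (PP (cube n)).real (⋃ a ∈ RR n k, ⋃ b ∈ RR n l, bad2 δ k l a b) ≤
        (2 * l + 1 : ℝ) ^ n * ((2 * l + 1 : ℝ) ^ n * (4 / (δ ^ 2 * (1 - δ)) * s ^ l)) := by
      intro k hk
      rw [mem_range] at hk
      refine (measureReal_biUnion_finset_le _ _).trans ?_
      have h4 : ∀ a ∈ RR n k, (PP (cube n)).real (⋃ b ∈ RR n l, bad2 δ k l a b) ≤
          (2 * l + 1 : ℝ) ^ n * (4 / (δ ^ 2 * (1 - δ)) * s ^ l) := by
        intro a ha
        refine (measureReal_biUnion_finset_le _ _).trans ?_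
        refine (sum_le_sum (fun b hb => bad2_bound hδ hδ1 hk (RR_prop ha).1 (RR_prop ha).2
          (RR_prop hb).1)).trans ?_
        rw [sum_const, nsmul_eq_mul]
        have := hcard l le_rfl
        gcongr
      refine (sum_le_sum h4).trans ?_
      rw [sum_const, nsmul_eq_mul]
      have := hcard k hk.le
      gcongr
    refine (sum_le_sum h3).trans ?_
    rw [sum_const, nsmul_eq_mul, card_range]
  unfold badAll
  refine (measureReal_union_le _ _).trans ((add_le_add h1 h2).trans ?_)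
  have h5 : 2 / (δ ^ 2 * 2 ^ l) ≤ 2 / (δ ^ 2 * (1 - δ)) * s ^ l := by
    have h6 : (1 : ℝ) / 2 ^ l ≤ s ^ l := by
      rw [← one_div_pow]
      apply pow_le_pow_left₀ (by norm_num)
      rw [← hs2]; nlinarith
    calc 2 / (δ ^ 2 * 2 ^ l) = 2 / δ ^ 2 * (1 / 2 ^ l) := by field_simp
      _ ≤ 2 / (δ ^ 2 * (1 - δ)) * s ^ l := by
          gcongr
          nlinarith [sq_nonneg δ]
  have h7 : (2 * l + 1 : ℝ) ^ n ≤ (2 * l + 1 : ℝ) ^ (2 * n + 1) :=
    pow_le_pow_right₀ hL (by omega)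
  have h8 : (l : ℝ) * ((2 * l + 1 : ℝ) ^ n * (2 * l + 1 : ℝ) ^ n) ≤
      (2 * l + 1 : ℝ) ^ (2 * n + 1) := by
    rw [← pow_add, ← two_mul, pow_succ, mul_comm]
    have : (l : ℝ) ≤ 2 * l + 1 := by linarith [Nat.cast_nonneg (α := ℝ) l]
    gcongr
  calc (2 * l + 1 : ℝ) ^ n * (2 / (δ ^ 2 * 2 ^ l)) +
      l * ((2 * l + 1 : ℝ) ^ n * ((2 * l + 1 : ℝ) ^ n * (4 / (δ ^ 2 * (1 - δ)) * s ^ l))) =
      (2 * l + 1 : ℝ) ^ n * (2 / (δ ^ 2 * 2 ^ l)) +
      (l * ((2 * l + 1 : ℝ) ^ n * (2 * l + 1 : ℝ) ^ n)) * (4 / (δ ^ 2 * (1 - δ)) * s ^ l) := by ring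
    _ ≤ (2 * l + 1 : ℝ) ^ (2 * n + 1) * (2 / (δ ^ 2 * (1 - δ)) * s ^ l) +
      (2 * l + 1 : ℝ) ^ (2 * n + 1) * (4 / (δ ^ 2 * (1 - δ)) * s ^ l) := by gcongr
    _ = _ := by ring

lemma summable_bound (m : ℕ) : Summable (fun l : ℕ => (2 * l + 1 : ℝ) ^ m * (1 / √2) ^ l) := by
  set s : ℝ := 1 / √2 with hs
  have hs0 : 0 < s := by positivity
  have hs2 : s ^ 2 = 1 / 2 := by
    rw [hs, div_pow, one_pow, Real.sq_sqrt (by norm_num)]
  have hs1 : s < 1 := by nlinarith
  have h1 : Summable (fun l : ℕ => ((l : ℝ)) ^ m * s ^ l) :=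
    summable_pow_mul_geometric_of_norm_lt_one m (by
      rw [Real.norm_eq_abs, abs_of_pos hs0]; exact hs1)
  have h2 : Summable (fun l : ℕ => (((l + 1 : ℕ) : ℝ)) ^ m * s ^ (l + 1)) :=
    (summable_nat_add_iff 1).2 h1
  apply Summable.of_nonneg_of_le (fun l => by positivity) _ (h2.mul_left (2 ^ m * s⁻¹))
  intro l
  push_cast
  have h3 : 2 ^ m * s⁻¹ * (((l : ℝ) + 1) ^ m * s ^ (l + 1)) = (2 * (l + 1) : ℝ) ^ m * s ^ l := by
    rw [mul_pow, pow_succ]; field_simp
  rw [h3]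
  gcongr
  linarith

lemma ae_good {δ : ℝ} (hδ : 0 < δ) (hδ1 : δ < 1) :
    ∀ᵐ ω ∂(PP (cube n)), ∀ᶠ l in atTop, ω ∉ badAll n δ l := by
  apply ae_eventually_notMem
  have hδ' : 0 < 1 - δ := by linarith
  have h1 : Summable (fun l => (PP (cube n)).real (badAll n δ l)) :=
    Summable.of_nonneg_of_le (fun l => measureReal_nonneg) (badAll_bound hδ hδ1)
      ((summable_bound (2 * n + 1)).mul_left _)
  have h2 : ∀ l, (PP (cube n)) (badAll n δ l) =
      ENNReal.ofReal ((PP (cube n)).real (badAll n δ l)) := by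
    intro l
    rw [measureReal_def, ENNReal.ofReal_toReal (measure_ne_top _ _)]
  simp only [h2]
  exact h1.tsum_ofReal_ne_top

end Pool.Agent.V11269.RK
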