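import Pool.Agent.V11269.RK4

namespace Pool.Agent.V11269.RK

open MeasureTheory ProbabilityTheory Finset Filter

variable {n : ℕ}

lemma choose_exp {ρ : ℝ} (hρ : 0 < ρ) : ∃ m : ℕ, (1 / 2 : ℝ) ^ m ≤ ρ ∧
    min ρ 1 / 2 ≤ (1 / 2 : ℝ) ^ m := by
  classical
  have hex : ∃ m : ℕ, (1 / 2 : ℝ) ^ m ≤ ρ := by
    obtain ⟨m, hm⟩ := exists_pow_lt_of_lt_one hρ (show (1 / 2 : ℝ) < 1 by norm_num)
    exact ⟨m, hm.le⟩
  refine ⟨Nat.find hex, Nat.find_spec hex, ?_⟩
  rcases Nat.eq_zero_or_pos (Nat.find hex) with h | h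
  · rw [h, pow_zero]
    have := min_le_right ρ 1
    linarith
  · obtain ⟨m, hm⟩ : ∃ m, Nat.find hex = m + 1 := ⟨Nat.find hex - 1, by omega⟩
    have h1 := Nat.find_min hex (show m < Nat.find hex by omega)
    rw [not_le] at h1
    rw [hm, pow_succ]
    have := min_le_left ρ 1
    linarith

lemma choose_vec (hn : 1 ≤ n) (k : ℕ) (ρ : Fin n → ℝ) (hρ : ∀ i, 0 < ρ i) :
    ∃ a : Fin n → ℕ, (∀ i, (1 / 2 : ℝ) ^ (a i) ≤ ρ i) ∧ k ≤ ∑ i, a i ∧
      min 1 (2 ^ k * ∏ i, (min (ρ i) 1 / 2)) ≤ 2 ^ k * pr a := by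
  classical
  choose a ha1 ha2 using fun i => choose_exp (hρ i)
  by_cases h : k ≤ ∑ i, a i
  · refine ⟨a, ha1, h, (min_le_right _ _).trans ?_⟩
    have h1 : ∏ i, (min (ρ i) 1 / 2) ≤ pr a := by
      unfold pr
      rw [← prod_pow_eq_pow_sum]
      apply Finset.prod_le_prod
      · intro i _
        have : 0 < min (ρ i) 1 := lt_min (hρ i) one_pos
        linarith
      · intro i _; exact ha2 i
    gcongr
  · rw [not_le] at h
    set i0 : Fin n := ⟨0, hn⟩
    refine ⟨Function.update a i0 (a i0 + (k - ∑ i, a i)), ?_, ?_, ?_⟩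
    · intro i
      refine le_trans (pow_le_pow_of_le_one (by norm_num) (by norm_num) ?_) (ha1 i)
      by_cases hi : i = i0
      · rw [hi, Function.update_self]; omega
      · rw [Function.update_of_ne hi]
    · rw [sum_update_of_mem (mem_univ i0)]
      have : ∑ i, a i = a i0 + ∑ i ∈ univ \ {i0}, a i := by
        rw [← sum_update_of_mem (mem_univ i0), Function.update_eq_self]
      omega
    · have hs : ∑ i, Function.update a i0 (a i0 + (k - ∑ i, a i)) i = k := by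
        rw [sum_update_of_mem (mem_univ i0)]
        have : ∑ i, a i = a i0 + ∑ i ∈ univ \ {i0}, a i := by
          rw [← sum_update_of_mem (mem_univ i0), Function.update_eq_self]
        omega
      refine (min_le_left _ _).trans (le_of_eq ?_)
      unfold pr
      rw [hs, ← mul_pow]
      norm_num

lemma not_summable_min {x : ℕ → ℝ} (h : ¬ Summable x) :
    ¬ Summable (fun k => min 1 (x k)) := by
  intro h1
  apply h
  have h2 := h1.tendsto_atTop_zero
  have h3 : ∀ᶠ k in atTop, min 1 (x k) < 1 := h2.eventually (gt_mem_nhds one_pos)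
  have h4 : (fun k => min 1 (x k)) =ᶠ[atTop] x := by
    filter_upwards [h3] with k hk
    rcases min_lt_iff.1 hk with h5 | h5
    · exact absurd h5 (lt_irrefl _)
    · exact min_eq_right h5.le
  exact (summable_congr_atTop h4).1 h1

lemma mem_RR {k : ℕ} {a : Fin n → ℕ} (h1 : k ≤ ∑ i, a i) (h2 : 2 * ∑ i, a i ≤ 3 * k) :
    a ∈ RR n k := by
  classical
  unfold RR
  rw [mem_filter, Fintype.mem_piFinset]
  refine ⟨fun i => ?_, h1, h2⟩
  rw [mem_range]
  have : a i ≤ ∑ i, a i := single_le_sum (f := fun i => a i) (fun _ _ => Nat.zero_le _) (mem_univ i)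
  omega

/-- The limsup set. -/
def W (ω : ℕ → (Fin n → ℝ)) (Ψ : Fin n → ℕ → ℝ) : Set (Fin n → ℝ) :=
  {x | x ∈ Set.Icc (0 : Fin n → ℝ) 1 ∧ {j : ℕ | ∀ i, |x i - ω j i| < Ψ i j}.Infinite}

lemma sub_W {ω : ℕ → (Fin n → ℝ)} {Ψ : Fin n → ℕ → ℝ} (hanti : ∀ i, Antitone (Ψ i))
    {a : ℕ → (Fin n → ℕ)} (ha : ∀ k i, (1 / 2 : ℝ) ^ (a k i) ≤ Ψ i (2 ^ (k + 1)))
    {E : ℕ → Set (Fin n → ℝ)} (hE : ∀ k, E k ⊆ HH (a k) (Bk k) ω) :
    (⋂ m : ℕ, ⋃ k ∈ Set.Ici m, E k) ⊆ W ω Ψ := by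
  classical
  intro x hx
  have key : ∀ m : ℕ, x ∈ Set.Icc (0 : Fin n → ℝ) 1 ∧ ∃ j, m < j ∧ ∀ i, |x i - ω j i| < Ψ i j := by
    intro m
    have h1 := Set.mem_iInter.1 hx (m + 1)
    simp only [Set.mem_iUnion] at h1
    obtain ⟨k, hk, hxk⟩ := h1
    rw [Set.mem_Ici] at hk
    have h2 := hE k hxk
    unfold HH GG at h2
    simp only [Set.mem_iUnion] at h2
    obtain ⟨c, hc, hxc⟩ := h2
    unfold pat at hc
    rw [mem_filter] at hc
    obtain ⟨hcQ, j, hj, hjc⟩ := hc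
    refine ⟨cell_sub hcQ hxc, j, ?_, ?_⟩
    · unfold Bk at hj
      rw [Finset.mem_Ico] at hj
      have : k < 2 ^ k := Nat.lt_two_pow_self
      omega
    · intro i
      unfold Bk at hj
      rw [Finset.mem_Ico] at hj
      obtain ⟨h3, h4⟩ := hxc i (Set.mem_univ i)
      obtain ⟨h5, h6⟩ := hjc i (Set.mem_univ i)
      have h7 : ((c i : ℝ) + 1) / 2 ^ a k i = (c i : ℝ) / 2 ^ a k i + (1 / 2) ^ a k i := by
        rw [add_div, one_div_pow]
      rw [h7] at h4 h6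
      have h8 : |x i - ω j i| < (1 / 2) ^ a k i := by
        rw [abs_lt]; constructor <;> linarith
      exact lt_of_lt_of_le h8 ((ha k i).trans (hanti i hj.2.le))
  refine ⟨(key 0).1, ?_⟩
  apply Set.infinite_of_forall_exists_gt
  intro m
  obtain ⟨-, j, hj, hj2⟩ := key m
  exact ⟨j, hj2, hj⟩

lemma div_seq {Ψ : Fin n → ℕ → ℝ} (hanti : ∀ i, Antitone (Ψ i)) (hpos : ∀ i j, 0 < Ψ i j)
    (hdiv : ¬ Summable (fun j => ∏ i, Ψ i j)) :
    ¬ Summable (fun k : ℕ => (2 : ℝ) ^ k * ∏ i, (min (Ψ i (2 ^ (k + 1))) 1 / 2)) := by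
  set g : ℕ → ℝ := fun j => ∏ i, min (Ψ i j) 1 with hg
  have hg0 : ∀ j, 0 ≤ g j := fun j => prod_nonneg (fun i _ => le_min (hpos i j).le zero_le_one)
  have hganti : ∀ ⦃m k⦄, 0 < m → m ≤ k → g k ≤ g m := by
    intro m k _ hmk
    apply Finset.prod_le_prod
    · intro i _; exact le_min (hpos i k).le zero_le_one
    · intro i _; exact min_le_min_right _ (hanti i hmk)
  have hgd : ¬ Summable g := by
    intro h
    apply hdiv
    apply Summable.of_nonneg_of_le (fun j => prod_nonneg (fun i _ => (hpos i j).le)) _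
      (h.mul_left (∏ i, max (Ψ i 0) 1))
    intro j
    rw [hg]
    dsimp only
    rw [← prod_mul_distrib]
    apply Finset.prod_le_prod (fun i _ => (hpos i j).le)
    intro i _
    have h1 : Ψ i j ≤ Ψ i 0 := hanti i (Nat.zero_le j)
    have h2 := hpos i j
    rcases le_total (Ψ i j) 1 with h3 | h3
    · rw [min_eq_left h3]
      have : 1 ≤ max (Ψ i 0) 1 := le_max_right _ _
      nlinarith
    · rw [min_eq_right h3, mul_one]
      exact h1.trans (le_max_left _ _)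
  intro h
  apply hgd
  rw [← summable_condensed_iff_of_nonneg hg0 hganti, ← summable_nat_add_iff 1]
  have h1 : (fun k : ℕ => (2 : ℝ) ^ (k + 1) * g (2 ^ (k + 1))) =
      fun k : ℕ => (2 * 2 ^ n) * ((2 : ℝ) ^ k * ∏ i, (min (Ψ i (2 ^ (k + 1))) 1 / 2)) := by
    funext k
    rw [hg, prod_div_distrib, prod_const, card_univ, Fintype.card_fin, pow_succ]
    field_simp
  rw [h1]
  exact h.mul_left _

end Pool.Agent.V11269.RK
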