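import Mathlib
import Pool.Agent.V11269.LinRec

/-!
For a Salem number `α`, the set of values `limsup ‖ξ α^n‖` is not closed.
-/

namespace Pool.Agent.V11269.Salem

open Polynomial Filter Topology Pool.Agent.V11269.LinRec

/-- The set of all values `limsup ‖ξ α^n‖`, `ξ` real, where `‖·‖` is the distance to the nearest
integer. -/
noncomputable def spec (α : ℝ) : Set ℝ :=
  {v | ∃ ξ : ℝ, v = limsup (fun n : ℕ => |ξ * α ^ n - round (ξ * α ^ n)|) atTop}

/-- `α` is a Salem number: a real algebraic integer `> 1` all of whose Galois conjugates other than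
`α` have absolute value at most `1`, at least one of them having absolute value exactly `1`. -/
def IsSalem (α : ℝ) : Prop :=
  1 < α ∧ IsIntegral ℤ α ∧
    (∀ z : ℂ, aeval z (minpoly ℚ α) = 0 → z ≠ (α : ℂ) → ‖z‖ ≤ 1) ∧
    ∃ z : ℂ, aeval z (minpoly ℚ α) = 0 ∧ ‖z‖ = 1

/-! ### limsup lemmas -/

lemma limsup_near {a b : ℕ → ℝ} {A B v κ η : ℝ} (ha0 : ∀ n, 0 ≤ a n) (haA : ∀ n, a n ≤ A)
    (hb0 : ∀ n, 0 ≤ b n) (hbB : ∀ n, b n ≤ B) (hv : limsup a atTop = v) (hκ : 0 ≤ κ)
    (h : ∀ n, |b n - κ * a n| ≤ η) :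
    κ * v - η ≤ limsup b atTop ∧ limsup b atTop ≤ κ * v + η := by
  have hab : IsBoundedUnder (· ≤ ·) atTop a := isBoundedUnder_of ⟨A, haA⟩
  have hac : IsCoboundedUnder (· ≤ ·) atTop a :=
    (isBoundedUnder_of ⟨0, ha0⟩ : IsBoundedUnder (· ≥ ·) atTop a).isCoboundedUnder_le
  have hbb : IsBoundedUnder (· ≤ ·) atTop b := isBoundedUnder_of ⟨B, hbB⟩
  have hbc : IsCoboundedUnder (· ≤ ·) atTop b :=
    (isBoundedUnder_of ⟨0, hb0⟩ : IsBoundedUnder (· ≥ ·) atTop b).isCoboundedUnder_le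
  constructor
  · apply le_of_forall_pos_le_add
    intro e he
    have he' : 0 < e / (κ + 1) := by positivity
    have hfreq : ∃ᶠ n in atTop, v - e / (κ + 1) < a n := by
      apply frequently_lt_of_lt_limsup hac
      rw [hv]; linarith
    have hfreq2 : ∃ᶠ n in atTop, κ * v - η - e ≤ b n := by
      refine hfreq.mono fun n hn => ?_
      have h1 := (abs_le.1 (h n)).1
      have h2 : κ * (v - e / (κ + 1)) ≤ κ * a n := mul_le_mul_of_nonneg_left hn.le hκ
      have h3 : κ * (e / (κ + 1)) ≤ e := by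
        rw [mul_div_assoc', div_le_iff₀ (by positivity)]
        nlinarith
      nlinarith
    have := le_limsup_of_frequently_le hfreq2 hbb
    linarith
  · apply le_of_forall_pos_le_add
    intro e he
    have he' : 0 < e / (κ + 1) := by positivity
    have hev : ∀ᶠ n in atTop, a n < v + e / (κ + 1) := by
      apply eventually_lt_of_limsup_lt _ hab
      rw [hv]; linarith
    apply limsup_le_of_le hbc
    filter_upwards [hev] with n hn
    have h1 := (abs_le.1 (h n)).2
    have h2 : κ * a n ≤ κ * (v + e / (κ + 1)) := mul_le_mul_of_nonneg_left hn.le hκ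
    have h3 : κ * (e / (κ + 1)) ≤ e := by
      rw [mul_div_assoc', div_le_iff₀ (by positivity)]
      nlinarith
    nlinarith

lemma limsup_shift (f : ℕ → ℝ) (k : ℕ) :
    limsup (fun n => f (n + k)) atTop = limsup f atTop := by
  have : map (fun n => f (n + k)) atTop = map f atTop := by
    conv_rhs => rw [← map_add_atTop_eq_nat k]
    rw [map_map]; rfl
  unfold limsup
  rw [this]

/-! ### Real sequences and operators -/

/-- The sum of the absolute values of the coefficients. -/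
noncomputable def l1 (p : ℝ[X]) : ℝ := ∑ i ∈ Finset.range (p.natDegree + 1), |p.coeff i|

lemma l1_nonneg (p : ℝ[X]) : 0 ≤ l1 p := Finset.sum_nonneg fun _ _ => abs_nonneg _

lemma aeval_le (p : ℝ[X]) (f : ℕ → ℝ) (B : ℝ) (hf : ∀ n, |f n| ≤ B) (n : ℕ) :
    |(aeval (shift ℝ) p) f n| ≤ l1 p * B := by
  rw [aeval_shift_apply]
  refine (Finset.abs_sum_le_sum_abs _ _).trans ?_
  unfold l1
  rw [Finset.sum_mul]
  refine Finset.sum_le_sum fun i _ => ?_
  rw [abs_mul]
  exact mul_le_mul_of_nonneg_left (hf _) (abs_nonneg _)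

lemma sub_apply_eq {R : Type*} [CommRing R] (a : R) (f : ℕ → R) (n : ℕ) :
    (aeval (shift R) (X - C a)) f n = f (n + 1) - a * f n := by
  simp only [map_sub, aeval_X, aeval_C, LinearMap.sub_apply, Pi.sub_apply, shift_apply,
        Module.algebraMap_end_apply, Pi.smul_apply, smul_eq_mul]

lemma geom_of_kill {R : Type*} [CommRing R] (a : R) (f : ℕ → R)
    (h : (aeval (shift R) (X - C a)) f = 0) (n : ℕ) : f n = a ^ n * f 0 := by
  induction n with
  | zero => simp
  | succ n ih =>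
    have := congrFun h n
    rw [sub_apply_eq] at this
    have h1 : f (n + 1) = a * f n := sub_eq_zero.1 this
    rw [h1, ih, pow_succ]; ring

lemma kill_expanding {α : ℝ} (hα : 1 < α) (f : ℕ → ℝ) (hf : ∃ B, ∀ n, |f n| ≤ B)
    (h : (aeval (shift ℝ) (X - C α)) f = 0) : f = 0 := by
  obtain ⟨B, hB⟩ := hf
  have h0 : f 0 = 0 := by
    by_contra hne
    have hpos : 0 < |f 0| := abs_pos.2 hne
    obtain ⟨j, hj⟩ := pow_unbounded_of_one_lt (B / |f 0|) hα
    have h1 := hB j
    rw [geom_of_kill α f h j, abs_mul, abs_of_pos (by positivity : 0 < α ^ j)] at h1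
    rw [div_lt_iff₀ hpos] at hj
    linarith
  funext n
  rw [geom_of_kill α f h n, h0, mul_zero]; rfl

/-- Complex sequences killed by a product of distinct `E - z` with `|z| ≤ 1` are bounded. -/
lemma bounded_of_kill (s : Finset ℂ) (hs : ∀ z ∈ s, ‖z‖ ≤ 1) (f : ℕ → ℂ)
    (h : (aeval (shift ℂ) (∏ z ∈ s, (X - C z))) f = 0) : ∃ B, ∀ n, ‖f n‖ ≤ B := by
  classical
  induction s using Finset.induction_on generalizing f with
  | empty =>
    have : f = 0 := by simpa using h
    exact ⟨0, fun n => by simp [this]⟩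
  | insert z s hz ih =>
    rw [Finset.prod_insert hz] at h
    have hcop : IsCoprime (X - C z) (∏ w ∈ s, (X - C w)) := by
      apply IsCoprime.prod_right
      intro w hw
      apply isCoprime_X_sub_C_of_isUnit_sub
      rw [isUnit_iff_ne_zero, sub_ne_zero]
      rintro rfl
      exact hz hw
    obtain ⟨a, b, hab⟩ := hcop
    set T := ∏ w ∈ s, (X - C w) with hT
    have h1 : (aeval (shift ℂ) T) ((aeval (shift ℂ) (X - C z)) f) = 0 := by
      rw [← Module.End.mul_apply, ← map_mul, mul_comm]; exact h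
    have h2 : (aeval (shift ℂ) (X - C z)) ((aeval (shift ℂ) T) f) = 0 := by
      rw [← Module.End.mul_apply, ← map_mul]; exact h
    obtain ⟨B1, hB1⟩ := aeval_bounded a _ (ih (fun w hw => hs w (Finset.mem_insert_of_mem hw)) _ h1)
    have hb2 : ∃ B, ∀ n, ‖((aeval (shift ℂ) T) f) n‖ ≤ B := by
      refine ⟨‖((aeval (shift ℂ) T) f) 0‖, fun n => ?_⟩
      rw [geom_of_kill z _ h2 n, norm_mul, norm_pow]
      have : ‖z‖ ^ n ≤ 1 := pow_le_one₀ (norm_nonneg _) (hs z (Finset.mem_insert_self _ _))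
      have h3 := norm_nonneg (((aeval (shift ℂ) T) f) 0)
      nlinarith
    obtain ⟨B2, hB2⟩ := aeval_bounded b _ hb2
    refine ⟨B1 + B2, fun n => ?_⟩
    have h4 : f = (aeval (shift ℂ) a) ((aeval (shift ℂ) (X - C z)) f) +
        (aeval (shift ℂ) b) ((aeval (shift ℂ) T) f) := by
      rw [← Module.End.mul_apply, ← map_mul, ← Module.End.mul_apply, ← map_mul,
        ← LinearMap.add_apply, ← map_add, hab]
      simp
    calc ‖f n‖ = ‖((aeval (shift ℂ) a) ((aeval (shift ℂ) (X - C z)) f)) n +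
        ((aeval (shift ℂ) b) ((aeval (shift ℂ) T) f)) n‖ := by
          conv_lhs => rw [h4]
          rfl
      _ ≤ B1 + B2 := (norm_add_le _ _).trans (add_le_add (hB1 n) (hB2 n))

/-- Real operators acting on complexified sequences. -/
lemma aeval_map_apply (p : ℝ[X]) (f : ℕ → ℝ) (n : ℕ) :
    (aeval (shift ℂ) (p.map (algebraMap ℝ ℂ))) (fun n => (f n : ℂ)) n =
      (((aeval (shift ℝ) p) f n : ℝ) : ℂ) := by
  rw [aeval_shift_apply, aeval_shift_apply,
    natDegree_map_eq_of_injective (algebraMap ℝ ℂ).injective]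
  push_cast
  apply Finset.sum_congr rfl
  intro i _
  rw [coeff_map]
  rfl

/-! ### Error sequences -/

section

variable (α : ℝ) (P : ℤ[X]) (G : ℝ[X])

/-- Error sequences `ε_n = ξ α^n - u_n`. -/
def Err (ε : ℕ → ℝ) : Prop :=
  (aeval (shift ℝ) G) ε = 0 ∧ (∃ B, ∀ n, |ε n| ≤ B) ∧
    ∃ (ξ : ℝ) (u : ℕ → ℤ), ∀ n, ξ * α ^ n = u n + ε n

lemma Err.apply {ε : ℕ → ℝ} (h : Err α G ε) (c : ℤ[X]) :
    Err α G ((aeval (shift ℝ) (c.map (Int.castRingHom ℝ))) ε) := by
  obtain ⟨h1, ⟨B, hB⟩, ξ, u, hu⟩ := h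
  refine ⟨?_, ⟨_, aeval_le _ ε B hB⟩, ?_⟩
  · rw [← Module.End.mul_apply, ← map_mul, mul_comm, map_mul, Module.End.mul_apply, h1, map_zero]
  · refine ⟨ξ * (c.map (Int.castRingHom ℝ)).eval α, fun n =>
      ∑ i ∈ Finset.range ((c.map (Int.castRingHom ℝ)).natDegree + 1), c.coeff i * u (n + i),
      fun n => ?_⟩
    rw [aeval_shift_apply, eval_eq_sum_range]
    push_cast
    rw [← Finset.sum_add_distrib, Finset.mul_sum, Finset.sum_mul]
    apply Finset.sum_congr rfl
    intro i _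
    rw [coeff_map]
    simp only [eq_intCast]
    rw [← mul_add, ← hu (n + i), pow_add]
    ring

lemma Err.mem_spec {ε : ℕ → ℝ} (h : Err α G ε) {v : ℝ}
    (hv : limsup (fun n => |ε n|) atTop = v) (hlt : v < 1 / 2) : v ∈ spec α := by
  obtain ⟨h1, ⟨B, hB⟩, ξ, u, hu⟩ := h
  refine ⟨ξ, ?_⟩
  rw [← hv]
  have hev : ∀ᶠ n in atTop, |ε n| < 1 / 2 := by
    apply eventually_lt_of_limsup_lt _ (isBoundedUnder_of ⟨B, hB⟩)
    rw [hv]; exact hlt
  apply limsup_congr
  filter_upwards [hev] with n hn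
  rw [hu n]
  have := nd_add_int (ε n) (u n)
  unfold nd at this
  rw [add_comm ((u n : ℝ)) (ε n), this]
  exact (nd_eq_abs hn).symm

end

lemma kills_G {α : ℝ} (hα : 1 < α) {P : ℤ[X]} {G : ℝ[X]}
    (hPG : P.map (Int.castRingHom ℝ) = (X - C α) * G) {ε : ℕ → ℝ} (hb : ∃ B, ∀ n, |ε n| ≤ B)
    (h : (aeval (shift ℝ) (P.map (Int.castRingHom ℝ))) ε = 0) : (aeval (shift ℝ) G) ε = 0 := by
  rw [hPG, map_mul, Module.End.mul_apply] at h
  obtain ⟨B, hB⟩ := hb
  exact kill_expanding hα _ ⟨_, aeval_le G ε B hB⟩ h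

lemma geom_rec {α : ℝ} {P : ℤ[X]} (hroot : (P.map (Int.castRingHom ℝ)).eval α = 0)
    (hP : P.Monic) (ξ : ℝ) (n : ℕ) :
    ∑ i ∈ Finset.range (P.natDegree + 1), (P.coeff i : ℝ) * (ξ * α ^ (n + i)) = 0 := by
  have : ∑ i ∈ Finset.range (P.natDegree + 1), (P.coeff i : ℝ) * (ξ * α ^ (n + i)) =
      ξ * α ^ n * (P.map (Int.castRingHom ℝ)).eval α := by
    rw [eval_eq_sum_range, hP.natDegree_map, Finset.mul_sum]
    apply Finset.sum_congr rfl
    intro i _
    rw [coeff_map, pow_add]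
    simp only [eq_intCast]
    ring
  rw [this, hroot, mul_zero]

/-- Small values of the spectrum come from error sequences that are small everywhere. -/
lemma exists_err {α : ℝ} (hα : 1 < α) {P : ℤ[X]} (hP : P.Monic) {G : ℝ[X]}
    (hPG : P.map (Int.castRingHom ℝ) = (X - C α) * G) {δ : ℝ} (hδ : δ * len P ≤ 1)
    {v : ℝ} (hv : v ∈ spec α) (hvδ : v < δ) :
    ∃ ε : ℕ → ℝ, Err α G ε ∧ limsup (fun n => |ε n|) atTop = v ∧ ∀ n, |ε n| ≤ δ := by
  obtain ⟨ξ, hξ⟩ := hv
  have hroot : (P.map (Int.castRingHom ℝ)).eval α = 0 := by rw [hPG]; simp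
  have hlt : limsup (fun n : ℕ => nd (ξ * α ^ n)) atTop < δ := by
    have : limsup (fun n : ℕ => nd (ξ * α ^ n)) atTop = v := hξ.symm
    rw [this]; exact hvδ
  have hev := eventually_lt_of_limsup_lt hlt
    (isBoundedUnder_of ⟨1 / 2, fun n => nd_le_half _⟩)
  obtain ⟨n₀, hn₀⟩ := eventually_atTop.1 hev
  -- shift
  set ζ := ξ * α ^ n₀ with hζ
  have hζn : ∀ n, ζ * α ^ n = ξ * α ^ (n + n₀) := fun n => by rw [hζ, pow_add]; ring
  have hclose : ∀ n, nd (ζ * α ^ n) < δ := fun n => by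
    rw [hζn]; exact hn₀ _ (by omega)
  have hround : ∀ n, ∑ i ∈ Finset.range (P.natDegree + 1), P.coeff i * round (ζ * α ^ (n + i)) = 0 :=
    fun n => round_rec P (fun n => ζ * α ^ n) 0 (fun n => geom_rec hroot hP ζ n) δ hδ (len_pos hP)
      (fun n _ => hclose n) n (Nat.zero_le _)
  refine ⟨fun n => ζ * α ^ n - round (ζ * α ^ n), ⟨?_, ?_, ζ, fun n => round (ζ * α ^ n), ?_⟩, ?_, ?_⟩
  · apply kills_G hα hPG
    · exact ⟨1 / 2, fun n => nd_le_half _⟩
    · funext n
      rw [aeval_shift_apply, hP.natDegree_map]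
      have h1 := geom_rec hroot hP ζ n
      have h2 : ((∑ i ∈ Finset.range (P.natDegree + 1),
        P.coeff i * round (ζ * α ^ (n + i)) : ℤ) : ℝ) = 0 := by rw [hround n]; simp
      push_cast at h2
      simp only [coeff_map, eq_intCast, mul_sub, Finset.sum_sub_distrib, h1, h2, sub_zero,
        Pi.zero_apply]
  · exact ⟨1 / 2, fun n => nd_le_half _⟩
  · intro n; ring
  · have h1 := limsup_shift (fun n => nd (ξ * α ^ n)) n₀
    rw [hξ]
    unfold nd at h1
    rw [← h1]
    congr 1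
    funext n
    simp only [hζn]
  · intro n; exact (hclose n).le

/-- Only countably many small values. -/
lemma countable_small {α : ℝ} (hα : 1 < α) {P : ℤ[X]} (hP : P.Monic)
    (hroot : (P.map (Int.castRingHom ℝ)).eval α = 0) {δ : ℝ} (hδ : δ * len P ≤ 1) :
    (spec α ∩ Set.Iio δ).Countable := by
  have hdata : ∀ v : (spec α ∩ Set.Iio δ : Set ℝ), ∃ (ξ : ℝ) (n₀ : ℕ),
      (v : ℝ) = limsup (fun n : ℕ => |ξ * α ^ n - round (ξ * α ^ n)|) atTop ∧
      ∀ n, n₀ ≤ n → nd (ξ * α ^ n) < δ := by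
    rintro ⟨v, ⟨ξ, hv⟩, hvδ⟩
    have hlt : limsup (fun n : ℕ => nd (ξ * α ^ n)) atTop < δ := by
      have : limsup (fun n : ℕ => nd (ξ * α ^ n)) atTop = v := hv.symm
      rw [this]; exact hvδ
    have hev := eventually_lt_of_limsup_lt hlt
      (isBoundedUnder_of ⟨1 / 2, fun n => nd_le_half _⟩)
    obtain ⟨n₀, hn₀⟩ := eventually_atTop.1 hev
    exact ⟨ξ, n₀, hv, hn₀⟩
  choose Ξ N hval hclose using hdata
  let code : (spec α ∩ Set.Iio δ : Set ℝ) → ℕ × (Fin P.natDegree → ℤ) := fun v =>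
    (N v, fun i => round (Ξ v * α ^ (N v + i)))
  have hinj : Function.Injective code := by
    intro v w hvw
    have hN : N v = N w := congrArg Prod.fst hvw
    have hwin := congrArg Prod.snd hvw
    have hrecv := fun n (hn : N v ≤ n) => round_rec P (fun j => Ξ v * α ^ j) (N v)
      (fun n => geom_rec hroot hP _ n) δ hδ (len_pos hP) (hclose v) n hn
    have hrecw := fun n (hn : N v ≤ n) => round_rec P (fun j => Ξ w * α ^ j) (N v)
      (fun n => geom_rec hroot hP _ n) δ hδ (len_pos hP)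
      (fun n hn => hclose w n (hN ▸ hn)) n hn
    have hround := rec_unique P hP (fun j => round (Ξ v * α ^ j))
      (fun j => round (Ξ w * α ^ j)) (N v) hrecv hrecw (by
        intro i hi
        have := congrFun hwin ⟨i, hi⟩
        simp only [code] at this
        rw [this, hN])
    have hx : Ξ v = Ξ w := by
      by_contra hne
      have hpos : 0 < |Ξ v - Ξ w| := abs_pos.2 (sub_ne_zero.2 hne)
      obtain ⟨j, hj⟩ := pow_unbounded_of_one_lt (1 / |Ξ v - Ξ w|) hα
      have h1 : |(Ξ v - Ξ w) * α ^ (N v + j)| ≤ 1 := by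
        have e1 := abs_sub_round (Ξ v * α ^ (N v + j))
        have e2 := abs_sub_round (Ξ w * α ^ (N v + j))
        have e3 : round (Ξ v * α ^ (N v + j)) = round (Ξ w * α ^ (N v + j)) := hround j
        rw [← e3] at e2
        rw [abs_le] at e1 e2 ⊢
        constructor <;> nlinarith [e1.1, e1.2, e2.1, e2.2]
      rw [abs_mul, abs_of_pos (by positivity : 0 < α ^ (N v + j))] at h1
      have h2 : α ^ j ≤ α ^ (N v + j) := pow_le_pow_right₀ hα.le (by omega)
      rw [div_lt_iff₀ hpos] at hj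
      nlinarith
    apply Subtype.ext
    rw [hval v, hval w, hx]
  exact (Set.countable_coe_iff).1 (hinj.countable)

/-- The polynomial with coefficients `r i`, `i < m`. -/
noncomputable def mk {R : Type*} [CommRing R] (m : ℕ) (r : ℕ → R) : R[X] :=
  ∑ i ∈ Finset.range m, C (r i) * X ^ i

lemma coeff_mk {R : Type*} [CommRing R] (m : ℕ) (r : ℕ → R) (i : ℕ) :
    (mk m r).coeff i = if i < m then r i else 0 := by
  simp [mk, coeff_C_mul, coeff_X_pow]

lemma natDegree_mk_le {R : Type*} [CommRing R] (m : ℕ) (r : ℕ → R) :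
    (mk m r).natDegree ≤ m := by
  rw [natDegree_le_iff_coeff_eq_zero]
  intro i hi
  rw [coeff_mk, if_neg (by omega)]

lemma l1_le (p : ℝ[X]) (m : ℕ) (hdeg : p.natDegree ≤ m) (t : ℝ) (h : ∀ i, |p.coeff i| ≤ t) :
    l1 p ≤ (m + 1) * t := by
  have ht : 0 ≤ t := (abs_nonneg _).trans (h 0)
  unfold l1
  calc ∑ i ∈ Finset.range (p.natDegree + 1), |p.coeff i|
      ≤ ∑ i ∈ Finset.range (p.natDegree + 1), t := Finset.sum_le_sum fun i _ => h i
    _ = (p.natDegree + 1) * t := by simp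
    _ ≤ (m + 1) * t := by
        apply mul_le_mul_of_nonneg_right _ ht
        have : (p.natDegree : ℝ) ≤ m := by exact_mod_cast hdeg
        linarith

/-- Pigeonhole: an integer polynomial of small degree which is close to a multiple of `G`. -/
lemma pigeon (G : ℝ[X]) (hG : G.Monic) (K : ℕ) (hK : 0 < K) :
    ∃ (c : ℤ[X]) (t : ℝ) (ρ : ℝ[X]), c ≠ 0 ∧ c.natDegree ≤ G.natDegree ∧
      c.map (Int.castRingHom ℝ) = C t * G - ρ ∧ ρ.natDegree ≤ G.natDegree ∧
      ∀ i, |ρ.coeff i| ≤ 1 / K := by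
  set D := G.natDegree with hD
  -- grid map
  let f : ℕ → (Fin (D + 1) → Fin K) := fun m i =>
    ⟨(⌊K * Int.fract (m * G.coeff i)⌋).toNat, by
      have h1 : (0:ℝ) ≤ K * Int.fract (m * G.coeff i) := by positivity
      have h2 : K * Int.fract ((m:ℝ) * G.coeff i) < K := by
        have := Int.fract_lt_one ((m:ℝ) * G.coeff i)
        have hK' : (0:ℝ) < K := by exact_mod_cast hK
        nlinarith
      have h3 : ⌊K * Int.fract ((m:ℝ) * G.coeff i)⌋ < K := by
        rw [Int.floor_lt]; exact_mod_cast h2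
      have h4 : 0 ≤ ⌊K * Int.fract ((m:ℝ) * G.coeff i)⌋ := Int.floor_nonneg.2 h1
      omega⟩
  obtain ⟨m, m', hmm, hf⟩ := Finite.exists_ne_map_eq_of_infinite f
  have hclose : ∀ i, i < D + 1 →
      |Int.fract ((m':ℝ) * G.coeff i) - Int.fract ((m:ℝ) * G.coeff i)| ≤ 1 / K := by
    intro i hi
    have h1 := congrFun hf ⟨i, hi⟩
    have h2 := congrArg Fin.val h1
    simp only [f] at h2
    have h4 : 0 ≤ ⌊K * Int.fract ((m:ℝ) * G.coeff i)⌋ := Int.floor_nonneg.2 (by positivity)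
    have h5 : 0 ≤ ⌊K * Int.fract ((m':ℝ) * G.coeff i)⌋ := Int.floor_nonneg.2 (by positivity)
    have h6 : ⌊K * Int.fract ((m:ℝ) * G.coeff i)⌋ = ⌊K * Int.fract ((m':ℝ) * G.coeff i)⌋ := by omega
    have h7 := Int.abs_sub_lt_one_of_floor_eq_floor h6
    rw [← mul_sub, abs_mul, abs_of_pos (by exact_mod_cast hK : (0:ℝ) < K)] at h7
    rw [abs_sub_comm, le_div_iff₀ (by exact_mod_cast hK : (0:ℝ) < K)]
    linarith
  refine ⟨mk (D + 1) (fun i => ⌊(m':ℝ) * G.coeff i⌋ - ⌊(m:ℝ) * G.coeff i⌋), (m':ℝ) - m,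
    mk (D + 1) (fun i => Int.fract ((m':ℝ) * G.coeff i) - Int.fract ((m:ℝ) * G.coeff i)),
    ?_, ?_, ?_, ?_, ?_⟩
  · intro h0
    have h1 := congrArg (fun p => coeff p D) h0
    simp only [coeff_mk, coeff_zero, if_pos (Nat.lt_succ_self D)] at h1
    have h2 : G.coeff D = 1 := hG
    rw [h2] at h1
    simp at h1
    omega
  · rw [natDegree_le_iff_coeff_eq_zero]
    intro i hi
    rw [coeff_mk, if_neg (by omega)]
  · ext i
    rw [coeff_map, coeff_mk, coeff_sub, coeff_C_mul, coeff_mk]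
    by_cases hi : i < D + 1
    · rw [if_pos hi, if_pos hi]
      simp only [eq_intCast, Int.cast_sub, Int.fract]
      ring
    · rw [if_neg hi, if_neg hi, coeff_eq_zero_of_natDegree_lt (by omega : G.natDegree < i)]
      simp
  · rw [natDegree_le_iff_coeff_eq_zero]
    intro i hi
    rw [coeff_mk, if_neg (by omega)]
  · intro i
    rw [coeff_mk]
    by_cases hi : i < D + 1
    · rw [if_pos hi]; exact hclose i hi
    · rw [if_neg hi, abs_zero]; positivity

/-- Density: an integer polynomial that acts almost like the scalar `κ` on sequences killed by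
`G`. -/
lemma density {α : ℝ} {P : ℤ[X]} (hP : P.Monic) (hirr : Irreducible (P.map (Int.castRingHom ℚ)))
    {G : ℝ[X]} (hPG : P.map (Int.castRingHom ℝ) = (X - C α) * G) (κ η : ℝ) (hη : 0 < η) :
    ∃ c : ℤ[X], ∀ (ε : ℕ → ℝ) (B : ℝ), (aeval (shift ℝ) G) ε = 0 → (∀ n, |ε n| ≤ B) →
      ∀ n, |(aeval (shift ℝ) (c.map (Int.castRingHom ℝ))) ε n - κ * ε n| ≤ η * B := by
  have hG : G.Monic := by
    have h1 : ((X - C α) * G).Monic := by rw [← hPG]; exact hP.map _
    exact (monic_X_sub_C α).of_mul_monic_left h1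
  have hdeg : P.natDegree = G.natDegree + 1 := by
    have h1 : (P.map (Int.castRingHom ℝ)).natDegree = P.natDegree := hP.natDegree_map _
    rw [hPG, natDegree_mul (X_sub_C_ne_zero α) hG.ne_zero, natDegree_X_sub_C] at h1
    omega
  set D := G.natDegree with hD
  obtain ⟨K, hK⟩ := exists_nat_gt ((D + 1) * (D + 1) / η)
  have hKpos : (0:ℝ) < K := lt_of_le_of_lt (by positivity) hK
  obtain ⟨c₀, t, ρ, hc₀, hc₀deg, hc₀eq, hρdeg, hρ⟩ := pigeon G hG K (by exact_mod_cast hKpos)
  -- coprimality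
  have hcop : IsCoprime G (c₀.map (Int.castRingHom ℝ)) := by
    have h1 : IsCoprime (P.map (Int.castRingHom ℚ)) (c₀.map (Int.castRingHom ℚ)) := by
      rw [hirr.coprime_iff_not_dvd]
      intro hdvd
      have h2 : c₀.map (Int.castRingHom ℚ) ≠ 0 := by
        rw [Polynomial.map_ne_zero_iff (Int.castRingHom ℚ).injective_int]; exact hc₀
      have h3 := natDegree_le_of_dvd hdvd h2
      rw [hP.natDegree_map, natDegree_map_eq_of_injective (Int.castRingHom ℚ).injective_int] at h3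
      omega
    have h2 := h1.map (mapRingHom (algebraMap ℚ ℝ))
    simp only [coe_mapRingHom, Polynomial.map_map] at h2
    have h3 : (algebraMap ℚ ℝ).comp (Int.castRingHom ℚ) = Int.castRingHom ℝ := by
      ext; simp
    rw [h3, hPG] at h2
    exact h2.of_mul_left_right
  obtain ⟨a, b, hab⟩ := hcop
  -- real multiplier, reduced modulo `G`
  set Λ := (C κ * b) %ₘ G with hΛ
  have hΛdeg : Λ.natDegree ≤ D := by
    rw [hΛ]
    exact natDegree_modByMonic_le _ hG
  have hΛeq : C κ * b = Λ + G * ((C κ * b) /ₘ G) := (modByMonic_add_div _ G).symm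
  set s := (C κ * b) /ₘ G with hs
  let Λ' : ℤ[X] := mk (D + 1) (fun i => round (Λ.coeff i))
  set τ : ℝ[X] := Λ'.map (Int.castRingHom ℝ) - Λ with hτ
  have hτc : ∀ i, |τ.coeff i| ≤ 1 / 2 := by
    intro i
    rw [hτ, coeff_sub, coeff_map, coeff_mk]
    by_cases hi : i < D + 1
    · rw [if_pos hi, abs_sub_comm]
      simpa using abs_sub_round (Λ.coeff i)
    · rw [if_neg hi, coeff_eq_zero_of_natDegree_lt (by omega : Λ.natDegree < i)]
      simp
  have hτdeg : τ.natDegree ≤ D := by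
    rw [natDegree_le_iff_coeff_eq_zero]
    intro i hi
    rw [hτ, coeff_sub, coeff_map, coeff_mk, if_neg (by omega),
      coeff_eq_zero_of_natDegree_lt (by omega : Λ.natDegree < i)]
    simp
  refine ⟨Λ' * c₀, fun ε B hε hB n => ?_⟩
  have hB0 : 0 ≤ B := (abs_nonneg _).trans (hB 0)
  have hpoly : (Λ' * c₀).map (Int.castRingHom ℝ) =
      C κ + (-(C κ * a) - s * c₀.map (Int.castRingHom ℝ) + τ * C t) * G - τ * ρ := by
    rw [Polynomial.map_mul]
    have h1 : Λ'.map (Int.castRingHom ℝ) = Λ + τ := by rw [hτ]; ring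
    have h2 : Λ = C κ * b - G * s := by rw [hΛeq]; ring
    rw [h1, add_mul]
    have h3 : Λ * c₀.map (Int.castRingHom ℝ) =
        C κ - (C κ * a) * G - s * c₀.map (Int.castRingHom ℝ) * G := by
      rw [h2]
      linear_combination (C κ) * hab
    rw [h3]
    have h4 : τ * c₀.map (Int.castRingHom ℝ) = τ * C t * G - τ * ρ := by
      rw [hc₀eq]; ring
    rw [h4]
    ring
  have hval : (aeval (shift ℝ) ((Λ' * c₀).map (Int.castRingHom ℝ))) ε =
      κ • ε - (aeval (shift ℝ) τ) ((aeval (shift ℝ) ρ) ε) := by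
    rw [hpoly, map_sub, map_add, LinearMap.sub_apply, LinearMap.add_apply, map_mul, map_mul,
      Module.End.mul_apply, Module.End.mul_apply, hε, map_zero, add_zero, aeval_C,
      Module.algebraMap_end_apply]
  rw [hval]
  simp only [Pi.sub_apply, Pi.smul_apply, smul_eq_mul]
  have h5 : κ * ε n - (aeval (shift ℝ) τ) ((aeval (shift ℝ) ρ) ε) n - κ * ε n =
      - (aeval (shift ℝ) τ) ((aeval (shift ℝ) ρ) ε) n := by ring
  rw [h5, abs_neg]
  have h6 := aeval_le τ _ _ (aeval_le ρ ε B hB) n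
  have h7 := l1_le τ D hτdeg _ hτc
  have h8 := l1_le ρ D hρdeg _ hρ
  have h9 : (D + 1) * (D + 1) / K < η := by
    rw [div_lt_iff₀ hη] at hK
    rw [div_lt_iff₀ hKpos]
    linarith
  calc |(aeval (shift ℝ) τ) ((aeval (shift ℝ) ρ) ε) n| ≤ l1 τ * (l1 ρ * B) := h6
    _ ≤ ((D + 1) * (1 / 2)) * (((D + 1) * (1 / K)) * B) := by
        apply mul_le_mul h7 _ (mul_nonneg (l1_nonneg _) hB0) (by positivity)
        exact mul_le_mul_of_nonneg_right h8 hB0
    _ = (1 / 2) * ((D + 1) * (D + 1) / K * B) := by ring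
    _ ≤ η * B := by
        have : 0 ≤ (D + 1 : ℝ) * (D + 1) / K * B := by positivity
        nlinarith

end Pool.Agent.V11269.Salem
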