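import Pool.Agent.V11269.Salem

/-!
For a Salem number `α`, the set of values `limsup ‖ξ α^n‖` is not closed: the main theorem.
-/

namespace Pool.Agent.V11269.Salem

open Polynomial Filter Topology Pool.Agent.V11269.LinRec

/-- An integer solution of the recurrence with initial window `(0, …, 0, 1)`. -/
lemma exists_int_solution {P : ℤ[X]} (hP : P.Monic) (hd : 0 < P.natDegree) :
    ∃ u : ℕ → ℤ, (∀ n, ∑ i ∈ Finset.range (P.natDegree + 1), P.coeff i * u (n + i) = 0) ∧
      (∀ i, i + 1 < P.natDegree → u i = 0) ∧ u (P.natDegree - 1) = 1 := by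
  set d := P.natDegree with hdd
  let E : LinearRecurrence ℤ := ⟨d, fun i => - P.coeff i⟩
  let init : Fin E.order → ℤ := fun i => if (i : ℕ) + 1 = d then 1 else 0
  refine ⟨E.mkSol init, ?_, ?_, ?_⟩
  · intro n
    have h1 := E.is_sol_mkSol init n
    rw [Finset.sum_range_succ]
    have h2 : P.coeff d = 1 := hP
    have h3 : E.mkSol init (n + d) = ∑ i : Fin d, (- P.coeff i) * E.mkSol init (n + i) := h1
    rw [h2, h3, one_mul, Fin.sum_univ_eq_sum_range (fun i => (- P.coeff i) * E.mkSol init (n + i)) d]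
    rw [← Finset.sum_add_distrib]
    apply Finset.sum_eq_zero
    intro i _
    ring
  · intro i hi
    have h1 := E.mkSol_eq_init init ⟨i, by show i < d; omega⟩
    simp only at h1
    rw [h1]
    simp only [init]
    rw [if_neg (by omega)]
  · have h1 := E.mkSol_eq_init init ⟨d - 1, by show d - 1 < d; omega⟩
    simp only at h1
    rw [h1]
    simp only [init]
    rw [if_pos (by omega)]

/-- There is an error sequence that does not tend to zero. -/
lemma exists_nonzero {α : ℝ} (hα : 1 < α) {P : ℤ[X]} (hP : P.Monic)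
    (hirr : Irreducible (P.map (Int.castRingHom ℚ)))
    {G : ℝ[X]} (hPG : P.map (Int.castRingHom ℝ) = (X - C α) * G)
    (hconj : ∀ z : ℂ, (P.map (Int.castRingHom ℂ)).eval z = 0 → z ≠ (α : ℂ) → ‖z‖ ≤ 1)
    (hone : ∃ z : ℂ, (P.map (Int.castRingHom ℂ)).eval z = 0 ∧ ‖z‖ = 1) :
    ∃ ε : ℕ → ℝ, Err α G ε ∧ 0 < limsup (fun n => |ε n|) atTop := by
  classical
  have hG : G.Monic := by
    have h1 : ((X - C α) * G).Monic := by rw [← hPG]; exact hP.map _
    exact (monic_X_sub_C α).of_mul_monic_left h1
  have hdeg : P.natDegree = G.natDegree + 1 := by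
    have h1 : (P.map (Int.castRingHom ℝ)).natDegree = P.natDegree := hP.natDegree_map _
    rw [hPG, natDegree_mul (X_sub_C_ne_zero α) hG.ne_zero, natDegree_X_sub_C] at h1
    omega
  obtain ⟨u, hu, hu0, hu1⟩ := exists_int_solution hP (by omega)
  -- separability
  have hsepQ : (P.map (Int.castRingHom ℚ)).Separable := hirr.separable
  have hsepC : (P.map (Int.castRingHom ℂ)).Separable := by
    have h2 := hsepQ.map (f := algebraMap ℚ ℂ)
    rw [Polynomial.map_map] at h2
    have h3 : (algebraMap ℚ ℂ).comp (Int.castRingHom ℚ) = Int.castRingHom ℂ := by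
      ext; simp
    rwa [h3] at h2
  have hsepR : (P.map (Int.castRingHom ℝ)).Separable := by
    have h2 := hsepQ.map (f := algebraMap ℚ ℝ)
    rw [Polynomial.map_map] at h2
    have h3 : (algebraMap ℚ ℝ).comp (Int.castRingHom ℚ) = Int.castRingHom ℝ := by
      ext; simp
    rwa [h3] at h2
  have hPC : P.map (Int.castRingHom ℂ) = (X - C (α : ℂ)) * G.map (algebraMap ℝ ℂ) := by
    have h1 := congrArg (Polynomial.map (algebraMap ℝ ℂ)) hPG
    rw [Polynomial.map_map, Polynomial.map_mul, Polynomial.map_sub, map_X, map_C] at h1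
    have h3 : (algebraMap ℝ ℂ).comp (Int.castRingHom ℝ) = Int.castRingHom ℂ := by
      ext; simp
    rw [h3] at h1
    exact h1
  have hGα : G.eval α ≠ 0 := by
    intro h0
    rw [hPG] at hsepR
    have h1 := hsepR.isCoprime
    obtain ⟨a, b, hab⟩ := h1
    have h2 := congrArg (Polynomial.eval α) hab
    simp [h0] at h2
  -- complex factorization of `G`
  set GC := G.map (algebraMap ℝ ℂ) with hGC
  have hGCm : GC.Monic := hG.map _
  have hGCsep : GC.Separable := by
    rw [hPC] at hsepC
    exact hsepC.of_mul_right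
  have hprod : GC = ∏ z ∈ GC.roots.toFinset, (X - C z) := by
    have h1 := (IsAlgClosed.splits GC).eq_prod_roots_of_monic hGCm
    have h2 : GC.roots.Nodup := nodup_roots hGCsep
    conv_lhs => rw [h1]
    rw [Finset.prod_multiset_map_count]
    apply Finset.prod_congr rfl
    intro z hz
    rw [Multiset.count_eq_one_of_mem h2 (Multiset.mem_toFinset.1 hz), pow_one]
  have hGCα : GC.eval (α : ℂ) ≠ 0 := by
    have : GC.eval (α : ℂ) = ((G.eval α : ℝ) : ℂ) := by
      rw [hGC, eval_map]
      exact (eval₂_at_apply (algebraMap ℝ ℂ) α)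
    rw [this]
    exact_mod_cast hGα
  have hroots : ∀ z ∈ GC.roots.toFinset, ‖z‖ ≤ 1 := by
    intro z hz
    rw [Multiset.mem_toFinset, mem_roots hGCm.ne_zero] at hz
    apply hconj z
    · rw [hPC, eval_mul, hz, mul_zero]
    · rintro rfl
      exact hGCα hz
  -- the geometric part
  set U : ℕ → ℝ := fun n => (u n : ℝ) with hU
  have hPU : (aeval (shift ℝ) (P.map (Int.castRingHom ℝ))) U = 0 := by
    funext n
    rw [aeval_shift_apply, hP.natDegree_map]
    have h1 : ((∑ i ∈ Finset.range (P.natDegree + 1), P.coeff i * u (n + i) : ℤ) : ℝ) = 0 := by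
      rw [hu n]; simp
    push_cast at h1
    simp only [coeff_map, eq_intCast, Pi.zero_apply]
    exact h1
  set y := (aeval (shift ℝ) G) U with hy
  have hy1 : (aeval (shift ℝ) (X - C α)) y = 0 := by
    rw [hy, ← Module.End.mul_apply, ← map_mul, ← hPG]; exact hPU
  set ξ := y 0 / G.eval α with hξ
  set g : ℕ → ℝ := fun n => ξ * α ^ n with hg
  have hGg : (aeval (shift ℝ) G) g = y := by
    funext n
    rw [geom_of_kill α y hy1 n, aeval_shift_apply]
    have h1 : G.eval α = ∑ i ∈ Finset.range (G.natDegree + 1), G.coeff i * α ^ i :=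
      eval_eq_sum_range α
    have h2 : ∑ i ∈ Finset.range (G.natDegree + 1), G.coeff i * g (n + i) =
        ξ * α ^ n * G.eval α := by
      rw [h1, Finset.mul_sum]
      apply Finset.sum_congr rfl
      intro i _
      simp only [hg, pow_add]; ring
    rw [h2, hξ]
    field_simp
  set ε : ℕ → ℝ := g - U with hε
  have hGε : (aeval (shift ℝ) G) ε = 0 := by
    rw [hε, map_sub, hGg, sub_self]
  set εC : ℕ → ℂ := fun n => (ε n : ℂ) with hεC
  have hGεC : (aeval (shift ℂ) GC) εC = 0 := by
    funext n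
    rw [hGC, hεC, aeval_map_apply G ε n, hGε]; simp
  have hbound : ∃ B, ∀ n, |ε n| ≤ B := by
    obtain ⟨B, hB⟩ := bounded_of_kill _ hroots εC (by rw [← hprod]; exact hGεC)
    exact ⟨B, fun n => by simpa [hεC] using hB n⟩
  refine ⟨ε, ⟨hGε, hbound, ξ, u, fun n => ?_⟩, ?_⟩
  · simp only [hε, hU, hg, Pi.sub_apply]; ring
  · -- nonzero limsup
    obtain ⟨B, hB⟩ := hbound
    by_contra hle
    have hlim : Tendsto ε atTop (𝓝 0) := by
      rw [Metric.tendsto_atTop]
      intro r hr
      have h1 : limsup (fun n => |ε n|) atTop < r := lt_of_le_of_lt (not_lt.1 hle) hr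
      have h2 := eventually_lt_of_limsup_lt h1 (isBoundedUnder_of ⟨B, hB⟩)
      obtain ⟨N, hN⟩ := eventually_atTop.1 h2
      exact ⟨N, fun n hn => by rw [Real.dist_eq, sub_zero]; exact hN n hn⟩
    obtain ⟨z₀, hz₀, hz₀n⟩ := hone
    have hz₀α : z₀ ≠ (α : ℂ) := by
      rintro rfl
      rw [Complex.norm_real, Real.norm_eq_abs, abs_of_pos (by linarith)] at hz₀n
      linarith
    have hz₀G : z₀ ∈ GC.roots.toFinset := by
      rw [Multiset.mem_toFinset, mem_roots hGCm.ne_zero]
      rw [hPC, eval_mul] at hz₀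
      rcases mul_eq_zero.1 hz₀ with h | h
      · exfalso
        apply hz₀α
        simpa [sub_eq_zero] using h
      · exact h
    set H := ∏ z ∈ GC.roots.toFinset.erase z₀, (X - C z) with hH
    have hHG : GC = (X - C z₀) * H := by
      have h1 := Finset.mul_prod_erase GC.roots.toFinset (fun z => (X - C z : ℂ[X])) hz₀G
      exact hprod.trans h1.symm
    have hHm : H.Monic := monic_prod_of_monic _ _ fun z _ => monic_X_sub_C z
    set h := (aeval (shift ℂ) H) εC with hh
    have hh1 : (aeval (shift ℂ) (X - C z₀)) h = 0 := by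
      rw [hh, ← Module.End.mul_apply, ← map_mul, ← hHG]; exact hGεC
    have hhlim : Tendsto (fun n => ‖h n‖) atTop (𝓝 0) := by
      have h1 : Tendsto εC atTop (𝓝 0) := by
        have := (Complex.continuous_ofReal.tendsto 0).comp hlim
        rw [Complex.ofReal_zero] at this
        exact this
      have h2 : Tendsto h atTop (𝓝 0) := by
        have h3 : h = fun n => ∑ i ∈ Finset.range (H.natDegree + 1), H.coeff i * εC (n + i) := by
          funext n; rw [hh, aeval_shift_apply]
        rw [h3]
        have h4 : (0 : ℂ) = ∑ i ∈ Finset.range (H.natDegree + 1), H.coeff i * 0 := by simp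
        rw [h4]
        apply tendsto_finsetSum
        intro i _
        apply Tendsto.const_mul
        exact h1.comp (tendsto_add_atTop_nat i)
      simpa using h2.norm
    have hh0 : h 0 = 0 := by
      have h1 : ∀ n, ‖h n‖ = ‖h 0‖ := fun n => by
        rw [geom_of_kill z₀ h hh1 n, norm_mul, norm_pow, hz₀n, one_pow, one_mul]
      have h2 : Tendsto (fun n => ‖h n‖) atTop (𝓝 ‖h 0‖) := by
        simp only [h1]; exact tendsto_const_nhds
      have h3 := tendsto_nhds_unique h2 hhlim
      exact norm_eq_zero.1 h3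
    have hhz : h = 0 := by
      funext n; rw [geom_of_kill z₀ h hh1 n, hh0, mul_zero]; rfl
    set T := (X - C (α : ℂ)) * H with hT
    have hTm : T.Monic := (monic_X_sub_C _).mul hHm
    have hTdeg : T.natDegree = P.natDegree - 1 := by
      have h1 : GC.natDegree = G.natDegree := hG.natDegree_map _
      have h2 : GC.natDegree = 1 + H.natDegree := by
        rw [hHG, natDegree_mul (X_sub_C_ne_zero z₀) hHm.ne_zero, natDegree_X_sub_C]
      have h3 : T.natDegree = 1 + H.natDegree := by
        rw [hT, natDegree_mul (X_sub_C_ne_zero _) hHm.ne_zero, natDegree_X_sub_C]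
      omega
    set UC : ℕ → ℂ := fun n => (u n : ℂ) with hUC
    set gC : ℕ → ℂ := fun n => (g n : ℂ) with hgC
    have hUC' : UC = gC - εC := by
      funext n
      simp only [hUC, hgC, hεC, hε, Pi.sub_apply, hU]
      push_cast
      ring
    have hgC' : (aeval (shift ℂ) (X - C (α : ℂ))) gC = 0 := by
      funext n
      rw [sub_apply_eq]
      simp only [hgC, hg, Pi.zero_apply]
      push_cast
      ring
    have hTU : (aeval (shift ℂ) T) UC = 0 := by
      rw [hUC', map_sub]
      have h1 : (aeval (shift ℂ) T) gC = 0 := by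
        rw [hT, mul_comm, map_mul, Module.End.mul_apply, hgC', map_zero]
      have h2 : (aeval (shift ℂ) T) εC = 0 := by
        rw [hT, map_mul, Module.End.mul_apply, ← hh, hhz, map_zero]
      rw [h1, h2, sub_zero]
    have hval := congrFun hTU 0
    rw [aeval_shift_apply, Finset.sum_range_succ] at hval
    have hz : ∑ x ∈ Finset.range T.natDegree, T.coeff x * UC (0 + x) = 0 := by
      apply Finset.sum_eq_zero
      intro i hi
      rw [Finset.mem_range] at hi
      simp only [hUC, zero_add]
      rw [hu0 i (by omega)]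
      simp
    rw [hz, zero_add, zero_add, hTdeg] at hval
    have hlead : T.coeff (P.natDegree - 1) = 1 := by rw [← hTdeg]; exact hTm
    rw [hlead] at hval
    simp only [hUC, hu1] at hval
    simp at hval

/-- Moving around: from an error sequence of size `L` to one of size nearly `κ L`. -/
lemma near {α : ℝ} {P : ℤ[X]} (hP : P.Monic) (hirr : Irreducible (P.map (Int.castRingHom ℚ)))
    {G : ℝ[X]} (hPG : P.map (Int.castRingHom ℝ) = (X - C α) * G) {ε : ℕ → ℝ} (hε : Err α G ε)
    (κ s : ℝ) (hκ : 0 ≤ κ) (hs : 0 < s) (hsmall : κ * limsup (fun n => |ε n|) atTop + s < 1 / 2) :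
    ∃ w ∈ spec α, κ * limsup (fun n => |ε n|) atTop - s ≤ w ∧
      w ≤ κ * limsup (fun n => |ε n|) atTop + s := by
  obtain ⟨B, hB⟩ := hε.2.1
  have hB0 : 0 ≤ B := (abs_nonneg _).trans (hB 0)
  obtain ⟨c, hc⟩ := density hP hirr hPG κ (s / (B + 1)) (by positivity)
  have h1 := hc ε B hε.1 hB
  set ε' := (aeval (shift ℝ) (c.map (Int.castRingHom ℝ))) ε with hε'
  have hE' : Err α G ε' := hε.apply α G c
  obtain ⟨B', hB'⟩ := hE'.2.1
  have h2 : ∀ n, |(|ε' n|) - κ * (|ε n|)| ≤ s := by
    intro n
    have h3 : κ * (|ε n|) = |κ * ε n| := by rw [abs_mul, abs_of_nonneg hκ]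
    rw [h3]
    refine (abs_abs_sub_abs_le_abs_sub _ _).trans ((h1 n).trans ?_)
    rw [div_mul_eq_mul_div, div_le_iff₀ (by positivity)]
    nlinarith
  have h3 := limsup_near (fun n => abs_nonneg _) hB (fun n => abs_nonneg _) hB' rfl hκ h2
  exact ⟨_, hE'.mem_spec α G rfl (by linarith [h3.2]), h3.1, h3.2⟩

lemma not_closed_aux {α : ℝ} (hα : 1 < α) {P : ℤ[X]} (hP : P.Monic)
    (hirr : Irreducible (P.map (Int.castRingHom ℚ)))
    (hroot : (P.map (Int.castRingHom ℝ)).eval α = 0)
    (hconj : ∀ z : ℂ, (P.map (Int.castRingHom ℂ)).eval z = 0 → z ≠ (α : ℂ) → ‖z‖ ≤ 1)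
    (hone : ∃ z : ℂ, (P.map (Int.castRingHom ℂ)).eval z = 0 ∧ ‖z‖ = 1) :
    ¬ IsClosed (spec α) := by
  intro hclosed
  obtain ⟨G, hPG⟩ : (X - C α) ∣ P.map (Int.castRingHom ℝ) := dvd_iff_isRoot.2 hroot
  have hlen : (0 : ℝ) < len P := by exact_mod_cast (len_pos hP)
  set δ : ℝ := 1 / (len P + 2) with hδdef
  have hδ0 : 0 < δ := by positivity
  have hδ1 : δ * len P ≤ 1 := by
    rw [hδdef, div_mul_eq_mul_div, div_le_one (by positivity)]; linarith
  have hδ2 : δ ≤ 1 / 2 := by
    rw [hδdef]
    apply one_div_le_one_div_of_le (by norm_num)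
    linarith
  set S := spec α ∩ Set.Icc 0 (δ / 2) with hS
  have h0 : (0 : ℝ) ∈ S := by
    refine ⟨⟨0, ?_⟩, le_refl _, by positivity⟩
    simp
  have hcount : S.Countable := (countable_small hα hP hroot hδ1).mono (by
    rintro x ⟨hx1, hx2⟩
    exact ⟨hx1, lt_of_le_of_lt hx2.2 (by linarith)⟩)
  have hperf : Perfect S := by
    refine ⟨hclosed.inter isClosed_Icc, ?_⟩
    intro v hv
    rw [accPt_iff_nhds]
    intro N hN
    obtain ⟨r, hr, hrN⟩ := Metric.mem_nhds_iff.1 hN
    have hkey : ∃ w ∈ S, w ≠ v ∧ |w - v| < r := by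
      rcases hv.2.1.eq_or_lt with hv0 | hvpos
      · -- `v = 0`
        obtain ⟨ε, hε, hL⟩ := exists_nonzero hα hP hirr hPG hconj hone
        set L := limsup (fun n => |ε n|) atTop with hLdef
        set m := min r (δ / 2) with hm
        have hmpos : 0 < m := lt_min hr (by positivity)
        have hm1 : m ≤ r := min_le_left _ _
        have hm2 : m ≤ δ / 2 := min_le_right _ _
        have hκL : m / (2 * L) * L = m / 2 := by field_simp
        obtain ⟨w, hw, hw1, hw2⟩ := near hP hirr hPG hε (m / (2 * L)) (m / 4) (by positivity)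
          (by positivity) (by rw [← hLdef, hκL]; linarith)
        rw [← hLdef, hκL] at hw1 hw2
        refine ⟨w, ⟨hw, by linarith, by linarith⟩, by rw [← hv0]; linarith, ?_⟩
        rw [← hv0, sub_zero, abs_of_pos (by linarith)]
        linarith
      · -- `v > 0`
        have hvδ : v < δ := lt_of_le_of_lt hv.2.2 (by linarith)
        obtain ⟨ε, hε, hL, -⟩ := exists_err hα hP hPG hδ1 hv.1 hvδ
        set m := min r (v / 2) with hm
        have hmpos : 0 < m := lt_min hr (by positivity)
        have hm1 : m ≤ r := min_le_left _ _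
        have hm2 : m ≤ v / 2 := min_le_right _ _
        have hκL : (1 - m / (2 * v)) * v = v - m / 2 := by field_simp
        have hκ0 : 0 ≤ 1 - m / (2 * v) := by
          rw [sub_nonneg, div_le_one (by positivity)]; linarith
        have hv2 := hv.2.2
        obtain ⟨w, hw, hw1, hw2⟩ := near hP hirr hPG hε (1 - m / (2 * v)) (m / 4) hκ0
          (by positivity) (by rw [hL, hκL]; linarith)
        rw [hL, hκL] at hw1 hw2
        refine ⟨w, ⟨hw, by linarith, by linarith⟩, by linarith, ?_⟩
        rw [abs_sub_comm, abs_of_pos (by linarith)]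
        linarith
    obtain ⟨w, hwS, hwv, hwr⟩ := hkey
    exact ⟨w, ⟨hrN (by rw [Metric.mem_ball, Real.dist_eq]; exact hwr), hwS⟩, hwv⟩
  obtain ⟨f, hf, -, hinj⟩ := hperf.exists_nat_bool_injection ⟨0, h0⟩
  have h1 : (Set.range f).Countable := hcount.mono hf
  have h4 : Cardinal.mk (ℕ → Bool) = 2 ^ Cardinal.aleph0 := by simp
  have h2 : Countable (ℕ → Bool) := by
    have := h1.to_subtype
    exact (Equiv.ofInjective f hinj).countable_iff.2 this
  have h3 := Cardinal.mk_le_aleph0_iff.2 h2
  rw [h4] at h3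
  exact absurd (Cardinal.cantor Cardinal.aleph0) (not_lt.2 h3)

/-- For a Salem number the spectrum is not closed. -/
theorem not_closed {α : ℝ} (h : IsSalem α) : ¬ IsClosed (spec α) := by
  obtain ⟨hα, hint, hconj, hone⟩ := h
  have hmin : minpoly ℚ α = (minpoly ℤ α).map (algebraMap ℤ ℚ) :=
    minpoly.isIntegrallyClosed_eq_field_fractions' ℚ hint
  have hmap : (minpoly ℤ α).map (Int.castRingHom ℚ) = minpoly ℚ α := hmin.symm
  have hC : ∀ z : ℂ, ((minpoly ℤ α).map (Int.castRingHom ℂ)).eval z = aeval z (minpoly ℚ α) := by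
    intro z
    rw [← hmap, aeval_def, eval₂_map, eval_map]
    congr 1
  apply not_closed_aux hα (minpoly.monic hint)
  · rw [hmap]
    exact minpoly.irreducible (hint.tower_top)
  · rw [eval_map]
    have := minpoly.aeval ℤ α
    rwa [aeval_def] at this
  · intro z hz
    rw [hC] at hz
    exact hconj z hz
  · obtain ⟨z, hz, hz1⟩ := hone
    exact ⟨z, by rw [hC]; exact hz, hz1⟩

end Pool.Agent.V11269.Salem
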