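import Mathlib

/-!
Linear complexity of windows of sequences over a field, and a potential argument.
-/

namespace Pool.Agent.V11269.TLC

open Finset

variable {F : Type*} [Field F]

/-- The window `[v, K)` of `s` satisfies a linear recurrence of order `m`. -/
def Ann (s : ℕ → F) (v K m : ℕ) : Prop :=
  ∃ c : ℕ → F, c m ≠ 0 ∧ ∀ i, v ≤ i → i + m < K → ∑ j ∈ range (m + 1), c j * s (i + j) = 0

lemma exists_ann (s : ℕ → F) (v K : ℕ) : ∃ m, Ann s v K m :=
  ⟨K, fun _ => 1, one_ne_zero, fun i _ h2 => absurd h2 (by omega)⟩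

open Classical in
/-- linear complexity -/
noncomputable def L (s : ℕ → F) (v K : ℕ) : ℕ := Nat.find (exists_ann s v K)

lemma ann_L (s : ℕ → F) (v K : ℕ) : Ann s v K (L s v K) := by
  classical
  exact Nat.find_spec (exists_ann s v K)

lemma L_le {s : ℕ → F} {v K m : ℕ} (h : Ann s v K m) : L s v K ≤ m := by
  classical
  exact Nat.find_min' _ h

lemma Ann.congr {s s' : ℕ → F} {v K m : ℕ} (h : ∀ k < K, s k = s' k) (hs : Ann s v K m) :
    Ann s' v K m := by
  obtain ⟨c, hc, h1⟩ := hs
  refine ⟨c, hc, fun i hi hi2 => ?_⟩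
  rw [← h1 i hi hi2]
  apply sum_congr rfl
  intro j hj
  rw [mem_range] at hj
  rw [h (i + j) (by omega)]

lemma L_congr {s s' : ℕ → F} {v K : ℕ} (h : ∀ k < K, s k = s' k) : L s v K = L s' v K :=
  le_antisymm (L_le ((ann_L s' v K).congr (fun k hk => (h k hk).symm)))
    (L_le ((ann_L s v K).congr h))

lemma L_mono (s : ℕ → F) (v K : ℕ) : L s v K ≤ L s v (K + 1) := by
  obtain ⟨c, hc, h1⟩ := ann_L s v (K + 1)
  exact L_le ⟨c, hc, fun i hi hi2 => h1 i hi (by omega)⟩

/-- two different continuations cannot both have small complexity -/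
lemma cross {s s' : ℕ → F} {v K m m' : ℕ} (h : ∀ k < K, s k = s' k)
    (h1 : Ann s v (K + 1) m) (h2 : Ann s' v (K + 1) m') (hm : v + m + m' ≤ K) : s K = s' K := by
  obtain ⟨c, hc, h1⟩ := h1
  obtain ⟨c', hc', h2⟩ := h2
  obtain ⟨x, hx⟩ : ∃ x, x + m + m' = K := ⟨K - m - m', by omega⟩
  have hS : ∑ j' ∈ range (m' + 1), ∑ j ∈ range (m + 1), c' j' * (c j * s (x + j' + j)) = 0 := by
    apply sum_eq_zero
    intro j' hj'
    rw [mem_range] at hj'
    rw [← mul_sum, h1 (x + j') (by omega) (by omega), mul_zero]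
  have hS' : ∑ j' ∈ range (m' + 1), ∑ j ∈ range (m + 1), c' j' * (c j * s' (x + j' + j)) = 0 := by
    rw [sum_comm]
    apply sum_eq_zero
    intro j hj
    rw [mem_range] at hj
    have h3 : ∀ j' ∈ range (m' + 1), c' j' * (c j * s' (x + j' + j)) =
        c j * (c' j' * s' (x + j + j')) := by
      intro j' _
      rw [show x + j' + j = x + j + j' by ring]; ring
    rw [sum_congr rfl h3, ← mul_sum, h2 (x + j) (by omega) (by omega), mul_zero]
  have hdiff : ∑ j' ∈ range (m' + 1), ∑ j ∈ range (m + 1),
      (c' j' * (c j * s (x + j' + j)) - c' j' * (c j * s' (x + j' + j))) =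
      c' m' * (c m * (s K - s' K)) := by
    rw [sum_eq_single m', sum_eq_single m]
    · rw [show x + m' + m = K by omega]; ring
    · intro j hj hjm
      rw [mem_range] at hj
      rw [h (x + m' + j) (by omega), sub_self]
    · intro h3; exact absurd (mem_range.2 (Nat.lt_succ_self m)) h3
    · intro j' hj' hjm'
      rw [mem_range] at hj'
      apply sum_eq_zero
      intro j hj
      rw [mem_range] at hj
      rw [h (x + j' + j) (by omega), sub_self]
    · intro h3; exact absurd (mem_range.2 (Nat.lt_succ_self m')) h3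
  simp only [sum_sub_distrib] at hdiff
  rw [hS, hS', sub_zero] at hdiff
  have h4 := (mul_eq_zero.1 hdiff.symm).resolve_left hc'
  exact sub_eq_zero.1 ((mul_eq_zero.1 h4).resolve_left hc)

/-- the weight of a window -/
noncomputable def w (β : ℝ) (s : ℕ → F) (v K : ℕ) : ℝ := β ^ ((K - v) - 2 * L s v K)

/-- the potential -/
noncomputable def Φ (β : ℝ) (s : ℕ → F) (K : ℕ) : ℝ := ∑ v ∈ range (K + 1), w β s v K

lemma w_congr {β : ℝ} {s s' : ℕ → F} {v K : ℕ} (h : ∀ k < K, s k = s' k) :
    w β s v K = w β s' v K := by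
  unfold w; rw [L_congr h]

lemma Φ_congr {β : ℝ} {s s' : ℕ → F} {K : ℕ} (h : ∀ k < K, s k = s' k) :
    Φ β s K = Φ β s' K := sum_congr rfl (fun _ _ => w_congr h)

lemma w_pos {β : ℝ} (hβ : 1 ≤ β) (s : ℕ → F) (v K : ℕ) : 1 ≤ w β s v K := one_le_pow₀ hβ

lemma w_step {β : ℝ} (hβ : 1 ≤ β) (s : ℕ → F) (v K : ℕ) (a : F) :
    w β (Function.update s K a) v (K + 1) ≤ β * w β s v K := by
  unfold w
  rw [← pow_succ']
  apply pow_le_pow_right₀ hβ
  have h1 := L_mono (Function.update s K a) v K
  have h2 : L (Function.update s K a) v K = L s v K := by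
    apply L_congr
    intro k hk
    rw [Function.update_of_ne (by omega)]
  omega

/-- at most one digit makes the window heavy -/
lemma w_unique {β : ℝ} (s : ℕ → F) {v K : ℕ} (hv : v ≤ K) {a a' : F}
    (h1 : 1 < w β (Function.update s K a) v (K + 1))
    (h2 : 1 < w β (Function.update s K a') v (K + 1)) : a = a' := by
  have key : ∀ a : F, 1 < w β (Function.update s K a) v (K + 1) →
      2 * L (Function.update s K a) v (K + 1) ≤ K - v := by
    intro a h
    unfold w at h
    by_contra h3
    have h4 : (K + 1 - v) - 2 * L (Function.update s K a) v (K + 1) = 0 := by omega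
    rw [h4, pow_zero] at h
    exact lt_irrefl _ h
  have h3 := key a h1
  have h4 := key a' h2
  have h5 := cross (s := Function.update s K a) (s' := Function.update s K a') (v := v) (K := K)
    (by
      intro k hk
      rw [Function.update_of_ne (by omega), Function.update_of_ne (by omega)])
    (ann_L _ v (K + 1)) (ann_L _ v (K + 1)) (by omega)
  simpa using h5

/-- two good digits -/
lemma two_digits [Fintype F] {β : ℝ} (hβ : 1 ≤ β) (hq : 3 ≤ Fintype.card F) (s : ℕ → F) (K : ℕ) :
    ∃ a a' : F, a ≠ a' ∧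
      Φ β (Function.update s K a) (K + 1) ≤ K + 2 + β / (Fintype.card F - 1) * Φ β s K ∧
      Φ β (Function.update s K a') (K + 1) ≤ K + 2 + β / (Fintype.card F - 1) * Φ β s K := by
  classical
  have hq' : (3 : ℝ) ≤ Fintype.card F := by exact_mod_cast hq
  set T : F → ℝ := fun a => ∑ v ∈ (range (K + 1)).filter
    (fun v => 1 < w β (Function.update s K a) v (K + 1)), w β s v K with hT
  have hΦ0 : 0 < Φ β s K := by
    unfold Φ
    apply sum_pos (fun v _ => lt_of_lt_of_le one_pos (w_pos hβ s v K)) ⟨0, by simp⟩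
  have hTsum : ∑ a, T a ≤ Φ β s K := by
    rw [hT]
    simp only [sum_filter]
    rw [sum_comm]
    unfold Φ
    apply sum_le_sum
    intro v hv
    rw [mem_range] at hv
    rw [← sum_filter, sum_const, nsmul_eq_mul]
    have h1 : (univ.filter (fun a => 1 < w β (Function.update s K a) v (K + 1))).card ≤ 1 := by
      apply card_le_one.2
      intro a ha b hb
      rw [mem_filter] at ha hb
      exact w_unique s (by omega) ha.2 hb.2
    have h2 : ((univ.filter (fun a => 1 < w β (Function.update s K a) v (K + 1))).card : ℝ) ≤ 1 := by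
      exact_mod_cast h1
    have h3 := w_pos hβ s v K
    nlinarith
  have hT0 : ∀ a, 0 ≤ T a := fun a => sum_nonneg fun v _ => (zero_le_one.trans (w_pos hβ s v K))
  have hstep : ∀ a, T a ≤ Φ β s K / (Fintype.card F - 1) →
      Φ β (Function.update s K a) (K + 1) ≤ K + 2 + β / (Fintype.card F - 1) * Φ β s K := by
    intro a ha
    have h1 : Φ β (Function.update s K a) (K + 1) =
        ∑ v ∈ range (K + 1), w β (Function.update s K a) v (K + 1) + 1 := by
      unfold Φ
      rw [sum_range_succ]
      congr 1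
      unfold w
      rw [Nat.sub_self, Nat.zero_sub, pow_zero]
    have h2 : ∑ v ∈ range (K + 1), w β (Function.update s K a) v (K + 1) ≤
        ∑ v ∈ range (K + 1), (1 + if 1 < w β (Function.update s K a) v (K + 1) then
          β * w β s v K else 0) := by
      apply sum_le_sum
      intro v _
      split_ifs with h3
      · have := w_step hβ s v K a
        linarith
      · linarith
    rw [sum_add_distrib, sum_const, card_range, nsmul_eq_mul, mul_one, ← sum_filter,
      ← mul_sum] at h2
    have h3 : β * T a ≤ β * (Φ β s K / (Fintype.card F - 1)) := by gcongr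
    have h4 : β * (Φ β s K / (Fintype.card F - 1)) = β / (Fintype.card F - 1) * Φ β s K := by ring
    rw [h1]
    push_cast at h2
    have h5 : β * T a = β * ∑ v ∈ (range (K + 1)).filter
      (fun v => 1 < w β (Function.update s K a) v (K + 1)), w β s v K := rfl
    linarith
  -- counting
  have hcard : 2 ≤ (univ.filter (fun a => T a ≤ Φ β s K / (Fintype.card F - 1))).card := by
    by_contra hlt
    have h1 : (univ.filter (fun a => ¬ T a ≤ Φ β s K / (Fintype.card F - 1))).card +
        (univ.filter (fun a => T a ≤ Φ β s K / (Fintype.card F - 1))).card = Fintype.card F := by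
      rw [add_comm, card_filter_add_card_filter_not, card_univ]
    have h2 : Fintype.card F - 1 ≤
        (univ.filter (fun a => ¬ T a ≤ Φ β s K / (Fintype.card F - 1))).card := by omega
    have h2' : (Fintype.card F : ℝ) - 1 ≤
        ((univ.filter (fun a => ¬ T a ≤ Φ β s K / (Fintype.card F - 1))).card : ℝ) := by
      have h3 := (Nat.cast_le (α := ℝ)).2 h2
      rwa [Nat.cast_sub (by omega), Nat.cast_one] at h3
    have hne : (univ.filter (fun a => ¬ T a ≤ Φ β s K / (Fintype.card F - 1))).Nonempty := by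
      rw [← card_pos]; omega
    have h3 : ∑ a ∈ univ.filter (fun a => ¬ T a ≤ Φ β s K / (Fintype.card F - 1)),
        (Φ β s K / (Fintype.card F - 1)) < ∑ a ∈ univ.filter
        (fun a => ¬ T a ≤ Φ β s K / (Fintype.card F - 1)), T a := by
      apply sum_lt_sum_of_nonempty hne
      intro a ha
      rw [mem_filter] at ha
      exact not_le.1 ha.2
    rw [sum_const, nsmul_eq_mul] at h3
    have h4 : ∑ a ∈ univ.filter (fun a => ¬ T a ≤ Φ β s K / (Fintype.card F - 1)), T a ≤
        ∑ a, T a := sum_le_sum_of_subset_of_nonneg (filter_subset _ _) (fun a _ _ => hT0 a)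
    have h5 : Φ β s K ≤ ((univ.filter (fun a => ¬ T a ≤ Φ β s K / (Fintype.card F - 1))).card : ℝ) *
        (Φ β s K / (Fintype.card F - 1)) := by
      have h6 : (0 : ℝ) < Fintype.card F - 1 := by linarith
      calc Φ β s K = (Fintype.card F - 1) * (Φ β s K / (Fintype.card F - 1)) := by field_simp
        _ ≤ _ := by gcongr
    linarith
  obtain ⟨a, ha, a', ha', hne⟩ := one_lt_card.1 hcard
  rw [mem_filter] at ha ha'
  exact ⟨a, a', hne, hstep a ha.2, hstep a' ha'.2⟩

/-- The tree of sequences. -/
noncomputable def pre (pick : (ℕ → F) → ℕ → Bool → F) (ε : ℕ → Bool) : ℕ → (ℕ → F)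
  | 0 => fun _ => 0
  | K + 1 => Function.update (pre pick ε K) K (pick (pre pick ε K) K (ε K))

/-- The limit sequence. -/
noncomputable def lim (pick : (ℕ → F) → ℕ → Bool → F) (ε : ℕ → Bool) : ℕ → F :=
  fun K => pre pick ε (K + 1) K

lemma pre_eq (pick : (ℕ → F) → ℕ → Bool → F) (ε : ℕ → Bool) (n : ℕ) : pre pick ε n =
    fun k => if k < n then lim pick ε k else 0 := by
  induction n with
  | zero => funext k; simp [pre]
  | succ n ih =>
    funext k
    rcases Nat.lt_trichotomy k n with h | h | h
    · have h1 : pre pick ε (n + 1) k = pre pick ε n k := by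
        rw [pre, Function.update_of_ne (by omega)]
      rw [h1, ih]
      dsimp only
      rw [if_pos h, if_pos (by omega)]
    · rw [h, if_pos (by omega)]; rfl
    · have h1 : pre pick ε (n + 1) k = pre pick ε n k := by
        rw [pre, Function.update_of_ne (by omega)]
      rw [h1, ih]
      dsimp only
      rw [if_neg (by omega), if_neg (by omega)]

lemma lim_eq (pick : (ℕ → F) → ℕ → Bool → F) (ε : ℕ → Bool) (K : ℕ) :
    lim pick ε K = pick (fun k => if k < K then lim pick ε k else 0) K (ε K) := by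
  rw [← pre_eq]
  unfold lim
  rw [pre, Function.update_self]

/-- potential bound along the tree -/
lemma Φ_lim {β ρ B : ℝ} (hβ : 1 ≤ β) (hρ0 : 0 ≤ ρ) (hρ : ρ < 1) (hB : B * (1 - ρ) = 1)
    (pick : (ℕ → F) → ℕ → Bool → F)
    (hpick : ∀ s K b, Φ β (Function.update s K (pick s K b)) (K + 1) ≤ K + 2 + ρ * Φ β s K)
    (ε : ℕ → Bool) (K : ℕ) : Φ β (lim pick ε) K ≤ B * (K + 1) := by
  have hB1 : 1 ≤ B := by
    have hB0 : 0 < B := by
      by_contra h
      have : B * (1 - ρ) ≤ 0 := mul_nonpos_of_nonpos_of_nonneg (not_lt.1 h) (by linarith)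
      linarith
    nlinarith
  induction K with
  | zero =>
    have h1 : Φ β (lim pick ε) 0 = 1 := by
      unfold Φ w
      simp
    rw [h1]; simpa using hB1
  | succ K ih =>
    have h1 : Φ β (lim pick ε) (K + 1) = Φ β (pre pick ε (K + 1)) (K + 1) := by
      apply Φ_congr
      intro k hk
      rw [pre_eq]
      dsimp only
      rw [if_pos hk]
    have h2 : Φ β (pre pick ε K) K = Φ β (lim pick ε) K := by
      apply Φ_congr
      intro k hk
      rw [pre_eq]
      dsimp only
      rw [if_pos hk]
    have h3 := hpick (pre pick ε K) K (ε K)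
    rw [h2] at h3
    rw [h1]
    have h4 : Φ β (pre pick ε (K + 1)) (K + 1) ≤ K + 2 + ρ * Φ β (lim pick ε) K := h3
    push_cast
    have h5 : ρ * Φ β (lim pick ε) K ≤ ρ * (B * (K + 1)) := by gcongr
    have h6 : (K : ℝ) + 2 + ρ * (B * (K + 1)) ≤ B * (K + 1 + 1) := by
      have h7 : (K : ℝ) + 2 = B * (1 - ρ) * (K + 2) := by rw [hB, one_mul]
      rw [h7]
      have h8 : 0 ≤ B * ρ := by positivity
      nlinarith
    linarith

end Pool.Agent.V11269.TLC
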