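import Pool.Agent.V11269.FFDefs

/-!
Definitions for counterexamples to the `t`-adic Littlewood conjecture with a growth function.
`F((t⁻¹))` is `LaurentSeries F` in the variable `t⁻¹`, see `Pool.Agent.V11269.FFDefs`.
-/

namespace Pool.Agent.V11269.TLCDefs

open Polynomial Pool.Agent.V11269.FFDefs

/-- The unit ball `𝕀`: the sequence `s` stands for `∑_{i ≥ 0} s_i t^(-(i+1))`. -/
def 𝕀 (F : Type*) := ℕ → F

/-- The Laurent series `∑_{i ≥ 0} s_i t^(-(i+1))`. -/
noncomputable def toL {F : Type*} [Field F] (s : ℕ → F) : LaurentSeries F :=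
  HahnSeries.ofSuppBddBelow (fun i : ℤ => if 1 ≤ i then s (i - 1).toNat else 0) (by
    refine ⟨1, ?_⟩
    intro i hi
    rw [Function.mem_support] at hi
    by_contra h
    exact hi (if_neg h))

variable {F : Type*} [Field F] [Fintype F]

lemma card_inv_pos : (0 : ℝ) < (Fintype.card F : ℝ)⁻¹ := by
  have : 0 < Fintype.card F := Fintype.card_pos
  positivity

lemma card_inv_le_one : ((Fintype.card F : ℝ)⁻¹) ≤ 1 := by
  have : 1 ≤ Fintype.card F := Fintype.card_pos
  exact inv_le_one_of_one_le₀ (by exact_mod_cast this)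

open Classical in
/-- The metric `|Θ - Φ|` on `𝕀`: it is `q^(-(n+1))` if `n` is the first index at which the
sequences differ. -/
noncomputable instance : MetricSpace (𝕀 F) where
  dist x y := if x = y then 0 else ((Fintype.card F : ℝ)⁻¹) ^ (PiNat.firstDiff x y + 1)
  dist_self x := by simp
  dist_comm x y := by
    by_cases h : x = y
    · simp [h]
    · simp [h, Ne.symm h, PiNat.firstDiff_comm x y]
  dist_triangle x y z := by
    by_cases hxz : x = z
    · rw [if_pos hxz]
      have := (card_inv_pos (F := F)).le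
      split_ifs <;> positivity
    by_cases hxy : x = y
    · rw [if_pos hxy, zero_add, hxy]
    by_cases hyz : y = z
    · rw [if_pos hyz, add_zero, hyz]
    rw [if_neg hxz, if_neg hxy, if_neg hyz]
    have h1 := PiNat.min_firstDiff_le x y z hxz
    have h0 := card_inv_pos (F := F)
    rcases min_le_iff.1 h1 with h2 | h2
    · have h3 := pow_le_pow_of_le_one h0.le (card_inv_le_one (F := F)) (Nat.add_le_add_right h2 1)
      have h4 : 0 ≤ ((Fintype.card F : ℝ)⁻¹) ^ (PiNat.firstDiff y z + 1) := by positivity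
      linarith
    · have h3 := pow_le_pow_of_le_one h0.le (card_inv_le_one (F := F)) (Nat.add_le_add_right h2 1)
      have h4 : 0 ≤ ((Fintype.card F : ℝ)⁻¹) ^ (PiNat.firstDiff x y + 1) := by positivity
      linarith
  eq_of_dist_eq_zero := by
    intro x y h
    by_contra hne
    rw [if_neg hne] at h
    exact absurd h (pow_pos (card_inv_pos (F := F)) _).ne'

/-- The growth function `f_λ`: `f_λ(q^k) = k^(1+λ)` for `k ≥ 1` and `f_λ(1) = 1`. -/
noncomputable def growth (lam : ℝ) (k : ℕ) : ℝ := if k = 0 then 1 else (k : ℝ) ^ (1 + lam)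

/-- `M_q(f_λ)`: here `|N| = q^(deg N)` and `|N|_t = q^(-v)` where `t^v` is the largest power of `t`
dividing `N`, that is `v = N.natTrailingDegree`. -/
def M (F : Type*) [Field F] [Fintype F] (lam : ℝ) : Set (𝕀 F) :=
  {s | ∃ c : ℝ, 0 < c ∧ ∀ N : F[X], N ≠ 0 →
    c ≤ growth lam N.natDegree * (Fintype.card F : ℝ) ^ N.natDegree *
      ((Fintype.card F : ℝ) ^ N.natTrailingDegree)⁻¹ * absL (frac (ι N * toL s))}

end Pool.Agent.V11269.TLCDefs
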