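import Pool.Agent.V11269.TLC
import Pool.Agent.V11269.TLCDefs
import Pool.Agent.V11269.FF2

namespace Pool.Agent.V11269.TLC

open Finset Polynomial Pool.Agent.V11269.FFDefs Pool.Agent.V11269.TLCDefs Pool.Agent.V11269.FF

lemma growth_one_le {lam : ℝ} (h1 : 0 < 1 + lam) (k : ℕ) : 1 ≤ growth lam k := by
  unfold growth
  split_ifs with h
  · exact le_rfl
  · exact Real.one_le_rpow (by exact_mod_cast Nat.one_le_iff_ne_zero.2 h) h1.le

lemma growth_bound {q lam β B : ℝ} (hq : 1 ≤ q) (h1 : 0 < 1 + lam)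
    (hβ : q ^ (1 / (1 + lam)) < β) (hB : 0 < B) :
    ∃ C : ℝ, 1 ≤ C ∧ ∀ k x : ℕ, β ^ x ≤ B * (2 * k + 1) * (x + 1) → q ^ x ≤ C * growth lam k := by
  set β' : ℝ := q ^ (1 / (1 + lam)) with hβ'
  have hβ1 : 1 ≤ β' := Real.one_le_rpow hq (by positivity)
  have hβ0 : 0 < β' := by linarith
  have hqe : β' ^ (1 + lam) = q := by
    rw [hβ', ← Real.rpow_mul (by linarith), one_div, inv_mul_cancel₀ h1.ne', Real.rpow_one]
  set δ : ℝ := β / β' - 1 with hδ
  have hδ0 : 0 < δ := by
    rw [hδ, sub_pos, one_lt_div hβ0]; exact hβ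
  have hβe : β = β' * (1 + δ) := by rw [hδ]; field_simp; ring
  set C0 : ℝ := 3 * B * (1 + 1 / δ) with hC0
  have hC00 : 0 < C0 := by positivity
  refine ⟨max 1 (C0 ^ (1 + lam)), le_max_left _ _, ?_⟩
  intro k x h
  have h2 : 1 + (x : ℝ) * δ ≤ (1 + δ) ^ x := one_add_mul_le_pow (by linarith) x
  have h3 : (x : ℝ) + 1 ≤ (1 + 1 / δ) * (1 + x * δ) := by
    have : (1 + 1 / δ) * (1 + x * δ) = 1 + x * δ + 1 / δ + x := by field_simp; ring
    rw [this]
    have h4 : 0 ≤ (x : ℝ) * δ := by positivity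
    have h5 : 0 < 1 / δ := by positivity
    linarith
  have h4 : β' ^ x ≤ B * (2 * k + 1) * (1 + 1 / δ) := by
    have h5 : β' ^ x * (1 + δ) ^ x ≤ B * (2 * k + 1) * (1 + 1 / δ) * (1 + δ) ^ x := by
      rw [← mul_pow, ← hβe]
      calc β ^ x ≤ B * (2 * k + 1) * (x + 1) := h
        _ ≤ B * (2 * k + 1) * ((1 + 1 / δ) * (1 + x * δ)) := by gcongr
        _ ≤ B * (2 * k + 1) * ((1 + 1 / δ) * (1 + δ) ^ x) := by gcongr
        _ = _ := by ring
    exact le_of_mul_le_mul_right h5 (by positivity)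
  have h5 : q ^ x = (β' ^ x) ^ (1 + lam) := by
    rw [← hqe, ← Real.rpow_natCast, ← Real.rpow_natCast, ← Real.rpow_mul hβ0.le,
      ← Real.rpow_mul hβ0.le, mul_comm]
  have h6 : (1 : ℝ) ≤ max (k : ℝ) 1 := le_max_right _ _
  have h7 : B * (2 * k + 1) * (1 + 1 / δ) ≤ C0 * max (k : ℝ) 1 := by
    have h8 : (2 * (k : ℝ) + 1) ≤ 3 * max (k : ℝ) 1 := by
      have := le_max_left (k : ℝ) 1
      linarith
    calc B * (2 * k + 1) * (1 + 1 / δ) ≤ B * (3 * max (k : ℝ) 1) * (1 + 1 / δ) := by gcongr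
      _ = _ := by rw [hC0]; ring
  have h8 : (max (k : ℝ) 1) ^ (1 + lam) = growth lam k := by
    unfold growth
    split_ifs with h9
    · rw [h9]; simp
    · rw [max_eq_left (by exact_mod_cast Nat.one_le_iff_ne_zero.2 h9)]
  calc q ^ x = (β' ^ x) ^ (1 + lam) := h5
    _ ≤ (C0 * max (k : ℝ) 1) ^ (1 + lam) :=
      Real.rpow_le_rpow (by positivity) (h4.trans h7) h1.le
    _ = C0 ^ (1 + lam) * growth lam k := by
      rw [Real.mul_rpow hC00.le (by positivity), h8]
    _ ≤ _ := by
      have := growth_one_le h1 k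
      gcongr
      exact le_max_right _ _

variable {F : Type*} [Field F]

lemma toL_coeff (s : ℕ → F) (n : ℕ) : (toL s).coeff ((n : ℤ) + 1) = s n := by
  change (if 1 ≤ ((n : ℤ) + 1) then s ((n : ℤ) + 1 - 1).toNat else 0) = s n
  rw [if_pos (by omega)]
  congr 1
  omega

lemma coeff_ι_toL (N : F[X]) (s : ℕ → F) (r : ℕ) : (ι N * toL s).coeff ((r : ℤ) + 1) =
    ∑ j ∈ range (N.natDegree + 1), N.coeff j * s (r + j) := by
  have h1 : ∀ t, N.natDegree + 1 ≤ t → N.coeff t = 0 :=
    fun t ht => coeff_eq_zero_of_natDegree_lt (by omega)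
  conv_lhs => rw [← mkP_of h1]
  rw [coeff_ι_mkP, ← Fin.sum_univ_eq_sum_range (fun j => N.coeff j * s (r + j))]
  apply sum_congr rfl
  intro j _
  rw [← toL_coeff s (r + j)]
  congr 2
  push_cast; ring

lemma ann_of (N : F[X]) (hN : N ≠ 0) (s : ℕ → F) (h : ℕ)
    (hc : ∀ r < h, (ι N * toL s).coeff ((r : ℤ) + 1) = 0) :
    Ann s N.natTrailingDegree (N.natTrailingDegree + h + (N.natDegree - N.natTrailingDegree))
      (N.natDegree - N.natTrailingDegree) := by
  have hle := N.natTrailingDegree_le_natDegree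
  set v := N.natTrailingDegree with hv
  obtain ⟨m, hm⟩ : ∃ m, N.natDegree = v + m := ⟨N.natDegree - v, by omega⟩
  have hm' : N.natDegree - v = m := by omega
  rw [hm']
  refine ⟨fun j => N.coeff (v + j), ?_, ?_⟩
  · show N.coeff (v + m) ≠ 0
    rw [← hm]
    exact leadingCoeff_ne_zero.2 hN
  · intro i hi hi2
    obtain ⟨r, rfl⟩ : ∃ r, i = v + r := ⟨i - v, by omega⟩
    have h1 := hc r (by omega)
    rw [coeff_ι_toL, hm, show v + m + 1 = v + (m + 1) by ring, sum_range_add] at h1
    have h2 : ∑ x ∈ range v, N.coeff x * s (r + x) = 0 := by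
      apply sum_eq_zero
      intro x hx
      rw [mem_range] at hx
      rw [coeff_eq_zero_of_lt_natTrailingDegree hx, zero_mul]
    rw [h2, zero_add] at h1
    rw [← h1]
    apply sum_congr rfl
    intro j _
    rw [show v + r + j = r + (v + j) by ring]

variable [Fintype F]

lemma mem_M {lam β B : ℝ} (s : ℕ → F) (h1 : 0 < 1 + lam) (hq2 : 2 ≤ Fintype.card F)
    (hβ : (Fintype.card F : ℝ) ^ (1 / (1 + lam)) < β) (hβ1 : 1 ≤ β)
    (hΦ : ∀ K : ℕ, Φ β s K ≤ B * (K + 1)) : (s : 𝕀 F) ∈ M F lam := by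
  have hq : (1 : ℝ) < Fintype.card F := by exact_mod_cast (by omega : 1 < Fintype.card F)
  have hq0 : (0 : ℝ) < Fintype.card F := by linarith
  have hB : 0 < B := by
    have h2 := hΦ 0
    have h3 : Φ β s 0 = 1 := by unfold Φ w; simp
    rw [h3] at h2
    simp at h2
    linarith
  obtain ⟨C, hC1, hC⟩ := growth_bound hq.le h1 hβ hB
  have key : ∀ N : F[X], N ≠ 0 → ∀ h : ℕ, (∀ r < h, (ι N * toL s).coeff ((r : ℤ) + 1) = 0) →
      (Fintype.card F : ℝ) ^ h ≤ C * growth lam N.natDegree *
        (Fintype.card F : ℝ) ^ (N.natDegree - N.natTrailingDegree) := by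
    intro N hN h hc
    have hann := ann_of N hN s h hc
    have hle := N.natTrailingDegree_le_natDegree
    set v := N.natTrailingDegree with hv
    obtain ⟨m, hm⟩ : ∃ m, N.natDegree = v + m := ⟨N.natDegree - v, by omega⟩
    have hm' : N.natDegree - v = m := by omega
    rw [hm'] at hann ⊢
    have hg := growth_one_le h1 N.natDegree
    rcases Nat.lt_or_ge h m with hh | hh
    · have h2 : (Fintype.card F : ℝ) ^ h ≤ (Fintype.card F : ℝ) ^ m :=
        pow_le_pow_right₀ hq.le hh.le
      have h3 : 1 ≤ C * growth lam N.natDegree := by nlinarith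
      have h4 : (0 : ℝ) < (Fintype.card F : ℝ) ^ m := by positivity
      nlinarith
    · obtain ⟨x, rfl⟩ : ∃ x, h = m + x := ⟨h - m, by omega⟩
      have hL := L_le hann
      have h2 : β ^ x ≤ w β s v (v + (m + x) + m) := by
        unfold w
        apply pow_le_pow_right₀ hβ1
        omega
      have h3 : w β s v (v + (m + x) + m) ≤ Φ β s (v + (m + x) + m) := by
        unfold Φ
        apply single_le_sum (f := fun v' => w β s v' (v + (m + x) + m))
          (fun v' _ => zero_le_one.trans (w_pos hβ1 s v' _))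
        rw [mem_range]; omega
      have h4 : β ^ x ≤ B * (2 * (N.natDegree : ℝ) + 1) * (x + 1) := by
        refine h2.trans (h3.trans ((hΦ _).trans ?_))
        rw [hm, mul_assoc]
        apply mul_le_mul_of_nonneg_left _ hB.le
        push_cast
        have h5 : (0 : ℝ) ≤ v := Nat.cast_nonneg _
        have h6 : (0 : ℝ) ≤ m := Nat.cast_nonneg _
        have h7 : (0 : ℝ) ≤ x := Nat.cast_nonneg _
        nlinarith [mul_nonneg h5 h7, mul_nonneg h6 h7]
      have h5 := hC N.natDegree x h4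
      rw [pow_add, mul_comm ((Fintype.card F : ℝ) ^ m)]
      gcongr
  refine ⟨1 / (Fintype.card F * C), by positivity, ?_⟩
  intro N hN
  have hle := N.natTrailingDegree_le_natDegree
  have hg := growth_one_le h1 N.natDegree
  set φ := frac (ι N * toL s) with hφ
  have hcoef : ∀ i : ℤ, 1 ≤ i → φ.coeff i = (ι N * toL s).coeff i := by
    intro i hi
    have : φ.coeff i = if 1 ≤ i then (ι N * toL s).coeff i else 0 := rfl
    rw [this, if_pos hi]
  by_cases hφ0 : φ = 0
  · exfalso
    obtain ⟨h, hh⟩ := pow_unbounded_of_one_lt (C * growth lam N.natDegree *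
        (Fintype.card F : ℝ) ^ (N.natDegree - N.natTrailingDegree)) hq
    have h2 := key N hN h (by
      intro r _
      rw [← hcoef _ (by omega), hφ0, HahnSeries.coeff_zero])
    linarith
  · have h5 := mt HahnSeries.coeff_order_eq_zero.1 hφ0
    have h7 : 1 ≤ φ.order := by
      by_contra h8
      have : φ.coeff φ.order = if 1 ≤ φ.order then (ι N * toL s).coeff φ.order else 0 := rfl
      rw [this, if_neg h8] at h5
      exact h5 rfl
    obtain ⟨h, hh⟩ : ∃ h : ℕ, φ.order = (h : ℤ) + 1 := ⟨(φ.order - 1).toNat, by omega⟩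
    have h2 := key N hN h (by
      intro r hr
      rw [← hcoef _ (by omega)]
      apply HahnSeries.coeff_eq_zero_of_lt_order
      rw [hh]; omega)
    have h3 : absL φ = ((Fintype.card F : ℝ) ^ (h + 1))⁻¹ := by
      unfold absL
      rw [if_neg hφ0, hh, zpow_neg]
      congr 1
    rw [h3]
    have h4 : (Fintype.card F : ℝ) ^ N.natDegree * ((Fintype.card F : ℝ) ^ N.natTrailingDegree)⁻¹ =
        (Fintype.card F : ℝ) ^ (N.natDegree - N.natTrailingDegree) := by
      rw [pow_sub₀ _ hq0.ne' hle]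
    rw [mul_assoc (growth lam N.natDegree), h4, ← div_eq_mul_inv, div_le_div_iff₀ (by positivity)
      (by positivity), one_mul, pow_succ]
    calc (Fintype.card F : ℝ) ^ h * Fintype.card F ≤ (C * growth lam N.natDegree *
        (Fintype.card F : ℝ) ^ (N.natDegree - N.natTrailingDegree)) * Fintype.card F := by gcongr
      _ = _ := by ring

/-- the set of limit sequences -/
def treeSet (pick : (ℕ → F) → ℕ → Bool → F) : Set (𝕀 F) :=
  {x : 𝕀 F | ∃ ε : ℕ → Bool, lim pick ε = x}

/-- dimension of the tree -/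
lemma dim_tree (hq2 : 2 ≤ Fintype.card F) (pick : (ℕ → F) → ℕ → Bool → F)
    (hpick : ∀ s K, pick s K true ≠ pick s K false) :
    ENNReal.ofReal (Real.log 2 / Real.log (Fintype.card F)) ≤
      dimH (treeSet pick) := by
  classical
  have hq : (1 : ℝ) < Fintype.card F := by exact_mod_cast (by omega : 1 < Fintype.card F)
  have hq0 : (0 : ℝ) < Fintype.card F := by linarith
  have hlogq : 0 < Real.log (Fintype.card F) := Real.log_pos hq
  have hlog2 : 0 < Real.log 2 := Real.log_pos (by norm_num)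
  set r : NNReal := Real.toNNReal (Real.log 2 / Real.log (Fintype.card F)) with hr
  have hrc : (r : ℝ) = Real.log 2 / Real.log (Fintype.card F) :=
    Real.coe_toNNReal _ (by positivity)
  have hr0 : 0 < r := by
    have : (0 : ℝ) < r := by rw [hrc]; positivity
    exact_mod_cast this
  have hqr : (Fintype.card F : ℝ) ^ (r : ℝ) = 2 := by
    rw [hrc, Real.rpow_def_of_pos hq0]
    rw [mul_div_cancel₀ _ hlogq.ne', Real.exp_log (by norm_num)]
  set g : 𝕀 F → ℝ := fun x => Real.ofDigits (fun K => if x K =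
    pick (fun k => if k < K then x k else 0) K true then (1 : Fin 2) else 0) with hg
  have hhold : HolderWith 2 r g := by
    intro x y
    by_cases hxy : x = y
    · rw [hxy]; simp
    have h1 : |g x - g y| ≤ ((2 : ℕ) ^ (PiNat.firstDiff x y) : ℝ)⁻¹ := by
      apply Real.abs_ofDigits_sub_ofDigits_le
      intro i hi
      have h2 : x i = y i := PiNat.apply_eq_of_lt_firstDiff hi
      have h3 : (fun k => if k < i then x k else 0) = fun k => if k < i then y k else 0 := by
        funext k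
        split_ifs with hk
        · exact PiNat.apply_eq_of_lt_firstDiff (hk.trans hi)
        · rfl
      rw [h2, h3]
    have h2 : dist x y = ((Fintype.card F : ℝ)⁻¹) ^ (PiNat.firstDiff x y + 1) := by
      change (if x = y then (0 : ℝ) else _) = _
      rw [if_neg hxy]
    have h3 : (dist x y) ^ (r : ℝ) = ((2 : ℝ) ^ (PiNat.firstDiff x y + 1))⁻¹ := by
      rw [h2, ← Real.rpow_natCast, ← Real.rpow_mul (by positivity), mul_comm,
        Real.rpow_mul (by positivity), Real.inv_rpow hq0.le, hqr, Real.rpow_natCast, inv_pow]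
    rw [edist_dist, edist_dist, Real.dist_eq,
      ENNReal.ofReal_rpow_of_nonneg dist_nonneg (NNReal.coe_nonneg r)]
    have h4 : ((2 : NNReal) : ENNReal) = ENNReal.ofReal 2 := by
      rw [ENNReal.ofReal_ofNat]; rfl
    rw [h4, ← ENNReal.ofReal_mul (by norm_num)]
    apply ENNReal.ofReal_le_ofReal
    rw [h3]
    refine h1.trans (le_of_eq ?_)
    push_cast
    rw [pow_succ]
    field_simp
  have himg : Set.Icc (0 : ℝ) 1 ⊆ g '' treeSet pick := by
    intro y hy
    obtain ⟨d, -, hd⟩ := Real.ofDigits_SurjOn (b := 2) (by norm_num) hy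
    refine ⟨lim pick (fun K => decide (d K = 1)), ⟨_, rfl⟩, ?_⟩
    rw [← hd, hg]
    dsimp only
    congr 1
    funext K
    rw [lim_eq]
    by_cases h1 : d K = 1
    · rw [h1]
      simp only [decide_true, if_true]
    · have h2 : d K = 0 := by
        have := (d K).2
        have h3 : (d K : ℕ) ≠ 1 := fun h => h1 (Fin.ext h)
        apply Fin.ext
        show (d K : ℕ) = 0
        omega
      rw [h2]
      simp only [Fin.isValue, Fin.zero_eq_one_iff, OfNat.ofNat_ne_one, decide_false]
      rw [if_neg (hpick _ _).symm]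
  have h5 := hhold.dimH_image_le hr0 (treeSet pick)
  have h6 : dimH (Set.Icc (0 : ℝ) 1) = 1 := by
    rw [Real.dimH_of_nonempty_interior]
    · simp
    · rw [interior_Icc]; exact ⟨1 / 2, by norm_num, by norm_num⟩
  have h7 : (1 : ENNReal) ≤ dimH (treeSet pick) / r := by
    rw [← h6]
    exact (dimH_mono himg).trans h5
  rw [ENNReal.le_div_iff_mul_le (Or.inl (by exact_mod_cast hr0.ne')) (Or.inl ENNReal.coe_ne_top),
    one_mul] at h7
  exact h7

end Pool.Agent.V11269.TLC
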